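import Pool.Agent.Lib.MP_95d09c_al.MinRes

/-!
Finite length of the Ext groups of the residue module forces the Gorenstein condition on both
sides.
-/

set_option autoImplicit false
set_option linter.unusedSectionVars false

namespace Pool.Agent.Lib.MP_95d09c_al

open CategoryTheory Abelian Matrix

attribute [local instance] ModuleCat.Algebra.instLinear

section Dev

variable {C : Type} [CommRing C] {A : Type} [Ring A] [Algebra C A] [IsLocalRing A]
  {N : Type} [AddCommGroup N] [Module A N]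

/-- The map from the residue module given by an element killed by the maximal ideal. -/
theorem exists_kk_map {T : Type} [AddCommGroup T] [Module A T] {x : T} (hx : x ≠ 0)
    (h : ∀ μ : A, ¬ IsUnit μ → μ • x = 0) :
    ∃ j : kk A →ₗ[A] T, Function.Injective j ∧ j ((Ring.jacobson A).mkQ 1) = x := by
  refine ⟨(Ring.jacobson A).liftQ (LinearMap.toSpanSingleton A T x)
    fun μ hμ => h μ (mem_jac.1 hμ), ?_, one_smul A x⟩
  rw [injective_iff_map_eq_zero]
  intro y hy
  obtain ⟨a, rfl⟩ := (Ring.jacobson A).mkQ_surjective y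
  refine kk_eq_zero.2 fun hu => hx ?_
  obtain ⟨b, hb⟩ := hu.exists_left_inv
  have h1 : a • x = 0 := hy
  rw [← one_smul A x, ← hb, mul_smul, h1, smul_zero]

theorem exists_soc {T : Type} [AddCommGroup T] [Module A T] [IsArtinian A T] [Nontrivial T] :
    ∃ x : T, x ≠ 0 ∧ ∀ μ : A, ¬ IsUnit μ → μ • x = 0 := by
  obtain ⟨U, hU, hmin⟩ := IsArtinian.set_has_minimal {U : Submodule A T | U ≠ ⊥} ⟨⊤, top_ne_bot⟩
  obtain ⟨x, hx, hx0⟩ := Submodule.exists_mem_ne_zero_of_ne_bot hU
  refine ⟨x, hx0, fun μ hμ => ?_⟩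
  by_contra h
  have h1 : Submodule.span A {μ • x} = U := by
    by_contra h2
    exact hmin _ (by simpa using h)
      (lt_of_le_of_ne ((Submodule.span_singleton_le_iff_mem _ _).2 (U.smul_mem μ hx)) h2)
  obtain ⟨r, hr⟩ := Submodule.mem_span_singleton.1 (h1 ▸ hx)
  obtain ⟨b, hb⟩ := ((isUnit_or_one_sub (r * μ)).resolve_left (nu_mul_left r hμ)).exists_left_inv
  apply hx0
  rw [← one_smul A x, ← hb, mul_smul, sub_smul, one_smul, mul_smul, hr, sub_self, smul_zero]

theorem simple_equiv (S : Type) [AddCommGroup S] [Module A S] [IsSimpleModule A S] :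
    Nonempty (kk A ≃ₗ[A] S) := by
  have := IsSimpleModule.nontrivial A S
  obtain ⟨x, hx, h⟩ := exists_soc (A := A) (T := S)
  obtain ⟨j, hj, hj'⟩ := exists_kk_map hx h
  refine ⟨LinearEquiv.ofBijective j ⟨hj, ?_⟩⟩
  rw [← LinearMap.range_eq_top]
  refine (eq_bot_or_eq_top _).resolve_left fun h0 => hx ?_
  have : x ∈ LinearMap.range j := ⟨_, hj'⟩
  rwa [h0] at this

theorem ex_equiv {L M : Type} [AddCommGroup L] [Module A L] [AddCommGroup M] [Module A M] {q : ℕ}
    (e : L ≃ₗ[A] M) (h : ∀ x : EX A L N q, x = 0) (x : EX A M N q) : x = 0 := by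
  rw [← pre_id x, ← e.comp_symm, ← pre_pre, h (pre _ x), pre_zero]

theorem dev_van {i : ℕ} (h : ∀ x : EX A (kk A) N i, x = 0) {T : Type} [AddCommGroup T]
    [Module A T] (hT : IsFiniteLength A T) : ∀ x : EX A T N i, x = 0 := by
  induction hT with
  | of_subsingleton => exact ex_triv
  | @of_simple_quotient M _ _ U _ _ ih =>
    intro x
    obtain ⟨e⟩ := simple_equiv (A := A) (M ⧸ U)
    obtain ⟨y, rfl⟩ := (SES.quot U).l2 x (ih _)
    rw [ex_equiv e h y, pre_zero]

theorem dev_fl {i : ℕ} (h : IsFiniteLength C (EX A (kk A) N i)) {T : Type} [AddCommGroup T]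
    [Module A T] (hT : IsFiniteLength A T) : IsFiniteLength C (EX A T N i) := by
  induction hT with
  | @of_subsingleton M _ _ _ =>
    have : Subsingleton (EX A M N i) := subsingleton_of_forall_eq 0 ex_triv
    exact .of_subsingleton
  | @of_simple_quotient M _ _ U _ _ ih =>
    obtain ⟨e⟩ := simple_equiv (A := A) (M ⧸ U)
    exact fl_ext_of_ses (SES.quot U) ih (fl_ext_of_equiv e h)

theorem dev_low {d : ℕ} (h : ∀ i < d, ∀ x : EX A (kk A) N i, x = 0) {T : Type} [AddCommGroup T]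
    [Module A T] [Nontrivial T] (hT : IsFiniteLength A T) (h1 : ∀ x : EX A T N d, x = 0) :
    ∀ x : EX A (kk A) N d, x = 0 := by
  cases hT with
  | of_subsingleton => exact absurd ‹Nontrivial T› (not_nontrivial T)
  | @of_simple_quotient _ _ _ U _ hU =>
    obtain ⟨e⟩ := simple_equiv (A := A) (T ⧸ U)
    refine ex_equiv e.symm fun x => ?_
    rcases d with _ | d
    · obtain ⟨f, rfl⟩ := m0_surj x
      have h2 := h1 (pre U.mkQ (m0 f))
      rw [pre_m0, ← m0_zero] at h2
      rw [← m0_zero]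
      congr 1
      exact Submodule.linearMap_qext _ (m0_inj h2)
    · obtain ⟨y, rfl⟩ := (SES.quot U).l3 x (h1 _)
      rw [dev_van (h d (by omega)) hU y, Ext.comp_zero]

theorem exists_kk_inj {T : Type} [AddCommGroup T] [Module A T] [Nontrivial T]
    (hT : IsFiniteLength A T) : ∃ j : kk A →ₗ[A] T, Function.Injective j := by
  have := (isFiniteLength_iff_isNoetherian_isArtinian.1 hT).2
  obtain ⟨x, hx, h⟩ := exists_soc (A := A) (T := T)
  obtain ⟨j, hj, -⟩ := exists_kk_map hx h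
  exact ⟨j, hj⟩

theorem SES.range {L M : Type} [AddCommGroup L] [Module A L] [AddCommGroup M] [Module A M]
    {j : L →ₗ[A] M} (hj : Function.Injective j) : SES j (LinearMap.range j).mkQ :=
  ⟨hj, Submodule.mkQ_surjective _, LinearMap.exact_map_mkQ_range j⟩

end Dev

variable (C : Type) [CommRing C] (A : Type) [Ring A] [Algebra C A]

/-- The Gorenstein condition. -/
structure ASD extends MR C A where
  n : ℕ
  top : g (n + 2) = 0
  pos : 0 < g (n + 1)
  van : ∀ i < n, ∀ x : EX A (kk A) A i, x = 0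
  fl : ∀ i, IsFiniteLength C (EX A (kk A) A i)

variable {C A} [IsLocalRing A] {A' : Type} [Ring A'] [Algebra C A'] [IsLocalRing A']
  [IsNoetherianRing A'] (σ : Anti C A A') (X : MR C A)

/-- The dual of the minimal resolution. -/
def MR.rw (p : ℕ) : (Fin (X.g p) → A') →ₗ[A'] (Fin (X.g (p + 1)) → A') :=
  vecMulLinear (σ.tr (X.Φ p))

/-- Cokernels of the dual complex. -/
abbrev MR.Cq (p : ℕ) : Type := (Fin (X.g (p + 1)) → A') ⧸ LinearMap.range (X.rw σ p)

theorem MR.rw_sv (p : ℕ) (z : Fin (X.g p) → A) :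
    X.rw σ p (σ.sv _ z) = σ.sv _ (act (X.Φ p) z) := (σ.sv_act (X.Φ p) z).symm

theorem MR.rw_rw (p : ℕ) (r : Fin (X.g p) → A') : X.rw σ (p + 1) (X.rw σ p r) = 0 := by
  obtain ⟨z, rfl⟩ := (σ.sv _).surjective r
  rw [X.rw_sv, X.rw_sv, act_act (X.zz p), map_zero]

/-- The map from a cokernel onto the next image. -/
def MR.ψ (p : ℕ) : X.Cq σ p →ₗ[A'] LinearMap.range (X.rw σ (p + 1)) :=
  (LinearMap.range (X.rw σ p)).liftQ (X.rw σ (p + 1)).rangeRestrict (by
    rintro _ ⟨r, rfl⟩
    exact Subtype.ext (X.rw_rw σ p r))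

theorem MR.ψ_surj (p : ℕ) : Function.Surjective (X.ψ σ p) := by
  rintro ⟨_, r, rfl⟩
  exact ⟨Submodule.Quotient.mk r, rfl⟩

/-- Cycles map onto the cohomology of the dual complex. -/
def MR.toL (p : ℕ) : cyc C A (X.Φ (p + 1)) →ₗ[C] LinearMap.ker (X.ψ σ p) where
  toFun z := ⟨(LinearMap.range (X.rw σ p)).mkQ (σ.sv _ z.1), Subtype.ext (by
    change X.rw σ (p + 1) (σ.sv _ z.1) = 0
    rw [X.rw_sv, mem_cyc.1 z.2, map_zero])⟩
  map_add' z w := Subtype.ext (by simp)
  map_smul' c z := Subtype.ext (by simp)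

theorem MR.toL_surj (p : ℕ) : Function.Surjective (X.toL σ p) := by
  rintro ⟨y, hy⟩
  obtain ⟨r, rfl⟩ := Submodule.mkQ_surjective _ y
  obtain ⟨z, rfl⟩ := (σ.sv _).surjective r
  have h1 : X.rw σ (p + 1) (σ.sv _ z) = 0 := congrArg Subtype.val hy
  rw [X.rw_sv, map_eq_zero_iff _ (σ.sv _).injective] at h1
  exact ⟨⟨z, h1⟩, rfl⟩

theorem MR.toL_eq_zero (p : ℕ) (z : cyc C A (X.Φ (p + 1))) :
    X.toL σ p z = 0 ↔ z.1 ∈ bd C A (X.Φ p) := by
  refine Subtype.ext_iff.trans (mkQ_eq_zero.trans ⟨?_, ?_⟩)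
  · rintro ⟨r, hr⟩
    obtain ⟨w, rfl⟩ := (σ.sv _).surjective r
    rw [X.rw_sv] at hr
    exact ⟨w, (σ.sv _).injective hr⟩
  · rintro ⟨w, hw⟩
    exact ⟨σ.sv _ w, (X.rw_sv σ p w).trans (congrArg _ hw)⟩

theorem MR.flL {p : ℕ} (h : IsFiniteLength C (EX A (kk A) A p)) :
    IsFiniteLength A' (LinearMap.ker (X.ψ σ p)) :=
  fl_tower (C := C) ((X.sm (τ := False) h False.elim).fl_of (X.toL σ p) (X.toL_surj σ p)
    fun z hz => (X.toL_eq_zero σ p z).2 hz)

theorem MR.step {t p : ℕ} (h1 : ∀ x : EX A' (X.Cq σ p) A' (t + 1), x = 0)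
    (h2 : ∀ x : EX A' (LinearMap.ker (X.ψ σ p)) A' t, x = 0)
    (x : EX A' (X.Cq σ (p + 1)) A' (t + 2)) : x = 0 := by
  obtain ⟨y, rfl⟩ := (SES.quot _).l3 x (ex_proj _)
  obtain ⟨w, rfl⟩ := (SES.ker (X.ψ_surj σ p)).l3 y (h1 _)
  rw [h2 w, Ext.comp_zero, Ext.comp_zero]

theorem MR.one (hk : IsFiniteLength C (kk A)) (p : ℕ) :
    IsFiniteLength C (EX A' (X.Cq σ (p + 1)) A' 1) ∧
      (0 < p → ∀ x : EX A' (X.Cq σ (p + 1)) A' 1, x = 0) := by
  let B := LinearMap.range (X.rw σ (p + 1))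
  let col : (B →ₗ[A'] A') →ₗ[C] (Fin (X.g (p + 1)) → A') :=
    { toFun := fun f j => f ((X.rw σ (p + 1)).rangeRestrict (Pi.single j 1))
      map_add' := fun _ _ => rfl
      map_smul' := fun _ _ => rfl }
  have hcol : ∀ f r, colF (col f) r = f ((X.rw σ (p + 1)).rangeRestrict r) := fun f r =>
    (LinearMap.congr_fun (eq_colF (f ∘ₗ (X.rw σ (p + 1)).rangeRestrict)) r).symm
  have h1 : Sm (0 < p) ⊤ ((bd C A' (σ.tr (X.Φ (p + 1)))).comap col) := by
    refine ((X.rowSm σ hk p).comap col).mono' (fun f _ => funext fun i => ?_) le_rfl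
    have h2 := colF_act (σ.tr (X.Φ p)) (col f) (Pi.single i 1)
    rw [colF_single, hcol] at h2
    refine h2.trans ?_
    rw [show (X.rw σ (p + 1)).rangeRestrict (Pi.single i 1 ᵥ* σ.tr (X.Φ p)) = 0 from
      Subtype.ext (X.rw_rw σ p _), map_zero]
    rfl
  have h2 : Function.Surjective (postL C (SES.quot B).cls) := fun x => by
    obtain ⟨y, rfl⟩ := (SES.quot B).l3 x (ex_proj _)
    obtain ⟨f, rfl⟩ := m0_surj y
    exact ⟨f, rfl⟩
  have h3 : ∀ f, col f ∈ bd C A' (σ.tr (X.Φ (p + 1))) → postL C (SES.quot B).cls f = 0 := by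
    rintro f ⟨w, hw⟩
    have h4 : f = colF w ∘ₗ B.subtype := by
      ext ⟨_, r, rfl⟩
      have hw' : act (σ.tr (X.Φ (p + 1))) w = col f := hw
      exact (hcol f r).symm.trans (hw' ▸ colF_act _ w r)
    change post _ f = 0
    rw [h4, ← post_post, (SES.quot B).post_cls, zero_post]
  refine ⟨h1.fl_of (postL C (SES.quot B).cls ∘ₗ Submodule.subtype ⊤) (fun x => ?_)
    fun f hf => h3 f hf, fun hp x => ?_⟩
  · obtain ⟨f, rfl⟩ := h2 x
    exact ⟨⟨f, trivial⟩, rfl⟩
  · obtain ⟨f, rfl⟩ := h2 x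
    exact h3 f (h1.le hp trivial)

theorem MR.zero (hk : IsFiniteLength C (kk A)) {n : ℕ} (hn : 0 < n) (h : X.g (n + 2) = 0)
    (x : EX A' (X.Cq σ n) A' 0) : x = 0 := by
  obtain ⟨f, rfl⟩ := m0_surj x
  have : IsEmpty (Fin (X.g (n + 1 + 1))) := by rw [h]; infer_instance
  obtain ⟨w, hw⟩ := (X.rowSm σ hk n).le hn
    (x := fun j => (f ∘ₗ Submodule.mkQ _) (Pi.single j 1)) (funext fun i => by
      have h2 := colF_act (σ.tr (X.Φ n)) (fun j => (f ∘ₗ Submodule.mkQ _) (Pi.single j 1))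
        (Pi.single i 1)
      rw [colF_single, ← eq_colF] at h2
      refine h2.trans ?_
      have h3 : Pi.single i 1 ᵥ* σ.tr (X.Φ n) ∈ LinearMap.range (X.rw σ n) := ⟨Pi.single i 1, rfl⟩
      rw [LinearMap.comp_apply, mkQ_eq_zero.2 h3, map_zero]
      rfl)
  rw [Subsingleton.elim w 0, map_zero] at hw
  rw [← m0_zero]
  congr 1
  refine Submodule.linearMap_qext _ ?_
  rw [eq_colF (f ∘ₗ Submodule.mkQ _), ← hw]
  ext
  simp [colF]

variable (hk : IsFiniteLength C (kk A)) (fl : ∀ i, IsFiniteLength C (EX A (kk A) A i))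
  {n : ℕ} (hn : 0 < n) (top : X.g (n + 2) = 0) (pos : 0 < X.g (n + 1))

include fl top in
theorem MR.flC : IsFiniteLength A' (X.Cq σ n) := by
  have : IsEmpty (Fin (X.g (n + 1 + 1))) := by rw [top]; infer_instance
  exact fl_of_ex (LinearMap.ker (X.ψ σ n)).subtype (X.ψ σ n) (fun y hy => ⟨⟨y, hy⟩, rfl⟩)
    (X.flL σ (fl n)) .of_subsingleton

include pos in
theorem MR.ntC : Nontrivial (X.Cq σ n) := by
  refine nontrivial_of_ne (Submodule.mkQ _ (σ.sv _ fun _ => 1)) 0 fun h => ?_
  obtain ⟨r, hr⟩ := mkQ_eq_zero.1 h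
  obtain ⟨w, rfl⟩ := (σ.sv _).surjective r
  rw [X.rw_sv] at hr
  exact bd_nu (C := C) (X.min n) ⟨w, (σ.sv _).injective hr⟩ ⟨0, pos⟩ isUnit_one

include σ hk fl hn top pos in
theorem MR.depth (d : ℕ) : d ≤ n → ∀ i < d, ∀ x : EX A' (kk A') A' i, x = 0 := by
  induction d with
  | zero => exact fun _ i hi => absurd hi (Nat.not_lt_zero i)
  | succ d ih =>
    intro hd i hi
    replace ih := ih (by omega)
    rcases Nat.lt_succ_iff_lt_or_eq.1 hi with h | rfl
    · exact ih i h
    have := X.ntC σ pos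
    refine dev_low ih (X.flC σ fl top) ?_
    rcases i with _ | i
    · exact X.zero σ hk hn top
    have key : ∀ t p, t ≤ i → t + 2 ≤ p → ∀ x : EX A' (X.Cq σ p) A' (t + 1), x = 0 := by
      intro t
      induction t with
      | zero =>
        rintro (_ | p) _ hp
        · omega
        · exact (X.one σ hk p).2 (by omega)
      | succ t iht =>
        rintro (_ | p) ht hp
        · omega
        · exact X.step σ (iht p (by omega) (by omega)) (dev_van (ih t (by omega)) (X.flL σ (fl p)))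
    exact key i n le_rfl (by omega)

theorem MR.pdC (q : ℕ) : (∀ r < q, Subsingleton (LinearMap.ker (X.ψ σ r))) →
    PD A' (q + 1) (X.Cq σ q) := by
  induction q with
  | zero =>
    intro _
    have := X.triv A'
    have : Subsingleton (LinearMap.range (X.rw σ 0)) :=
      (X.rw σ 0).surjective_rangeRestrict.subsingleton
    exact pd_quot (SES.quot _).inj (SES.quot _).surj (SES.quot _).ex pd_zero
  | succ q ih =>
    intro h
    have := h q (by omega)
    have h1 : Function.Injective (X.ψ σ q) := by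
      rw [injective_iff_map_eq_zero]
      exact fun y hy => congrArg Subtype.val
        (Subsingleton.elim (⟨y, hy⟩ : LinearMap.ker (X.ψ σ q)) 0)
    refine pd_quot (ι := Submodule.subtype _ ∘ₗ X.ψ σ q) (p := Submodule.mkQ _)
      ((Submodule.injective_subtype _).comp h1) (Submodule.mkQ_surjective _) ?_
      (ih fun r hr => h r (by omega))
    rw [LinearMap.exact_iff, LinearMap.range_comp, LinearMap.range_eq_top.2 (X.ψ_surj σ q),
      Submodule.map_top, Submodule.range_subtype, Submodule.ker_mkQ]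

include σ hk top in
theorem MR.lift {T : Type} [AddCommGroup T] [Module A' T] [Module C T] [IsScalarTower C A' T]
    [Module.Finite A' T] {j : kk A' →ₗ[A'] T} (hj : Function.Injective j)
    (x : EX A' (kk A') A' n) : ∃ y, pre j y = x :=
  (SES.range hj).l1 x (ex_pd (X.gl σ hk top _) le_rfl _)

include σ hk fl in
theorem exists_asd [IsNoetherianRing A] {N : ℕ} (hN : PD A (N + 1) (kk A)) {μ : A} (hμ : μ ≠ 0)
    (hμ' : ¬ IsUnit μ) : Nonempty (ASD C A) ∧ Nonempty (ASD C A') := by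
  obtain ⟨X⟩ := nonempty_mr C A
  obtain ⟨X'⟩ := nonempty_mr C A'
  obtain ⟨n, top, pos⟩ := X.exists_top hN
  have hn : 0 < n := by
    refine Nat.pos_of_ne_zero ?_
    rintro rfl
    have : IsEmpty (Fin (X.g (1 + 1))) := by rw [top]; infer_instance
    obtain ⟨s, hs⟩ := X.row_nu (r := fun _ => μ) fun _ => hμ'
    rw [Subsingleton.elim s 0, zero_vecMul] at hs
    exact hμ (congrFun hs ⟨0, pos⟩).symm
  have hpd := X.gl σ hk top (kk A')
  obtain ⟨n', top', pos'⟩ := X'.exists_top hpd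
  have hd := X.depth σ hk fl hn top pos n le_rfl
  obtain ⟨x, hx⟩ := X'.top_ne top' pos'
  obtain rfl : n = n' := by
    rcases lt_trichotomy n n' with h | h | h
    · exact absurd (ex_pd hpd h x) hx
    · exact h
    · exact absurd (hd n' h x) hx
  have hL : ∀ q < n, Subsingleton (LinearMap.ker (X.ψ σ q)) := by
    intro q
    induction q using Nat.strong_induction_on with
    | _ q ih =>
      intro hq
      by_contra h
      rw [not_subsingleton_iff_nontrivial] at h
      obtain ⟨j, hj⟩ := exists_kk_inj (X.flL σ (fl q))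
      obtain ⟨y, rfl⟩ := X.lift σ hk top (j := Submodule.subtype _ ∘ₗ j)
        ((Submodule.injective_subtype _).comp hj) x
      exact hx (by rw [ex_pd (X.pdC σ q fun r hr => ih r hr (by omega)) hq y, pre_zero])
  refine ⟨⟨⟨X, n, top, pos, fun i hi y => ?_, fl⟩⟩, ⟨⟨X', n, top', pos', hd, fun i => ?_⟩⟩⟩
  · obtain ⟨κ, h1, h2⟩ := X.κ i
    obtain ⟨z, rfl⟩ := h1 y
    have := hL i hi
    exact (h2 z).2 ((X.toL_eq_zero σ i z).1 (Subsingleton.elim _ _))
  · rcases lt_trichotomy i n with h | rfl | h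
    · have : Subsingleton (EX A' (kk A') A' i) := subsingleton_of_forall_eq 0 (hd i h)
      exact .of_subsingleton
    · have key : ∀ t, t + 1 ≤ i → IsFiniteLength C (EX A' (X.Cq σ (t + 1)) A' (t + 1)) := by
        intro t
        induction t with
        | zero => exact fun _ => (X.one σ hk 0).1
        | succ t ih =>
          intro ht
          have := hL (t + 1) (by omega)
          have h1 : Function.Injective (X.ψ σ (t + 1)) := by
            rw [injective_iff_map_eq_zero]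
            exact fun y hy => congrArg Subtype.val
              (Subsingleton.elim (⟨y, hy⟩ : LinearMap.ker (X.ψ σ (t + 1))) 0)
          refine (fl_ext_of_equiv (LinearEquiv.ofBijective _ ⟨h1, X.ψ_surj σ _⟩)
            (ih (by omega))).of_surjective
            (f := (SES.quot _).cls.precompOfLinear C _ (add_comm 1 (t + 1))) fun y => ?_
          exact (SES.quot _).l3 y (ex_proj _)
      obtain ⟨t, rfl⟩ : ∃ t, i = t + 1 := ⟨i - 1, by omega⟩
      have := X.ntC σ pos
      obtain ⟨j, hj⟩ := exists_kk_inj (X.flC σ fl top)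
      exact (key t le_rfl).of_surjective (f := preL C j A' (t + 1)) (X.lift σ hk top hj)
    · have : Subsingleton (EX A' (kk A') A' i) := subsingleton_of_forall_eq 0 (ex_pd hpd h)
      exact .of_subsingleton

include σ in
theorem Anti.fl_kk (hk : IsFiniteLength C (kk A)) : IsFiniteLength C (kk A') := by
  refine fl_of_ker ((Ring.jacobson A).mkQ.restrictScalars C ∘ₗ σ.s.symm.toLinearMap)
    ((Submodule.mkQ_surjective (Ring.jacobson A)).comp σ.s.symm.surjective)
    ((Ring.jacobson A').mkQ.restrictScalars C) (Submodule.mkQ_surjective (Ring.jacobson A'))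
    (fun x hx => ?_) hk
  rw [LinearMap.comp_apply, LinearMap.restrictScalars_apply, kk_eq_zero] at hx
  rw [LinearMap.restrictScalars_apply, kk_eq_zero]
  exact fun h => hx (σ.symm.unit h)

end Pool.Agent.Lib.MP_95d09c_al
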