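import Pool.Agent.Lib.MP_95d09c_al.Bim

/-!
The Artin-Rees property, the factor rings by powers of the maximal ideal, and Lenagan's lemma.
-/

set_option autoImplicit false
set_option linter.unusedSectionVars false

namespace Pool.Agent.Lib.MP_95d09c_al

section AR

variable (A : Type) [Ring A]

/-- The left Artin-Rees property of the maximal ideal. -/
def ARl : Prop := ∀ L : Submodule A A, ∃ b, L ⊓ msub b ⊤ ≤ msub 1 L

variable {A} [IsLocalRing A] {M : Type} [AddCommGroup M] [Module A M]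

theorem msub_mul_right {j : ℕ} {a : A} (ha : a ∈ msub j (⊤ : Submodule A A)) (r : A) :
    a * r ∈ msub j (⊤ : Submodule A A) := smul_mem_of_pow ha trivial

theorem ar_one (h : ARl A) [IsNoetherian A M] (N : Submodule A M) :
    ∃ b, N ⊓ msub b ⊤ ≤ msub 1 N := by
  obtain ⟨K, ⟨hK1, hK2⟩, hmax⟩ := set_has_maximal_iff_noetherian.2 (inferInstance : IsNoetherian A M)
    {K | msub 1 N ≤ K ∧ K ⊓ N ≤ msub 1 N} ⟨msub 1 N, le_rfl, inf_le_left⟩
  let S : ℕ →o Submodule A M :=
    ⟨fun b =>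
      { carrier := {x | ∀ a ∈ msub b (⊤ : Submodule A A), a • x ∈ K}
        add_mem' := fun hx hy a ha => by rw [smul_add]; exact K.add_mem (hx a ha) (hy a ha)
        zero_mem' := fun a _ => by rw [smul_zero]; exact K.zero_mem
        smul_mem' := fun r x hx a ha => by rw [← mul_smul]; exact hx _ (msub_mul_right ha r) },
      fun i j hij x hx a ha => hx a (msub_anti ⊤ hij ha)⟩
  have h1 : ∀ x, ∃ b, x ∈ S b := fun x => by
    obtain ⟨b, hb⟩ := h ((N ⊔ K).comap (LinearMap.toSpanSingleton A M x))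
    refine ⟨b, fun a ha => ?_⟩
    by_contra hc
    refine hmax (K ⊔ Submodule.span A {a • x}) ⟨hK1.trans le_sup_left, ?_⟩
      (lt_of_le_of_ne le_sup_left fun he => hc
        (he ▸ Submodule.mem_sup_right (Submodule.mem_span_singleton_self _)))
    rintro y ⟨hy, hyN⟩
    obtain ⟨k, hk, z, hz, rfl⟩ := Submodule.mem_sup.1 hy
    obtain ⟨r, rfl⟩ := Submodule.mem_span_singleton.1 hz
    have h2 : r * a ∈ (N ⊔ K).comap (LinearMap.toSpanSingleton A M x) := by
      change (r * a) • x ∈ N ⊔ K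
      have : (r * a) • x = (k + r • a • x) - k := by rw [mul_smul]; abel
      rw [this]
      exact sub_mem (Submodule.mem_sup_left hyN) (Submodule.mem_sup_right hk)
    have h3 : (r * a) • x ∈ msub 1 (N ⊔ K) :=
      msub_map_le (LinearMap.toSpanSingleton A M x) 1 (fun _ h => h)
        (hb ⟨h2, Submodule.smul_mem _ r ha⟩)
    have h4 : msub 1 (N ⊔ K) ≤ K := msub_le.2 fun w hw y hy => by
      obtain ⟨n, hn, k, hk, rfl⟩ := Submodule.mem_sup.1 hy
      rw [smul_add]
      exact K.add_mem (hK1 (smul_mem_msub hw hn)) (K.smul_mem _ hk)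
    exact hK2 ⟨K.add_mem hk (mul_smul r a x ▸ h4 h3), hyN⟩
  obtain ⟨b, hb⟩ := monotone_stabilizes_iff_noetherian.2 (inferInstance : IsNoetherian A M) S
  refine ⟨b, fun y hy => hK2 ⟨?_, hy.1⟩⟩
  refine msub_le.2 (fun w hw x _ => ?_) hy.2
  obtain ⟨c, hc⟩ := h1 x
  have h2 : x ∈ S b := by
    rcases le_total c b with h | h
    · exact S.monotone h hc
    · exact hb c h ▸ hc
  exact h2 w (by simpa using smul_mem_msub (U := (⊤ : Submodule A A)) (x := 1) hw trivial)

theorem ar_mod (h : ARl A) [IsNoetherian A M] (N : Submodule A M) (j : ℕ) :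
    ∃ b, j ≤ b ∧ N ⊓ msub b ⊤ ≤ msub j N := by
  have key : ∃ b, N ⊓ msub b ⊤ ≤ msub j N := by
    induction j with
    | zero =>
      refine ⟨0, fun x hx => ?_⟩
      simpa using smul_mem_msub (Λ := A) (j := 0) (U := N) (w := 1) (x := x) rfl hx.1
    | succ j ih =>
      obtain ⟨b, hb⟩ := ih
      obtain ⟨c, hc⟩ := ar_one h (msub j N)
      exact ⟨max b c, fun x hx => msub_one_msub j N (hc ⟨hb ⟨hx.1, msub_anti ⊤ (le_max_left b c) hx.2⟩,
        msub_anti ⊤ (le_max_right b c) hx.2⟩)⟩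
  obtain ⟨b, hb⟩ := key
  exact ⟨max j b, le_max_left j b, fun x hx => hb ⟨hx.1, msub_anti ⊤ (le_max_right j b) hx.2⟩⟩

variable (A) in
/-- Powers of the maximal ideal. -/
def mp (j : ℕ) : TwoSidedIdeal A :=
  TwoSidedIdeal.mk' (msub j (⊤ : Submodule A A)) (zero_mem _) add_mem neg_mem
    (fun {r _} hy => Submodule.smul_mem _ r hy) (fun {_ r} hx => msub_mul_right hx r)

theorem mem_mp {j : ℕ} {a : A} : a ∈ mp A j ↔ a ∈ msub j (⊤ : Submodule A A) := by simp [mp]

theorem wd_mem_mp {j : ℕ} {w : A} (hw : w ∈ Wd A j) : w ∈ mp A j :=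
  mem_mp.2 (by simpa using smul_mem_msub (U := (⊤ : Submodule A A)) (x := 1) hw trivial)

theorem mp_anti {j b : ℕ} (h : j ≤ b) {a : A} (ha : a ∈ mp A b) : a ∈ mp A j :=
  mem_mp.2 (msub_anti ⊤ h (mem_mp.1 ha))

theorem mp_smul {j : ℕ} {a : A} (ha : a ∈ mp A j) (x : M) : a • x ∈ msub j (⊤ : Submodule A M) :=
  smul_mem_of_pow (mem_mp.1 ha) trivial

theorem mp_one {a : A} : a ∈ mp A 1 ↔ ¬ IsUnit a := by
  rw [mem_mp, ← jac_pow, Submodule.pow_one, mem_jac]

variable (A) in
/-- The factor by a power of the maximal ideal. -/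
abbrev AQ (j : ℕ) : Type := A ⧸ lsub (mp A j)

variable (A) in
/-- The class of one. -/
def AQ.one (j : ℕ) : AQ A j := (lsub (mp A j)).mkQ 1

theorem AQ.smul_one (j : ℕ) (a : A) : a • AQ.one A j = (lsub (mp A j)).mkQ a := by
  rw [AQ.one, smul_mk, mul_one]

theorem AQ.surj {j : ℕ} (x : AQ A j) : ∃ a : A, a • AQ.one A j = x := by
  obtain ⟨a, rfl⟩ := (lsub (mp A j)).mkQ_surjective x
  exact ⟨a, AQ.smul_one j a⟩

theorem AQ.ext {j : ℕ} {f g : AQ A j →ₗ[A] M} (h : f (AQ.one A j) = g (AQ.one A j)) : f = g :=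
  LinearMap.ext fun x => by
    obtain ⟨a, rfl⟩ := AQ.surj x
    rw [map_smul, map_smul, h]

/-- The linear map sending one to a given element. -/
def AQ.lift {j : ℕ} (x : M) (hx : ∀ a ∈ mp A j, a • x = 0) : AQ A j →ₗ[A] M :=
  (lsub (mp A j)).liftQ (LinearMap.toSpanSingleton A M x) hx

theorem AQ.lift_one {j : ℕ} (x : M) (hx : ∀ a ∈ mp A j, a • x = 0) :
    AQ.lift x hx (AQ.one A j) = x := one_smul A x

theorem AQ.killed {j : ℕ} (f : AQ A j →ₗ[A] M) {a : A} (ha : a ∈ mp A j) :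
    a • f (AQ.one A j) = 0 := by
  rw [← map_smul, quot_killed _ ha, map_zero]

variable (A) in
/-- The projections between the factors. -/
def prj {j b : ℕ} (h : j ≤ b) : AQ A b →ₗ[A] AQ A j :=
  AQ.lift (AQ.one A j) fun _ ha => quot_killed _ (mp_anti h ha) _

theorem prj_one {j b : ℕ} (h : j ≤ b) : prj A h (AQ.one A b) = AQ.one A j := AQ.lift_one _ _

theorem prj_self {j : ℕ} (h : j ≤ j) : prj A h = LinearMap.id := AQ.ext (prj_one h)

theorem prj_comp {i j b : ℕ} (h : i ≤ j) (h' : j ≤ b) :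
    prj A h ∘ₗ prj A h' = prj A (h.trans h') :=
  AQ.ext (by rw [LinearMap.comp_apply, prj_one, prj_one, prj_one])

theorem rho_one' {j : ℕ} (a : A) : rho (mp A j) a (AQ.one A j) = a • AQ.one A j := by
  rw [AQ.smul_one, AQ.one, rho_mk, one_mul]

theorem prj_rho {j b : ℕ} (h : j ≤ b) (a : A) :
    prj A h ∘ₗ rho (mp A b) a = rho (mp A j) a ∘ₗ prj A h :=
  AQ.ext (by rw [LinearMap.comp_apply, LinearMap.comp_apply, rho_one', map_smul, prj_one, rho_one'])

theorem exists_kill [IsNoetherian A M] [IsArtinian A M] : ∃ c, ∀ a ∈ mp A c, ∀ x : M, a • x = 0 := by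
  obtain ⟨c, hc⟩ := IsArtinian.monotone_stabilizes (R := A) (M := M)
    ⟨fun a => OrderDual.toDual (msub a ⊤), fun _ _ h => msub_anti ⊤ h⟩
  have h1 : msub c (⊤ : Submodule A M) ≤ ⊥ :=
    nak_msub (le_sup_of_le_right (le_of_eq (hc (c + 1) (Nat.le_succ c))))
  exact ⟨c, fun a ha x => h1 (mp_smul ha x)⟩

theorem fl_kill (h : IsFiniteLength A M) : ∃ c, ∀ a ∈ mp A c, ∀ x : M, a • x = 0 := by
  obtain ⟨_, _⟩ := isFiniteLength_iff_isNoetherian_isArtinian.1 h
  exact exists_kill

theorem fl_of_kill [IsNoetherian A M] {c : ℕ} (h : ∀ a ∈ mp A c, ∀ x : M, a • x = 0) :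
    IsFiniteLength A M :=
  isFiniteLength_iff_isNoetherian_isArtinian.2
    ⟨inferInstance, isArtinian_of_Wd c M fun w hw x => h w (wd_mem_mp hw) x⟩

theorem AQ.fl [IsNoetherianRing A] (j : ℕ) : IsFiniteLength A (AQ A j) :=
  fl_of_kill fun _ ha x => quot_killed _ ha x

theorem kk_kill {a : A} (ha : a ∈ mp A 1) (x : kk A) : a • x = 0 := by
  obtain ⟨y, rfl⟩ := (Ring.jacobson A).mkQ_surjective x
  rw [← map_smul, kk_eq_zero]
  exact nu_mul_right (mp_one.1 ha) y

theorem kk_fl [IsNoetherianRing A] : IsFiniteLength A (kk A) := fl_of_kill fun _ ha => kk_kill ha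

/-- Lenagan's lemma. -/
theorem lenagan {A' : Type} [Ring A'] [Module A' M] [SMulCommClass A A' M] [IsNoetherian A M]
    (h : IsFiniteLength A' M) : IsFiniteLength A M := by
  obtain ⟨_, _⟩ := isFiniteLength_iff_isNoetherian_isArtinian.1 h
  have := SMulCommClass.symm A A' M
  let V : ℕ → Submodule A' M := fun b =>
    { carrier := msub b (⊤ : Submodule A M)
      add_mem' := add_mem
      zero_mem' := zero_mem _
      smul_mem' := fun a y hy =>
        msub_map_le (DistribSMul.toLinearMap A M a) b (fun _ _ => Submodule.mem_top) hy }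
  obtain ⟨c, hc⟩ := IsArtinian.monotone_stabilizes (R := A') (M := M)
    ⟨fun b => OrderDual.toDual (V b), fun _ _ h _ hx => msub_anti ⊤ h hx⟩
  have h1 : msub c (⊤ : Submodule A M) ≤ ⊥ := nak_msub (le_sup_of_le_right fun x hx => by
    have h2 : V c = V (c + 1) := hc (c + 1) (Nat.le_succ c)
    have h3 : x ∈ V c := hx
    rw [h2] at h3
    exact h3)
  exact fl_of_kill fun a ha x => h1 (mp_smul ha x)

end AR

section Un

variable (A A' U : Type) [Ring A] [Ring A'] [AddCommGroup U] [Module A U] [Module A' U]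

/-- A bimodule which is free of rank one on both sides, on the same generator. -/
structure Un where
  e : A ≃ₗ[A] U
  e' : A' ≃ₗ[A'] U
  one : e 1 = e' 1

variable {A A' U} (u : Un A A' U)

/-- The two sides exchanged. -/
def Un.symm : Un A' A U := ⟨u.e', u.e, u.one.symm⟩

variable [SMulCommClass A A' U]

/-- The anti-isomorphism given by the generator. -/
def Un.anti : Anti ℤ A A' where
  s := (u.e.toAddEquiv.trans u.e'.symm.toAddEquiv).toIntLinearEquiv
  mul a b := by
    have h : ∀ a : A, u.e'.symm (u.e a) • u.e 1 = a • u.e 1 := fun a => by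
      rw [u.one, ← map_smul, smul_eq_mul, mul_one, u.e'.apply_symm_apply, ← u.one, ← map_smul,
        smul_eq_mul, mul_one]
    change u.e'.symm (u.e (a * b)) = u.e'.symm (u.e b) * u.e'.symm (u.e a)
    rw [LinearEquiv.symm_apply_eq, ← smul_eq_mul (u.e'.symm (u.e b)), map_smul,
      u.e'.apply_symm_apply, ← mul_one a, ← smul_eq_mul a 1, map_smul, ← smul_comm, h, ← mul_smul,
      ← map_smul, smul_eq_mul, smul_eq_mul, mul_one, mul_one]
  one := by
    change u.e'.symm (u.e 1) = 1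
    rw [u.one, u.e'.symm_apply_apply]

/-- The element of the other ring acting in the same way on the generator. -/
def Un.s (a : A) : A' := u.anti.s a

/-- The inverse correspondence. -/
def Un.t (a : A') : A := u.anti.symm.s a

theorem Un.s_t (a : A') : u.s (u.t a) = a := u.anti.s.apply_symm_apply a

theorem Un.t_s (a : A) : u.t (u.s a) = a := u.anti.s.symm_apply_apply a

theorem Un.s_mul (a b : A) : u.s (a * b) = u.s b * u.s a := u.anti.mul a b

theorem Un.t_mul (a b : A') : u.t (a * b) = u.t b * u.t a := u.anti.symm.mul a b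

theorem Un.s_one : u.s 1 = 1 := u.anti.one

theorem Un.t_one : u.t 1 = 1 := u.anti.symm.one

theorem Un.s_add (a b : A) : u.s (a + b) = u.s a + u.s b := map_add u.anti.s a b

theorem Un.t_add (a b : A') : u.t (a + b) = u.t a + u.t b := map_add u.anti.symm.s a b

theorem Un.s_zero : u.s 0 = 0 := map_zero u.anti.s

theorem Un.t_zero : u.t 0 = 0 := map_zero u.anti.symm.s

theorem Un.e'_s (a : A) : u.e' (u.s a) = u.e a := u.e'.apply_symm_apply _

theorem Un.e_t (a : A') : u.e (u.t a) = u.e' a := by rw [← u.e'_s, u.s_t]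

theorem Un.smul_e (a : A') (x : A) : a • u.e x = u.e (x * u.t a) := by
  rw [← u.e'_s, ← u.e'_s, ← map_smul, u.s_mul, u.s_t, smul_eq_mul]

variable [IsLocalRing A] [IsLocalRing A']

theorem Un.s_mp {j : ℕ} {a : A} (ha : a ∈ mp A j) : u.s a ∈ mp A' j :=
  mem_mp.2 (u.anti.pow (mem_mp.1 ha))

theorem Un.t_mp {j : ℕ} {a : A'} (ha : a ∈ mp A' j) : u.t a ∈ mp A j :=
  mem_mp.2 (u.anti.symm.pow (mem_mp.1 ha))

end Un

end Pool.Agent.Lib.MP_95d09c_al
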