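import Pool.Agent.Lib.MP_95d09c_al.ArZig

/-!
Comparison of the left and the right local cohomology of a bimodule.
-/

set_option autoImplicit false
set_option linter.unusedSectionVars false

namespace Pool.Agent.Lib.MP_95d09c_al

open CategoryTheory Abelian

section EB

variable (S A M B : Type) [Ring S] [Ring A] [AddCommGroup M] [Module A M] [AddCommGroup B]
  [Module A B] (q : ℕ)

/-- Ext into a bimodule, as a module over the other ring. -/
def EB (_ A M B : Type) [Ring A] [AddCommGroup M] [Module A M] [AddCommGroup B]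
  [Module A B] (q : ℕ) : Type := EX A M B q

noncomputable instance : AddCommGroup (EB S A M B q) := inferInstanceAs (AddCommGroup (EX A M B q))

variable [Module S B] [SMulCommClass S A B] [SMulCommClass A S B]

noncomputable instance : Module S (EB S A M B q) where
  smul a y := post y (DistribSMul.toLinearMap A B a)
  one_smul y := (congrArg (post (M := B) y) (LinearMap.ext fun x => one_smul S x)).trans (post_id y)
  mul_smul a b y := (congrArg (post (M := B) y) (LinearMap.ext fun x => mul_smul a b x)).trans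
    (post_post y (DistribSMul.toLinearMap A B b) (DistribSMul.toLinearMap A B a)).symm
  smul_zero _ := zero_post _
  smul_add _ x y := add_post x y _
  add_smul a b y := (congrArg (post (M := B) y) (LinearMap.ext fun x => add_smul a b x)).trans
    (post_add y (DistribSMul.toLinearMap A B a) (DistribSMul.toLinearMap A B b))
  zero_smul y := (congrArg (post (M := B) y) (LinearMap.ext fun x => zero_smul S x)).trans
    (post_zero y)

variable {S A M B q}

theorem EB.smul_def (a : S) (y : EB S A M B q) :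
    a • y = post (M := B) y (DistribSMul.toLinearMap A B a) := rfl

variable (S B) in
/-- Composition with a fixed class. -/
noncomputable def EB.cl {N : Type} [AddCommGroup N] [Module A N] (η : EX A M N q) :
    (N →ₗ[A] B) →ₗ[S] EB S A M B q where
  toFun f := post η f
  map_add' := post_add η
  map_smul' a f := (post_post η f (DistribSMul.toLinearMap A B a)).symm

variable (S B q) in
/-- Composition in the first variable. -/
noncomputable def EB.pre {N : Type} [AddCommGroup N] [Module A N] (f : N →ₗ[A] M) :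
    EB S A M B q →ₗ[S] EB S A N B q where
  toFun y := Lib.MP_95d09c_al.pre f y
  map_add' := pre_add f
  map_smul' _ _ := pre_post _ _ _

variable (S) in
/-- Evaluation of linear maps. -/
def evl (x : M) : (M →ₗ[A] B) →ₗ[S] B where
  toFun f := f x
  map_add' _ _ := rfl
  map_smul' _ _ := rfl

end EB

section CB

variable {A M N P : Type} [Ring A] [AddCommGroup M] [Module A M] [AddCommGroup N] [Module A N]
  [AddCommGroup P] [Module A P] {p : ℕ}

theorem CB.add {x y : It A M p → N} (hx : CB A x) (hy : CB A y) : CB A (x + y) := by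
  cases p with
  | zero => rw [show x = 0 from hx, zero_add]; exact hy
  | succ p =>
    obtain ⟨w, rfl⟩ := hx
    obtain ⟨w', rfl⟩ := hy
    exact ⟨w + w', funext (cd_add w w')⟩

theorem CB.post (g : N →ₗ[A] P) {x : It A M p → N} (hx : CB A x) : CB A fun s => g (x s) := by
  cases p with
  | zero => rw [show x = 0 from hx]; exact funext fun _ => map_zero g
  | succ p =>
    obtain ⟨w, rfl⟩ := hx
    exact ⟨fun s => g (w s), funext fun z => (cd_post g w z).symm⟩

theorem CB.map (f : P →ₗ[A] M) {x : It A M p → N} (hx : CB A x) :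
    CB A fun s => x (It.map f p s) := by
  cases p with
  | zero => rw [show x = 0 from hx]; rfl
  | succ p =>
    obtain ⟨w, rfl⟩ := hx
    exact ⟨_, funext fun z => (cd_map f w z).symm⟩

theorem post_map (f : P →ₗ[A] M) (g : It A M p →ₗ[A] N) :
    post (It.η A P p) (g ∘ₗ It.map f p) = pre f (post (It.η A M p) g) := by
  rw [pre_post, It.nat, post_post]

end CB

variable (A A' B : Type) [Ring A] [Ring A'] [IsLocalRing A] [IsLocalRing A'] [AddCommGroup B]
  [Module A B] [Module A' B] [SMulCommClass A A' B] [SMulCommClass A' A B]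

/-- The double complex of a bimodule. -/
noncomputable def dcB : DC where
  C j p q := It A (AQ A j) p → It A' (AQ A' j) q → B
  dl := AddMonoidHom.mk' (fun x z t => cd A (fun s => x s t) z) fun x y =>
    funext₂ fun z t => cd_add (fun s => x s t) (fun s => y s t) z
  dr := AddMonoidHom.mk' (fun x s t => cd A' (x s) t) fun x y =>
    funext₂ fun s t => cd_add (x s) (y s) t
  tr h := AddMonoidHom.mk' (fun x s t => x (It.map (prj A h) _ s) (It.map (prj A' h) _ t))
    fun _ _ => rfl
  ll x := funext₂ fun z t => LinearMap.congr_fun (cd_lin (cd A fun s => x s t)) z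
  rr x := funext₂ fun s t => LinearMap.congr_fun (cd_lin (cd A' (x s))) t
  lr {j p q} x := funext₂ fun z t => by
    let Ψ : (It A' (AQ A' j) q → B) →ₗ[A] B :=
      { toFun := fun y => cd A' y t
        map_add' := fun y y' => cd_add y y' t
        map_smul' := fun a y => (cd_post (DistribSMul.toLinearMap A' B a) y t).symm }
    refine (cd_post Ψ x z).symm.trans (congrArg (fun y => cd A' y t) (funext fun t' => ?_))
    exact cd_post (LinearMap.proj t') x z
  tl h x := funext₂ fun z _ => cd_map (prj A h) _ z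
  tr' h x := funext₂ fun _ t => cd_map (prj A' h) _ t
  tt h h' x := funext₂ fun s t => by
    change x (It.map _ _ (It.map _ _ s)) (It.map _ _ (It.map _ _ t)) = x _ _
    rw [It.map_map, It.map_map, prj_comp, prj_comp]
  ts x := funext₂ fun s t => by
    change x (It.map _ _ s) (It.map _ _ t) = x s t
    rw [prj_self, prj_self, It.map_id, It.map_id]

variable {A A' B}

theorem br_iff {j p q : ℕ} {x : (dcB A A' B).C j p q} :
    (dcB A A' B).Br x ↔ ∀ s, CB A' (x s) := by
  cases q with
  | zero => exact funext_iff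
  | succ q =>
    refine ⟨?_, fun h => ?_⟩
    · rintro ⟨w, rfl⟩ s
      exact ⟨w s, rfl⟩
    · choose w hw using h
      exact ⟨w, funext hw⟩

theorem bl_iff {j p q : ℕ} {x : (dcB A A' B).C j p q} :
    (dcB A A' B).Bl x ↔ ∀ t, CB A fun s => x s t := by
  cases p with
  | zero =>
    exact ⟨fun h t => funext fun s => congrFun₂ h s t,
      fun h => funext₂ fun s t => congrFun (h t) s⟩
  | succ p =>
    refine ⟨?_, fun h => ?_⟩
    · rintro ⟨w, rfl⟩ t
      exact ⟨fun s => w s t, rfl⟩
    · choose w hw using h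
      exact ⟨fun s t => w t s, funext₂ fun s t => congrFun (hw t) s⟩

variable (A A' B) in
/-- The Ext groups of the factor rings of one side have finite length on the other side. -/
def ChiB : Prop := ∀ j q, IsFiniteLength A (EB A A' (AQ A' j) B q)

variable {U : Type} [AddCommGroup U] [Module A U] [Module A' U] [SMulCommClass A A' U]
  [SMulCommClass A' A U] (u : Un A A' U) [IsNoetherianRing A] [IsNoetherianRing A']

include u in
theorem hr_core (hAR : ARl A') (χ : ChiB A A' B) {j j' p q : ℕ}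
    (x : It A (AQ A j) (p + 1) → It A' (AQ A' j') q → B) (h1 : ∀ s t, cd A' (x s) t = 0)
    (h2 : ∀ z, CB A' fun t => cd A (fun s => x s t) z) :
    ∃ b, ∃ h : j ≤ b, ∃ w : It A (AQ A b) p → It A' (AQ A' j') q → B,
      (∀ s t, cd A' (w s) t = 0) ∧
      ∀ z, CB A' fun t => x (It.map (prj A h) (p + 1) z) t - cd A (fun s => w s t) z := by
  choose f hf using fun s => exists_lin (h1 s)
  let cl := EB.cl A B (It.η A' (AQ A' j') q)
  obtain ⟨φ, hφ⟩ := exists_lin (x := fun s => cl (f s)) fun z => by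
    rw [← cd_post]
    refine (It.ker _).2 ?_
    convert h2 z using 1
    exact funext fun t => (cd_post (evl A t) f z).trans (by simp only [← hf]; rfl)
  obtain ⟨c, hc⟩ := fl_kill (χ j' q)
  obtain ⟨b, hb, h3⟩ := LC.eq_zero.1 (LC.tors u hAR c p _ hc (LC.of j (post (It.η _ _ _) φ)))
  rw [← post_map] at h3
  obtain ⟨w, hw⟩ := (It.ker _).1 h3
  choose g hg using fun s => It.surj0 q (w s)
  refine ⟨b, hb, fun s => g s, fun s t => LinearMap.congr_fun (cd_lin (g s)) t, fun z => ?_⟩
  have h4 : cl (f (It.map (prj A hb) (p + 1) z) - cd A g z) = 0 := by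
    rw [map_sub, cd_post, show (fun s => cl (g s)) = w from funext hg, congrFun hw z,
      ← congrFun hφ]
    exact sub_self _
  convert (It.ker _).1 h4 using 1
  exact funext fun t => congrArg₂ (· - ·) (congrFun (hf _) t).symm (cd_post (evl A t) g z).symm

include u in
theorem dcB_hr (hAR : ARl A') (χ : ChiB A A' B) : (dcB A A' B).HR := by
  intro j p q x h1 h2
  obtain ⟨b, hb, w, h3, h4⟩ := hr_core u hAR χ x (congrFun₂ h1) (br_iff.1 h2)
  exact ⟨b, hb, fun s t => w s (It.map (prj A' hb) q t),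
    funext₂ fun s t => (cd_map _ _ _).symm.trans (h3 _ _),
    br_iff.2 fun z => (h4 z).map (prj A' hb)⟩

include u in
theorem dcB_hl (hAR : ARl A) (χ : ChiB A' A B) : (dcB A A' B).HL := by
  intro j p q x h1 h2
  obtain ⟨b, hb, w, h3, h4⟩ := hr_core u.symm hAR χ (fun t s => x s t)
    (fun t s => congrFun₂ h1 s t) (bl_iff.1 h2)
  exact ⟨b, hb, fun s t => w t (It.map (prj A hb) p s),
    funext₂ fun s t => (cd_map _ _ _).symm.trans (h3 _ _),
    bl_iff.2 fun z => (h4 z).map (prj A hb)⟩

theorem DC.Zg.bl {D : DC} {j m : ℕ} {z : ∀ p q, D.C j p q} (h : D.Zg m z) :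
    D.Bl (D.dr (z m 0)) := by
  cases m with
  | zero => rw [h.2.1]; rfl
  | succ m => exact ⟨_, h.1 m 0 rfl⟩

theorem DC.Zg.br {D : DC} {j m : ℕ} {z : ∀ p q, D.C j p q} (h : D.Zg m z) :
    D.Br (D.dl (z 0 m)) := by
  cases m with
  | zero => rw [h.2.2]; rfl
  | succ m => exact ⟨_, (h.1 0 m (by omega)).symm⟩

/-- The two ends of a zigzag. -/
def RelAt {m : ℕ} (j : ℕ) (x : EX A (AQ A j) B m) (y : EX A' (AQ A' j) B m) : Prop :=
  ∃ z : ∀ p q, (dcB A A' B).C j p q, (dcB A A' B).Zg m z ∧
    ∃ (f : It A (AQ A j) m →ₗ[A] B) (g : It A' (AQ A' j) m →ₗ[A'] B),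
      (∀ s, f s = z m 0 s (AQ.one A' j)) ∧ (∀ t, g t = z 0 m (AQ.one A j) t) ∧
      post (It.η _ _ _) f = x ∧ post (It.η _ _ _) g = y

/-- The correspondence between the two local cohomology groups. -/
def Rel {m : ℕ} (x : LC A B m) (y : LC A' B m) : Prop :=
  ∃ j x' y', RelAt j x' y' ∧ LC.of j x' = x ∧ LC.of j y' = y

variable {m : ℕ}

theorem RelAt.symm {j : ℕ} {x : EX A (AQ A j) B m} {y : EX A' (AQ A' j) B m} (h : RelAt j x y) :
    RelAt j y x := by
  obtain ⟨z, hz, f, g, h1, h2, h3, h4⟩ := h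
  exact ⟨fun p q t s => z q p s t, ⟨fun p q h => funext₂ fun t s =>
    (congrFun₂ (hz.1 q p (by omega)) s t).symm, funext₂ fun t s => congrFun₂ hz.2.2 s t,
    funext₂ fun t s => congrFun₂ hz.2.1 s t⟩, g, f, h2, h1, h4, h3⟩

theorem Rel.symm {x : LC A B m} {y : LC A' B m} (h : Rel x y) : Rel y x := by
  obtain ⟨j, x, y, h, rfl, rfl⟩ := h
  exact ⟨j, y, x, h.symm, rfl, rfl⟩

theorem RelAt.tr {j b : ℕ} (hb : j ≤ b) {x : EX A (AQ A j) B m} {y : EX A' (AQ A' j) B m}
    (h : RelAt j x y) : RelAt b (pre (prj A hb) x) (pre (prj A' hb) y) := by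
  obtain ⟨z, hz, f, g, h1, h2, rfl, rfl⟩ := h
  exact ⟨_, hz.tr hb, f ∘ₗ It.map (prj A hb) m, g ∘ₗ It.map (prj A' hb) m,
    fun s => (h1 _).trans (congrArg _ (prj_one hb).symm),
    fun t => (h2 _).trans (congrFun (congrArg _ (prj_one hb).symm) _), post_map _ _, post_map _ _⟩

theorem Rel.sub {x x' : LC A B m} {y y' : LC A' B m} (h : Rel x y) (h' : Rel x' y') :
    Rel (x - x') (y - y') := by
  obtain ⟨j, x, y, h, rfl, rfl⟩ := h
  obtain ⟨j', x', y', h', rfl, rfl⟩ := h'
  obtain ⟨z, hz, f, g, h1, h2, h3, h4⟩ := h.tr (le_max_left j j')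
  obtain ⟨z', hz', f', g', h1', h2', h3', h4'⟩ := h'.tr (le_max_right j j')
  refine ⟨max j j', _, _, ⟨_, hz.sub hz', f - f', g - g',
    fun s => congrArg₂ (· - ·) (h1 s) (h1' s), fun t => congrArg₂ (· - ·) (h2 t) (h2' t),
    rfl, rfl⟩, ?_, ?_⟩
  · rw [← LC.of_pre (le_max_left j j'), ← LC.of_pre (le_max_right j j') x', ← h3, ← h3', ← map_sub]
    exact congrArg _ (map_sub (EB.cl A' B _) f f')
  · rw [← LC.of_pre (le_max_left j j'), ← LC.of_pre (le_max_right j j') y', ← h4, ← h4', ← map_sub]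
    exact congrArg _ (map_sub (EB.cl A B _) g g')

theorem Rel.smul (a : A) {x : LC A B m} {y : LC A' B m} (h : Rel x y) : Rel (a • x) (a • y) := by
  obtain ⟨j, _, _, ⟨z, hz, f, g, h1, h2, rfl, rfl⟩, rfl, rfl⟩ := h
  obtain ⟨g', hg'⟩ := exists_lin (x := z 0 m (a • AQ.one A j)) (congrFun₂ hz.2.1 _)
  refine ⟨j, _, _, ⟨fun p q s t => z p q (It.map (rho (mp A j) a) p s) t,
    ⟨fun p q h => funext₂ fun s t => (cd_map _ _ _).symm.trans (congrFun₂ (hz.1 p q h) _ t),
      funext₂ fun s t => congrFun₂ hz.2.1 _ t,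
      funext₂ fun s t => (cd_map _ _ _).symm.trans (congrFun₂ hz.2.2 _ t)⟩,
    f ∘ₗ It.map (rho (mp A j) a) m, g', fun s => h1 _,
    fun t => (congrFun hg' t).trans (congrFun (congrArg _ (rho_one' a).symm) _), rfl, rfl⟩,
    congrArg _ (post_map _ _), congrArg (LC.of j) ?_⟩
  obtain ⟨ζ, hζ⟩ := cd_smul (M := AQ A j) (N := B) (p := 0) a (AQ.one A j)
  have h3 : EB.cl A B (It.η A' (AQ A' j) m) (g' - a • g) = 0 := by
    refine (It.ker _).2 ?_
    convert br_iff.1 hz.br ζ using 1
    exact funext fun t => (congrArg₂ (· - ·) (congrFun hg' t) (congrArg _ (h2 t))).trans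
      (hζ fun s => z 0 m s t).symm
  rw [map_sub, map_smul, sub_eq_zero] at h3
  exact h3

theorem Rel.smul' (a : A') {x : LC A B m} {y : LC A' B m} (h : Rel x y) : Rel (a • x) (a • y) :=
  (h.symm.smul a).symm

include u in
theorem Rel.zero (hAR : ARl A) (χ : ChiB A' A B) {y : LC A' B m} (h : Rel (0 : LC A B m) y) :
    y = 0 := by
  obtain ⟨j, x, y, h, hx, rfl⟩ := h
  obtain ⟨b, hb, hx⟩ := LC.eq_zero.1 hx
  obtain ⟨z, hz, f, g, h1, h2, h3, h4⟩ := h.tr hb
  have h5 := (It.ker f).1 (h3.trans hx)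
  obtain ⟨c, hc, h6⟩ := hz.van (dcB_hl u hAR χ) (bl_iff.2 fun t => by
    obtain ⟨a, rfl⟩ := AQ.surj (A := A') t
    obtain ⟨ζ, hζ⟩ := cd_smul (M := AQ A' b) (N := B) (p := 0) a (AQ.one A' b)
    convert (bl_iff.1 hz.bl ζ).add (h5.post (DistribSMul.toLinearMap A B a)) using 1
    refine funext fun s => ?_
    exact (sub_add_cancel _ _).symm.trans
      (congrArg₂ (· + ·) (hζ (z m 0 s)).symm (congrArg _ (h1 s).symm)))
  rw [← LC.of_pre hb, ← h4, ← LC.of_pre hc, ← post_map, (It.ker _).2, map_zero]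
  convert br_iff.1 h6 (AQ.one A c) using 1
  exact funext fun t => (h2 _).trans (congrFun (congrArg _ (prj_one hc).symm) _)

include u in
theorem Rel.exists (hAR : ARl A') (χ : ChiB A A' B) (y : LC A' B m) :
    ∃ x : LC A B m, Rel x y := by
  obtain ⟨j, y, rfl⟩ := y.surj
  obtain ⟨c, hc⟩ := fl_kill (χ j m)
  let φ := AQ.lift (A := A) (j := max j c) (EB.pre A B m (prj A' (le_max_left j c)) y)
    fun a ha => (map_smul _ _ _).symm.trans ((congrArg _
      (hc a (mp_anti (le_max_right j c) ha) y)).trans (map_zero _))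
  choose g hg using fun s => It.surj0 m (φ s)
  obtain ⟨b, hb, z, h1, hz⟩ := DC.exists_zg (dcB_hr u hAR χ) (j := max j c) (m := m)
    (fun s => g s) (funext₂ fun s t => LinearMap.congr_fun (cd_lin (g s)) t) (br_iff.2 fun ζ => by
      have h1 : EB.cl A B (It.η A' _ m) (cd A (p := 0) g ζ) = 0 :=
        (cd_post _ _ _).trans ((congrArg (fun w : _ → EB A A' (AQ A' (max j c)) B m =>
          cd A (p := 0) w ζ) (funext hg)).trans
          (LinearMap.congr_fun (cd_lin (p := 0) φ) ζ))
      convert (It.ker _).1 h1 using 1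
      exact funext fun t => (cd_post (evl A t) (p := 0) g ζ).symm)
  obtain ⟨f, hf⟩ := exists_lin (x := fun s => z m 0 s (AQ.one A' b))
    fun ζ => congrFun₂ hz.2.2 ζ _
  refine ⟨_, b, _, _, ⟨z, hz, f, g (AQ.one A _) ∘ₗ It.map (prj A' hb) m, congrFun hf,
    fun t => ?_, rfl, rfl⟩, rfl, ?_⟩
  · rw [h1]
    exact congrArg (fun s => g s (It.map (prj A' hb) m t)) (prj_one hb).symm
  · rw [post_map, LC.of_pre, hg, AQ.lift_one]
    exact LC.of_pre _ _

end Pool.Agent.Lib.MP_95d09c_al
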