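import Pool.Agent.Lib.MP_95d09c_al.Bim

-- part Pool.Agent.Lib.MP_95d09c_al.Model
section

/-!
A free model of the dual of a bimodule: the Ext groups of a noetherian bimodule are noetherian
bimodules, and the dual is torsionless on both sides.
-/

set_option autoImplicit false
set_option linter.unusedSectionVars false

namespace Pool.Agent.Lib.MP_95d09c_al

open CategoryTheory Abelian Matrix

attribute [local instance] ModuleCat.Algebra.instLinear

variable {C : Type} [CommRing C] {A : Type} [Ring A] [Algebra C A]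
  {A' : Type} [Ring A'] [Algebra C A'] (σ : Anti C A A')
  (Y : Type) [AddCommGroup Y] [Module A Y] [Module A' Y] [SMulCommClass A A' Y]
  [Module C Y] [IsScalarTower C A Y] [IsScalarTower C A' Y] (J : InjR C A)

/-- The terms of the dual complex. -/
abbrev Zt (j : ℕ) : Type := ZZ σ Y (J.E j)

/-- The differential of the dual complex. -/
abbrev zd (j : ℕ) : Zt σ Y J j →ₗ[A] Zt σ Y J (j + 1) := zmap σ Y (J.d j)

theorem zd_zd (j : ℕ) (z : Zt σ Y J j) : zd σ Y J (j + 1) (zd σ Y J j z) = 0 :=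
  LinearMap.ext fun y => J.dd' j (z.h y)

/-- One stage of the construction of the model. -/
structure St (i : ℕ) where
  e : ℕ
  K : Submodule A ((Fin e → A) × Zt σ Y J (i + 1))
  f : (Fin e → A) →ₗ[A] Zt σ Y J (i + 2)
  s2 : ∀ x ∈ K, zd σ Y J (i + 1) x.2 = f x.1
  s3 : ∀ z, zd σ Y J (i + 1) z = 0 → (0, z) ∈ K

/-- Cocycles map onto Ext. -/
noncomputable def kapY (i : ℕ) : LinearMap.ker (zd σ Y J (i + 1)) →ₗ[A] WW σ Y i where
  toFun z := pre (z.1.h.codRestrict _ fun x => LinearMap.congr_fun z.2 x) (J.ε i)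
  map_add' z w := add_pre (z.1.h.codRestrict _ fun x => LinearMap.congr_fun z.2 x)
    (w.1.h.codRestrict _ fun x => LinearMap.congr_fun w.2 x) _
  map_smul' a z :=
    (pre_pre (th σ Y a) (z.1.h.codRestrict _ fun x => LinearMap.congr_fun z.2 x) _).symm

theorem kapY_surj (i : ℕ) : Function.Surjective (kapY σ Y J i) := fun x => by
  obtain ⟨φ, rfl⟩ := J.surj Y i x
  exact ⟨⟨Submodule.subtype _ ∘ₗ φ, LinearMap.ext fun y => (φ y).2⟩, rfl⟩

theorem kapY_eq_zero (i : ℕ) (z : LinearMap.ker (zd σ Y J (i + 1))) :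
    kapY σ Y J i z = 0 ↔ ∃ u, zd σ Y J i u = z.1 := J.ker Y i _

variable {σ Y J} {i : ℕ} (S : St σ Y J i)

/-- Cocycles inside a stage. -/
def St.ιZ : LinearMap.ker (zd σ Y J (i + 1)) →ₗ[A] S.K :=
  (LinearMap.inr A _ _ ∘ₗ Submodule.subtype _).codRestrict _ fun z => S.s3 z.1 z.2

/-- Coboundaries inside a stage. -/
def St.α : Zt σ Y J i →ₗ[A] S.K :=
  S.ιZ ∘ₗ (zd σ Y J i).codRestrict _ (zd_zd σ Y J i)

/-- The first projection. -/
def St.γ : S.K →ₗ[A] (Fin S.e → A) := LinearMap.fst A _ _ ∘ₗ S.K.subtype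

/-- The second projection. -/
def St.π : S.K →ₗ[A] Zt σ Y J (i + 1) := LinearMap.snd A _ _ ∘ₗ S.K.subtype

theorem St.ιZ_inj : Function.Injective S.ιZ := fun _ _ h =>
  Subtype.ext (congrArg S.π h)

theorem St.ker_γ {x : S.K} (hx : S.γ x = 0) : ∃ z, S.ιZ z = x := by
  have h1 : x.1.1 = 0 := hx
  exact ⟨⟨x.1.2, (S.s2 _ x.2).trans (by rw [h1, map_zero])⟩, Subtype.ext (Prod.ext h1.symm rfl)⟩

/-- The next stage. -/
def St.next (S : St σ Y J (i + 1)) {e : ℕ} (φ : (Fin e → A) →ₗ[A] S.K) : St σ Y J i where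
  e := e
  K := LinearMap.ker (φ.coprod (-S.α))
  f := S.π ∘ₗ φ
  s2 x hx := by
    have h1 : φ x.1 + -S.α x.2 = 0 := hx
    rw [LinearMap.comp_apply, add_neg_eq_zero.1 h1]
    rfl
  s3 z hz := by
    change φ 0 + -S.α z = 0
    rw [map_zero, zero_add, neg_eq_zero]
    exact Subtype.ext (Prod.ext rfl hz)

variable [IsLocalRing A] [IsNoetherianRing A] [IsLocalRing A'] [IsNoetherianRing A']
  (X : ASD C A)

/-- The invariant of the construction. -/
def St.Inv (P : ℕ) : Prop := ∀ p < P, Sm (p + i < X.n) (cyc C S.K (X.Φ (p + 1)))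
  (bd C S.K (X.Φ p) ⊔ (cyc C (Zt σ Y J i) (X.Φ (p + 1))).map (cm C S.α _))

theorem St.inv_next (hk : IsFiniteLength C (kk A)) [Module.Finite A' Y] (S : St σ Y J (i + 1))
    {e : ℕ} (φ : (Fin e → A) →ₗ[A] S.K) (hφ : LinearMap.range φ ⊔ LinearMap.range S.α = ⊤)
    {P : ℕ} (h : S.Inv X P) : (S.next φ).Inv X (P + 1) := by
  intro p hp
  have h0 : Function.Surjective (φ.coprod (-S.α)) := by
    rw [← LinearMap.range_eq_top, LinearMap.range_coprod, LinearMap.range_neg, hφ]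
  have hs : SES (S.next φ).K.subtype (φ.coprod (-S.α)) := SES.ker h0
  have h3 := X.toMR.conn hs (τ := p + i < X.n) p fun q hq => by
    refine ((h q (by omega)).imp (by omega)).mono' le_rfl (sup_le_sup_left ?_ _)
    rintro _ ⟨u, hu, rfl⟩
    refine ⟨cm C (LinearMap.inr A _ _) _ (-u), cm_cyc _ (neg_mem hu), funext fun j => ?_⟩
    change φ 0 + -S.α (-u j) = S.α (u j)
    rw [map_zero, map_neg, neg_neg, zero_add]
  refine Sm.trans ((((X.smA p).free (Fin e)).imp (by omega)).comap (cm C (S.next φ).γ _)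
    |>.mono' (fun y hy => cm_cyc _ hy) le_rfl) ?_
  refine Sm.trans ((((pbar σ Y X J hk p i).imp (by omega)).comap (cm C (S.next φ).π _)).mono'
    ?_ le_rfl) ?_
  · rintro y ⟨hy, hy'⟩
    refine ⟨cm_cyc _ hy, ?_⟩
    have h1 : cm C (zd σ Y J (i + 1)) _ (cm C (S.next φ).π _ y) =
        cm C (S.next φ).f _ (cm C (S.next φ).γ _ y) := funext fun j => (S.next φ).s2 _ (y j).2
    exact (congrArg (· ∈ bd C (Zt σ Y J (i + 2)) (X.Φ p)) h1).mpr (cm_bd _ hy')
  refine ((h3.mono' le_rfl le_sup_left).sup (Sm.of_le le_sup_right)).mono' ?_ le_rfl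
  rintro y ⟨⟨-, a, ha⟩, hy⟩
  obtain ⟨_, ⟨b, rfl⟩, _, ⟨u, hu, rfl⟩, he⟩ := Submodule.mem_sup.1 hy
  rw [← sub_add_cancel y (cm C (S.next φ).α _ u)]
  refine Submodule.add_mem_sup ⟨fun j => (a j, b j), funext fun k => Prod.ext ?_ ?_⟩ ⟨u, hu, rfl⟩
  · refine (congrFun (cm_act (C := C) (LinearMap.fst A _ _) (X.Φ p) fun j => (a j, b j)) k).trans ?_
    exact (congrFun ha k).trans (sub_zero _).symm
  · refine (congrFun (cm_act (C := C) (LinearMap.snd A _ _) (X.Φ p) fun j => (a j, b j)) k).trans ?_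
    exact eq_sub_of_add_eq (congrFun he k)

theorem St.gen [Module.Finite A (WW σ Y i)] : ∃ (e : ℕ) (φ : (Fin e → A) →ₗ[A] S.K),
    LinearMap.range φ ⊔ LinearMap.range S.α = ⊤ := by
  let Q := S.K ⧸ LinearMap.range S.α
  let γ' : Q →ₗ[A] (Fin S.e → A) := (LinearMap.range S.α).liftQ S.γ (by
    rintro _ ⟨u, rfl⟩
    rfl)
  let β : WW σ Y i →ₗ[A] Q := (LinearMap.ker (kapY σ Y J i)).liftQ
    ((LinearMap.range S.α).mkQ ∘ₗ S.ιZ) (fun z hz => by
      obtain ⟨u, hu⟩ := (kapY_eq_zero σ Y J i z).1 hz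
      exact (mkQ_eq_zero (V := LinearMap.range S.α)).2 ⟨u, congrArg S.ιZ (Subtype.ext hu)⟩) ∘ₗ
    ((kapY σ Y J i).quotKerEquivOfSurjective (kapY_surj σ Y J i)).symm.toLinearMap
  have hβ : ∀ z, β (kapY σ Y J i z) = (LinearMap.range S.α).mkQ (S.ιZ z) := fun z => by
    have : ((kapY σ Y J i).quotKerEquivOfSurjective (kapY_surj σ Y J i)).symm (kapY σ Y J i z) =
        Submodule.Quotient.mk z := (LinearEquiv.symm_apply_eq _).2 rfl
    simp only [β, LinearMap.comp_apply, LinearEquiv.coe_coe, this, Submodule.liftQ_apply]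
  have : Module.Finite A Q := by
    refine ⟨Submodule.fg_of_fg_map_of_fg_inf_ker γ' (IsNoetherian.noetherian _) ?_⟩
    have : ⊤ ⊓ LinearMap.ker γ' = LinearMap.range β := by
      refine le_antisymm (fun x hx => ?_) ?_
      · obtain ⟨x, rfl⟩ := (LinearMap.range S.α).mkQ_surjective x
        obtain ⟨z, rfl⟩ := S.ker_γ (x := x) hx.2
        exact ⟨_, hβ z⟩
      · rintro _ ⟨w, rfl⟩
        obtain ⟨z, rfl⟩ := kapY_surj σ Y J i w
        rw [hβ]
        exact ⟨trivial, rfl⟩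
    rw [this]
    exact Submodule.fg_range β
  obtain ⟨e, ψ, hψ⟩ := Module.Finite.exists_fin' A Q
  obtain ⟨φ, hφ⟩ := Module.projective_lifting_property (LinearMap.range S.α).mkQ ψ
    (Submodule.mkQ_surjective _)
  refine ⟨e, φ, eq_top_iff.2 fun x _ => ?_⟩
  obtain ⟨r, hr⟩ := hψ ((LinearMap.range S.α).mkQ x)
  rw [← add_sub_cancel (φ r) x]
  refine Submodule.add_mem_sup ⟨r, rfl⟩ (mkQ_eq_zero.1 ?_)
  rw [map_sub, ← hr, sub_eq_zero]
  exact (LinearMap.congr_fun hφ r).symm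

theorem St.finite (hA : Lim A A) (hW : Sep A (WW σ Y i)) {P : ℕ} (h : S.Inv X P)
    (hP : X.n < P) : Module.Finite A (WW σ Y i) := by
  have : IsEmpty (Fin (X.g (X.n + 1 + 1))) := by rw [X.top]; infer_instance
  let V : Submodule A S.K := msub 1 ⊤ ⊔ LinearMap.range S.α
  have h1 : Sm False ⊤ (V.restrictScalars C) := by
    refine (((h X.n hP).imp False.elim).map
      (LinearMap.proj (⟨0, X.pos⟩ : Fin (X.g (X.n + 1))))).mono' (fun x _ => ?_) ?_
    · exact ⟨fun _ => x, Subsingleton.elim _ _, rfl⟩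
    · rintro _ ⟨y, hy, rfl⟩
      obtain ⟨a, ha, _, ⟨u, -, rfl⟩, rfl⟩ := Submodule.mem_sup.1 hy
      exact Submodule.add_mem_sup (bd_msub (X.min X.n) ha _) ⟨_, rfl⟩
  obtain ⟨_, -⟩ := isFiniteLength_iff_isNoetherian_isArtinian.1
    (fl_tower (B := A) h1.quot_top)
  obtain ⟨e, ψ, hψ⟩ := Module.Finite.exists_fin' A ((S.K ⧸ V) × LinearMap.range S.γ)
  obtain ⟨φ1, hφ1⟩ := Module.projective_lifting_property V.mkQ (LinearMap.fst A _ _ ∘ₗ ψ)
    (Submodule.mkQ_surjective _)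
  obtain ⟨φ2, hφ2⟩ := Module.projective_lifting_property S.γ.rangeRestrict
    (LinearMap.snd A _ _ ∘ₗ ψ) S.γ.surjective_rangeRestrict
  let L : Submodule A S.K := LinearMap.range (φ1.coprod φ2)
  have hL1 : ∀ x : S.K, ∃ l ∈ L, x - l ∈ V := fun x => by
    obtain ⟨r, hr⟩ := hψ (V.mkQ x, 0)
    refine ⟨φ1 r, ⟨(r, 0), by simp⟩, mkQ_eq_zero.1 ?_⟩
    rw [map_sub, sub_eq_zero]
    exact ((LinearMap.congr_fun hφ1 r).trans (congrArg Prod.fst hr)).symm
  have hL2 : msub 1 (⊤ : Submodule A S.K) ≤ L ⊔ (msub 1 ⊤).map S.ιZ := by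
    refine msub_le.2 fun w hw x _ => ?_
    obtain ⟨r, hr⟩ := hψ (0, S.γ.rangeRestrict x)
    obtain ⟨z, hz⟩ := S.ker_γ (x := x - φ2 r) (by
      rw [map_sub, sub_eq_zero]
      exact (congrArg Subtype.val ((LinearMap.congr_fun hφ2 r).trans (congrArg Prod.snd hr))).symm)
    rw [← add_sub_cancel (φ2 r) x, ← hz, smul_add, ← map_smul S.ιZ]
    exact Submodule.add_mem_sup (L.smul_mem w ⟨(0, r), by simp⟩)
      ⟨_, smul_mem_msub hw trivial, rfl⟩
  have : Module.Finite A (L.comap S.ιZ) :=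
    Module.Finite.of_injective (S.ιZ.restrict (p := L.comap S.ιZ) (q := L) fun _ hx => hx)
      fun a b hab => Subtype.ext (S.ιZ_inj (congrArg Subtype.val hab))
  obtain ⟨e', φ, hφ⟩ := Module.Finite.exists_fin' A (L.comap S.ιZ)
  refine Module.Finite.of_surjective _ (surj_of_sep hA hW
    (kapY σ Y J i ∘ₗ Submodule.subtype _ ∘ₗ φ) fun w _ => ?_)
  obtain ⟨z, rfl⟩ := kapY_surj σ Y J i w
  obtain ⟨l, hl, hv⟩ := hL1 (S.ιZ z)
  obtain ⟨m, hm, _, ⟨u, rfl⟩, he⟩ := Submodule.mem_sup.1 hv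
  obtain ⟨l', hl', _, ⟨m, hm', rfl⟩, rfl⟩ := Submodule.mem_sup.1 (hL2 hm)
  let u' : LinearMap.ker (zd σ Y J (i + 1)) := ⟨zd σ Y J i u, zd_zd σ Y J i u⟩
  obtain ⟨r, hr⟩ := hφ ⟨z - m - u', by
    have h2 : S.ιZ (z - m - u') = l + l' := by
      rw [map_sub, map_sub, eq_add_of_sub_eq he.symm]
      change l' + S.ιZ m + S.α u + l - S.ιZ m - S.α u = _
      abel
    rw [Submodule.mem_comap, h2]
    exact add_mem hl hl'⟩
  have h3 : kapY σ Y J i z = kapY σ Y J i (z - m - u') + kapY σ Y J i m := by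
    rw [map_sub, map_sub, (kapY_eq_zero σ Y J i u').2 ⟨u, rfl⟩]
    abel
  rw [h3]
  exact Submodule.add_mem_sup ⟨r, congrArg (kapY σ Y J i) (congrArg Subtype.val hr)⟩
    (msub_map_le _ 1 (fun _ _ => Submodule.mem_top) hm')

variable (C A) in
/-- The standing hypotheses on one side. -/
structure Good : Prop where
  asd : Nonempty (ASD C A)
  hk : IsFiniteLength C (kk A)
  sep : Sep A A
  lim : Lim A A
  gl : GDf A

variable (σ Y J) [Module.Finite A Y] [Module.Finite A' Y] (hA : Good C A) (hA' : Good C A')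

include hA hA' in
theorem exists_st (q : ℕ) : ∃ S : St σ Y J q, S.Inv X X.n ∧ Module.Finite A (WW σ Y q) := by
  obtain ⟨N, hN⟩ := hA.gl
  have fin : ∀ i j (S : St σ Y J i), q + N + X.n + 1 ≤ i + j + q → S.Inv X j →
      Module.Finite A (WW σ Y i) := by
    intro i j S hij h
    by_cases hi : N + 1 ≤ i
    · have : Subsingleton (WW σ Y i) := subsingleton_of_forall_eq 0 (ex_pd (hN Y) hi)
      infer_instance
    · exact S.finite X hA.lim (sep_bimod hA'.hk hA'.sep hA'.lim) h (by omega)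
  have key : ∀ j i, i + j = q + N + X.n + 1 → ∃ S : St σ Y J i, S.Inv X j := by
    intro j
    induction j with
    | zero =>
      exact fun i _ => ⟨⟨0, (LinearMap.ker (zd σ Y J (i + 1))).comap (LinearMap.snd A _ _), 0,
        fun x hx => hx, fun z hz => hz⟩, fun p hp => absurd hp (Nat.not_lt_zero p)⟩
    | succ j ih =>
      intro i hi
      obtain ⟨S, hS⟩ := ih (i + 1) (by omega)
      have := fin _ _ S (by omega) hS
      obtain ⟨e, φ, hφ⟩ := S.gen
      exact ⟨S.next φ, S.inv_next X hA.hk φ hφ hS⟩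
  obtain ⟨S, hS⟩ := key (N + X.n + 1) q (by omega)
  exact ⟨S, fun p hp => hS p (by omega), fin _ _ S (by omega) hS⟩

include hA hA' in
theorem WW.fin_left (q : ℕ) : Module.Finite A (WW σ Y q) := by
  obtain ⟨X⟩ := hA.asd
  obtain ⟨J⟩ := nonempty_injR C A
  obtain ⟨-, -, h⟩ := exists_st σ Y J X hA hA' q
  exact h

include hA hA' in
/-- The dual of a noetherian bimodule is torsionless on the other side. -/
theorem torsionless (z : ZZ σ Y A) (hz : z ≠ 0) : ∃ θ : ZZ σ Y A →ₗ[A] A, θ z ≠ 0 := by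
  obtain ⟨X⟩ := hA.asd
  obtain ⟨J⟩ := nonempty_injR C A
  obtain ⟨S, hS, _⟩ := exists_st σ Y J X hA hA' 0
  obtain ⟨N, hN⟩ := hA.gl
  have hZ : Subsingleton (Zt σ Y J 0) := inferInstanceAs (Subsingleton (Y →ₗ[A] J.E 0))
  obtain ⟨e, φ, hφ⟩ := S.gen
  have : Module.Finite A S.K := by
    refine Module.Finite.of_surjective φ (LinearMap.range_eq_top.1 ?_)
    rw [← hφ, eq_comm, sup_eq_left]
    rintro _ ⟨u, rfl⟩
    rw [Subsingleton.elim u 0, map_zero]
    exact Submodule.zero_mem _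
  have := X.proj σ N S.K (hN _) fun p hp => ((hS p hp).le hp).trans (sup_le le_rfl (by
    rintro _ ⟨u, -, rfl⟩
    rw [Subsingleton.elim u 0, map_zero]
    exact Submodule.zero_mem _))
  obtain ⟨u, hu⟩ := J.surj A 0 (m0 LinearMap.id)
  have hu' : ∀ a, u a = 0 → a = 0 := fun a ha => by
    have h1 : pre (rm a) (pre u (J.ε 0)) = 0 := by
      rw [pre_pre, show u ∘ₗ rm a = 0 from LinearMap.ext fun x => by
        rw [LinearMap.comp_apply, LinearMap.toSpanSingleton_apply, map_smul, ha, smul_zero]; rfl,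
        zero_pre]
    rw [hu, pre_m0, ← m0_zero] at h1
    simpa using LinearMap.congr_fun (m0_inj h1) 1
  let j : ZZ σ Y A →ₗ[A] S.K := S.ιZ ∘ₗ (zmap σ Y (Submodule.subtype _ ∘ₗ u)).codRestrict _
    fun w => LinearMap.ext fun y => (u (w.h y)).2
  obtain ⟨θ, hθ⟩ := Module.Projective.exists_dual_ne_zero A (x := j z) fun h => hz
    (LinearMap.ext fun y => hu' _ (Subtype.ext (LinearMap.congr_fun (congrArg S.π h) y)))
  exact ⟨θ ∘ₗ j, hθ⟩

include σ hA hA' in
/-- An element killed by all linear forms on one side is killed by all linear forms on the other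
side. -/
theorem forms_symm {y : Y} (hy : ∀ φ : Y →ₗ[A'] A', φ y = 0) (ψ : Y →ₗ[A] A) : ψ y = 0 := by
  have := WW.fin_left σ Y hA hA' 0
  let ev : Y →ₗ[A'] ZZ σ.symm (WW σ Y 0) A' :=
    { toFun := fun y => ev0 σ y
      map_add' := fun a b => LinearMap.ext fun w => by
        change σ.s (h0 w (a + b)) = σ.s (h0 w a) + σ.s (h0 w b)
        rw [map_add, map_add]
      map_smul' := fun a x => LinearMap.ext fun w => by
        obtain ⟨f, rfl⟩ := m0_surj w
        change ev0 σ (a • x) (m0 f) = ev0 σ x (pre (th σ Y (σ.symm.s a)) (m0 f))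
        rw [pre_m0, ev0_m0, ev0_m0]
        exact congrArg (fun t => σ.s (f (t • x))) (σ.s.apply_symm_apply a).symm }
  have h1 : ev y = 0 := by
    by_contra h
    obtain ⟨θ, hθ⟩ := torsionless σ.symm (WW σ Y 0) hA' hA _ h
    exact hθ (hy (θ ∘ₗ ev))
  exact (map_eq_zero_iff _ σ.s.injective).1
    ((ev0_m0 σ y ψ).symm.trans (LinearMap.congr_fun h1 (m0 ψ)))

end Pool.Agent.Lib.MP_95d09c_al
end

-- part Pool.Agent.Lib.MP_95d09c_al.MainC
section

/-!
A complete noetherian local ring of finite global dimension, whose residue module has Ext groups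
of finite length, is a domain.
-/

set_option autoImplicit false
set_option linter.unusedSectionVars false

namespace Pool.Agent.Lib.MP_95d09c_al

open CategoryTheory Abelian Matrix MulOpposite

attribute [local instance] ModuleCat.Algebra.instLinear

variable {C : Type} [CommRing C] {R : Type} [Ring R] [Algebra C R]

/-- The factor by a two-sided ideal as a bimodule. -/
def BQ (Q : TwoSidedIdeal R) : Type := R ⧸ lsub Q

section BQ

variable (Q : TwoSidedIdeal R)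

instance : AddCommGroup (BQ Q) := inferInstanceAs (AddCommGroup (R ⧸ lsub Q))

instance : Module R (BQ Q) := inferInstanceAs (Module R (R ⧸ lsub Q))

instance : Module C (BQ Q) := inferInstanceAs (Module C (R ⧸ lsub Q))

instance : IsScalarTower C R (BQ Q) := inferInstanceAs (IsScalarTower C R (R ⧸ lsub Q))

instance : Module.Finite R (BQ Q) := inferInstanceAs (Module.Finite R (R ⧸ lsub Q))

/-- The quotient map. -/
def BQ.mk : R →ₗ[R] BQ Q := (lsub Q).mkQ

theorem BQ.surj : Function.Surjective (BQ.mk Q) := (lsub Q).mkQ_surjective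

theorem BQ.eq_zero {x : R} : BQ.mk Q x = 0 ↔ x ∈ Q := mk_eq_zero

instance : Module Rᵐᵒᵖ (BQ Q) where
  smul a x := rho Q a.unop x
  one_smul x := by
    obtain ⟨x, rfl⟩ := BQ.surj Q x
    exact congrArg (BQ.mk Q) (mul_one x)
  mul_smul a b x := by
    obtain ⟨x, rfl⟩ := BQ.surj Q x
    exact congrArg (BQ.mk Q) (mul_assoc x _ _).symm
  smul_zero a := map_zero (rho Q a.unop)
  smul_add a := map_add (rho Q a.unop)
  add_smul a b x := by
    obtain ⟨x, rfl⟩ := BQ.surj Q x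
    exact (congrArg (BQ.mk Q) (mul_add x _ _)).trans (map_add _ _ _)
  zero_smul x := by
    obtain ⟨x, rfl⟩ := BQ.surj Q x
    exact (congrArg (BQ.mk Q) (mul_zero x)).trans (map_zero _)

theorem BQ.op_smul (a : Rᵐᵒᵖ) (x : R) : a • BQ.mk Q x = BQ.mk Q (x * a.unop) := rfl

instance : SMulCommClass R Rᵐᵒᵖ (BQ Q) :=
  ⟨fun r a x => (map_smul (rho Q a.unop) r x).symm⟩

instance : IsScalarTower C Rᵐᵒᵖ (BQ Q) := ⟨fun c a x => by
  obtain ⟨x, rfl⟩ := BQ.surj Q x
  rw [BQ.op_smul, BQ.op_smul, unop_smul, mul_smul_comm, LinearMap.map_smul_of_tower]⟩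

instance : Module.Finite Rᵐᵒᵖ (BQ Q) :=
  Module.Finite.of_surjective (LinearMap.toSpanSingleton Rᵐᵒᵖ (BQ Q) (BQ.mk Q 1)) fun x => by
    obtain ⟨x, rfl⟩ := BQ.surj Q x
    exact ⟨op x, congrArg (BQ.mk Q) (one_mul x)⟩

variable {Q}

theorem th_mem {p : R} (hp : p ∈ Q) : th (antiOp C R) (BQ Q) p = 0 := LinearMap.ext fun x => by
  obtain ⟨x, rfl⟩ := BQ.surj Q x
  exact (BQ.eq_zero Q).2 (Q.mul_mem_left _ _ hp)

end BQ

theorem post_colF {M : Type} [AddCommGroup M] [Module R M] {q g : ℕ}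
    (y : EX R M (Fin g → R) q) (z : Fin g → R) :
    post y (colF z) = ∑ j, post (post y (LinearMap.proj j)) (rm (z j)) := by
  simp only [post_post]
  rw [← post_sum]
  congr 1
  refine LinearMap.ext fun r => ?_
  simp [colF, dotProduct]

theorem ex_pi_zero {M : Type} [AddCommGroup M] [Module R M] {q g : ℕ}
    (y : EX R M (Fin g → R) q) (h : ∀ j, post y (LinearMap.proj j : (Fin g → R) →ₗ[R] R) = 0) :
    y = 0 := by
  rw [← post_id y, show (LinearMap.id : (Fin g → R) →ₗ[R] _) =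
    ∑ j, LinearMap.single R (fun _ => R) j ∘ₗ LinearMap.proj j from
      LinearMap.ext fun r => by simp [Finset.univ_sum_single], post_sum]
  exact Finset.sum_eq_zero fun j _ => by rw [← post_post, h, zero_post]

variable [IsLocalRing R] [IsNoetherianRing R] [IsNoetherianRing Rᵐᵒᵖ] [IsLocalRing Rᵐᵒᵖ]
  {Q : TwoSidedIdeal R} (T : Tower R (BQ Q))

theorem forms_kill {q : ℕ} {c : R} (hc : pre (th (antiOp C R) (BQ Q) c) (T.η (q + 2)) = 0)
    (w : WW (antiOp C R) (BQ Q) (q + 1)) (φ : WW (antiOp C R) (BQ Q) (q + 1) →ₗ[Rᵐᵒᵖ] Rᵐᵒᵖ) :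
    φ (c • w) = 0 := by
  obtain ⟨y, hy⟩ := (T.ses (q + 1)).r3 (pre (th (antiOp C R) (BQ Q) c) (T.η (q + 1)))
    ((pre_comp _ _ _ _).symm.trans hc)
  let u : Fin (T.g (q + 1)) → R := fun j => (φ (post y (LinearMap.proj j))).unop
  have key : ∀ f : T.Ω (q + 1) →ₗ[R] R, φ (pre (th (antiOp C R) (BQ Q) c)
      (post (T.η (q + 1)) f)) = op (f (T.p (q + 1) u)) := fun f => by
    rw [pre_post, ← hy, post_post, ← LinearMap.comp_apply f, eq_colF (f ∘ₗ _),
      post_colF]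
    refine (map_sum φ _ _).trans ?_
    change _ = op (∑ j, u j * _)
    rw [Finset.op_sum]
    exact Finset.sum_congr rfl fun j _ => φ.map_smul (op _) (post y (LinearMap.proj j))
  have h1 : T.p (q + 1) u = 0 := (T.ses q).inj (by
    ext j
    have h2 := key (LinearMap.proj j ∘ₗ T.ι q)
    rw [(T.ker q _).2 ⟨_, rfl⟩, pre_zero] at h2
    rw [map_zero]
    exact op_injective (h2.symm.trans (map_zero φ)))
  obtain ⟨f, rfl⟩ := T.surj0 (q + 1) w
  rw [WW.smul_def, key, h1, map_zero, op_zero]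

variable (hQ : Prm Q) {K : TwoSidedIdeal R} (hK : ∀ x, x ∈ K ↔ ∀ p ∈ Q, p * x = 0)
  (htf : ∀ c, Reg Q c → ∀ x ∈ K, c * x = 0 → x = 0) {x1 : R} (hx1 : x1 ∈ K) (hx1' : x1 ≠ 0)

include hQ hK htf hx1 hx1' in
theorem torsion_of_forms {W : Type} [AddCommGroup W] [Module R W] [IsNoetherian R W]
    (hW : ∀ p ∈ Q, ∀ w : W, p • w = 0) (h : ∀ (ψ : W →ₗ[R] R) (w : W), ψ w = 0) (w : W) :
    ∃ d, Reg Q d ∧ d • w = 0 := by
  by_contra hc
  have h1 : ¬ Ess Q (LinearMap.ker (LinearMap.toSpanSingleton R W w)) := fun he => by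
    obtain ⟨d, hd, hd'⟩ := exists_reg hQ he
    exact hc ⟨d, hd', hd⟩
  unfold Ess at h1
  push Not at h1
  obtain ⟨x, hx, hx'⟩ := h1
  obtain ⟨e, he, θ, hθ⟩ := exists_extend hQ (rore hQ) hW (LinearMap.toSpanSingleton R W (x • w))
    ((lsub Q).mkQ ∘ₗ rm x) fun r hr => mk_eq_zero.2 (hx' r ((mul_smul r x w).trans hr))
  obtain ⟨d, hd, hd'⟩ := exists_reg_ideal hQ (J := annL K) (a := x * e) (mem_annL.2 fun y hy => by
    have h2 := h ((lsub Q).liftQ (rm y) (fun p hp => (hK y).1 hy p hp) ∘ₗ θ)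
      (LinearMap.toSpanSingleton R W (x • w) 1)
    rw [LinearMap.comp_apply, hθ] at h2
    have h3 : 1 * x * e * y = 0 := h2
    simpa using h3) fun h => hx (he.2 x h)
  exact hx1' (htf d hd' x1 hx1 (mem_annL.1 hd x1 hx1))

include hQ hK htf hx1 hx1' in
theorem descend (hA : Good C R) (hA' : Good C Rᵐᵒᵖ) {q : ℕ} {c : R} (hc : Reg Q c)
    (h : pre (th (antiOp C R) (BQ Q) c) (T.η (q + 2)) = 0) :
    ∃ c, Reg Q c ∧ pre (th (antiOp C R) (BQ Q) c) (T.η (q + 1)) = 0 := by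
  have := WW.fin_left (antiOp C R) (BQ Q) hA hA' (q + 1)
  have hW : ∀ p ∈ Q, ∀ w : WW (antiOp C R) (BQ Q) (q + 1), p • w = 0 := fun p hp w => by
    rw [WW.smul_def, th_mem hp, zero_pre]
    rfl
  have h1 := torsion_of_forms hQ hK htf hx1 hx1' hW fun ψ w =>
    htf c hc _ ((hK _).2 fun p hp => by rw [← smul_eq_mul, ← map_smul, hW p hp, map_zero]) (by
      rw [← smul_eq_mul, ← map_smul]
      exact forms_symm (antiOp C R) _ hA hA' (forms_kill T h w) ψ)
  obtain ⟨d, hd, hd'⟩ := exists_common hQ (S := Rᵐᵒᵖ) (W := WW (antiOp C R) (BQ Q) (q + 1)) ⊤ ⊥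
    (fun a => DistribSMul.toLinearMap Rᵐᵒᵖ _ a) (fun a w hw => by rw [hw]; exact map_zero _)
    (fun _ _ _ => trivial) (fun a b w _ => sub_eq_zero.2 (mul_smul a b w))
    fun a b hab w _ => (sub_smul a b w).symm.trans (hW _ hab w)
  have h2 : ∀ w : WW (antiOp C R) (BQ Q) (q + 1), d • w = 0 := fun w => by
    obtain ⟨e, he, he'⟩ := h1 w
    simpa using hd' w trivial e he he' 1
  obtain ⟨y, hy⟩ := (T.ses (q + 1)).r3 (pre (th (antiOp C R) (BQ Q) c) (T.η (q + 1)))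
    ((pre_comp _ _ _ _).symm.trans h)
  refine ⟨d * c, hd.mul hc, ?_⟩
  rw [th_mul, ← pre_pre, ← hy, pre_post, ex_pi_zero (pre _ y) fun j =>
    (pre_post _ _ _).symm.trans (h2 _), zero_post]

include hK in
theorem bottom (hKQ : ∀ x ∈ K, x ∈ Q) {c : R}
    (h : pre (th (antiOp C R) (BQ Q) c) (T.η 1) = 0) : c ∈ Q := by
  obtain ⟨y, hy⟩ := (T.ses 0).r3 (pre (th (antiOp C R) (BQ Q) c) (T.η 0))
    ((pre_comp _ _ _ _).symm.trans h)
  obtain ⟨f, rfl⟩ := m0_surj y
  rw [post_m0, Tower.η, pre_m0] at hy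
  have h1 : T.p 0 (f (BQ.mk Q 1)) = T.e (BQ.mk Q (1 * c)) :=
    LinearMap.congr_fun (m0_inj hy) (BQ.mk Q 1)
  have h2 : T.p 0 (f (BQ.mk Q 1)) = 0 := by
    rw [eq_sum_single (f (BQ.mk Q 1)), map_sum]
    refine Finset.sum_eq_zero fun j _ => ?_
    obtain ⟨x, hx⟩ := T.e.surjective (T.p 0 (Pi.single j 1))
    obtain ⟨x, rfl⟩ := BQ.surj Q x
    rw [map_smul, ← hx, ← map_smul, ← map_smul, (BQ.eq_zero Q).2, map_zero]
    refine Q.mul_mem_right _ _ (hKQ _ ((hK _).2 fun p hp => ?_))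
    have h3 : p • BQ.mk Q 1 = 0 := quot_killed Q hp _
    have h4 := congrFun (f.map_smul p (BQ.mk Q 1)) j
    rw [h3, map_zero] at h4
    exact h4.symm
  rw [h2, eq_comm, map_eq_zero_iff _ T.e.injective, one_mul] at h1
  exact (BQ.eq_zero Q).1 h1

omit [IsLocalRing Rᵐᵒᵖ] in
theorem eq_zero_or_eq_zero_of_chi (hL : GDf R) (hR : GDf Rᵐᵒᵖ) (hk : IsFiniteLength C (kk R))
    (hχ : ∀ i, IsFiniteLength C (EX R (kk R) R i)) (h1 : Sep R R) (h2 : Lim R R) {a b : R}
    (hab : a * b = 0) : a = 0 ∨ b = 0 := by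
  by_contra hc
  push Not at hc
  have := op_local (Λ := R)
  have := isNoetherian_right (Λ := R)
  obtain ⟨N, hN, hN'⟩ := exists_nil' hL
  obtain ⟨x0, hx0, hx0'⟩ : ∃ x0 ∈ N, x0 ≠ 0 := by
    rcases hN' a b (hab ▸ N.zero_mem) with h | h
    · exact ⟨a, h, hc.1⟩
    · exact ⟨b, h, hc.2⟩
  obtain ⟨Q, hQ, hQ1, ⟨x1, hx1, hx1', hx1''⟩, htf⟩ := exists_ann_prime N hx0 hx0'
  obtain ⟨y, hy, hyQ⟩ : ∃ y, y ∉ N ∧ y ∈ Q := by
    obtain ⟨s, hs⟩ := IsNoetherian.noetherian (rsub N)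
    obtain ⟨y, hy, hy'⟩ := exists_ann' hL s fun x hx => (hN x).1 (by
      have : x ∈ rsub N := hs ▸ Submodule.subset_span hx
      exact this)
    refine ⟨y, fun h => hy ((hN y).1 h), hQ1 y fun x hx => ?_⟩
    have h1 : rsub N ≤ LinearMap.ker (lmul y) := by
      rw [← hs, Submodule.span_le]
      exact fun x hx => hy' x hx
    exact h1 hx
  let K : TwoSidedIdeal R := killed ⊤ Q fun a ha r => Q.mul_mem_right a r ha
  have hK : ∀ x, x ∈ K ↔ ∀ p ∈ Q, p * x = 0 := fun x => by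
    rw [mem_killed]; simp
  have hKN : ∀ x ∈ K, x ∈ N := fun x hx =>
    (hN' y x (by rw [(hK x).1 hx y hyQ]; exact N.zero_mem)).resolve_left hy
  have htf' : ∀ c, Reg Q c → ∀ x ∈ K, c * x = 0 → x = 0 := fun c hc x hx =>
    htf c hc x (hKN x hx) ((hK x).1 hx)
  have hKQ : ∀ x ∈ K, x ∈ Q := fun x hx => by
    by_contra h
    obtain ⟨r, hr⟩ := exists_not_nil_right hQ h
    obtain ⟨m, hm⟩ := (hN _).1 (N.mul_mem_right x r (hKN x hx))
    exact hr m (by rw [pow_succ, hm, zero_mul]; exact Q.zero_mem)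
  obtain ⟨n, hn⟩ := id hL
  obtain ⟨a1, a2⟩ := exists_asd (antiOp C R) hk hχ (hn _) hx0' ((hN x0).1 hx0).not_isUnit
  have hA : Good C R := ⟨a1, hk, h1, h2, hL⟩
  have hA' : Good C Rᵐᵒᵖ :=
    ⟨a2, (antiOp C R).fl_kk hk, (antiOp C R).sep h1, (antiOp C R).lim h2, hR⟩
  obtain ⟨T⟩ := nonempty_tower R (BQ Q)
  have key : ∀ j q, q + j = n →
      ∃ c, Reg Q c ∧ pre (th (antiOp C R) (BQ Q) c) (T.η (q + 1)) = 0 := by
    intro j
    induction j with
    | zero => exact fun q hq => ⟨1, Reg.one, ex_pd (hn _) (by omega) _⟩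
    | succ j ih =>
      intro q hq
      obtain ⟨c, hc, h⟩ := ih (q + 1) (by omega)
      exact descend T hQ hK htf' ((hK x1).2 hx1'') hx1' hA hA' hc h
  obtain ⟨c, hc, h⟩ := key n 0 (zero_add n)
  exact hc.notMem hQ (bottom T hK hKQ h)

theorem gdf_of_res {Λ : Type} [Ring Λ] (h : ∃ n : ℕ, ∀ M : ModuleCat.{0} Λ,
    ∃ (P : ℕ → ModuleCat.{0} Λ) (d : ∀ i : ℕ, P (i + 1) ⟶ P i) (ε : P 0 ⟶ M),
    (∀ i, Module.Projective Λ (P i)) ∧ Function.Surjective ε.hom ∧
    LinearMap.range (d 0).hom = LinearMap.ker ε.hom ∧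
    (∀ i, LinearMap.range (d (i + 1)).hom = LinearMap.ker (d i).hom) ∧
    (∀ i, n < i → Subsingleton (P i))) : GDf Λ := by
  obtain ⟨n, h⟩ := h
  refine ⟨n, fun E _ _ => ?_⟩
  obtain ⟨P, d, ε, hP, hε, h0, hd, hs⟩ := h (ModuleCat.of Λ E)
  have key : ∀ j i, i + j = n → PD Λ j (LinearMap.range (d i).hom) := by
    intro j
    induction j with
    | zero =>
      intro i hi
      have := hs (i + 1) (by omega)
      have : Subsingleton (LinearMap.range (d i).hom) :=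
        (LinearMap.surjective_rangeRestrict (d i).hom).subsingleton
      exact pd_zero
    | succ j ih =>
      intro i hi
      have := hP (i + 1)
      refine pd_quot (ι := (LinearMap.range (d (i + 1)).hom).subtype)
        (p := (d i).hom.rangeRestrict) (Submodule.injective_subtype _)
        (LinearMap.surjective_rangeRestrict _) ?_ (ih (i + 1) (by omega))
      rw [LinearMap.exact_iff, LinearMap.ker_rangeRestrict, Submodule.range_subtype, hd i]
  have := hP 0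
  refine pd_quot (ι := (LinearMap.range (d 0).hom).subtype) (p := ε.hom)
    (Submodule.injective_subtype _) hε ?_ (key n 0 (zero_add n))
  rw [LinearMap.exact_iff, Submodule.range_subtype, h0]

end Pool.Agent.Lib.MP_95d09c_al
end
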