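import Pool.Agent.Lib.MP_95d09c_al.ArDC
import Pool.Agent.Lib.MP_95d09c_al.MainC

/-!
Finiteness of Ext groups, the dual of a minimal resolution, and the Gorenstein condition.
-/

set_option autoImplicit false
set_option linter.unusedSectionVars false

namespace Pool.Agent.Lib.MP_95d09c_al

open CategoryTheory Abelian MulOpposite

theorem exists_desc {A M P X : Type} [Ring A] [AddCommGroup M] [Module A M] [AddCommGroup P]
    [Module A P] [AddCommGroup X] [Module A X] {p : M →ₗ[A] P} (hp : Function.Surjective p)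
    (f : M →ₗ[A] X) (hf : ∀ x, p x = 0 → f x = 0) : ∃ g : P →ₗ[A] X, ∀ x, g (p x) = f x := by
  refine ⟨(LinearMap.ker p).liftQ f hf ∘ₗ (p.quotKerEquivOfSurjective hp).symm.toLinearMap,
    fun x => ?_⟩
  have : (p.quotKerEquivOfSurjective hp).symm (p x) = Submodule.Quotient.mk x :=
    (LinearEquiv.symm_apply_eq _).2 rfl
  simp only [LinearMap.comp_apply, LinearEquiv.coe_coe, this]
  rfl

theorem fl_pi {C X : Type} [Ring C] [AddCommGroup X] [Module C X] (h : IsFiniteLength C X)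
    (g : ℕ) : IsFiniteLength C (Fin g → X) := by
  rw [isFiniteLength_iff_isNoetherian_isArtinian] at h ⊢
  obtain ⟨_, _⟩ := h
  exact ⟨inferInstance, inferInstance⟩

section Fin

variable {A A' B M : Type} [Ring A] [Ring A'] [AddCommGroup B] [Module A B] [Module A' B]
  [SMulCommClass A A' B] [SMulCommClass A' A B] [AddCommGroup M] [Module A M]

theorem hom_noeth [IsNoetherian A' B] [Module.Finite A M] : IsNoetherian A' (M →ₗ[A] B) := by
  obtain ⟨g, π, hπ⟩ := Module.Finite.exists_fin' A M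
  refine isNoetherian_of_injective (LinearMap.pi fun j : Fin g => evl A' (π (Pi.single j 1))) ?_
  rw [injective_iff_map_eq_zero]
  intro f hf
  refine LinearMap.ext fun x => ?_
  obtain ⟨r, rfl⟩ := hπ x
  rw [eq_sum_single r, map_sum, map_sum]
  refine Finset.sum_eq_zero fun j _ => ?_
  rw [map_smul, map_smul, show f (π (Pi.single j 1)) = 0 from congrFun hf j, smul_zero]

variable [IsLocalRing A] [IsNoetherianRing A]

theorem EB.noeth [IsNoetherian A' B] [Module.Finite A M] (q : ℕ) :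
    IsNoetherian A' (EB A' A M B q) := by
  obtain ⟨T⟩ := nonempty_tower A M
  have : Module.Finite A (T.Ω q) := Module.Finite.of_surjective _ (T.ses q).surj
  have := hom_noeth (A := A) (A' := A') (B := B) (M := T.Ω q)
  exact isNoetherian_of_surjective (EB.cl A' B (T.η q)) (LinearMap.range_eq_top.2 (T.surj0 q))

variable (A) in
/-- The opposite of the endomorphism ring of the residue module. -/
abbrev EE : Type := (Module.End A (kk A))ᵐᵒᵖ

theorem kk_simple : IsSimpleModule A (kk A) := by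
  rw [isSimpleModule_iff_isCoatom]
  refine ⟨(Ring.jacobson_lt_top A).ne, fun I hI => ?_⟩
  obtain ⟨a, ha, ha'⟩ := SetLike.exists_of_lt hI
  exact Ideal.eq_top_of_isUnit_mem I ha (not_not.1 (mt mem_jac.2 ha'))

theorem fl_EE {X : Type} [AddCommGroup X] [Module (EE A) X] [Module.Finite (EE A) X] :
    IsFiniteLength (EE A) X := by
  classical
  have := kk_simple (A := A)
  have h1 : IsArtinianRing (EE A) := DivisionSemiring.instIsArtinianRing
  have h2 : IsNoetherianRing (EE A) := inferInstance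
  exact isFiniteLength_iff_isNoetherian_isArtinian.2 ⟨inferInstance, inferInstance⟩

variable {N N' : Type} [AddCommGroup N] [Module A N] [AddCommGroup N'] [Module A N'] {q : ℕ}

noncomputable instance : Module (EE A) (EB A' A (kk A) N q) where
  smul f y := pre (M := kk A) f.unop y
  one_smul y := pre_id y
  mul_smul f g y := (pre_pre f.unop g.unop y).symm
  smul_zero _ := pre_zero _
  smul_add _ x y := pre_add _ x y
  add_smul f g y := add_pre f.unop g.unop y
  zero_smul y := zero_pre y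

instance : SMulCommClass A' (EE A) (EB A' A (kk A) B q) := ⟨fun _ _ _ => (pre_post _ _ _).symm⟩

variable (A' q) in
/-- Composition in the second variable. -/
noncomputable def EB.postE (g : N →ₗ[A] N') :
    EB A' A (kk A) N q →ₗ[EE A] EB A' A (kk A) N' q where
  toFun y := post y g
  map_add' x y := add_post x y g
  map_smul' _ _ := (pre_post _ _ _).symm

variable (A' q) in
/-- The connecting map. -/
noncomputable def EB.cnE {N'' : Type} [AddCommGroup N''] [Module A N''] {ι : N →ₗ[A] N'}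
    {p : N' →ₗ[A] N''} (h : SES ι p) :
    EB A' A (kk A) N'' q →ₗ[EE A] EB A' A (kk A) N (q + 1) where
  toFun y := h.cn q y
  map_add' x y := map_add (h.cn q) x y
  map_smul' _ _ := (h.cn_pre _ _).symm

variable (A N) in
/-- The Ext groups of the residue module are finite over its endomorphism ring. -/
def Chi0 : Prop := ∀ i, ∃ (m : ℕ) (s : Fin m → EX A (kk A) N i), ∀ x : EX A (kk A) N i,
  ∃ f : Fin m → (kk A →ₗ[A] kk A), x = ∑ j, pre (f j) (s j)

theorem Chi0.fl (h : Chi0 A N) (q : ℕ) : IsFiniteLength (EE A) (EB A' A (kk A) N q) := by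
  obtain ⟨m, s, hs⟩ := h q
  have : Module.Finite (EE A) (EB A' A (kk A) N q) :=
    Module.Finite.of_surjective
      (Fintype.linearCombination (EE A) (show Fin m → EB A' A (kk A) N q from s)) fun x => by
      obtain ⟨f, rfl⟩ := hs x
      exact ⟨fun j => op (f j), Fintype.linearCombination_apply _ _ _⟩
  exact fl_EE

theorem fe_free (h : IsFiniteLength (EE A) (EB A' A (kk A) A q)) (g : ℕ) :
    IsFiniteLength (EE A) (EB A' A (kk A) (Fin g → A) q) := by
  refine (fl_pi h g).of_injective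
    (f := LinearMap.pi fun j => EB.postE A' q (LinearMap.proj j : (Fin g → A) →ₗ[A] A)) ?_
  rw [injective_iff_map_eq_zero]
  intro y hy
  exact ex_pi_zero (M := kk A) y fun j => congrFun hy j

theorem fe_pd (h : ∀ q, IsFiniteLength (EE A) (EB A' A (kk A) A q)) (n : ℕ) :
    ∀ (N : Type) [AddCommGroup N] [Module A N] [Module.Finite A N], PD A (n + 1) N →
      ∀ q, IsFiniteLength (EE A) (EB A' A (kk A) N q) := by
  induction n with
  | zero =>
    intro N _ _ _ hN q
    obtain ⟨g, π, hπ⟩ := Module.Finite.exists_fin' A N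
    have := pd_one hN
    obtain ⟨s, hs⟩ := Module.projective_lifting_property π LinearMap.id hπ
    refine (fe_free (h q) g).of_surjective (f := EB.postE A' q π)
      fun x : EX A (kk A) N q => ⟨post x s, ?_⟩
    change post (post x s) π = x
    rw [post_post, hs, post_id]
  | succ n ih =>
    intro N _ _ _ hN q
    obtain ⟨g, π, hπ⟩ := Module.Finite.exists_fin' A N
    exact fl_of_ex (EB.postE A' q π) (EB.cnE A' q (SES.ker hπ))
      (fun y hy => (SES.ker hπ).r3 y hy) (fe_free (h q) g) (ih _ (pd_ker' π hπ hN) _)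

theorem eb_dev (h : IsFiniteLength A' (EB A' A (kk A) B q)) {T : Type} [AddCommGroup T]
    [Module A T] (hT : IsFiniteLength A T) : IsFiniteLength A' (EB A' A T B q) := by
  induction hT with
  | @of_subsingleton M _ _ _ =>
    have : Subsingleton (EB A' A M B q) := subsingleton_of_forall_eq 0 ex_triv
    exact .of_subsingleton
  | @of_simple_quotient M _ _ V _ _ ih =>
    obtain ⟨e⟩ := simple_equiv (A := A) (M ⧸ V)
    refine fl_of_ex (EB.pre A' B q V.mkQ) (EB.pre A' B q V.subtype) (SES.quot V).l2 ?_ ih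
    refine h.of_surjective (f := EB.pre A' B q e.symm.toLinearMap) fun x =>
      ⟨pre e.toLinearMap x, (pre_pre _ _ _).trans ?_⟩
    rw [LinearEquiv.comp_symm]
    exact pre_id x

variable [IsLocalRing A'] [IsNoetherian A' B] [Module.Finite A B] (e : A ≃ₗ[A] N) (hG : GDf A)
  (χ : Chi0 A N)

include e hG χ in
theorem eb_fl (q : ℕ) : IsFiniteLength A' (EB A' A (kk A) B q) := by
  obtain ⟨n, hn⟩ := hG
  have := EB.noeth (A := A) (A' := A') (B := B) (M := kk A) q
  refine lenagan (fe_pd (fun q => ?_) n B (hn B) q)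
  refine (χ.fl q).of_surjective (f := EB.postE A' q e.symm.toLinearMap) fun x =>
    ⟨post x e.toLinearMap, (post_post _ _ _).trans ?_⟩
  rw [LinearEquiv.symm_comp]
  exact post_id x

include e hG χ in
theorem chiB_of : ChiB A' A B := fun j q => eb_dev (eb_fl e hG χ q) (AQ.fl j)

end Fin

section Dual

variable {A A' U : Type} [Ring A] [Ring A'] [AddCommGroup U] [Module A U] [Module A' U]
  [SMulCommClass A A' U] [SMulCommClass A' A U] (u : Un A A' U)
  {L M X : Type} [AddCommGroup L] [Module A L] [AddCommGroup M] [Module A M]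
  [AddCommGroup X] [Module A' X] {g : ℕ}

variable (A' U) in
/-- The dual of a linear map. -/
def hc (f : L →ₗ[A] M) : (M →ₗ[A] U) →ₗ[A'] (L →ₗ[A] U) where
  toFun ω := ω ∘ₗ f
  map_add' _ _ := rfl
  map_smul' _ _ := rfl

/-- The coordinate forms. -/
def Un.ε (j : Fin g) : (Fin g → A) →ₗ[A] U := u.e.toLinearMap ∘ₗ LinearMap.proj j

theorem Un.eq_sum (ω : (Fin g → A) →ₗ[A] U) :
    ω = ∑ j, u.e'.symm (ω (Pi.single j 1)) • u.ε j := by
  refine LinearMap.ext fun r => ?_
  conv_lhs => rw [eq_sum_single r, map_sum]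
  rw [LinearMap.sum_apply]
  refine Finset.sum_congr rfl fun j _ => ?_
  have h1 : u.e (r j) = r j • u.e' 1 := by rw [← u.one, ← map_smul, smul_eq_mul, mul_one]
  change _ = u.e'.symm (ω (Pi.single j 1)) • u.e (r j)
  rw [map_smul, h1, ← smul_comm, ← map_smul u.e', smul_eq_mul, mul_one, u.e'.apply_symm_apply]

theorem Un.hom_ext {φ ψ : ((Fin g → A) →ₗ[A] U) →ₗ[A'] X} (h : ∀ j, φ (u.ε j) = ψ (u.ε j)) :
    φ = ψ := LinearMap.ext fun ω => by
  rw [u.eq_sum ω, map_sum, map_sum]
  exact Finset.sum_congr rfl fun j _ => by rw [map_smul, map_smul, h]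

include u in
theorem Un.exists_ev (φ : ((Fin g → A) →ₗ[A] U) →ₗ[A'] U) : ∃ r, φ = evl A' r :=
  ⟨fun j => u.e.symm (φ (u.ε j)), u.hom_ext fun _ => (u.e.apply_symm_apply _).symm⟩

theorem Un.ev_inj {r : Fin g → A} (h : ∀ j, u.ε j r = 0) : r = 0 :=
  funext fun j => (map_eq_zero_iff _ u.e.injective).1 (h j)

/-- The dual of a free module is free. -/
noncomputable def Un.fr (g : ℕ) : ((Fin g → A) →ₗ[A] U) ≃ₗ[A'] (Fin g → A') :=
  (LinearEquiv.piRing A U (Fin g) A').trans (LinearEquiv.piCongrRight fun _ => u.e'.symm)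

include u in
theorem Un.proj (g : ℕ) : Module.Projective A' ((Fin g → A) →ₗ[A] U) :=
  Module.Projective.of_equiv (u.fr g).symm

include u in
theorem Un.fin (g : ℕ) : Module.Finite A' ((Fin g → A) →ₗ[A] U) :=
  Module.Finite.equiv (u.fr g).symm

variable (T : Tower A M) (A' U)

/-- The terms of the dual complex. -/
abbrev Tower.G (p : ℕ) : Type := (Fin (T.g p) → A) →ₗ[A] U

/-- The differential of the dual complex. -/
def Tower.d (p : ℕ) : T.G U p →ₗ[A'] T.G U (p + 1) := hc A' U (T.ι p ∘ₗ T.p (p + 1))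

/-- The boundaries of the dual complex. -/
def Tower.bd : ∀ p, Submodule A' (T.G U p)
  | 0 => ⊥
  | p + 1 => LinearMap.range (T.d A' U p)

/-- The cokernels of the dual complex. -/
abbrev Tower.Cq (p : ℕ) : Type := T.G U p ⧸ T.bd A' U p

theorem Tower.d_bd {p : ℕ} {ω : T.G U p} (h : ω ∈ T.bd A' U p) : T.d A' U p ω = 0 := by
  cases p with
  | zero => rw [show ω = 0 from h, map_zero]
  | succ p =>
    obtain ⟨ω, rfl⟩ := h
    refine LinearMap.ext fun r => ?_
    change ω (T.ι p (T.p (p + 1) (T.ι (p + 1) (T.p (p + 2) r)))) = 0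
    rw [(T.ses (p + 1)).ex.apply_apply_eq_zero, map_zero, map_zero]

/-- The map from a cokernel onto the next boundaries. -/
def Tower.ψ (p : ℕ) : T.Cq A' U p →ₗ[A'] T.bd A' U (p + 1) :=
  (T.bd A' U p).liftQ ((T.d A' U p).codRestrict _ fun ω => ⟨ω, rfl⟩)
    fun _ h => Subtype.ext (T.d_bd A' U h)

theorem Tower.ψ_surj (p : ℕ) : Function.Surjective (T.ψ A' U p) := by
  rintro ⟨_, ω, rfl⟩
  exact ⟨Submodule.Quotient.mk ω, rfl⟩

/-- The cohomology of the dual complex. -/
abbrev Tower.Lc (p : ℕ) : Submodule A' (T.Cq A' U p) := LinearMap.ker (T.ψ A' U p)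

/-- Forms on a syzygy give cohomology classes. -/
def Tower.toL (p : ℕ) : (T.Ω p →ₗ[A] U) →ₗ[A'] T.Lc A' U p :=
  ((T.bd A' U p).mkQ ∘ₗ hc A' U (T.p p)).codRestrict _ fun ω =>
    Subtype.ext (LinearMap.ext fun r => by
      change ω (T.p p (T.ι p (T.p (p + 1) r))) = 0
      rw [(T.ses p).ex.apply_apply_eq_zero, map_zero])

theorem Tower.toL_surj (p : ℕ) : Function.Surjective (T.toL A' U p) := by
  rintro ⟨z, hz⟩
  obtain ⟨ω, rfl⟩ := Submodule.mkQ_surjective _ z
  obtain ⟨f, hf⟩ := exists_desc (T.ses p).surj ω fun x hx => by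
    obtain ⟨y, rfl⟩ := ((T.ses p).ex x).1 hx
    obtain ⟨r, rfl⟩ := (T.ses (p + 1)).surj y
    exact LinearMap.congr_fun (congrArg Subtype.val hz) r
  exact ⟨f, Subtype.ext (congrArg (T.bd A' U p).mkQ (LinearMap.ext hf))⟩

theorem Tower.toL_eq_zero {p : ℕ} (f : T.Ω p →ₗ[A] U) :
    T.toL A' U p f = 0 ↔ EB.cl A' U (T.η p) f = 0 := by
  refine Subtype.ext_iff.trans (mkQ_eq_zero.trans ?_)
  cases p with
  | zero =>
    refine ⟨fun h => ?_, fun h => ?_⟩
    · rw [show f = 0 from LinearMap.ext fun x => by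
        obtain ⟨r, rfl⟩ := (T.ses 0).surj x
        exact LinearMap.congr_fun h r, map_zero]
    · rw [T.ker0 f h, map_zero]
      exact zero_mem _
  | succ p =>
    refine Iff.trans ⟨?_, ?_⟩ (T.ker p f).symm
    · rintro ⟨ω, h⟩
      refine ⟨ω, LinearMap.ext fun x => ?_⟩
      obtain ⟨r, rfl⟩ := (T.ses (p + 1)).surj x
      exact (LinearMap.congr_fun h r).symm
    · rintro ⟨ω, rfl⟩
      exact ⟨ω, rfl⟩

variable {A' U}

theorem Tower.flL {p : ℕ} (h : IsFiniteLength A' (EB A' A M U p)) :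
    IsFiniteLength A' (T.Lc A' U p) :=
  fl_of_ker (EB.cl A' U (T.η p)) (T.surj0 p) _ (T.toL_surj A' U p) (fun f => (T.toL_eq_zero A' U f).2) h

theorem Tower.L_kill {p : ℕ} {a : A'} (h : ∀ w : EB A' A M U p, a • w = 0) (z : T.Lc A' U p) :
    a • z = 0 := by
  obtain ⟨f, rfl⟩ := T.toL_surj A' U p z
  rw [← map_smul, T.toL_eq_zero A' U, map_smul, h]

include u in
theorem Tower.exact {p : ℕ} (φ : T.G U (p + 1) →ₗ[A'] U)
    (h : ∀ ω, φ (T.d A' U p ω) = 0) : ∃ ψ : T.G U (p + 2) →ₗ[A'] U,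
      ∀ ω, φ ω = ψ (T.d A' U (p + 1) ω) := by
  obtain ⟨r, rfl⟩ := u.exists_ev φ
  have h1 : T.p (p + 1) r = 0 :=
    (T.ses p).inj ((u.ev_inj fun j => h (u.ε j)).trans (map_zero _).symm)
  obtain ⟨x, rfl⟩ := ((T.ses (p + 1)).ex r).1 h1
  obtain ⟨s, rfl⟩ := (T.ses (p + 2)).surj x
  exact ⟨evl A' s, fun _ => rfl⟩

include u in
theorem Tower.form_kill {p : ℕ} (f : T.Cq A' U (p + 1) →ₗ[A'] U) {z : T.Cq A' U (p + 1)}
    (hz : z ∈ T.Lc A' U (p + 1)) : f z = 0 := by
  obtain ⟨ψ, hψ⟩ := T.exact u (f ∘ₗ Submodule.mkQ _) fun ω =>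
    (congrArg f ((mkQ_eq_zero (V := T.bd A' U (p + 1))).2 ⟨ω, rfl⟩)).trans (map_zero f)
  obtain ⟨ω, rfl⟩ := Submodule.mkQ_surjective _ z
  exact (hψ ω).trans ((congrArg ψ (congrArg Subtype.val hz)).trans (map_zero ψ))

include u in
theorem Tower.one {p : ℕ} (x : EX A' (T.Cq A' U (p + 2)) U 1) : x = 0 := by
  have := u.proj (T.g (p + 2))
  obtain ⟨y, rfl⟩ := (SES.quot _).l3 x (ex_proj _)
  obtain ⟨f, rfl⟩ := m0_surj y
  obtain ⟨ψ, hψ⟩ := T.exact u (f ∘ₗ T.ψ A' U (p + 1) ∘ₗ Submodule.mkQ _) fun ω => by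
    rw [LinearMap.comp_apply, LinearMap.comp_apply,
      (mkQ_eq_zero (V := T.bd A' U (p + 1))).2 ⟨ω, rfl⟩, map_zero, map_zero]
  have h4 : f = ψ ∘ₗ (T.bd A' U (p + 2)).subtype := by
    refine LinearMap.ext ?_
    rintro ⟨_, ω, rfl⟩
    exact hψ ω
  change post _ f = 0
  rw [h4, ← post_post, (SES.quot _).post_cls, zero_post]

include u in
theorem Tower.step {t p : ℕ} (h1 : ∀ x : EX A' (T.Cq A' U p) U (t + 1), x = 0)
    (h2 : ∀ x : EX A' (T.Lc A' U p) U t, x = 0)
    (x : EX A' (T.Cq A' U (p + 1)) U (t + 2)) : x = 0 := by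
  have := u.proj (T.g (p + 1))
  obtain ⟨y, rfl⟩ := (SES.quot _).l3 x (ex_proj _)
  obtain ⟨w, rfl⟩ := (SES.ker (T.ψ_surj A' U p)).l3 y (h1 _)
  rw [h2 w, Ext.comp_zero, Ext.comp_zero]

theorem Tower.L_top {n : ℕ} (h : T.g (n + 1) = 0) (z : T.Cq A' U n) : z ∈ T.Lc A' U n := by
  have : IsEmpty (Fin (T.g (n + 1))) := by rw [h]; infer_instance
  exact Subtype.ext (LinearMap.ext fun r => by rw [Subsingleton.elim r 0, map_zero, map_zero])

variable [IsLocalRing A]

theorem Tower.ε_ne {n : ℕ} (j : Fin (T.g n)) : u.ε j ∉ T.bd A' U n := by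
  intro h
  have h1 : u.ε j (Pi.single j 1) = u.e 1 := congrArg u.e (by simp)
  cases n with
  | zero =>
    rw [show u.ε j = 0 from h] at h1
    exact one_ne_zero ((map_eq_zero_iff _ u.e.injective).1 h1.symm)
  | succ n =>
    obtain ⟨ω, hω⟩ := h
    have h2 := msub_map_le (u.e.symm.toLinearMap ∘ₗ ω) 1 (V := ⊤) (fun _ _ => trivial)
      (mem_msub_top_of_nu (T.min n (T.p (n + 1) (Pi.single j 1))))
    have h3 : ω (T.ι n (T.p (n + 1) (Pi.single j 1))) = u.e 1 :=
      (LinearMap.congr_fun hω _).trans h1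
    rw [LinearMap.comp_apply, h3, LinearEquiv.coe_coe, u.e.symm_apply_apply] at h2
    exact mp_one.1 (mem_mp.2 h2) isUnit_one

include u in
theorem Tower.top_ne {n : ℕ} (h : T.g (n + 1) = 0) (h' : 0 < T.g n) :
    ∃ x : EX A M U n, x ≠ 0 := by
  obtain ⟨f, hf⟩ := T.toL_surj A' U n ⟨_, T.L_top h (Submodule.mkQ _ (u.ε ⟨0, h'⟩))⟩
  exact ⟨EB.cl A' U (T.η n) f, fun h0 => T.ε_ne u _
    (mkQ_eq_zero.1 (congrArg Subtype.val (hf.symm.trans ((T.toL_eq_zero A' U f).2 h0))))⟩

theorem Tower.pd_of {n : ℕ} (h : T.g (n + 1) = 0) : PD A (n + 1) M := by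
  have key : ∀ j q, q + j = n + 1 → PD A j (T.Ω q) := by
    intro j
    induction j with
    | zero =>
      rintro _ rfl
      have : IsEmpty (Fin (T.g (n + 1))) := by rw [h]; infer_instance
      have : Subsingleton (T.Ω (n + 1)) := (T.ses (n + 1)).surj.subsingleton
      exact pd_zero
    | succ j ih =>
      exact fun q hq => pd_quot (T.ses q).inj (T.ses q).surj (T.ses q).ex (ih _ (by omega))
  have : HasProjectiveDimensionLT (ModuleCat.of A (T.Ω 0)) (n + 1) := key _ 0 (zero_add _)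
  exact hasProjectiveDimensionLT_of_iso T.e.symm.toModuleIso _

theorem Tower.exists_top [IsNoetherianRing A] [Nontrivial M] {N : ℕ} (h : PD A (N + 1) M) :
    ∃ n, T.g (n + 1) = 0 ∧ 0 < T.g n := by
  classical
  have hex : ∃ n, T.g (n + 1) = 0 := by
    have := pd_one (T.pd N 0 (by rw [zero_add]; exact h))
    have h1 := Cover.inj ⟨T.g N, T.p N, (T.ses N).surj, fun x hx j => by
      obtain ⟨y, rfl⟩ := ((T.ses N).ex x).1 hx
      exact T.min N y j⟩
    refine ⟨N, by_contra fun h0 => ?_⟩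
    let j : Fin (T.g (N + 1)) := ⟨0, Nat.pos_of_ne_zero h0⟩
    have h2 : T.p (N + 1) (Pi.single j 1) = 0 := (T.ses N).inj (h1 (by
      rw [map_zero, map_zero]
      exact (T.ses N).ex.apply_apply_eq_zero _))
    obtain ⟨y, hy⟩ := ((T.ses (N + 1)).ex _).1 h2
    exact T.min (N + 1) y j (by rw [hy]; simp)
  refine ⟨Nat.find hex, Nat.find_spec hex, ?_⟩
  rcases h0 : Nat.find hex with _ | n
  · refine Nat.pos_of_ne_zero fun h1 => ?_
    have : IsEmpty (Fin (T.g 0)) := by rw [h1]; infer_instance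
    have : Subsingleton (T.Ω 0) := (T.ses 0).surj.subsingleton
    exact not_subsingleton M T.e.injective.subsingleton
  · exact Nat.pos_of_ne_zero (Nat.find_min hex (m := n) (by omega))

variable [IsLocalRing A']

include u in
theorem Tower.depth (fl : ∀ p, IsFiniteLength A' (EB A' A M U p)) {n : ℕ}
    (h : T.g (n + 1) = 0) (h' : 0 < T.g n) (d : ℕ) :
    d ≤ n → ∀ i < d, ∀ x : EX A' (kk A') U i, x = 0 := by
  induction d with
  | zero => exact fun _ i hi => absurd hi (Nat.not_lt_zero i)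
  | succ d ih =>
    intro hd i hi
    replace ih := ih (by omega)
    rcases Nat.lt_succ_iff_lt_or_eq.1 hi with h | rfl
    · exact ih i h
    have : Nontrivial (T.Cq A' U n) :=
      nontrivial_of_ne _ 0 fun h0 => T.ε_ne u ⟨0, h'⟩ (mkQ_eq_zero.1 h0)
    refine dev_low ih ((T.flL (fl n)).of_surjective (f := Submodule.subtype _)
      fun z => ⟨⟨z, T.L_top h z⟩, rfl⟩) ?_
    rcases i with _ | i
    · intro x
      obtain ⟨f, rfl⟩ := m0_surj x
      obtain ⟨n, rfl⟩ : ∃ m, n = m + 1 := ⟨n - 1, by omega⟩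
      rw [show f = 0 from LinearMap.ext fun z => T.form_kill u f (T.L_top h z), m0_zero]
    have key : ∀ t p, t ≤ i → t + 2 ≤ p → ∀ x : EX A' (T.Cq A' U p) U (t + 1), x = 0 := by
      intro t
      induction t with
      | zero =>
        rintro (_ | _ | p) _ hp
        · omega
        · omega
        · exact T.one u
      | succ t iht =>
        rintro (_ | p) ht hp
        · omega
        · exact T.step u (iht p (by omega) (by omega)) (dev_van (ih t (by omega)) (T.flL (fl p)))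
    exact key i n le_rfl (by omega)

variable (A U) in
/-- The Gorenstein condition. -/
structure ASP (n : ℕ) : Prop where
  van : ∀ i < n, ∀ x : EX A (kk A) U i, x = 0
  top : ∃ x : EX A (kk A) U n, x ≠ 0
  pd : PD A (n + 1) (kk A)

variable [IsNoetherianRing A] [IsNoetherianRing A']

include u in
theorem exists_half (hG : GDf A) (χ : Chi0 A U) : ∃ n, PD A (n + 1) (kk A) ∧
    (∃ x : EX A (kk A) U n, x ≠ 0) ∧ ∀ i < n, ∀ x : EX A' (kk A') U i, x = 0 := by
  obtain ⟨T⟩ := nonempty_tower A (kk A)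
  have := kk_simple (A := A)
  have := IsSimpleModule.nontrivial A (kk A)
  obtain ⟨N, hN⟩ := id hG
  obtain ⟨n, h, h'⟩ := T.exists_top (hN _)
  have : IsNoetherian A' U := isNoetherian_of_linearEquiv u.e'
  have : Module.Finite A U := Module.Finite.equiv u.e
  exact ⟨n, T.pd_of h, T.top_ne u h h', T.depth u (eb_fl u.e hG χ) h h' n le_rfl⟩

include u in
theorem exists_asp (hG : GDf A) (χ : Chi0 A U) (hG' : GDf A') (χ' : Chi0 A' U) :
    ∃ n, ASP A U n ∧ ASP A' U n := by
  obtain ⟨n, h1, ⟨x, hx⟩, h3⟩ := exists_half u hG χ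
  obtain ⟨n', h1', ⟨x', hx'⟩, h3'⟩ := exists_half u.symm hG' χ'
  obtain rfl : n = n' :=
    le_antisymm (not_lt.1 fun h => hx' (h3 _ h x')) (not_lt.1 fun h => hx (h3' _ h x))
  exact ⟨n, ⟨h3', ⟨x, hx⟩, h1⟩, ⟨h3, ⟨x', hx'⟩, h1'⟩⟩

end Dual

end Pool.Agent.Lib.MP_95d09c_al
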