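import Pool.Agent.Lib.MP_95d09c_al.ArDual

/-!
The top local cohomology of the ring is an injective cogenerator on both sides.
-/

set_option autoImplicit false
set_option linter.unusedSectionVars false

namespace Pool.Agent.Lib.MP_95d09c_al

open CategoryTheory Abelian

variable (A H : Type) [Ring A] [AddCommGroup H] [Module A H]

/-- Injectivity relative to finitely generated modules. -/
def InjFG : Prop := ∀ (N0 N : Type) [AddCommGroup N0] [Module A N0] [AddCommGroup N] [Module A N]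
  [Module.Finite A N0] [Module.Finite A N] (j : N0 →ₗ[A] N) (f : N0 →ₗ[A] H),
  (∀ x, j x = 0 → f x = 0) → ∃ g : N →ₗ[A] H, ∀ x, g (j x) = f x

/-- A nonzero element killed by the maximal ideal. -/
def Soc : Prop := ∃ h : H, h ≠ 0 ∧ ∀ μ : A, ¬ IsUnit μ → μ • h = 0

variable {A H}

theorem InjFG.cog (h : InjFG A H) (h' : Soc A H) {X : Type} [AddCommGroup X] [Module A X]
    [Module.Finite A X] {x : X} (hx : x ≠ 0) : ∃ f : X →ₗ[A] H, f x ≠ 0 := by
  obtain ⟨y, hy, hy'⟩ := h'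
  obtain ⟨g, hg⟩ := h A X (LinearMap.toSpanSingleton A X x) (LinearMap.toSpanSingleton A H y)
    fun a ha => hy' a fun hu => hx (by
      obtain ⟨b, hb⟩ := hu.exists_left_inv
      have h1 : a • x = 0 := ha
      rw [← one_smul A x, ← hb, mul_smul, h1, smul_zero])
  refine ⟨g, fun h0 => hy ?_⟩
  simpa [h0] using (hg 1).symm

theorem InjFG.equiv {H' : Type} [AddCommGroup H'] [Module A H'] (h : InjFG A H)
    (e : H ≃ₗ[A] H') : InjFG A H' := by
  intro N0 N _ _ _ _ _ _ j f hf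
  obtain ⟨g, hg⟩ := h N0 N j (e.symm.toLinearMap ∘ₗ f) fun x hx => by
    rw [LinearMap.comp_apply, hf x hx, map_zero]
  exact ⟨e.toLinearMap ∘ₗ g, fun x => (congrArg e (hg x)).trans (e.apply_symm_apply _)⟩

theorem Soc.equiv {H' : Type} [AddCommGroup H'] [Module A H'] (h : Soc A H)
    (e : H ≃ₗ[A] H') : Soc A H' := by
  obtain ⟨y, hy, hy'⟩ := h
  exact ⟨e y, mt (map_eq_zero_iff _ e.injective).1 hy, fun μ hμ => by
    rw [← map_smul, hy' μ hμ, map_zero]⟩

theorem sum_pre {L M N ι : Type} [AddCommGroup L] [Module A L] [AddCommGroup M] [Module A M]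
    [AddCommGroup N] [Module A N] {q : ℕ} (s : Finset ι) (f : ι → L →ₗ[A] M) (x : EX A M N q) :
    pre (∑ i ∈ s, f i) x = ∑ i ∈ s, pre (f i) x :=
  map_sum (AddMonoidHom.mk' (fun g : L →ₗ[A] M => pre g x) fun f g => add_pre f g x) f s

theorem pre_sum {L M N ι : Type} [AddCommGroup L] [Module A L] [AddCommGroup M] [Module A M]
    [AddCommGroup N] [Module A N] {q : ℕ} (s : Finset ι) (f : L →ₗ[A] M) (x : ι → EX A M N q) :
    pre f (∑ i ∈ s, x i) = ∑ i ∈ s, pre f (x i) :=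
  map_sum (AddMonoidHom.mk' (pre f) (pre_add f)) x s

section Psi

variable [IsLocalRing A] {U X X' : Type} [AddCommGroup U] [Module A U] [AddCommGroup X]
  [Module A X] [AddCommGroup X'] [Module A X'] {n c c' : ℕ}

/-- An extension class gives a linear map to the local cohomology. -/
noncomputable def psi (hX : ∀ a ∈ mp A c, ∀ x : X, a • x = 0) (ξ : EX A X U n) :
    X →ₗ[A] LC A U n where
  toFun x := LC.of c (pre (AQ.lift x fun a ha => hX a ha x) ξ)
  map_add' x y := by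
    rw [← map_add, ← add_pre]
    congr 2
    exact AQ.ext (by rw [LinearMap.add_apply, AQ.lift_one, AQ.lift_one, AQ.lift_one])
  map_smul' a x := by
    rw [RingHom.id_apply, LC.smul_of, pre_pre]
    congr 2
    exact AQ.ext (by rw [LinearMap.comp_apply, rho_one', map_smul, AQ.lift_one, AQ.lift_one])

theorem psi_eq (hX : ∀ a ∈ mp A c, ∀ x : X, a • x = 0) (ξ : EX A X U n) (f : AQ A c' →ₗ[A] X)
    (h : c ≤ c') : psi hX ξ (f (AQ.one A c')) = LC.of c' (pre f ξ) := by
  change LC.of c _ = _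
  rw [← LC.of_pre h, pre_pre]
  congr 2
  exact AQ.ext (by rw [LinearMap.comp_apply, prj_one, AQ.lift_one])

theorem psi_pre (hX : ∀ a ∈ mp A c, ∀ x : X, a • x = 0) (hX' : ∀ a ∈ mp A c', ∀ x : X', a • x = 0)
    (h : c ≤ c') (g : X' →ₗ[A] X) (ξ : EX A X U n) (x : X') :
    psi hX' (pre g ξ) x = psi hX ξ (g x) := by
  have h1 := psi_eq hX ξ (g ∘ₗ AQ.lift x fun a ha => hX' a ha x) h
  rw [LinearMap.comp_apply, AQ.lift_one, ← pre_pre] at h1
  exact h1.symm

theorem LC.exists_kill [Module.Finite A X] (f : X →ₗ[A] LC A U n) :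
    ∃ c, ∀ a ∈ mp A c, ∀ x, a • f x = 0 := by
  obtain ⟨g, π, hπ⟩ := Module.Finite.exists_fin' A X
  obtain ⟨c, y, hy⟩ := LC.surj_fin fun i : Fin g => f (π (Pi.single i 1))
  refine ⟨c, fun a ha x => ?_⟩
  obtain ⟨r, rfl⟩ := hπ x
  rw [eq_sum_single r, map_sum, map_sum, Finset.smul_sum]
  refine Finset.sum_eq_zero fun i _ => ?_
  rw [map_smul, map_smul, ← mul_smul, ← hy, LC.smul_of, rho_mem ((mp A c).mul_mem_right _ _ ha),
    zero_pre, map_zero]

theorem exists_aq [Module.Finite A X] (hX : ∀ a ∈ mp A c, ∀ x : X, a • x = 0) :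
    ∃ (g : ℕ) (x : Fin g → X), ∀ c' (h : c ≤ c'), Function.Surjective
      (∑ i, (AQ.lift (x i) fun a ha => hX a (mp_anti h ha) (x i)) ∘ₗ LinearMap.proj i :
        (Fin g → AQ A c') →ₗ[A] X) := by
  obtain ⟨g, π, hπ⟩ := Module.Finite.exists_fin' A X
  refine ⟨g, fun i => π (Pi.single i 1), fun c' h x => ?_⟩
  obtain ⟨r, rfl⟩ := hπ x
  refine ⟨fun i => r i • AQ.one A c', ?_⟩
  conv_rhs => rw [eq_sum_single r, map_sum]
  rw [LinearMap.sum_apply]
  refine Finset.sum_congr rfl fun i _ => ?_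
  rw [LinearMap.comp_apply, LinearMap.proj_apply, map_smul, map_smul, AQ.lift_one]

variable [IsNoetherianRing A] (h : ASP A U n)
include h

theorem ASP.pre_inj (hX : IsFiniteLength A X) {π : X →ₗ[A] X'} (hπ : Function.Surjective π)
    {ξ : EX A X' U n} (hξ : pre π ξ = 0) : ξ = 0 := by
  cases n with
  | zero =>
    obtain ⟨f, rfl⟩ := m0_surj ξ
    rw [pre_m0, ← m0_zero] at hξ
    rw [show f = 0 from LinearMap.ext fun x => by
      obtain ⟨y, rfl⟩ := hπ x
      exact LinearMap.congr_fun (m0_inj hξ) y, m0_zero]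
  | succ n =>
    obtain ⟨y, rfl⟩ := (SES.ker hπ).l3 ξ hξ
    rw [dev_van (h.van n (by omega)) (hX.of_injective (Submodule.injective_subtype _)) y,
      Ext.comp_zero]

theorem ASP.of_inj {j : ℕ} {x : EX A (AQ A j) U n} (hx : LC.of j x = 0) : x = 0 := by
  obtain ⟨b, hb, h1⟩ := LC.eq_zero.1 hx
  refine h.pre_inj (AQ.fl b) (fun y => ?_) h1
  obtain ⟨a, rfl⟩ := AQ.surj y
  exact ⟨a • AQ.one A b, by rw [map_smul, prj_one]⟩

theorem ASP.psi_inj [Module.Finite A X] (hX : ∀ a ∈ mp A c, ∀ x : X, a • x = 0) {ξ : EX A X U n}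
    (hξ : ∀ x, psi hX ξ x = 0) : ξ = 0 := by
  obtain ⟨g, x, hx⟩ := exists_aq hX
  refine h.pre_inj (fl_pi (AQ.fl c) g) (hx c le_rfl) ?_
  rw [sum_pre]
  exact Finset.sum_eq_zero fun i _ => by rw [← pre_pre, h.of_inj (hξ (x i)), pre_zero]

theorem ASP.psi_surj [Module.Finite A X] (hX : ∀ a ∈ mp A c, ∀ x : X, a • x = 0)
    (f : X →ₗ[A] LC A U n) : ∃ ξ, ∀ x, psi hX ξ x = f x := by
  classical
  obtain ⟨g, x, hx⟩ := exists_aq hX
  obtain ⟨j, y, hy⟩ := LC.surj_fin fun i => f (x i)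
  have hc := le_max_left c j
  let π := ∑ i, (AQ.lift (x i) fun a ha => hX a (mp_anti hc ha) (x i)) ∘ₗ
    (LinearMap.proj i : (Fin g → AQ A (max c j)) →ₗ[A] AQ A (max c j))
  have hπ : Function.Surjective π := hx _ hc
  have hF : ∀ a ∈ mp A (max c j), ∀ z : Fin g → AQ A (max c j), a • z = 0 := fun a ha z =>
    funext fun i => quot_killed _ ha _
  let ξ : EX A (Fin g → AQ A (max c j)) U n :=
    ∑ i, pre (LinearMap.proj i) (pre (prj A (le_max_right c j)) (y i))
  have h1 : psi hF ξ = f ∘ₗ π := by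
    refine LinearMap.pi_ext' fun i => AQ.ext ?_
    rw [LinearMap.comp_apply, psi_eq hF ξ _ le_rfl, pre_sum, Finset.sum_eq_single i, pre_pre,
      LinearMap.proj_comp_single_same, pre_id, LC.of_pre, hy, LinearMap.comp_apply,
      LinearMap.comp_apply, LinearMap.sum_apply, Finset.sum_eq_single i]
    · simp [AQ.lift_one]
    · intro k _ hk
      simp [hk]
    · simp
    · intro k _ hk
      rw [pre_pre, LinearMap.proj_comp_single_ne _ _ _ _ hk, zero_pre]
    · simp
  obtain ⟨ξ', hξ'⟩ := (SES.ker hπ).l2 ξ (h.psi_inj (c := max c j)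
    (fun a ha z => Subtype.ext (hF a ha z)) fun z => by
      rw [psi_pre hF _ le_rfl, h1, LinearMap.comp_apply, show π (π.ker.subtype z) = 0 from z.2, map_zero])
  refine ⟨ξ', fun z => ?_⟩
  obtain ⟨z, rfl⟩ := hπ z
  rw [← psi_pre hX hF hc, hξ', h1]
  rfl

theorem ASP.injFG (hAR : ARl A) : InjFG A (LC A U n) := by
  intro N0 N _ _ _ _ _ _ j f hf
  obtain ⟨c, hc⟩ := LC.exists_kill f
  obtain ⟨b, -, hb⟩ := ar_mod hAR (LinearMap.range j) c
  have hX : ∀ a ∈ mp A b, ∀ x : N ⧸ msub b (⊤ : Submodule A N), a • x = 0 := fun a ha x => by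
    obtain ⟨x, rfl⟩ := Submodule.mkQ_surjective _ x
    rw [← map_smul, mkQ_eq_zero]
    exact mp_smul ha x
  let j' := (msub b (⊤ : Submodule A N)).mkQ ∘ₗ j
  obtain ⟨f0, hf0⟩ := exists_desc j'.surjective_rangeRestrict f fun x hx => by
    have h1 : msub c (LinearMap.range j) ≤ (LinearMap.ker f).map j := msub_le.2 (by
      rintro w hw _ ⟨y, rfl⟩
      exact ⟨w • y, (map_smul f w y).trans (hc w (wd_mem_mp hw) y), map_smul j w y⟩)
    obtain ⟨y, hy, hy'⟩ := h1 (hb ⟨⟨x, rfl⟩, mkQ_eq_zero.1 (congrArg Subtype.val hx)⟩)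
    have h2 := hf (x - y) (by rw [map_sub, hy', sub_self])
    rwa [map_sub, show f y = 0 from hy, sub_zero] at h2
  have hX0 : ∀ a ∈ mp A b, ∀ x : LinearMap.range j', a • x = 0 := fun a ha x =>
    Subtype.ext (hX a ha x)
  obtain ⟨ξ0, hξ0⟩ := h.psi_surj hX0 f0
  have hq := fl_of_kill (quot_kill hX (LinearMap.range j'))
  obtain ⟨ξ, hξ⟩ := (SES.quot (LinearMap.range j')).l1 ξ0 (dev_van (ex_pd h.pd le_rfl) hq _)
  refine ⟨psi hX ξ ∘ₗ Submodule.mkQ _, fun x => ?_⟩
  rw [← hf0, ← hξ0, ← hξ, psi_pre hX hX0 le_rfl]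
  rfl

theorem ASP.soc : Soc A (LC A U n) := by
  obtain ⟨ξ, hξ⟩ := h.top
  have hk : ∀ a ∈ mp A 1, ∀ x : kk A, a • x = 0 := fun a ha => kk_kill ha
  refine ⟨psi hk ξ ((Ring.jacobson A).mkQ 1), fun h0 => hξ (h.psi_inj hk fun x => ?_),
    fun μ hμ => by rw [← map_smul, hk μ (mp_one.2 hμ), map_zero]⟩
  obtain ⟨a, rfl⟩ := (Ring.jacobson A).mkQ_surjective x
  rw [← mul_one a, ← smul_eq_mul, map_smul, map_smul, h0, smul_zero]

theorem ASP.low {i : ℕ} (hi : i < n) (y : LC A U i) : y = 0 := by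
  obtain ⟨j, x, rfl⟩ := y.surj
  rw [dev_van (h.van i hi) (AQ.fl j) x, map_zero]

theorem ASP.high (y : LC A X (n + 1)) : y = 0 := by
  obtain ⟨j, x, rfl⟩ := y.surj
  rw [dev_van (ex_pd h.pd le_rfl) (AQ.fl j) x, map_zero]

end Psi

variable {A' U : Type} [Ring A'] [AddCommGroup U] [Module A U] [Module A' U]
  [SMulCommClass A A' U] [SMulCommClass A' A U] (u : Un A A' U) [IsLocalRing A] [IsLocalRing A']
  [IsNoetherianRing A] [IsNoetherianRing A'] {M : Type} [AddCommGroup M] [Module A M] {g i n : ℕ}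

variable (A' U) in
/-- A local cohomology class as a map on linear forms. -/
noncomputable def theta (y : LC A M i) : (M →ₗ[A] U) →ₗ[A'] LC A U i where
  toFun ω := LC.map i ω y
  map_add' f g := LC.add_map f g y
  map_smul' a ω := (LC.map_map ω (DistribSMul.toLinearMap A U a) y).symm

theorem Un.lc_zero {y : LC A (Fin g → A) i} (h : ∀ j, LC.map i (u.ε j) y = 0) : y = 0 := by
  rw [← LC.map_id y, show (LinearMap.id : (Fin g → A) →ₗ[A] _) =
    ∑ j, (LinearMap.single A (fun _ => A) j ∘ₗ u.e.symm.toLinearMap) ∘ₗ u.ε j from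
      LinearMap.ext fun r => by simp [Un.ε, Finset.univ_sum_single], LC.sum_map]
  exact Finset.sum_eq_zero fun j _ => by rw [← LC.map_map, h, map_zero]

include u in
theorem Un.exists_theta (φ : ((Fin g → A) →ₗ[A] U) →ₗ[A'] LC A U i) :
    ∃ y, ∀ ω, φ ω = LC.map i ω y := by
  refine ⟨∑ j, LC.map i (LinearMap.single A (fun _ => A) j ∘ₗ u.e.symm.toLinearMap) (φ (u.ε j)),
    fun ω => LinearMap.congr_fun (u.hom_ext (ψ := theta A' U _) fun k => ?_) ω⟩
  change _ = LC.map i (u.ε k) _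
  rw [map_sum, Finset.sum_eq_single k, LC.map_map, show u.ε k ∘ₗ _ = LinearMap.id from
    LinearMap.ext fun x => by simp [Un.ε], LC.map_id]
  · intro j _ hj
    rw [LC.map_map, show u.ε k ∘ₗ _ = 0 from LinearMap.ext fun x => by simp [Un.ε, hj.symm],
      LC.zero_map]
  · simp

variable (A A' U H) [Module A' H] in
/-- An ideal which kills a module kills the dual of its Ext groups. -/
def Bp : Prop := ∀ (I : TwoSidedIdeal A) (M : Type) [AddCommGroup M] [Module A M]
  [Module.Finite A M], (∀ a ∈ I, ∀ x : M, a • x = 0) →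
    ∀ p (f : EB A' A M U p →ₗ[A'] H), ∀ a ∈ I, ∀ w, a • f w = 0

include u in
theorem ASP.bp (h : ASP A U n) (hAR : ARl A') (hI : InjFG A' (LC A U n)) :
    Bp A (LC A U n) A' U := by
  intro I M _ _ _ hM p f a ha w
  obtain ⟨T⟩ := nonempty_tower A M
  have h0 : ∀ i (z : LC A (T.Ω 0) i), a • z = 0 := fun i z =>
    LC.killed u hAR I i _ (fun b hb x => by
      obtain ⟨x, rfl⟩ := T.e.surjective x
      rw [← map_smul, hM b hb, map_zero]) a ha z
  have key : ∀ p i, i ≤ n → ∀ z : LC A (T.Ω (p + 1)) i, LC.map i (T.ι p) z = 0 → a • z = 0 := by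
    intro p
    induction p with
    | zero =>
      rintro (_ | i) _ z hz
      · rw [LC.inj0 (T.ses 0).inj z hz, smul_zero]
      · obtain ⟨z, rfl⟩ := LC.r1 (T.ses 0) z hz
        rw [← map_smul, h0, map_zero]
    | succ p ih =>
      rintro (_ | i) hi z hz
      · rw [LC.inj0 (T.ses _).inj z hz, smul_zero]
      · obtain ⟨z, rfl⟩ := LC.r1 (T.ses _) z hz
        rw [← map_smul, ih i (by omega) z (u.lc_zero fun j => h.low hi _), map_zero]
  have : IsNoetherian A' U := isNoetherian_of_linearEquiv u.e'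
  have : Module.Finite A (T.Ω p) := Module.Finite.of_surjective _ (T.ses p).surj
  have := hom_noeth (A := A) (A' := A') (B := U) (M := T.Ω p)
  have := u.fin (T.g p)
  obtain ⟨φ, hφ⟩ := hI _ _ (hc A' U (T.p p)) (f ∘ₗ EB.cl A' U (T.η p)) fun ω hω => by
    rw [show ω = 0 from LinearMap.ext fun x => by
      obtain ⟨r, rfl⟩ := (T.ses p).surj x
      exact LinearMap.congr_fun hω r, map_zero]
  obtain ⟨y, hy⟩ := u.exists_theta φ
  have h1 : ∀ ω, f (EB.cl A' U (T.η p) ω) = LC.map n ω (LC.map n (T.p p) y) := fun ω =>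
    (hφ ω).symm.trans ((hy _).trans (LC.map_map _ _ _).symm)
  obtain ⟨ω, rfl⟩ := T.surj0 p w
  refine (congrArg (a • ·) (h1 ω)).trans ?_
  rw [← map_smul]
  cases p with
  | zero => rw [h0, map_zero]
  | succ p =>
    rw [key p n le_rfl _ (u.lc_zero fun j => ?_), map_zero]
    rw [LC.map_map, ← h1, show EB.cl A' U (T.η (p + 1)) (u.ε j ∘ₗ T.ι p) = 0 from
      (T.ker p _).2 ⟨_, rfl⟩, map_zero]

section Bi

variable {B : Type} [AddCommGroup B] [Module A B] [Module A' B] [SMulCommClass A A' B]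
  [SMulCommClass A' A B]

include u in
theorem exists_phi (hAR : ARl A) (hAR' : ARl A') (χ : ChiB A A' B) (χ' : ChiB A' A B) (m : ℕ) :
    ∃ (e : LC A B m ≃ₗ[A] LC A' B m) (e' : LC A B m ≃ₗ[A'] LC A' B m), ∀ x, e x = e' x := by
  choose φ hφ using fun x : LC A B m => Rel.exists u.symm hAR χ' x
  have key : ∀ x y, Rel y x → φ x = y := fun x y h => sub_eq_zero.1 (Rel.zero u hAR χ' (by
    have := ((hφ x).sub h).symm
    rwa [sub_self] at this))
  let Φ : LC A B m →+ LC A' B m :=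
    AddMonoidHom.ofMapSub φ fun x y => key _ _ ((hφ x).sub (hφ y))
  have hb : Function.Bijective Φ := by
    refine ⟨(injective_iff_map_eq_zero Φ).2 fun x hx => Rel.zero u.symm hAR' χ ?_, fun y => ?_⟩
    · rw [← hx]
      exact hφ x
    · obtain ⟨x, hx⟩ := Rel.exists u hAR' χ y
      exact ⟨x, key _ _ hx.symm⟩
  let f : LC A B m →ₗ[A] LC A' B m :=
    { toFun := φ
      map_add' := map_add Φ
      map_smul' := fun a x => key _ _ ((hφ x).symm.smul a).symm }
  let f' : LC A B m →ₗ[A'] LC A' B m :=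
    { toFun := φ
      map_add' := map_add Φ
      map_smul' := fun a x => key _ _ ((hφ x).smul a) }
  exact ⟨LinearEquiv.ofBijective f hb, LinearEquiv.ofBijective f' hb, fun _ => rfl⟩

include u in
theorem ASP.lc_van (h : ASP A U n) (hI : InjFG A' (LC A U n)) [Module.Finite A M]
    (hM : ∀ φ : M →ₗ[A] U, φ = 0) (y : LC A M n) : y = 0 := by
  obtain ⟨g, π, hπ⟩ := Module.Finite.exists_fin' A M
  obtain ⟨g', π', hπ'⟩ := Module.Finite.exists_fin' A (LinearMap.ker π)
  obtain ⟨y, rfl⟩ := LC.r3 (SES.ker hπ) y (h.high _)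
  have := u.fin g
  have := u.fin g'
  obtain ⟨φ, hφ⟩ := hI _ _ (hc A' U ((LinearMap.ker π).subtype ∘ₗ π')) (theta A' U y)
    fun ω hω => by
      obtain ⟨f, hf⟩ := exists_desc hπ ω fun x hx => by
        obtain ⟨r, hr⟩ := hπ' ⟨x, hx⟩
        exact (congrArg (fun z => ω z.1) hr).symm.trans (LinearMap.congr_fun hω r)
      rw [show ω = 0 from LinearMap.ext fun x => (hf x).symm.trans (by rw [hM f]; rfl), map_zero]
  obtain ⟨z, hz⟩ := u.exists_theta φ
  have h1 : y - LC.map n ((LinearMap.ker π).subtype ∘ₗ π') z = 0 := u.lc_zero fun j => by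
    rw [map_sub, LC.map_map, sub_eq_zero]
    exact (hφ _).symm.trans (hz _)
  rw [sub_eq_zero.1 h1, LC.map_map, show π ∘ₗ (LinearMap.ker π).subtype ∘ₗ π' = 0 from
    LinearMap.ext fun r => (π' r).2, LC.zero_map]

include u in
theorem forms_van (hI : InjFG A' (LC A U n)) (hS : Soc A' (LC A U n)) [Module.Finite A M]
    (hM : ∀ y : LC A M n, y = 0) (φ : M →ₗ[A] U) : φ = 0 := by
  obtain ⟨g, π, hπ⟩ := Module.Finite.exists_fin' A M
  by_contra h0
  have := u.fin g
  obtain ⟨f, hf⟩ := hI.cog hS (x := φ ∘ₗ π) fun h => h0 (LinearMap.ext fun x => by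
    obtain ⟨r, rfl⟩ := hπ x
    exact LinearMap.congr_fun h r)
  obtain ⟨y, hy⟩ := u.exists_theta f
  exact hf (by rw [hy, ← LC.map_map, hM (LC.map n π y), map_zero])

end Bi

variable (A U) in
/-- The standing hypotheses on one side. -/
structure Hyp : Prop where
  ar : ARl A
  gd : GDf A
  chi : Chi0 A U

variable (A A' U H) [Module A' H] in
/-- The properties of the dualizing module. -/
structure Du : Prop where
  inj : InjFG A H
  inj' : InjFG A' H
  soc : Soc A H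
  soc' : Soc A' H
  bp : Bp A H A' U
  bp' : Bp A' H A U

theorem Du.symm [Module A' H] (h : Du A H A' U) : Du A' H A U :=
  ⟨h.inj', h.inj, h.soc', h.soc, h.bp', h.bp⟩

variable (hA : Hyp A U) (hA' : Hyp A' U)
include u hA hA'

theorem exists_all : ∃ n, ASP A U n ∧ ASP A' U n ∧ Du A (LC A U n) A' U ∧
    InjFG A (LC A' U n) ∧ Soc A (LC A' U n) := by
  obtain ⟨n, h, h'⟩ := exists_asp u hA.gd hA.chi hA'.gd hA'.chi
  have : IsNoetherian A U := isNoetherian_of_linearEquiv u.e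
  have : IsNoetherian A' U := isNoetherian_of_linearEquiv u.e'
  obtain ⟨e, e', he⟩ := exists_phi (B := U) u hA.ar hA'.ar (chiB_of u.e' hA'.gd hA'.chi)
    (chiB_of u.e hA.gd hA.chi) n
  have i1 := h.injFG hA.ar
  have i2 := (h'.injFG hA'.ar).equiv e'.symm
  refine ⟨n, h, h', ⟨i1, i2, h.soc, h'.soc.equiv e'.symm, h.bp u hA'.ar i2, ?_⟩, i1.equiv e,
    h.soc.equiv e⟩
  intro I M _ _ _ hM p f a ha w
  refine e'.injective ?_
  rw [map_smul, map_zero, ← he]
  exact h'.bp u.symm hA.ar (i1.equiv e) I M hM p (e.toLinearMap ∘ₗ f) a ha w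

/-- Linear forms exist on one side if and only if they exist on the other side. -/
theorem forms_two {B : Type} [AddCommGroup B] [Module A B] [Module A' B] [SMulCommClass A A' B]
    [SMulCommClass A' A B] [Module.Finite A B] [Module.Finite A' B]
    (h0 : ∀ φ : B →ₗ[A] U, φ = 0) (ψ : B →ₗ[A'] U) : ψ = 0 := by
  obtain ⟨n, h, -, hD, i2, s2⟩ := exists_all u hA hA'
  refine forms_van u.symm i2 s2 (fun y => ?_) ψ
  obtain ⟨x, hx⟩ := Rel.exists u hA'.ar (chiB_of u.e' hA'.gd hA'.chi) y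
  rw [h.lc_van u hD.inj' h0 x] at hx
  exact Rel.zero u hA.ar (chiB_of u.e hA.gd hA.chi) hx

end Pool.Agent.Lib.MP_95d09c_al
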