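import Pool.Agent.Lib.MP_95d09c_al.ArBasic

/-!
Local cohomology as a direct limit of Ext groups.
-/

set_option autoImplicit false
set_option linter.unusedSectionVars false

namespace Pool.Agent.Lib.MP_95d09c_al

open CategoryTheory Abelian

theorem rho_mul' {A : Type} [Ring A] (P : TwoSidedIdeal A) (a b : A) :
    rho P (a * b) = rho P b ∘ₗ rho P a := by
  refine LinearMap.ext fun q => ?_
  obtain ⟨x, rfl⟩ := (lsub P).mkQ_surjective q
  rw [LinearMap.comp_apply, rho_mk, rho_mk, rho_mk, mul_assoc]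

theorem rho_add' {A : Type} [Ring A] (P : TwoSidedIdeal A) (a b : A) :
    rho P (a + b) = rho P a + rho P b := by
  refine LinearMap.ext fun q => ?_
  obtain ⟨x, rfl⟩ := (lsub P).mkQ_surjective q
  rw [LinearMap.add_apply, rho_mk, rho_mk, rho_mk, mul_add, map_add]

theorem rho_one'' {A : Type} [Ring A] (P : TwoSidedIdeal A) : rho P 1 = LinearMap.id := by
  refine LinearMap.ext fun q => ?_
  obtain ⟨x, rfl⟩ := (lsub P).mkQ_surjective q
  rw [rho_mk, mul_one]; rfl

theorem rho_mem {A : Type} [Ring A] {P : TwoSidedIdeal A} {a : A} (ha : a ∈ P) : rho P a = 0 := by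
  refine LinearMap.ext fun q => ?_
  obtain ⟨x, rfl⟩ := (lsub P).mkQ_surjective q
  rw [rho_mk]
  exact mk_eq_zero.2 (P.mul_mem_left _ _ ha)

section DL

variable {G G' : ℕ → Type} [∀ j, AddCommGroup (G j)] [∀ j, AddCommGroup (G' j)]
  (f : ∀ j b, j ≤ b → G j →+ G b) [DirectedSystem G (f · · ·)]
  (f' : ∀ j b, j ≤ b → G' j →+ G' b) [DirectedSystem G' (f' · · ·)]

/-- Direct limits of sequences of groups. -/
def DL : Type := DirectLimit G f

noncomputable instance : AddCommGroup (DL f) := inferInstanceAs (AddCommGroup (DirectLimit G f))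

/-- The class of an element. -/
noncomputable def DL.of (j : ℕ) : G j →+ DL f :=
  AddMonoidHom.mk' (fun x => (⟦⟨j, x⟩⟧ : DirectLimit G f))
    fun x y => (DirectLimit.add_def (f := f) j x y).symm

theorem DL.surj (y : DL f) : ∃ j x, DL.of f j x = y := by
  obtain ⟨j, x, h⟩ := DirectLimit.exists_eq_mk f y
  exact ⟨j, x, h.symm⟩

theorem DL.of_f {j b : ℕ} (h : j ≤ b) (x : G j) : DL.of f b (f j b h x) = DL.of f j x :=
  DirectLimit.mk_apply (f := f) j b x h

theorem DL.eq_zero {j : ℕ} {x : G j} : DL.of f j x = 0 ↔ ∃ b, ∃ h : j ≤ b, f j b h x = 0 :=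
  DirectLimit.exists_eq_zero (f := f) ⟨j, x⟩

/-- The map induced by compatible maps. -/
noncomputable def DL.op (φ : ∀ j, G j →+ G' j)
    (h : ∀ j b (h : j ≤ b) x, f' j b h (φ j x) = φ b (f j b h x)) : DL f →+ DL f' :=
  AddMonoidHom.mk' (DirectLimit.map f f' (fun j => φ j) h) fun x y => by
    obtain ⟨j, x, y, rfl, rfl⟩ := DirectLimit.exists_eq_mk₂ f x y
    change DirectLimit.map _ _ _ _ (DL.of f j x + DL.of f j y) =
      DL.of f' j (φ j x) + DL.of f' j (φ j y)
    rw [← map_add, ← map_add, ← map_add]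
    rfl

theorem DL.op_of (φ : ∀ j, G j →+ G' j) (h) (j : ℕ) (x : G j) :
    DL.op f f' φ h (DL.of f j x) = DL.of f' j (φ j x) := rfl

end DL

section LC

variable (A : Type) [Ring A] [IsLocalRing A] (M N P : Type) [AddCommGroup M] [Module A M]
  [AddCommGroup N] [Module A N] [AddCommGroup P] [Module A P] (i i' : ℕ)

/-- The transition maps. -/
noncomputable def trn (j b : ℕ) (h : j ≤ b) : EX A (AQ A j) M i →+ EX A (AQ A b) M i :=
  AddMonoidHom.mk' (pre (prj A h)) (pre_add _)

instance : DirectedSystem (fun j => EX A (AQ A j) M i) (trn A M i · · ·) where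
  map_self _ x := by
    change pre _ x = x
    rw [prj_self, pre_id]
  map_map _ _ _ hij hjk x := by
    change pre _ (pre _ x) = pre _ x
    rw [pre_pre, prj_comp]

/-- Local cohomology. -/
def LC : Type := DL (trn A M i)

noncomputable instance : AddCommGroup (LC A M i) := inferInstanceAs (AddCommGroup (DL (trn A M i)))

variable {A M N P i i'}

/-- The class of an element of one of the Ext groups. -/
noncomputable def LC.of (j : ℕ) : EX A (AQ A j) M i →+ LC A M i := DL.of (trn A M i) j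

theorem LC.surj (y : LC A M i) : ∃ j x, LC.of j x = y := DL.surj _ y

theorem LC.of_pre {j b : ℕ} (h : j ≤ b) (x : EX A (AQ A j) M i) :
    LC.of b (pre (prj A h) x) = LC.of j x := DL.of_f (trn A M i) h x

theorem LC.surj' (y : LC A M i) (c : ℕ) : ∃ j, c ≤ j ∧ ∃ x, LC.of j x = y := by
  obtain ⟨j, x, rfl⟩ := y.surj
  exact ⟨max c j, le_max_left c j, _, LC.of_pre (le_max_right c j) x⟩

theorem LC.eq_zero {j : ℕ} {x : EX A (AQ A j) M i} :
    LC.of j x = 0 ↔ ∃ b, ∃ h : j ≤ b, pre (prj A h) x = 0 := DL.eq_zero (trn A M i)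

theorem LC.surj_fin {ι : Type} [Finite ι] (y : ι → LC A M i) :
    ∃ j, ∃ x : ι → EX A (AQ A j) M i, ∀ k, LC.of j (x k) = y k := by
  choose j x hx using fun k => (y k).surj
  obtain ⟨b, hb⟩ := (Set.finite_range j).bddAbove
  exact ⟨b, fun k => pre (prj A (hb ⟨k, rfl⟩)) (x k), fun k => (LC.of_pre _ _).trans (hx k)⟩

/-- The map induced by compatible maps of Ext groups. -/
noncomputable def LC.op (φ : ∀ j, EX A (AQ A j) M i →+ EX A (AQ A j) N i')
    (h : ∀ j b (h : j ≤ b) x, pre (prj A h) (φ j x) = φ b (pre (prj A h) x)) :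
    LC A M i →+ LC A N i' := DL.op (trn A M i) (trn A N i') φ h

theorem LC.op_of (φ : ∀ j, EX A (AQ A j) M i →+ EX A (AQ A j) N i') (h) (j : ℕ)
    (x : EX A (AQ A j) M i) : LC.op φ h (LC.of j x) = LC.of j (φ j x) := rfl

/-- The action of a ring element. -/
noncomputable def LC.sm (a : A) : LC A M i →+ LC A M i :=
  LC.op (fun j => AddMonoidHom.mk' (pre (rho (mp A j) a)) (pre_add _)) fun j b h x => by
    change pre _ (pre _ x) = pre _ (pre _ x)
    rw [pre_pre, pre_pre, prj_rho]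

theorem LC.sm_of (a : A) (j : ℕ) (x : EX A (AQ A j) M i) :
    LC.sm a (LC.of j x) = LC.of j (pre (rho (mp A j) a) x) := rfl

noncomputable instance : Module A (LC A M i) where
  smul a y := LC.sm a y
  one_smul y := by
    obtain ⟨j, x, rfl⟩ := y.surj
    change LC.sm 1 _ = _
    rw [LC.sm_of, rho_one'', pre_id]
  mul_smul a b y := by
    obtain ⟨j, x, rfl⟩ := y.surj
    change LC.sm _ _ = LC.sm _ (LC.sm _ _)
    rw [LC.sm_of, LC.sm_of, LC.sm_of, pre_pre, rho_mul']
  smul_zero a := map_zero (LC.sm a)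
  smul_add a := map_add (LC.sm a)
  add_smul a b y := by
    obtain ⟨j, x, rfl⟩ := y.surj
    change LC.sm _ _ = LC.sm _ _ + LC.sm _ _
    rw [LC.sm_of, LC.sm_of, LC.sm_of, rho_add', add_pre, map_add]
  zero_smul y := by
    obtain ⟨j, x, rfl⟩ := y.surj
    change LC.sm _ _ = 0
    rw [LC.sm_of, rho_mem (zero_mem _), zero_pre, map_zero]

theorem LC.smul_of (a : A) (j : ℕ) (x : EX A (AQ A j) M i) :
    a • LC.of j x = LC.of j (pre (rho (mp A j) a) x) := rfl

variable (i) in
/-- The map induced by a linear map. -/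
noncomputable def LC.map (f : M →ₗ[A] N) : LC A M i →ₗ[A] LC A N i where
  toFun := LC.op (fun j => AddMonoidHom.mk' (post · f) fun x y => add_post x y f)
    fun _ _ _ _ => pre_post _ _ _
  map_add' := map_add _
  map_smul' a y := by
    obtain ⟨j, x, rfl⟩ := y.surj
    exact congrArg (LC.of j) (pre_post _ _ _).symm

theorem LC.map_of (f : M →ₗ[A] N) (j : ℕ) (x : EX A (AQ A j) M i) :
    LC.map i f (LC.of j x) = LC.of j (post x f) := rfl

theorem LC.map_map (f : M →ₗ[A] N) (g : N →ₗ[A] P) (y : LC A M i) :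
    LC.map i g (LC.map i f y) = LC.map i (g ∘ₗ f) y := by
  obtain ⟨j, x, rfl⟩ := y.surj
  rw [LC.map_of, LC.map_of, LC.map_of, post_post]

theorem LC.map_id (y : LC A M i) : LC.map i LinearMap.id y = y := by
  obtain ⟨j, x, rfl⟩ := y.surj
  rw [LC.map_of, post_id]

theorem LC.add_map (f g : M →ₗ[A] N) (y : LC A M i) :
    LC.map i (f + g) y = LC.map i f y + LC.map i g y := by
  obtain ⟨j, x, rfl⟩ := y.surj
  rw [LC.map_of, LC.map_of, LC.map_of, post_add, map_add]

theorem LC.zero_map (y : LC A M i) : LC.map i (0 : M →ₗ[A] N) y = 0 := by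
  obtain ⟨j, x, rfl⟩ := y.surj
  rw [LC.map_of, post_zero, map_zero]

theorem LC.sum_map {ι : Type} (s : Finset ι) (f : ι → M →ₗ[A] N) (y : LC A M i) :
    LC.map i (∑ k ∈ s, f k) y = ∑ k ∈ s, LC.map i (f k) y :=
  map_sum (AddMonoidHom.mk' (fun g : M →ₗ[A] N => LC.map i g y) fun f g => LC.add_map f g y) f s

variable {ι : M →ₗ[A] N} {p : N →ₗ[A] P} (h : SES ι p)

/-- Composition with the class of a short exact sequence. -/
noncomputable def SES.cn {L : Type} [AddCommGroup L] [Module A L] (i : ℕ) :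
    EX A L P i →+ EX A L M (i + 1) :=
  AddMonoidHom.mk' (fun x => x.comp h.cls rfl) fun _ _ => Ext.add_comp _ _ _ _

theorem SES.cn_pre {L L' : Type} [AddCommGroup L] [Module A L] [AddCommGroup L'] [Module A L']
    (f : L' →ₗ[A] L) (x : EX A L P i) : pre f (h.cn i x) = h.cn i (pre f x) := pre_comp _ _ _ rfl

variable (i) in
/-- The connecting map. -/
noncomputable def LC.δ : LC A P i →ₗ[A] LC A M (i + 1) where
  toFun := LC.op (fun _ => h.cn i) fun _ _ _ _ => h.cn_pre _ _
  map_add' := map_add _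
  map_smul' a y := by
    obtain ⟨j, x, rfl⟩ := y.surj
    rw [LC.smul_of, LC.op_of, LC.op_of, RingHom.id_apply, LC.smul_of, h.cn_pre]

theorem LC.δ_of (j : ℕ) (x : EX A (AQ A j) P i) :
    LC.δ i h (LC.of j x) = LC.of j (x.comp h.cls rfl) :=
  LC.op_of (fun _ => h.cn i) (fun _ _ _ _ => h.cn_pre _ _) j x

theorem LC.r1 (y : LC A M (i + 1)) (hy : LC.map (i + 1) ι y = 0) : ∃ z, LC.δ i h z = y := by
  obtain ⟨j, x, rfl⟩ := y.surj
  rw [LC.map_of] at hy
  obtain ⟨b, hb, hx⟩ := LC.eq_zero.1 hy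
  obtain ⟨z, hz⟩ := h.r1 (pre (prj A hb) x) ((pre_post _ _ _).symm.trans hx)
  exact ⟨LC.of b z, by rw [LC.δ_of, hz, LC.of_pre]⟩

theorem LC.r3 (y : LC A P i) (hy : LC.δ i h y = 0) : ∃ z, LC.map i p z = y := by
  obtain ⟨j, x, rfl⟩ := y.surj
  rw [LC.δ_of] at hy
  obtain ⟨b, hb, hx⟩ := LC.eq_zero.1 hy
  obtain ⟨z, hz⟩ := h.r3 (pre (prj A hb) x) ((pre_comp _ _ _ _).symm.trans hx)
  exact ⟨LC.of b z, by rw [LC.map_of, hz, LC.of_pre]⟩

theorem LC.δ_map (y : LC A N i) : LC.δ i h (LC.map i p y) = 0 := by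
  obtain ⟨j, x, rfl⟩ := y.surj
  rw [LC.map_of, LC.δ_of, ← comp_pre, h.pre_cls, Ext.comp_zero, map_zero]

theorem LC.inj0 (hι : Function.Injective ι) (y : LC A M 0) (hy : LC.map 0 ι y = 0) : y = 0 := by
  obtain ⟨j, x, rfl⟩ := y.surj
  rw [LC.map_of] at hy
  obtain ⟨b, hb, hx⟩ := LC.eq_zero.1 hy
  obtain ⟨f, rfl⟩ := m0_surj x
  rw [post_m0, pre_m0, ← m0_zero] at hx
  refine LC.eq_zero.2 ⟨b, hb, ?_⟩
  rw [pre_m0, ← m0_zero]
  congr 1
  exact LinearMap.ext fun x => hι ((LinearMap.congr_fun (m0_inj hx) x).trans (map_zero ι).symm)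

variable {A' : Type} [Ring A'] [Module A' M] [SMulCommClass A A' M] [SMulCommClass A' A M]

noncomputable instance : Module A' (LC A M i) where
  smul a y := LC.map i (DistribSMul.toLinearMap A M a) y
  one_smul y := by
    change LC.map i _ _ = _
    rw [show DistribSMul.toLinearMap A M (1 : A') = LinearMap.id from
      LinearMap.ext fun x => one_smul _ x, LC.map_id]
  mul_smul a b y := by
    change LC.map i _ _ = LC.map i _ (LC.map i _ _)
    rw [LC.map_map]
    congr 2
    exact LinearMap.ext fun x => mul_smul a b x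
  smul_zero a := map_zero _
  smul_add a := map_add _
  add_smul a b y := by
    change LC.map i _ _ = LC.map i _ _ + LC.map i _ _
    rw [← LC.add_map]
    congr 2
    exact LinearMap.ext fun x => add_smul a b x
  zero_smul y := by
    change LC.map i _ _ = 0
    rw [show DistribSMul.toLinearMap A M (0 : A') = 0 from
      LinearMap.ext fun x => zero_smul _ x, LC.zero_map]

theorem LC.smul_def' (a : A') (y : LC A M i) :
    a • y = LC.map i (DistribSMul.toLinearMap A M a) y := rfl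

end LC

section Co

variable {A A' U : Type} [Ring A] [Ring A'] [AddCommGroup U] [Module A U] [Module A' U]
  [SMulCommClass A A' U] (u : Un A A' U) (Y K G Z : Type) [AddCommGroup Y] [Module A' Y]
  [AddCommGroup K] [Module A' K] [AddCommGroup G] [Module A' G] [AddCommGroup Z]

/-- Additive maps from a module over the other ring. -/
def Co (_ : Un A A' U) (Y Z : Type) [AddCommGroup Y] [AddCommGroup Z] : Type := Y →ₗ[ℤ] Z

instance : AddCommGroup (Co u Y Z) := inferInstanceAs (AddCommGroup (Y →ₗ[ℤ] Z))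

variable {u Y Z} in
/-- The underlying map. -/
def Co.h (φ : Co u Y Z) : Y →ₗ[ℤ] Z := φ

instance : Module A (Co u Y Z) where
  smul a φ := φ.h ∘ₗ DistribSMul.toLinearMap ℤ Y (u.s a)
  one_smul φ := LinearMap.ext fun y => by
    change φ.h (u.s 1 • y) = φ.h y
    rw [u.s_one, one_smul]
  mul_smul a b φ := LinearMap.ext fun y => by
    change φ.h (u.s (a * b) • y) = φ.h (u.s b • u.s a • y)
    rw [u.s_mul, mul_smul]
  smul_zero _ := rfl
  smul_add _ _ _ := rfl
  add_smul a b φ := LinearMap.ext fun y => by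
    change φ.h (u.s (a + b) • y) = φ.h (u.s a • y) + φ.h (u.s b • y)
    rw [u.s_add, add_smul, map_add]
  zero_smul φ := LinearMap.ext fun y => by
    change φ.h (u.s 0 • y) = 0
    rw [u.s_zero, zero_smul, map_zero]

variable {Y K G Z}

theorem Co.smul_apply (a : A) (φ : Co u Y Z) (y : Y) : (a • φ).h y = φ.h (u.s a • y) := rfl

variable (Z) in
/-- Restriction along a linear map. -/
def Co.res (f : K →ₗ[A'] G) : Co u G Z →ₗ[A] Co u K Z where
  toFun φ := φ.h ∘ₗ f.restrictScalars ℤ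
  map_add' _ _ := rfl
  map_smul' a φ := LinearMap.ext fun y => congrArg φ.h (f.map_smul (u.s a) y).symm

variable [hZ : Module.Injective ℤ Z]

theorem Co.ses {ι : K →ₗ[A'] G} {p : G →ₗ[A'] Y} (h : SES ι p) :
    SES (Co.res u Z p) (Co.res u Z ι) := by
  refine ⟨fun φ ψ hφ => LinearMap.ext fun y => ?_, fun φ => ?_, fun φ => ⟨fun hφ => ?_, ?_⟩⟩
  · obtain ⟨x, rfl⟩ := h.surj y
    exact LinearMap.congr_fun hφ x
  · exact inj_ext (ι.restrictScalars ℤ) φ.h fun x hx => by
      rw [h.inj (hx.trans (map_zero ι).symm), map_zero]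
  · exact inj_ext (p.restrictScalars ℤ) φ.h fun x hx => by
      obtain ⟨y, rfl⟩ := (h.ex x).1 hx
      exact LinearMap.congr_fun hφ y
  · rintro ⟨ψ, rfl⟩
    refine LinearMap.ext fun x => ?_
    change ψ.h (p (ι x)) = 0
    rw [h.ex.apply_apply_eq_zero, map_zero]

theorem Co.injective (g : ℕ) : Module.Injective A (Co u (Fin g → A') Z) := by
  refine ⟨fun X X' _ _ _ _ ι hι f => ?_⟩
  choose k hk using fun i : Fin g => hZ.out (ι.restrictScalars ℤ) hι
    (LinearMap.applyₗ (R := ℤ) (Pi.single i 1 : Fin g → A') ∘ₗ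
      (show X →ₗ[ℤ] ((Fin g → A') →ₗ[ℤ] Z) from f.restrictScalars ℤ))
  refine ⟨{ toFun := fun x => (AddMonoidHom.mk' (fun y : Fin g → A' => ∑ i, k i (u.t (y i) • x))
              fun y z => by simp [u.t_add, add_smul, Finset.sum_add_distrib]).toIntLinearMap
            map_add' := fun x x' => LinearMap.ext fun y => ?_
            map_smul' := fun a x => LinearMap.ext fun y => ?_ }, fun x => LinearMap.ext fun y => ?_⟩
  · change ∑ i, k i (u.t (y i) • (x + x')) = ∑ i, k i (u.t (y i) • x) + ∑ i, k i (u.t (y i) • x')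
    simp [Finset.sum_add_distrib]
  · change ∑ i, k i (u.t (y i) • a • x) = ∑ i, k i (u.t (u.s a * y i) • x)
    simp only [u.t_mul, u.t_s, mul_smul]
  · change ∑ i, k i (u.t (y i) • ι x) = (f x).h y
    conv_rhs => rw [eq_sum_single y, map_sum]
    refine Finset.sum_congr rfl fun i _ => ?_
    rw [← map_smul]
    refine (hk i _).trans ?_
    change (f (u.t (y i) • x)).h _ = _
    rw [map_smul, Co.smul_apply, u.s_t]

variable [IsLocalRing A] [IsLocalRing A'] [IsNoetherianRing A'] (hAR : ARl A')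

include hAR in
theorem Co.acyc (i : ℕ) : ∀ (Y : Type) [AddCommGroup Y] [Module A' Y] [Module.Finite A' Y]
    (y : LC A (Co u Y Z) (i + 1)), y = 0 := by
  induction i with
  | zero =>
    intro Y _ _ _ y
    obtain ⟨g, p, hp⟩ := Module.Finite.exists_fin' A' Y
    have hs := Co.ses u (Z := Z) (SES.ker hp)
    have := Co.injective u (Z := Z) g
    obtain ⟨j, x, rfl⟩ := y.surj
    obtain ⟨z, rfl⟩ := hs.r1 x (ex_inj _)
    obtain ⟨f, rfl⟩ := m0_surj z
    obtain ⟨b, hb, hb'⟩ := ar_mod hAR (LinearMap.ker p) j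
    obtain ⟨ψ, hψ⟩ := inj_ext (((msub b ⊤).mkQ ∘ₗ (LinearMap.ker p).subtype).restrictScalars ℤ)
      (f (AQ.one A j)).h fun x hx => by
        have h1 : msub j (LinearMap.ker p) ≤ Submodule.map (LinearMap.ker p).subtype
            { carrier := {x | ∀ r : A', (f (AQ.one A j)).h (r • x) = 0}
              add_mem' := fun hx hy r => by rw [smul_add, map_add, hx r, hy r, add_zero]
              zero_mem' := fun r => by rw [smul_zero, map_zero]
              smul_mem' := fun s x hx r => by rw [← mul_smul]; exact hx _ } :=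
          msub_le.2 fun w hw x hx => ⟨w • ⟨x, hx⟩, fun r => by
            rw [← mul_smul, ← u.s_t (r * w), ← Co.smul_apply, AQ.killed f
              (u.t_mp ((mp A' j).mul_mem_left _ _ (wd_mem_mp hw)))]
            rfl, rfl⟩
        obtain ⟨y, hy, hy'⟩ := h1 (hb' ⟨x.2, mkQ_eq_zero.1 hx⟩)
        have h2 := hy 1
        rwa [one_smul, Subtype.ext hy'] at h2
    let ψ' : Co u (Fin g → A') Z := ψ ∘ₗ (msub b ⊤).mkQ.restrictScalars ℤ
    have h3 : ∀ a ∈ mp A b, a • ψ' = 0 := fun a ha => LinearMap.ext fun y => by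
      change ψ ((msub b ⊤).mkQ (u.s a • y)) = 0
      rw [mkQ_eq_zero.2 (mp_smul (u.s_mp ha) y), map_zero]
    have h4 : f ∘ₗ prj A hb = Co.res u Z (LinearMap.ker p).subtype ∘ₗ AQ.lift ψ' h3 := by
      refine AQ.ext ?_
      rw [LinearMap.comp_apply, LinearMap.comp_apply, prj_one, AQ.lift_one]
      exact hψ.symm
    refine LC.eq_zero.2 ⟨b, hb, ?_⟩
    rw [pre_comp, pre_m0, h4, ← post_m0, ← comp_pre, hs.pre_cls, Ext.comp_zero]
  | succ i ih =>
    intro Y _ _ _ y
    obtain ⟨g, p, hp⟩ := Module.Finite.exists_fin' A' Y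
    have hs := Co.ses u (Z := Z) (SES.ker hp)
    have := Co.injective u (Z := Z) g
    obtain ⟨z, rfl⟩ := LC.r1 hs y (by
      obtain ⟨j, x, rfl⟩ := y.surj
      rw [LC.map_of, ex_inj (post x _), map_zero])
    rw [ih _ z, map_zero]

theorem exists_div (M : Type) [AddCommGroup M] :
    ∃ (Z : Type) (_ : AddCommGroup Z) (_ : Module.Injective ℤ Z) (e : M →+ Z),
      Function.Injective e := by
  refine ⟨und ℤ (ModuleCat.of ℤ M), inferInstance, ?_,
    (undι ℤ (ModuleCat.of ℤ M)).toAddMonoidHom,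
    (ModuleCat.mono_iff_injective _).1 (Injective.ι_mono (ModuleCat.of ℤ M))⟩
  convert Module.injective_module_of_injective_object ℤ (und ℤ (ModuleCat.of ℤ M))
       (inj := Injective.injective_under _)
  exact Subsingleton.elim _ _

include u hAR in
theorem exists_acyc (I : TwoSidedIdeal A) (M : Type) [AddCommGroup M] [Module A M]
    (hM : ∀ a ∈ I, ∀ x : M, a • x = 0) :
    ∃ (J : Type) (_ : AddCommGroup J) (_ : Module A J) (ι : M →ₗ[A] J), Function.Injective ι ∧
      (∀ a ∈ I, ∀ x : J, a • x = 0) ∧ ∀ i (y : LC A J (i + 1)), y = 0 := by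
  obtain ⟨Z, _, _, e, he⟩ := exists_div M
  let L : Submodule A' A' :=
    { carrier := {a | u.t a ∈ I}
      add_mem' := fun {a b} ha hb => by
        change u.t (a + b) ∈ I
        rw [u.t_add]; exact I.add_mem ha hb
      zero_mem' := by
        change u.t 0 ∈ I
        rw [u.t_zero]; exact I.zero_mem
      smul_mem' := fun r a ha => by
        change u.t (r * a) ∈ I
        rw [u.t_mul]; exact I.mul_mem_right _ _ ha }
  let φ : M → Co u (A' ⧸ L) Z := fun x => (QuotientAddGroup.lift L.toAddSubgroup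
    (AddMonoidHom.mk' (fun a => e (u.t a • x)) fun a b => by rw [u.t_add, add_smul, map_add])
    fun a ha => by
      change e (u.t a • x) = 0
      rw [hM _ ha, map_zero]).toIntLinearMap
  have hφ : ∀ x a, (φ x).h (L.mkQ a) = e (u.t a • x) := fun _ _ => rfl
  refine ⟨Co u (A' ⧸ L) Z, inferInstance, inferInstance,
    { toFun := φ
      map_add' := fun x y => LinearMap.ext fun q => ?_
      map_smul' := fun a x => LinearMap.ext fun q => ?_ }, fun x y h => ?_,
    fun a ha x => LinearMap.ext fun q => ?_, fun i => Co.acyc u hAR i _⟩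
  · obtain ⟨a, rfl⟩ := L.mkQ_surjective q
    change e _ = e _ + e _
    rw [smul_add, map_add]
  · obtain ⟨b, rfl⟩ := L.mkQ_surjective q
    change e (u.t b • a • x) = e (u.t (u.s a * b) • x)
    rw [u.t_mul, u.t_s, mul_smul]
  · have h1 : e (u.t 1 • x) = e (u.t 1 • y) := LinearMap.congr_fun h (L.mkQ 1)
    rw [u.t_one, one_smul, one_smul] at h1
    exact he h1
  · obtain ⟨b, rfl⟩ := L.mkQ_surjective q
    have h1 : L.mkQ (u.s a * b) = 0 := mkQ_eq_zero.2 (by
      change u.t (u.s a * b) ∈ I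
      rw [u.t_mul, u.t_s]; exact I.mul_mem_left _ _ ha)
    change x.h (L.mkQ (u.s a * b)) = 0
    rw [h1, map_zero]

theorem quot_kill {I : TwoSidedIdeal A} {J : Type} [AddCommGroup J] [Module A J]
    (hJ : ∀ a ∈ I, ∀ x : J, a • x = 0) (V : Submodule A J) :
    ∀ a ∈ I, ∀ x : J ⧸ V, a • x = 0 := fun a ha x => by
  obtain ⟨y, rfl⟩ := V.mkQ_surjective x
  rw [← map_smul, hJ a ha, map_zero]

include u hAR in
/-- An ideal which kills a module kills its local cohomology. -/
theorem LC.killed (I : TwoSidedIdeal A) (i : ℕ) : ∀ (M : Type) [AddCommGroup M] [Module A M],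
    (∀ a ∈ I, ∀ x : M, a • x = 0) → ∀ a ∈ I, ∀ y : LC A M i, a • y = 0 := by
  induction i with
  | zero =>
    intro M _ _ hM a ha y
    obtain ⟨j, x, rfl⟩ := y.surj
    obtain ⟨f, rfl⟩ := m0_surj x
    rw [LC.smul_of, pre_m0, show f ∘ₗ rho (mp A j) a = 0 from AQ.ext (by
      rw [LinearMap.comp_apply, rho_one', map_smul, hM a ha]; rfl), m0_zero, map_zero]
  | succ i ih =>
    intro M _ _ hM a ha y
    obtain ⟨J, _, _, ι, hι, hJ, hJ'⟩ := exists_acyc u hAR I M hM
    obtain ⟨z, rfl⟩ := LC.r1 (SES.range hι) y (hJ' _ _)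
    rw [← map_smul, ih _ (quot_kill hJ _) a ha, map_zero]

include u hAR in
/-- Modules killed by a power of the maximal ideal are acyclic. -/
theorem LC.tors (c i : ℕ) : ∀ (M : Type) [AddCommGroup M] [Module A M],
    (∀ a ∈ mp A c, ∀ x : M, a • x = 0) → ∀ y : LC A M (i + 1), y = 0 := by
  induction i with
  | zero =>
    intro M _ _ hM y
    obtain ⟨J, _, _, ι, hι, hJ, hJ'⟩ := exists_acyc u hAR _ M hM
    obtain ⟨z, rfl⟩ := LC.r1 (SES.range hι) y (hJ' _ _)
    obtain ⟨j, hj, x, rfl⟩ := z.surj' c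
    obtain ⟨f, rfl⟩ := m0_surj x
    obtain ⟨w, hw⟩ := (LinearMap.range ι).mkQ_surjective (f (AQ.one A j))
    have h1 : f = (LinearMap.range ι).mkQ ∘ₗ AQ.lift w fun a ha => hJ a (mp_anti hj ha) w :=
      AQ.ext (by rw [LinearMap.comp_apply, AQ.lift_one, hw])
    rw [h1, ← post_m0, ← LC.map_of, LC.δ_map]
  | succ i ih =>
    intro M _ _ hM y
    obtain ⟨J, _, _, ι, hι, hJ, hJ'⟩ := exists_acyc u hAR _ M hM
    obtain ⟨z, rfl⟩ := LC.r1 (SES.range hι) y (hJ' _ _)
    rw [ih _ (quot_kill hJ _) z, map_zero]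

end Co

end Pool.Agent.Lib.MP_95d09c_al
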