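import Pool.Agent.Lib.MP_95d09c_al.ArTor

/-!
A noetherian local ring of finite global dimension, with the Artin-Rees property and finite
dimensional Ext groups of the residue module, is a domain.
-/

set_option autoImplicit false
set_option linter.unusedSectionVars false

namespace Pool.Agent.Lib.MP_95d09c_al

open CategoryTheory Abelian MulOpposite

section TV

variable {A : Type} [Ring A] (P : TwoSidedIdeal A) (Y Y' Y'' : Type) [AddCommGroup Y] [Module A Y]
  [AddCommGroup Y'] [Module A Y'] [AddCommGroup Y''] [Module A Y''] {q : ℕ}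

variable {Y} in
/-- Torsion classes in the Ext groups into the factor ring. -/
def Tx (x : EX A Y (A ⧸ lsub P) q) : Prop := ∃ e, Reg P e ∧ post x (rho P e) = 0

/-- The Ext group into the factor ring is torsion. -/
def TV (q : ℕ) : Prop := ∀ x : EX A Y (A ⧸ lsub P) q, Tx P x

/-- Torsion modules. -/
def Tors : Prop := ∀ y : Y, ∃ d, Reg P d ∧ d • y = 0

variable {P Y Y' Y''}

theorem Tx.of {x : EX A Y (A ⧸ lsub P) q} {e : A} (he : Reg P e) (h : Tx P (post x (rho P e))) :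
    Tx P x := by
  obtain ⟨e', he', h⟩ := h
  exact ⟨e * e', he.mul he', by rwa [rho_mul', ← post_post]⟩

theorem Tx.zero : Tx P (0 : EX A Y (A ⧸ lsub P) q) := ⟨1, Reg.one, zero_post _⟩

theorem Tx.comp {a c : ℕ} (z : EX A Y' Y a) {x : EX A Y (A ⧸ lsub P) q} (h : Tx P x)
    (hc : a + q = c) : Tx P (z.comp x hc) := by
  obtain ⟨e, he, h⟩ := h
  exact ⟨e, he, by rw [post_comp, h, Ext.comp_zero]⟩

variable {ι : Y' →ₗ[A] Y} {p : Y →ₗ[A] Y''} (h : SES ι p)

include h in
theorem tv_mid (h1 : TV P Y' q) (h2 : TV P Y'' q) : TV P Y q := fun x => by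
  obtain ⟨e, he, hx⟩ := h1 (pre ι x)
  obtain ⟨y, hy⟩ := h.l2 _ ((pre_post _ _ _).trans hx)
  exact Tx.of he (hy ▸ (h2 y).comp _ _)

include h in
theorem tv_quot (h1 : TV P Y' q) (h2 : TV P Y (q + 1)) : TV P Y'' (q + 1) := fun x => by
  obtain ⟨e, he, hx⟩ := h2 (pre p x)
  obtain ⟨y, hy⟩ := h.l3 _ ((pre_post _ _ _).trans hx)
  exact Tx.of he (hy ▸ (h1 y).comp _ _)

include h in
theorem tv_sub (h1 : TV P Y'' (q + 1)) (h2 : TV P Y q) : TV P Y' q := fun x => by
  obtain ⟨e, he, hx⟩ := h1 (h.cls.comp x (add_comm 1 q))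
  obtain ⟨y, hy⟩ := h.l1 _ ((post_comp _ _ _ _).symm.trans hx)
  exact Tx.of he (hy ▸ (h2 y).comp _ _)

include h in
theorem tv_ext (h1 : TV P Y'' 1) (f : Y' →ₗ[A] A ⧸ lsub P) :
    ∃ e, Reg P e ∧ ∃ g : Y →ₗ[A] A ⧸ lsub P, ∀ x, g (ι x) = rho P e (f x) := by
  obtain ⟨e, he, hx⟩ := h1 (h.cls.comp (m0 f) (add_comm 1 0))
  obtain ⟨y, hy⟩ := h.l1 _ ((post_comp _ _ _ _).symm.trans hx)
  obtain ⟨g, rfl⟩ := m0_surj y
  rw [pre_m0, post_m0] at hy
  exact ⟨e, he, g, LinearMap.congr_fun (m0_inj hy)⟩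

theorem tv_zero (h : Tors P Y) : TV P Y 0 := fun x => by
  obtain ⟨f, rfl⟩ := m0_surj x
  rw [show f = 0 from LinearMap.ext fun y => by
    obtain ⟨d, hd, hy⟩ := h y
    exact reg_smul_eq_zero hd (by rw [← map_smul, hy, map_zero]), m0_zero]
  exact Tx.zero

theorem Tors.inj (h : Tors P Y) (hι : Function.Injective ι) : Tors P Y' := fun y => by
  obtain ⟨d, hd, hy⟩ := h (ι y)
  exact ⟨d, hd, hι (by rw [map_smul, hy, map_zero])⟩

theorem Tors.surj (h : Tors P Y) (hp : Function.Surjective p) : Tors P Y'' := fun y => by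
  obtain ⟨y, rfl⟩ := hp y
  obtain ⟨d, hd, hy⟩ := h y
  exact ⟨d, hd, by rw [← map_smul, hy, map_zero]⟩

variable [IsNoetherianRing A] (hP : Prm P)

variable (Y) in
/-- The torsion modulo the product of the ideal and the module. -/
def tors : Submodule A Y where
  carrier := {x | ∃ d, Reg P d ∧ d • x ∈ pm P Y}
  zero_mem' := ⟨1, Reg.one, by rw [smul_zero]; exact zero_mem _⟩
  add_mem' := by
    rintro x y ⟨d, hd, hx⟩ ⟨d', hd', hy⟩
    obtain ⟨a, e, he, h⟩ := lore hP d hd'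
    refine ⟨e * d, he.mul hd, ?_⟩
    have : (e * d) • (x + y) = e • d • x + (a • d' • y + (e * d - a * d') • y) := by
      rw [smul_add, sub_smul, ← mul_smul, ← mul_smul]; abel
    rw [this]
    exact add_mem (Submodule.smul_mem _ _ hx)
      (add_mem (Submodule.smul_mem _ _ hy) (Submodule.smul_mem_smul h trivial))
  smul_mem' := by
    rintro r x ⟨d, hd, hx⟩
    obtain ⟨a, e, he, h⟩ := lore hP r hd
    refine ⟨e, he, ?_⟩
    have : e • r • x = a • d • x + (e * r - a * d) • x := by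
      rw [sub_smul, ← mul_smul, ← mul_smul]; abel
    rw [this]
    exact add_mem (Submodule.smul_mem _ _ hx) (Submodule.smul_mem_smul h trivial)

theorem pm_le_tors : pm P Y ≤ tors Y hP := fun x hx => ⟨1, Reg.one, by rwa [one_smul]⟩

theorem tors_map (f : Y →ₗ[A] Y') {x : Y} (hx : x ∈ tors Y hP) : f x ∈ tors Y' hP := by
  obtain ⟨d, hd, hx⟩ := hx
  exact ⟨d, hd, by rw [← map_smul]; exact map_pm f hx⟩

theorem tors_of_smul {d : A} (hd : Reg P d) {x : Y} (hx : d • x ∈ tors Y hP) : x ∈ tors Y hP := by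
  obtain ⟨e, he, hx⟩ := hx
  exact ⟨e * d, he.mul hd, by rwa [mul_smul]⟩

theorem tors_kill (f : Y →ₗ[A] A ⧸ lsub P) {x : Y} (hx : x ∈ tors Y hP) : f x = 0 := by
  obtain ⟨d, hd, hx⟩ := tors_map hP f hx
  exact reg_smul_eq_zero hd (pm_kill (fun _ ha => quot_killed P ha) hx)

include hP in
theorem exists_form (hO : ROre P) [IsNoetherian A Y] (hY : ∀ p ∈ P, ∀ y : Y, p • y = 0) {w : Y}
    (hw : ¬ ∃ d, Reg P d ∧ d • w = 0) : ∃ f : Y →ₗ[A] A ⧸ lsub P, f w ≠ 0 := by
  have h1 : ¬ Ess P (LinearMap.ker (LinearMap.toSpanSingleton A Y w)) := fun he => by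
    obtain ⟨d, hd, hd'⟩ := exists_reg hP he
    exact hw ⟨d, hd', hd⟩
  unfold Ess at h1
  push Not at h1
  obtain ⟨x, hx, hx'⟩ := h1
  obtain ⟨e, he, θ, hθ⟩ := exists_extend hP hO hY (LinearMap.toSpanSingleton A Y (x • w))
    ((lsub P).mkQ ∘ₗ rm x) fun r hr => mk_eq_zero.2 (hx' r ((mul_smul r x w).trans hr))
  refine ⟨θ, fun h0 => hx (he.2 x ?_)⟩
  have h2 := hθ 1
  rw [LinearMap.toSpanSingleton_apply, one_smul, map_smul, h0, smul_zero] at h2
  simpa using mk_eq_zero.1 h2.symm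

end TV

section Ann

variable (A U : Type) [Ring A] [AddCommGroup U] [Module A U]

variable {U} in
/-- The annihilator of a submodule. -/
def annM (X : Submodule A U) : TwoSidedIdeal A :=
  TwoSidedIdeal.mk' {a | ∀ x ∈ X, a • x = 0} (fun x _ => zero_smul A x)
    (fun ha hb x hx => by rw [add_smul, ha x hx, hb x hx, add_zero])
    (fun ha x hx => by rw [neg_smul, ha x hx, neg_zero])
    (fun hb x hx => by rw [mul_smul, hb x hx, smul_zero])
    (fun ha x hx => by rw [mul_smul, ha _ (X.smul_mem _ hx)])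

variable {A U} in
theorem mem_annM {X : Submodule A U} {a : A} : a ∈ annM A X ↔ ∀ x ∈ X, a • x = 0 := by
  simp [annM]

variable {A} in
/-- The ideal kills a nonzero element. -/
def Kills (P : TwoSidedIdeal A) : Prop := ∃ x : U, x ≠ 0 ∧ ∀ p ∈ P, p • x = 0

variable {A} in
/-- Maximal annihilators. -/
def AnnMax (P : TwoSidedIdeal A) : Prop := Kills U P ∧ ∀ J, P ≤ J → Kills U J → J ≤ P

variable {A U} {P : TwoSidedIdeal A}

theorem exists_annMax [IsNoetherianRing A] (h : Kills U P) : ∃ Q, P ≤ Q ∧ AnnMax U Q := by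
  obtain ⟨Q, hQ, h⟩ := exists_max_ideal {J | P ≤ J ∧ Kills U J} ⟨P, le_rfl, h⟩
  exact ⟨Q, hQ.1, hQ.2, fun J hJ hJ' => h J ⟨hQ.1.trans hJ, hJ'⟩ hJ⟩

theorem AnnMax.key (h : AnnMax U P) {y : U} (hy : y ≠ 0) (hP : ∀ p ∈ P, p • y = 0) {a : A}
    (ha : ∀ r, (a * r) • y = 0) : a ∈ P := by
  have h1 : ∀ b, (∀ r, (b * r) • y = 0) → b ∈ annM A (Submodule.span A {y}) := fun b hb =>
    mem_annM.2 fun x hx => by
      obtain ⟨r, rfl⟩ := Submodule.mem_span_singleton.1 hx
      rw [← mul_smul, hb]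
  exact h.2 _ (fun p hp => h1 p fun r => hP _ (P.mul_mem_right _ _ hp))
    ⟨y, hy, fun p hp => mem_annM.1 hp y (Submodule.mem_span_singleton_self y)⟩ (h1 a ha)

theorem AnnMax.sep (h : AnnMax U P) {a : A} (ha : a ∉ P) :
    ∃ x : U, (∀ p ∈ P, p • x = 0) ∧ a • x ≠ 0 := by
  by_contra hc
  push Not at hc
  obtain ⟨y, hy, hP⟩ := h.1
  exact ha (h.key hy hP fun r => (mul_smul a r y).trans
    (hc _ fun p hp => (mul_smul p r y).symm.trans (hP _ (P.mul_mem_right _ _ hp))))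

theorem AnnMax.prm (h : AnnMax U P) : Prm P := by
  refine ⟨fun h1 => ?_, fun a b hab => or_iff_not_imp_right.2 fun hb => ?_⟩
  · obtain ⟨y, hy, hP⟩ := h.1
    exact hy ((one_smul A y).symm.trans (hP 1 h1))
  · obtain ⟨x, hx, hx'⟩ := h.sep hb
    exact h.key hx' (fun p hp => (mul_smul p b x).symm.trans (hx _ (P.mul_mem_right _ _ hp)))
      fun r => (mul_smul _ b x).symm.trans (hx _ (hab r))

theorem AnnMax.form (h : AnnMax U P) {q : A ⧸ lsub P} (hq : q ≠ 0) :
    ∃ f : (A ⧸ lsub P) →ₗ[A] U, f q ≠ 0 := by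
  obtain ⟨a, rfl⟩ := (lsub P).mkQ_surjective q
  obtain ⟨x, hx, hx'⟩ := h.sep (mt mk_eq_zero.2 hq)
  exact ⟨(lsub P).liftQ (LinearMap.toSpanSingleton A U x) hx, hx'⟩

variable (A' : Type) [Ring A'] [Module A' U] [SMulCommClass A A' U] [SMulCommClass A' A U]

variable (U P) in
/-- The elements killed by an ideal, as a module over the other ring. -/
def kil : Submodule A' U where
  carrier := {x | ∀ p ∈ P, p • x = 0}
  add_mem' hx hy p hp := by rw [smul_add, hx p hp, hy p hp, add_zero]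
  zero_mem' p _ := smul_zero p
  smul_mem' a x hx p hp := by rw [smul_comm, hx p hp, smul_zero]

theorem AnnMax.tf [IsNoetherianRing A] [IsNoetherian A' U] (h : AnnMax U P) {c : A} (hc : Reg P c)
    {x : U} (hx : ∀ p ∈ P, p • x = 0) (hcx : c • x = 0) : x = 0 := by
  obtain ⟨d, hd, h1⟩ := exists_common h.prm (kil U P A') ⊥
    (fun a => DistribSMul.toLinearMap A' U a) (fun a w hw => by rw [hw]; exact map_zero _)
    (fun a w hw p hp => (mul_smul p a w).symm.trans (hw _ (P.mul_mem_right _ _ hp)))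
    (fun a b w _ => sub_eq_zero.2 (mul_smul a b w))
    fun a b hab w hw => (sub_smul a b w).symm.trans (hw _ hab)
  by_contra h0
  exact hd.notMem h.prm (h.key h0 hx (h1 x hx c hc hcx))

end Ann

variable {A A' U : Type} [Ring A] [Ring A'] [AddCommGroup U] [Module A U] [Module A' U]
  [SMulCommClass A A' U] [SMulCommClass A' A U] (u : Un A A' U)

/-- The ideal of the other ring which corresponds to a given ideal. -/
def Un.tr (P : TwoSidedIdeal A) : TwoSidedIdeal A' :=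
  TwoSidedIdeal.mk' {a | u.t a ∈ P} ((congrArg (· ∈ P) u.t_zero).mpr P.zero_mem)
    (fun ha hb => (congrArg (· ∈ P) (u.t_add _ _)).mpr (P.add_mem ha hb))
    (fun ha => (congrArg (· ∈ P) (map_neg u.anti.symm.s _)).mpr (P.neg_mem ha))
    (fun hb => (congrArg (· ∈ P) (u.t_mul _ _)).mpr (P.mul_mem_right _ _ hb))
    (fun ha => (congrArg (· ∈ P) (u.t_mul _ _)).mpr (P.mul_mem_left _ _ ha))

theorem Un.mem_tr {P : TwoSidedIdeal A} {a : A'} : a ∈ u.tr P ↔ u.t a ∈ P :=
  TwoSidedIdeal.mem_mk' _ _ _ _ _ _ _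

theorem Un.prm {P : TwoSidedIdeal A} (h : Prm P) : Prm (u.tr P) := by
  refine ⟨fun h1 => h.1 (u.t_one ▸ u.mem_tr.1 h1), fun a b hab => ?_⟩
  refine (h.2 (u.t b) (u.t a) fun r => ?_).symm.imp u.mem_tr.2 u.mem_tr.2
  have := u.mem_tr.1 (hab (u.s r))
  rwa [u.t_mul, u.t_mul, u.t_s, ← mul_assoc] at this

theorem Un.reg {P : TwoSidedIdeal A} {c : A} (h : Reg P c) : Reg (u.tr P) (u.s c) :=
  ⟨fun x hx => u.mem_tr.2 (h.2 _ (by simpa only [u.mem_tr, u.t_mul, u.t_s] using hx)),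
    fun x hx => u.mem_tr.2 (h.1 _ (by simpa only [u.mem_tr, u.t_mul, u.t_s] using hx))⟩

variable [IsLocalRing A] [IsLocalRing A'] [IsNoetherianRing A] [IsNoetherianRing A']

section One

variable {M : Type} [AddCommGroup M] [Module A M] (T : Tower A M) {n : ℕ}

theorem Tower.sesC {q : ℕ} (h : ∀ z : T.Lc A' U q, z = 0) :
    SES ((T.bd A' U (q + 1)).subtype ∘ₗ T.ψ A' U q) (T.bd A' U (q + 1)).mkQ := by
  refine ⟨(Submodule.injective_subtype _).comp ((injective_iff_map_eq_zero _).2 fun y hy =>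
    congrArg Subtype.val (h ⟨y, hy⟩)), Submodule.mkQ_surjective _, ?_⟩
  rw [LinearMap.exact_iff, LinearMap.range_comp, LinearMap.range_eq_top.2 (T.ψ_surj A' U q),
    Submodule.map_top, Submodule.range_subtype, Submodule.ker_mkQ]

variable (A' U) in
/-- The zeroth cokernel. -/
noncomputable def Tower.e0 : T.Cq A' U 0 ≃ₗ[A'] T.G U 0 := Submodule.quotEquivOfEqBot _ rfl

include u in
theorem Un.ex_free {X : Type} [AddCommGroup X] [Module A' X] {i g : ℕ}
    (h : ∀ y : EX A' X U i, y = 0) (x : EX A' X ((Fin g → A) →ₗ[A] U) i) : x = 0 := by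
  rw [← post_id x, ← (u.fr g).symm_comp, ← post_post, ex_pi_zero (post x _) fun j => ?_, zero_post]
  rw [← post_id (post _ _), ← u.e'.symm_comp, ← post_post _ u.e'.toLinearMap, h (post _ _),
    zero_post]

include u in
theorem Tower.low (hv : ∀ i < n, ∀ x : EX A' (kk A') U i, x = 0)
    (fl : ∀ p, IsFiniteLength A' (EB A' A M U p)) (q : ℕ) : q < n → ∀ z : T.Lc A' U q, z = 0 := by
  have key : ∀ q, (∀ j < q, ∀ z : T.Lc A' U j, z = 0) → ∀ i, i + q < n →
      ∀ x : EX A' (kk A') (T.Cq A' U q) i, x = 0 := by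
    intro q
    induction q with
    | zero =>
      intro _ i hi x
      rw [← post_id x, ← (T.e0 A' U).symm_comp, ← post_post, u.ex_free (hv i hi) (post x _),
        zero_post]
    | succ q ih =>
      intro h i hi x
      obtain ⟨y, rfl⟩ := (T.sesC (h q (by omega))).r3 x
        (ih (fun j hj => h j (by omega)) (i + 1) (by omega) _)
      rw [u.ex_free (hv i (by omega)) y, zero_post]
  induction q using Nat.strong_induction_on with
  | _ q ih =>
    intro hq z
    by_contra h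
    have := nontrivial_of_ne z 0 h
    obtain ⟨j, hj⟩ := exists_kk_inj (T.flL (fl q))
    have h1 := key q (fun j hj => ih j hj (by omega)) 0 (by omega) (m0 (Submodule.subtype _ ∘ₗ j))
    rw [← m0_zero] at h1
    exact kk_eq_zero.1 (hj ((Subtype.ext (LinearMap.congr_fun (m0_inj h1) _)).trans
      (map_zero j).symm)) isUnit_one

include u in
theorem Tower.pdC (q : ℕ) : (∀ j < q, ∀ z : T.Lc A' U j, z = 0) → PD A' (q + 1) (T.Cq A' U q) := by
  induction q with
  | zero =>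
    intro _
    have := u.proj (T.g 0)
    have := Module.Projective.of_equiv (T.e0 A' U).symm
    exact pd_proj 0
  | succ q ih =>
    intro h
    have := u.proj (T.g (q + 1))
    have hs := T.sesC (h q (by omega))
    exact pd_quot hs.inj hs.surj hs.ex (ih fun j hj => h j (by omega))

theorem Tower.d_lg (f : M →ₗ[A] M) (q : ℕ) (ω : T.G U q) :
    hc A' U (T.lg f (q + 1)) (T.d A' U q ω) = T.d A' U q (hc A' U (T.lg f q) ω) :=
  LinearMap.ext fun r => congrArg ω ((congrArg (T.ι q)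
    (LinearMap.congr_fun (T.p_lg f (q + 1)) r)).trans (LinearMap.congr_fun (T.ι_lf f q) _))

variable (A' U) in
/-- The dual of a lifted endomorphism. -/
noncomputable def Tower.cf (f : M →ₗ[A] M) (q : ℕ) : T.Cq A' U q →ₗ[A'] T.Cq A' U q :=
  Submodule.mapQ _ _ (hc A' U (T.lg f q)) (by
    cases q with
    | zero => exact bot_le
    | succ q =>
      rintro _ ⟨ω, rfl⟩
      exact ⟨_, (T.d_lg f q ω).symm⟩)

include u in
theorem Tower.zeta (q : ℕ) : (∀ j < q, ∀ z : T.Lc A' U j, z = 0) →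
    ∃ ζ : EX A' (T.Cq A' U q) (T.G U 0) q,
      (∀ x : EX A' (T.Cq A' U q) U q, ∃ φ, post ζ φ = x) ∧
      (∀ f, pre (T.cf A' U f q) ζ = post ζ (hc A' U (T.lg f 0))) ∧
      ∀ ψ : T.G U 1 →ₗ[A'] U, ∃ y, post ζ (ψ ∘ₗ T.d A' U 0) =
        pre ((T.bd A' U (q + 1)).subtype ∘ₗ T.ψ A' U q) y := by
  induction q with
  | zero =>
    refine fun _ => ⟨m0 (T.e0 A' U).toLinearMap, fun x => ?_, fun f => ?_, fun ψ => ⟨m0 ψ, ?_⟩⟩
    · obtain ⟨φ, rfl⟩ := m0_surj x
      refine ⟨φ ∘ₗ (T.e0 A' U).symm.toLinearMap, ?_⟩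
      rw [post_m0, LinearMap.comp_assoc, LinearEquiv.symm_comp, LinearMap.comp_id]
    · rw [pre_m0, post_m0]
      exact congrArg m0 (Submodule.linearMap_qext _ rfl)
    · rw [pre_m0, post_m0]
      exact congrArg m0 (Submodule.linearMap_qext _ rfl)
  | succ q ih =>
    intro h
    obtain ⟨ζ, h1, h2, h3⟩ := ih fun j hj => h j (by omega)
    have := u.proj (T.g (q + 1))
    have hs := T.sesC (h q (by omega))
    refine ⟨hs.cls.comp ζ (add_comm 1 q), fun x => ?_, fun f => ?_, fun ψ => ⟨0, ?_⟩⟩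
    · obtain ⟨y, rfl⟩ := hs.l3 x (ex_proj _)
      obtain ⟨φ, rfl⟩ := h1 y
      exact ⟨φ, post_comp _ _ _ _⟩
    · rw [pre_comp, post_comp, ← h2, comp_pre, hs.nat hs (T.cf A' U f q)
        (hc A' U (T.lg f (q + 1))) (T.cf A' U f (q + 1)) (Submodule.linearMap_qext _
          (LinearMap.ext fun ω => (T.d_lg f q ω).symm)) rfl]
    · obtain ⟨y, hy⟩ := h3 ψ
      rw [post_comp, hy, comp_pre, hs.post_cls, Ext.zero_comp, pre_zero]

end One

include u in
/-- The finiteness condition passes from one side to the other. -/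
theorem chi0_two (hG : GDf A) (hG' : GDf A') (χ : Chi0 A U) : Chi0 A' U := by
  obtain ⟨T⟩ := nonempty_tower A (kk A)
  obtain ⟨T'⟩ := nonempty_tower A' (kk A')
  have := kk_simple (A := A)
  have := IsSimpleModule.nontrivial A (kk A)
  have := kk_simple (A := A')
  have := IsSimpleModule.nontrivial A' (kk A')
  obtain ⟨N, hN⟩ := id hG
  obtain ⟨N', hN'⟩ := id hG'
  obtain ⟨n, h, h'⟩ := T.exists_top (hN _)
  obtain ⟨n', g, g'⟩ := T'.exists_top (hN' _)
  have : IsNoetherian A' U := isNoetherian_of_linearEquiv u.e'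
  have : Module.Finite A U := Module.Finite.equiv u.e
  have fl := eb_fl (A' := A') (B := U) u.e hG χ
  have hv := T.depth u fl h h' n le_rfl
  have hL := T.low u hv fl
  obtain ⟨x0, hx0⟩ := T'.top_ne u.symm g g'
  have : Nontrivial (T.Cq A' U n) :=
    nontrivial_of_ne _ 0 fun h0 => T.ε_ne u ⟨0, h'⟩ (mkQ_eq_zero.1 h0)
  have hV : IsFiniteLength A' (T.Cq A' U n) := (T.flL (fl n)).of_surjective
    (f := Submodule.subtype _) fun z => ⟨⟨z, T.L_top h z⟩, rfl⟩
  have lift : ∀ {X : Type} [AddCommGroup X] [Module A' X], IsFiniteLength A' X →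
      ∀ j : kk A' →ₗ[A'] X, Function.Injective j → ∀ x : EX A' (kk A') U n', ∃ y, pre j y = x :=
    fun hX j hj x => (SES.range hj).l1 x (dev_van (ex_pd (T'.pd_of g) le_rfl)
      (hX.of_surjective (Submodule.mkQ_surjective _)) _)
  obtain ⟨j, hj⟩ := exists_kk_inj hV
  obtain rfl : n = n' := by
    refine le_antisymm (not_lt.1 fun hn => hx0 (hv _ hn x0)) (not_lt.1 fun hn => hx0 ?_)
    obtain ⟨y, rfl⟩ := lift hV j hj x0
    rw [ex_pd (T.pdC u n hL) hn y, pre_zero]
  have hS : ASP A' U n := ⟨hv, ⟨x0, hx0⟩, T'.pd_of g⟩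
  obtain ⟨ζ, h1, h2, h3⟩ := T.zeta u n hL
  have h4 : ∀ r r', T.p 0 r = T.p 0 r' → EB.cl A U ζ (evl A' r) = EB.cl A U ζ (evl A' r') := by
    intro r r' hr
    obtain ⟨y, hy⟩ := ((T.ses 0).ex (r - r')).1 (by rw [map_sub, hr, sub_self])
    obtain ⟨s, rfl⟩ := (T.ses 1).surj y
    obtain ⟨y, hy'⟩ := h3 (evl A' s)
    have : IsEmpty (Fin (T.g (n + 1))) := by rw [h]; infer_instance
    have : Subsingleton (T.G U (n + 1)) :=
      ⟨fun a b => LinearMap.ext fun r => by rw [Subsingleton.elim r 0, map_zero, map_zero]⟩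
    rw [ex_triv y, pre_zero] at hy'
    rw [← sub_eq_zero, ← map_sub]
    refine Eq.trans (congrArg _ (LinearMap.ext fun ω => ?_)) hy'
    exact (map_sub ω r r').symm.trans (congrArg ω hy.symm)
  obtain ⟨r0, hr0⟩ := (T.ses 0).surj (T.e ((Ring.jacobson A).mkQ 1))
  let s : EB A A' (T.Cq A' U n) U n := EB.cl A U ζ (evl A' r0)
  have h5 : ∀ a : A, a • s = EB.cl A U ζ (evl A' (a • r0)) := fun a =>
    (map_smul _ _ _).symm.trans (congrArg _ (LinearMap.ext fun ω => (map_smul ω a r0).symm))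
  have h6 : ∀ a : A, T.p 0 (a • r0) = T.e ((Ring.jacobson A).mkQ a) := fun a => by
    rw [map_smul, hr0, ← map_smul, ← map_smul, smul_eq_mul, mul_one]
  have h7 : ∀ x : EB A A' (T.Cq A' U n) U n, ∃ a : A, x = a • s := fun x => by
    obtain ⟨φ, rfl⟩ := h1 x
    obtain ⟨r, rfl⟩ := u.exists_ev φ
    obtain ⟨a, ha⟩ := (T.e.surjective.comp (Ring.jacobson A).mkQ_surjective) (T.p 0 r)
    exact ⟨a, (h4 _ _ (ha.symm.trans (h6 a).symm)).trans (h5 a).symm⟩
  have hj' : Function.Surjective j := by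
    rw [← LinearMap.range_eq_top, ← Submodule.Quotient.subsingleton_iff]
    by_contra hc
    rw [not_subsingleton_iff_nontrivial] at hc
    have hQ := hV.of_surjective (LinearMap.range j).mkQ_surjective
    obtain ⟨j2, hj2⟩ := exists_kk_inj hQ
    obtain ⟨y, hy⟩ := lift hQ j2 hj2 x0
    obtain ⟨a, ha⟩ := h7 (pre (LinearMap.range j).mkQ y)
    have h8 : a • EB.pre A U n j s = 0 := (map_smul _ _ _).symm.trans ((congrArg _ ha.symm).trans
      ((pre_pre _ _ _).trans (by rw [(SES.range hj).ex.linearMap_comp_eq_zero, zero_pre]; rfl)))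
    by_cases hu : IsUnit a
    · obtain ⟨b, hb⟩ := hu.exists_left_inv
      obtain ⟨x1, rfl⟩ := lift hV j hj x0
      obtain ⟨c, rfl⟩ := h7 x1
      refine hx0 ((map_smul (EB.pre A U n j) c s).trans ?_)
      rw [← one_smul A (EB.pre A U n j s), ← hb, mul_smul, h8, smul_zero, smul_zero]
      rfl
    · rw [h5, h4 _ 0 (by rw [h6, kk_eq_zero.2 hu, map_zero, map_zero]),
        show evl A' (0 : Fin (T.g 0) → A) = 0 from LinearMap.ext fun ω => map_zero ω,
        map_zero] at ha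
      exact hx0 (by rw [← hy, hS.pre_inj hV (Submodule.mkQ_surjective _) ha, pre_zero])
  intro i
  rcases lt_trichotomy i n with hi | rfl | hi
  · exact ⟨0, Fin.elim0, fun x => ⟨Fin.elim0, hv i hi x⟩⟩
  · refine ⟨1, fun _ => pre j s, fun x => ?_⟩
    obtain ⟨x, rfl⟩ := lift hV j hj x
    obtain ⟨a, rfl⟩ := h7 x
    let ρ : kk A →ₗ[A] kk A := Submodule.mapQ _ _ (rm a) fun y hy =>
      mem_jac.2 (nu_mul_right (mem_jac.1 hy) a)
    let e := LinearEquiv.ofBijective j ⟨hj, hj'⟩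
    refine ⟨fun _ => e.symm.toLinearMap ∘ₗ T.cf A' U ρ i ∘ₗ j, ?_⟩
    have h8 : a • s = pre (T.cf A' U ρ i) (post ζ (evl A' r0)) := by
      rw [pre_post, h2, post_post, h5]
      refine h4 _ (T.lg ρ 0 r0) ((h6 a).trans (Eq.symm ?_))
      refine (LinearMap.congr_fun (T.p_lg ρ 0) r0).trans ?_
      rw [LinearMap.comp_apply, hr0, T.lf_e]
      exact congrArg (fun y => T.e ((Ring.jacobson A).mkQ y)) (one_mul a)
    rw [Fin.sum_univ_one]
    refine (congrArg (pre j) h8).trans ((pre_pre _ _ _).trans (Eq.trans ?_ (pre_pre _ _ _).symm))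
    exact congrArg (pre · _) (LinearMap.ext fun y => (e.apply_symm_apply _).symm)
  · exact ⟨0, Fin.elim0, fun x => ⟨Fin.elim0, ex_pd hS.pd hi x⟩⟩

section Three

variable {H : Type} [AddCommGroup H] [Module A H] [Module A' H] (hD : Du A H A' U)

include u hD in
theorem Du.kill (I : TwoSidedIdeal A) {h : H} (hh : ∀ b ∈ annM A' (kil U I A'), b • h = 0) :
    ∀ a ∈ I, a • h = 0 := by
  classical
  intro a ha
  have : IsNoetherian A U := isNoetherian_of_linearEquiv u.e
  have : IsNoetherian A' U := isNoetherian_of_linearEquiv u.e'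
  have := EB.noeth (A := A) (A' := A') (B := U) (M := A ⧸ lsub I) 0
  let X : Submodule A U :=
    { carrier := {x | ∀ p ∈ I, p • x = 0}
      add_mem' := (kil U I A').add_mem
      zero_mem' := (kil U I A').zero_mem
      smul_mem' := fun r x hx p hp => by rw [← mul_smul, hx _ (I.mul_mem_right _ _ hp)] }
  obtain ⟨m, π, hπ⟩ := Module.Finite.exists_fin' A X
  let φ : Fin m → (A ⧸ lsub I) →ₗ[A] U := fun i =>
    (lsub I).liftQ (LinearMap.toSpanSingleton A U (π (Pi.single i 1)).1) (π (Pi.single i 1)).2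
  let w : Fin m → EB A' A (A ⧸ lsub I) U 0 := fun i => m0 (φ i)
  obtain ⟨g, hg⟩ := hD.inj' _ _ (LinearMap.toSpanSingleton A' _ w)
    (LinearMap.toSpanSingleton A' H h) fun b hb => hh b (mem_annM.2 fun x hx => by
      obtain ⟨r, hr⟩ := hπ ⟨x, hx⟩
      rw [show x = (π r).1 from congrArg Subtype.val hr.symm, eq_sum_single r, map_sum,
        Submodule.coe_sum, Finset.smul_sum]
      refine Finset.sum_eq_zero fun i _ => ?_
      have h1 : post (m0 (φ i)) (DistribSMul.toLinearMap A U b) = 0 := congrFun hb i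
      rw [post_m0, ← m0_zero] at h1
      have h2 : b • (1 : A) • (π (Pi.single i 1)).1 = 0 :=
        LinearMap.congr_fun (m0_inj h1) ((lsub I).mkQ 1)
      rw [one_smul] at h2
      rw [map_smul, Submodule.coe_smul, smul_comm, h2, smul_zero])
  have h1 := hg 1
  rw [LinearMap.toSpanSingleton_apply, LinearMap.toSpanSingleton_apply, one_smul, one_smul,
    ← Finset.univ_sum_single w, map_sum] at h1
  rw [← h1, Finset.smul_sum]
  exact Finset.sum_eq_zero fun i _ => hD.bp I _ (fun _ hp => quot_killed I hp) 0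
    (g ∘ₗ LinearMap.single A' (fun _ => EB A' A (A ⧸ lsub I) U 0) i) a ha (w i)

include u hD in
theorem Du.three {Q : TwoSidedIdeal A'} (hQ : AnnMax U Q) : ∃ P : TwoSidedIdeal A, AnnMax U P ∧
    ∀ j, ∀ p ∈ P, ∀ w : EB A A' (A' ⧸ lsub Q) U j, p • w = 0 := by
  obtain ⟨x0, hx0, hx0'⟩ := hQ.1
  obtain ⟨P, hP, hP'⟩ := exists_annMax (U := U) (P := annM A (kil U Q A))
    ⟨x0, hx0, fun p hp => mem_annM.1 hp x0 hx0'⟩
  have h1 : Q ≤ annM A' (kil U P A') := fun q hq => by
    by_contra h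
    have h0 : (lsub (annM A' (kil U P A'))).mkQ q ≠ 0 := fun h0 => h (mk_eq_zero.1 h0)
    obtain ⟨f, hf⟩ := hD.inj'.cog hD.soc' h0
    refine hf ?_
    rw [← mul_one q, ← smul_mk, map_smul]
    refine hD.symm.kill u.symm Q (fun a ha => hD.kill u P (fun b hb => ?_) a (hP ha)) q hq
    rw [← map_smul, quot_killed _ hb, map_zero]
  obtain ⟨x1, hx1, hx1'⟩ := hP'.1
  have h2 := hQ.2 _ h1 ⟨x1, hx1, fun p hp => mem_annM.1 hp x1 hx1'⟩
  refine ⟨P, hP', fun j p hp w => by_contra fun h => ?_⟩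
  have : IsNoetherian A U := isNoetherian_of_linearEquiv u.e
  have := EB.noeth (A := A') (A' := A) (B := U) (M := A' ⧸ lsub Q) j
  obtain ⟨f, hf⟩ := hD.inj.cog hD.soc h
  refine hf ?_
  rw [map_smul]
  exact hD.kill u P (fun b hb => hD.bp' Q _ (fun _ hq => quot_killed Q hq) j f b (h2 hb) w) p hp

end Three

variable (hA : Hyp A U) (hA' : Hyp A' U)

include hA hA' in
theorem ann_two {J : TwoSidedIdeal A} (h : Kills U (u.tr J)) : Kills U J := by
  obtain ⟨x, hx, hx'⟩ := h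
  let S : Act A A' A :=
    { θ := fun a => rm (u.t a)
      V := ⊤
      W := lsub J
      hV := fun _ _ _ => trivial
      hW := fun a y hy => J.mul_mem_right _ _ hy
      one := fun y _ => by simp [u.t_one]
      mul := fun a b y _ => by simp [u.t_mul, mul_assoc]
      add := fun a b y _ => by simp [u.t_add, mul_add] }
  have h1 : Function.Surjective (LinearMap.toSpanSingleton A' S.Q (S.π ⟨1, trivial⟩)) := fun q => by
    obtain ⟨y, rfl⟩ := S.surj q
    refine ⟨u.s y.1, (S.smul_π _ _).trans (congrArg S.π (Subtype.ext ?_))⟩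
    change 1 * u.t (u.s y.1) = y.1
    rw [u.t_s, one_mul]
  have := Module.Finite.of_surjective _ h1
  obtain ⟨ψ, hψ⟩ := exists_desc h1 (LinearMap.toSpanSingleton A' U x) fun a ha =>
    hx' a (u.mem_tr.2 (by
      have h2 : 1 * u.t a ∈ J := S.eq_zero.1 ((S.smul_π _ _).symm.trans ha)
      rwa [one_mul] at h2))
  by_contra hc
  have h2 := forms_two u hA hA' (fun φ => LinearMap.ext fun q => ?_) ψ
  · exact hx (by simpa [h2] using (hψ 1).symm)
  · obtain ⟨y, rfl⟩ := S.surj q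
    have h3 : φ (S.π ⟨1, trivial⟩) = 0 := by_contra fun h0 => hc ⟨_, h0, fun p hp => by
      rw [← map_smul, ← map_smul,
        (S.eq_zero (x := p • (⟨1, trivial⟩ : S.V))).2 (J.mul_mem_right p 1 hp), map_zero]⟩
    rw [show y = y.1 • (⟨1, trivial⟩ : S.V) from Subtype.ext (mul_one _).symm, map_smul, map_smul,
      h3, smul_zero, LinearMap.zero_apply]

variable [IsNoetherianRing Aᵐᵒᵖ] {P : TwoSidedIdeal A} (hM : AnnMax U P)

section Star

variable (T : Tower A (A ⧸ lsub P)) {s : ℕ}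

theorem Tower.noeth {M : Type} [AddCommGroup M] [Module A M] (T : Tower A M) (s : ℕ) :
    IsNoetherian A (T.Ω s) :=
  isNoetherian_of_surjective (T.p s) (LinearMap.range_eq_top.2 (T.ses s).surj)

include u hA hA' in
theorem Tower.inj_mod {c : A} (hc : Reg P c) {x : T.Ω s} (hx : x ∈ T.K P s)
    (h : T.lf (rho P c) s x ∈ tors _ hM.prm) : x ∈ tors _ hM.prm := by
  have := T.noeth s
  have hτ := pm_le_tors (Y := T.Ω s) hM.prm
  obtain ⟨d, hd, h1⟩ := exists_common (u.prm hM.prm) (T.K P s) (tors _ hM.prm) (T.θ u s)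
    (fun a w hw => tors_map _ _ hw) (fun a w hw => T.lf_K _ P hw)
    (fun a b w hw => hτ (T.θ_mul u s a b hw)) fun a b hab w hw => by
      have h1 := add_mem (T.θ_add u s (a - b) b hw) (T.θ_mem u s (u.mem_tr.1 hab) hw)
      rw [sub_add_cancel] at h1
      refine hτ ?_
      convert h1 using 1
      abel
  let V : Submodule A (T.Ω s) := T.K P s ⊓ ⨅ a, (tors _ hM.prm).comap (T.θ u s (d * a))
  have hV : ∀ {y}, y ∈ V ↔ y ∈ T.K P s ∧ ∀ a, T.θ u s (d * a) y ∈ tors _ hM.prm := by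
    simp [V]
  let hV' : ∀ a, ∀ y ∈ V, T.θ u s a y ∈ V := fun a y hy =>
    hV.2 ⟨T.lf_K _ P (hV.1 hy).1, fun b => by
      have h2 := sub_mem ((hV.1 hy).2 (b * a)) (hτ (T.θ_mul u s (d * b) a (hV.1 hy).1))
      rwa [mul_assoc, sub_sub_cancel] at h2⟩
  let S := T.act u (V := V) inf_le_left hτ hV' fun a w hw => tors_map _ _ hw
  have : Module.Finite A' S.Q := T.act_fin u _ _ _ _
  have hxV : x ∈ V := hV.2 ⟨hx, h1 x hx _ (u.reg hc) (by rwa [Tower.θ, u.t_s])⟩
  by_contra hc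
  obtain ⟨f, hf⟩ := exists_form hM.prm (rore hM.prm) (Y := S.Q) (w := S.π ⟨x, hxV⟩)
    (fun p hp q => by
      obtain ⟨y, rfl⟩ := S.surj q
      rw [← map_smul, S.eq_zero]
      exact hτ (Submodule.smul_mem_smul hp trivial))
    fun ⟨e, he, h2⟩ => hc (tors_of_smul _ he (S.eq_zero.1 ((map_smul _ _ _).trans h2)))
  obtain ⟨g, hg⟩ := hM.form hf
  let J : TwoSidedIdeal A := u.symm.tr (annM A' (⊤ : Submodule A' S.Q))
  have hJ : ∀ a : A', (∀ y ∈ V, T.θ u s a y ∈ tors _ hM.prm) → u.t a ∈ J := fun a ha =>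
    u.symm.mem_tr.2 (mem_annM.2 fun q _ => by
      obtain ⟨y, rfl⟩ := S.surj q
      change u.s (u.t a) • _ = _
      rw [u.s_t, S.smul_π, S.eq_zero]
      exact ha y y.2)
  have h3 : Kills U (u.tr J) := by
    by_contra h4
    refine hg (LinearMap.congr_fun (forms_two u.symm hA' hA (fun ψ => LinearMap.ext fun q => ?_)
      (g ∘ₗ f)) _)
    refine by_contra fun h5 => h4 ⟨ψ q, h5, fun a ha => ?_⟩
    have h6 : u.s (u.t a) • q = 0 := mem_annM.1 (u.symm.mem_tr.1 (u.mem_tr.1 ha)) q trivial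
    rw [← map_smul, ← u.s_t a, h6, map_zero]
  refine hd.notMem (u.prm hM.prm) (u.mem_tr.2 (hM.2 J (fun p hp => ?_) (ann_two u hA hA' h3)
    (hJ d fun y hy => mul_one d ▸ (hV.1 hy).2 1)))
  rw [← u.t_s p]
  exact hJ _ fun y hy => hτ (T.θ_mem u s (by rwa [u.t_s]) (hV.1 hy).1)

include hM in
theorem Tower.tx_of {f : T.Ω s →ₗ[A] A ⧸ lsub P} (hf : ∀ x ∈ T.K P s, f x = 0) :
    Tx P (post (T.η s) f) := by
  cases s with
  | zero =>
    rw [show f = 0 from LinearMap.ext fun x => hf x trivial, post_zero]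
    exact Tx.zero
  | succ s =>
    obtain ⟨e, he, θ, hθ⟩ := exists_extend hM.prm (rore hM.prm) (fun p hp q => by
      obtain ⟨y, rfl⟩ := Submodule.mkQ_surjective _ q
      rw [← map_smul, mkQ_eq_zero]
      exact Submodule.smul_mem_smul hp trivial) ((pm P _).mkQ ∘ₗ T.ι s) f
      fun x hx => hf x ((mkQ_eq_zero (V := pm P _)).1 hx)
    exact ⟨e, he, (post_post _ _ _).trans
      ((T.ker s _).2 ⟨θ ∘ₗ (pm P _).mkQ, LinearMap.ext fun x => (hθ x).symm⟩)⟩

include u hA hA' hM T in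
theorem Tower.v_inj {c : A} (hc : Reg P c) (x : EX A (A ⧸ lsub P) (A ⧸ lsub P) s)
    (hx : pre (rho P c) x = 0) : Tx P x := by
  obtain ⟨f, rfl⟩ := T.surj0 s x
  rw [pre_post, ← T.η_lf, post_post] at hx
  have := T.noeth s
  have hτ := pm_le_tors (Y := T.Ω s) hM.prm
  let S := T.act u le_rfl hτ (fun a w hw => T.lf_K _ P hw) fun a w hw => tors_map _ _ hw
  have hθ : S.θ (u.s c) = T.lf (rho P c) s := congrArg (fun a => T.lf (rho P a) s) (u.t_s c)
  refine T.tx_of hM fun b hb => ?_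
  obtain ⟨d, hd, q, hq⟩ := exists_reg_smul hM.prm (M := S.Q) (fun p hp q => by
      obtain ⟨y, rfl⟩ := S.surj q
      rw [← map_smul, S.eq_zero]
      exact hτ (Submodule.smul_mem_smul hp trivial)) (S.op (u.s c))
    ((injective_iff_map_eq_zero _).2 fun q hq => by
      obtain ⟨y, rfl⟩ := S.surj q
      exact S.eq_zero.2 (T.inj_mod u hA hA' hM hc y.2
        (hθ ▸ S.eq_zero.1 ((S.smul_π _ y).symm.trans hq)))) (S.π ⟨b, hb⟩)
  obtain ⟨y, rfl⟩ := S.surj q
  have h1 : S.θ (u.s c) y - d • b ∈ tors _ hM.prm :=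
    S.eq.1 ((S.smul_π _ y).symm.trans (hq.trans (map_smul _ _ _).symm))
  have h2 := tors_kill _ f h1
  rw [map_sub, map_smul, hθ, show f (T.lf (rho P c) s y) = 0 from
    pm_kill (fun _ ha => quot_killed P ha) (T.K_kill P hx y.2), zero_sub, neg_eq_zero] at h2
  exact reg_smul_eq_zero hd h2

include u hA hA' hM T in
theorem Tower.v_surj {c : A} (hc : Reg P c) (x : EX A (A ⧸ lsub P) (A ⧸ lsub P) s) :
    ∃ e, Reg P e ∧ ∃ y, post x (rho P e) = pre (rho P c) y := by
  obtain ⟨f, rfl⟩ := T.surj0 s x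
  have := T.noeth s
  obtain ⟨e, he, θ, hθ⟩ := exists_extend hM.prm (rore hM.prm) (fun p hp q => by
      obtain ⟨y, rfl⟩ := Submodule.mkQ_surjective _ q
      rw [← map_smul, mkQ_eq_zero]
      exact Submodule.smul_mem_smul hp trivial)
    ((pm P _).mkQ ∘ₗ T.lf (rho P c) s ∘ₗ (T.K P s).subtype) (f ∘ₗ (T.K P s).subtype)
    fun x hx => tors_kill _ f (T.inj_mod u hA hA' hM hc x.2 (pm_le_tors _ (mkQ_eq_zero.1 hx)))
  obtain ⟨e', he', h⟩ := T.tx_of hM (f := rho P e ∘ₗ f - (θ ∘ₗ (pm P _).mkQ) ∘ₗ T.lf (rho P c) s)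
    fun x hx => sub_eq_zero.2 (hθ ⟨x, hx⟩).symm
  refine ⟨e * e', he.mul he', post (post (T.η s) (θ ∘ₗ (pm P _).mkQ)) (rho P e'), ?_⟩
  rw [post_post, LinearMap.comp_sub, post_sub, sub_eq_zero] at h
  rw [pre_post, pre_post, ← T.η_lf, post_post, post_post, post_post, rho_mul',
    LinearMap.comp_assoc, h]
  rfl

end Star

include u hA hA' hM in
theorem tv_cyc {c : A} (hc : Reg P c) (p : ℕ) :
    TV P ((A ⧸ lsub P) ⧸ LinearMap.range (rho P c)) (p + 1) := fun x => by
  obtain ⟨T⟩ := nonempty_tower A (A ⧸ lsub P)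
  have hs := SES.range (rho_inj hc)
  obtain ⟨e, he, hx⟩ := T.v_inj u hA hA' hM hc (pre (LinearMap.range (rho P c)).mkQ x) (by
    rw [pre_pre, hs.ex.linearMap_comp_eq_zero, zero_pre])
  obtain ⟨y, hy⟩ := hs.l3 _ ((pre_post _ _ _).trans hx)
  obtain ⟨e', he', y', h⟩ := T.v_surj u hA hA' hM hc y
  exact Tx.of he ⟨e', he', by rw [← hy, post_comp, h, comp_pre, hs.post_cls, Ext.zero_comp]⟩

include u hA hA' hM in
/-- The Ext groups of a torsion module into the factor ring are torsion. -/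
theorem tv_tors (p : ℕ) : ∀ (Y : Type) [AddCommGroup Y] [Module A Y] [Module.Finite A Y],
    (∀ a ∈ P, ∀ y : Y, a • y = 0) → Tors P Y → TV P Y p := by
  induction p with
  | zero => exact fun Y _ _ _ _ h => tv_zero h
  | succ p ih =>
    have key : ∀ (n : ℕ) (Y : Type) [AddCommGroup Y] [Module A Y] (f : Fin n → Y),
        Submodule.span A (Set.range f) = ⊤ → (∀ a ∈ P, ∀ y : Y, a • y = 0) → Tors P Y →
        TV P Y (p + 1) := by
      intro n
      induction n with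
      | zero =>
        intro Y _ _ f hf _ _ x
        have : Subsingleton Y := subsingleton_of_forall_eq 0 fun y => by
          have : y ∈ Submodule.span A (Set.range f) := hf ▸ trivial
          simpa using this
        rw [ex_triv x]
        exact Tx.zero
      | succ n ihn =>
        intro Y _ _ f hf hY hT
        let V := Submodule.span A {f 0}
        refine tv_mid (SES.quot V) ?_ (ihn _ (fun i => V.mkQ (f i.succ)) ?_ (quot_kill hY V)
          (hT.surj V.mkQ_surjective))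
        · obtain ⟨c, hc, h0⟩ := hT (f 0)
          let π : ((A ⧸ lsub P) ⧸ LinearMap.range (rho P c)) →ₗ[A] V :=
            Submodule.liftQ _ ((lsub P).liftQ (LinearMap.toSpanSingleton A V
              ⟨f 0, Submodule.mem_span_singleton_self _⟩) fun a ha => Subtype.ext (hY a ha _)) (by
              rintro _ ⟨q, rfl⟩
              obtain ⟨a, rfl⟩ := (lsub P).mkQ_surjective q
              exact Subtype.ext ((mul_smul a c (f 0)).trans (by rw [h0]; exact smul_zero a)))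
          have hπ : Function.Surjective π := by
            rintro ⟨y, hy⟩
            obtain ⟨a, rfl⟩ := Submodule.mem_span_singleton.1 hy
            exact ⟨Submodule.mkQ _ ((lsub P).mkQ a), rfl⟩
          refine tv_quot (SES.ker hπ) (ih _ (fun a ha y => Subtype.ext
            (quot_kill (fun _ ha => quot_killed P ha) _ a ha y.1))
            (Tors.inj (fun y => ?_) (Submodule.injective_subtype _))) (tv_cyc u hA hA' hM hc p)
          obtain ⟨y, rfl⟩ := Submodule.mkQ_surjective _ y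
          obtain ⟨d, hd, h⟩ := exists_reg_smul hM.prm (fun _ ha => quot_killed P ha) _
            (rho_inj hc) y
          exact ⟨d, hd, (map_smul _ _ _).symm.trans (mkQ_eq_zero.2 h)⟩
        · rw [eq_top_iff, ← LinearMap.range_eq_top.2 V.mkQ_surjective, LinearMap.range_eq_map,
            ← hf, Submodule.map_span, Submodule.span_le]
          rintro _ ⟨_, ⟨i, rfl⟩, rfl⟩
          refine Fin.cases ?_ (fun i => Submodule.subset_span ⟨i, rfl⟩) i
          rw [mkQ_eq_zero.2 (Submodule.mem_span_singleton_self _)]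
          exact Submodule.zero_mem _
    intro Y _ _ _
    obtain ⟨n, f, hf⟩ := Module.Finite.exists_fin (R := A) (M := Y)
    exact key n Y f hf

section Four

variable {M : Type} [AddCommGroup M] [Module A' M] (T : Tower A' M)
  (hW : ∀ j, ∀ p ∈ P, ∀ w : EB A A' M U j, p • w = 0)

include u hA hA' hM hW in
theorem Tower.four {q : ℕ} (h : ∀ j, q < j → Tors P (T.Lc A U j)) (z : T.Lc A U q)
    (hz : ¬ ∃ d, Reg P d ∧ d • z = 0) : ∃ f : T.Cq A U q →ₗ[A] A ⧸ lsub P, f z ≠ 0 := by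
  obtain ⟨N, hN⟩ := hA.gd
  have h1 := fun j => u.symm.fin (T.g j)
  have h2 : ∀ j p, TV P (T.G U j) (p + 1) := fun j p x => by
    have := u.symm.proj (T.g j)
    rw [ex_proj x]
    exact Tx.zero
  have hL : ∀ j, ∀ p ∈ P, ∀ z : T.Lc A U j, p • z = 0 := fun j p hp => T.L_kill (hW j p hp)
  have key : ∀ t p, N ≤ p + t → ∀ j, q < j → TV P (T.Cq A U j) (p + 1) := by
    intro t
    induction t with
    | zero =>
      intro p hp j _ x
      rw [ex_pd (hN _) (by omega) x]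
      exact Tx.zero
    | succ t ih =>
      exact fun p hp j hj => tv_mid (SES.ker (T.ψ_surj A U j))
        (tv_tors u hA hA' hM _ _ (hL j) (h j hj))
        (tv_sub (SES.quot _) (ih (p + 1) (by omega) (j + 1) (by omega)) (h2 _ _))
  obtain ⟨f, hf⟩ := exists_form hM.prm (rore hM.prm) (Y := T.Lc A U q) (hL q) hz
  obtain ⟨e, he, g, hg⟩ := tv_ext (SES.ker (T.ψ_surj A U q))
    (tv_sub (SES.quot _) (key N 1 (by omega) (q + 1) (by omega)) (h2 _ _)) f
  exact ⟨g, fun h0 => hf (rho_inj he (((hg z).symm.trans h0).trans (map_zero _).symm))⟩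

include u hA hA' hM hW in
theorem Tower.tors_pos : ∀ j, 0 < j → Tors P (T.Lc A U j) := by
  obtain ⟨N, hN⟩ := hA'.gd
  have key : ∀ t q, N ≤ q + t → ∀ j, q < j → Tors P (T.Lc A U j) := by
    intro t
    induction t with
    | zero =>
      exact fun q hq j hj z => ⟨1, Reg.one, T.L_kill (fun w => ex_pd (hN M) (by omega) _) z⟩
    | succ t ih =>
      intro q hq j hj z
      have h1 := ih (q + 1) (by omega)
      rcases (Nat.succ_le_of_lt hj).eq_or_lt with rfl | hj
      · by_contra hz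
        obtain ⟨f, hf⟩ := T.four u hA hA' hM hW h1 z hz
        obtain ⟨g, hg⟩ := hM.form hf
        exact hg (T.form_kill u.symm (g ∘ₗ f) z.2)
      · exact h1 j hj z
  exact key N 0 (by omega)

end Four

include hA hA' in
theorem core {Q : TwoSidedIdeal A'} (hQ : AnnMax U Q)
    (h : ∀ P : TwoSidedIdeal A, Prm P → ∀ x : U, (∀ q ∈ Q, q • x = 0) → u.e.symm x ∈ P) :
    False := by
  obtain ⟨n, -, -, hD, -⟩ := exists_all u hA hA'
  obtain ⟨P, hM, hW⟩ := hD.three u hQ
  obtain ⟨T⟩ := nonempty_tower A' (A' ⧸ lsub Q)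
  obtain ⟨x, hx, hx'⟩ := hQ.1
  let φ : (A' ⧸ lsub Q) →ₗ[A'] U := (lsub Q).liftQ (LinearMap.toSpanSingleton A' U x) hx'
  let ω : T.Ω 0 →ₗ[A'] U := φ ∘ₗ T.e.symm.toLinearMap
  have h1 : ∀ a : A, a • T.toL A U 0 ω = 0 → a • x = 0 := fun a ha => by
    rw [← map_smul, T.toL_eq_zero A U] at ha
    have h2 : a • φ (T.e.symm (T.e ((lsub Q).mkQ 1))) = 0 :=
      LinearMap.congr_fun (T.ker0 _ ha) (T.e ((lsub Q).mkQ 1))
    rw [T.e.symm_apply_apply] at h2
    exact (congrArg (a • ·) (one_smul A' x)).symm.trans h2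
  have : IsNoetherian A' U := isNoetherian_of_linearEquiv u.e'
  obtain ⟨f, hf⟩ := T.four u hA hA' hM hW (T.tors_pos u hA hA' hM hW) (T.toL A U 0 ω)
    fun ⟨d, hd, h2⟩ => hx (hM.tf A' hd (fun p hp => h1 p (T.L_kill (hW 0 p hp) _)) (h1 d h2))
  refine hf ?_
  change f (Submodule.mkQ _ (ω ∘ₗ T.p 0)) = 0
  rw [u.symm.eq_sum (ω ∘ₗ T.p 0), map_sum, map_sum]
  refine Finset.sum_eq_zero fun j _ => ?_
  rw [map_smul, map_smul]
  refine quot_killed P (h P hM.prm _ fun q hq => ?_) _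
  rw [← map_smul, LinearMap.comp_apply, LinearMap.comp_apply, map_smul, map_smul,
    quot_killed Q hq, map_zero]

theorem eq_zero_or_eq_zero_of_ar {R : Type} [Ring R] [IsLocalRing R] [IsNoetherianRing R]
    [IsNoetherianRing Rᵐᵒᵖ] (hL : GDf R) (hR : GDf Rᵐᵒᵖ) (h1 : ARl R) (h2 : ARl Rᵐᵒᵖ)
    (h3 : Chi0 R R) {a b : R} (hab : a * b = 0) : a = 0 ∨ b = 0 := by
  classical
  by_contra hc
  push Not at hc
  have := op_local (Λ := R)
  obtain ⟨N, hN, hN'⟩ := exists_nil' hL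
  obtain ⟨x0, hx0, hx0'⟩ : ∃ x0 ∈ N, x0 ≠ 0 := by
    rcases hN' a b (hab ▸ N.zero_mem) with h | h
    · exact ⟨a, h, hc.1⟩
    · exact ⟨b, h, hc.2⟩
  obtain ⟨Q, hQ, hQ'⟩ := exists_annMax (U := R) (P := annM Rᵐᵒᵖ (rsub N))
    ⟨x0, hx0', fun p hp => mem_annM.1 hp x0 hx0⟩
  obtain ⟨y, hy, hyQ⟩ : ∃ y, y ∉ N ∧ op y ∈ Q := by
    obtain ⟨s, hs⟩ := IsNoetherian.noetherian (lsub N)
    obtain ⟨y, hy, hy'⟩ := exists_ann' hR (s.image op) fun x hx => by
      obtain ⟨z, hz, rfl⟩ := Finset.mem_image.1 hx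
      have : z ∈ lsub N := hs ▸ Submodule.subset_span hz
      exact ((hN z).1 this).imp fun n hn => (op_pow z n).symm.trans (congrArg op hn)
    refine ⟨y.unop, fun h => hy (((hN _).1 h).imp fun n hn =>
      (op_pow y.unop n).symm.trans (congrArg op hn)), hQ (mem_annM.2 fun x hx => ?_)⟩
    have h1 : lsub N ≤ LinearMap.ker (rm y.unop) := by
      rw [← hs, Submodule.span_le]
      exact fun x hx => congrArg unop (hy' _ (Finset.mem_image_of_mem op hx))
    exact h1 hx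
  let u : Un R Rᵐᵒᵖ R := ⟨LinearEquiv.refl R R, (opEq R).symm, rfl⟩
  refine core u ⟨h1, hL, h3⟩ ⟨h2, hR, chi0_two u hL hR h3⟩ hQ' fun P hP x hx => ?_
  have hxN : x ∈ N := (hN' x y (by
    rw [show x * y = 0 from hx _ hyQ]; exact N.zero_mem)).resolve_right hy
  by_contra h
  obtain ⟨r, hr⟩ := exists_not_nil_right hP h
  obtain ⟨m, hm⟩ := (hN _).1 (N.mul_mem_right x r hxN)
  exact hr m (by
    change (x * r) ^ (m + 1) ∈ P
    rw [pow_succ, hm, zero_mul]; exact P.zero_mem)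

theorem ar_of_complete {R : Type} [Ring R] [IsLocalRing R] [IsNoetherianRing R] (h1 : Sep R R)
    (h2 : Lim R R) : ARl R := by
  intro L
  let N : Submodule R (R ⧸ msub 1 L) := L.map (msub 1 L).mkQ
  have hN : IsFiniteLength R N := fl_of_kill (c := 1) fun a ha x => Subtype.ext (by
    obtain ⟨y, hy, he⟩ := x.2
    rw [Submodule.coe_smul, ← he, ← map_smul]
    exact mkQ_eq_zero.2 (smul_mem_of_pow (mem_mp.1 ha) hy))
  obtain ⟨_, _⟩ := isFiniteLength_iff_isNoetherian_isArtinian.1 hN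
  obtain ⟨c, hc⟩ := IsArtinian.monotone_stabilizes (R := R) (M := N)
    ⟨fun b => OrderDual.toDual ((msub b ⊤).comap N.subtype), fun _ _ h _ hx => msub_anti ⊤ h hx⟩
  refine ⟨c, fun a ha => mkQ_eq_zero.1 (sep_of_finite h1 h2 _ fun j => ?_)⟩
  have h3 : (⟨_, a, ha.1, rfl⟩ : N) ∈ (msub c ⊤).comap N.subtype :=
    msub_map_le (msub 1 L).mkQ c (fun _ _ => Submodule.mem_top) ha.2
  have h4 : (msub c ⊤).comap N.subtype = (msub (max c j) ⊤).comap N.subtype :=
    hc _ (le_max_left _ _)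
  rw [h4] at h3
  exact msub_anti ⊤ (le_max_right c j) h3

theorem ar_of_jac {R : Type} [Ring R] [IsLocalRing R]
    (h : ∀ L : Ideal R, ∃ b : ℕ, L ⊓ Ring.jacobson R ^ b ≤ Ring.jacobson R * L) : ARl R := by
  intro L
  obtain ⟨b, hb⟩ := h L
  refine ⟨b, le_trans (le_of_eq (by rw [jac_pow])) (hb.trans (Submodule.mul_le.2 ?_))⟩
  exact fun a ha y hy => smul_mem_msub ⟨a, 1, mem_jac.1 ha, rfl, (mul_one a).symm⟩ hy

theorem ar_both {R : Type} [Ring R] [IsLocalRing R] [IsNoetherianRing R] [IsNoetherianRing Rᵐᵒᵖ]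
    (h1 : Sep R R) (h2 : Lim R R) : ARl R ∧ ARl Rᵐᵒᵖ := by
  have := op_local (Λ := R)
  let u : Un R Rᵐᵒᵖ R := ⟨LinearEquiv.refl R R, (opEq R).symm, rfl⟩
  exact ⟨ar_of_complete h1 h2, ar_of_complete (u.anti.sep h1) (u.anti.lim h2)⟩

end Pool.Agent.Lib.MP_95d09c_al
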