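import Pool.Agent.Lib.MP_95d09c_al.ArH

/-!
The Tor groups of a factor ring with itself are noetherian bimodules.
-/

set_option autoImplicit false
set_option linter.unusedSectionVars false

namespace Pool.Agent.Lib.MP_95d09c_al

open CategoryTheory Abelian

section Act

variable (A A' N : Type) [Ring A] [Ring A'] [AddCommGroup N] [Module A N]

/-- An action of a second ring on a subquotient. -/
structure Act where
  θ : A' → N →ₗ[A] N
  V : Submodule A N
  W : Submodule A N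
  hV : ∀ a, ∀ x ∈ V, θ a x ∈ V
  hW : ∀ a, ∀ x ∈ W, θ a x ∈ W
  one : ∀ x ∈ V, θ 1 x - x ∈ W
  mul : ∀ a b, ∀ x ∈ V, θ (a * b) x - θ a (θ b x) ∈ W
  add : ∀ a b, ∀ x ∈ V, θ (a + b) x - (θ a x + θ b x) ∈ W

variable {A A' N} (S : Act A A' N)

/-- The subquotient. -/
def Act.Q : Type := S.V ⧸ S.W.comap S.V.subtype

instance : AddCommGroup S.Q := inferInstanceAs (AddCommGroup (S.V ⧸ S.W.comap S.V.subtype))

instance : Module A S.Q := inferInstanceAs (Module A (S.V ⧸ S.W.comap S.V.subtype))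

instance [IsNoetherian A N] : IsNoetherian A S.Q :=
  inferInstanceAs (IsNoetherian A (S.V ⧸ S.W.comap S.V.subtype))

/-- The quotient map. -/
def Act.π : S.V →ₗ[A] S.Q := (S.W.comap S.V.subtype).mkQ

theorem Act.surj : Function.Surjective S.π := Submodule.mkQ_surjective _

theorem Act.eq_zero {x : S.V} : S.π x = 0 ↔ x.1 ∈ S.W := mkQ_eq_zero

theorem Act.eq {x y : S.V} : S.π x = S.π y ↔ x.1 - y.1 ∈ S.W := Submodule.Quotient.eq _

/-- The action of an element. -/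
def Act.op (a : A') : S.Q →ₗ[A] S.Q :=
  Submodule.mapQ _ _ ((S.θ a).restrict (S.hV a)) fun x hx => S.hW a x.1 hx

instance : SMul A' S.Q := ⟨fun a q => S.op a q⟩

theorem Act.smul_π (a : A') (x : S.V) : a • S.π x = S.π ⟨S.θ a x, S.hV a x x.2⟩ := rfl

instance : Module A' S.Q := Module.ofMinimalAxioms (fun a => map_add (S.op a))
  (fun a b q => by
    obtain ⟨x, rfl⟩ := S.surj q
    rw [S.smul_π, S.smul_π, S.smul_π, ← map_add, S.eq]
    exact S.add a b x x.2)
  (fun a b q => by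
    obtain ⟨x, rfl⟩ := S.surj q
    rw [S.smul_π, S.smul_π, S.smul_π, S.eq]
    exact S.mul a b x x.2)
  fun q => by
    obtain ⟨x, rfl⟩ := S.surj q
    rw [S.smul_π, S.eq]
    exact S.one x x.2

instance : SMulCommClass A A' S.Q := ⟨fun a b q => (map_smul (S.op b) a q).symm⟩

instance : SMulCommClass A' A S.Q := SMulCommClass.symm _ _ _

end Act

section Lift

variable {A : Type} [Ring A] {L G E L' G' E' M N : Type} [AddCommGroup L] [Module A L]
  [AddCommGroup G] [Module A G] [AddCommGroup E] [Module A E] [AddCommGroup L'] [Module A L']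
  [AddCommGroup G'] [Module A G'] [AddCommGroup E'] [Module A E'] [AddCommGroup M] [Module A M]
  [AddCommGroup N] [Module A N]

theorem SES.exists_lift {ι : L →ₗ[A] G} {p : G →ₗ[A] E} (h : SES ι p) {ι' : L' →ₗ[A] G'}
    {p' : G' →ₗ[A] E'} (h' : SES ι' p') [Module.Projective A G] (f : E →ₗ[A] E') :
    ∃ g : G →ₗ[A] G', p' ∘ₗ g = f ∘ₗ p ∧ ∃ f' : L →ₗ[A] L', ι' ∘ₗ f' = g ∘ₗ ι := by
  obtain ⟨g, hg⟩ := Module.projective_lifting_property p' (f ∘ₗ p) h'.surj
  have h1 : ∀ x, g (ι x) ∈ LinearMap.range ι' := fun x => (h'.ex _).1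
    ((LinearMap.congr_fun hg _).trans (by
      rw [LinearMap.comp_apply, h.ex.apply_apply_eq_zero, map_zero]))
  exact ⟨g, hg, (LinearEquiv.ofInjective ι' h'.inj).symm.toLinearMap ∘ₗ (g ∘ₗ ι).codRestrict _ h1,
    LinearMap.ext fun x => congrArg Subtype.val
      ((LinearEquiv.ofInjective ι' h'.inj).apply_symm_apply ⟨_, h1 x⟩)⟩

theorem post_sub {q : ℕ} (x : EX A L M q) (f g : M →ₗ[A] N) :
    post x (f - g) = post x f - post x g :=
  map_sub (AddMonoidHom.mk' (fun g : M →ₗ[A] N => post x g) (post_add x)) f g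

/-- The product of an ideal and a module. -/
abbrev pm (P : TwoSidedIdeal A) (N : Type) [AddCommGroup N] [Module A N] : Submodule A N :=
  lsub P • ⊤

theorem map_pm {P : TwoSidedIdeal A} (g : M →ₗ[A] N) {x : M} (hx : x ∈ pm P M) : g x ∈ pm P N :=
  Submodule.smul_induction_on hx
    (fun r hr n _ => by rw [map_smul]; exact Submodule.smul_mem_smul hr trivial)
    fun x y hx hy => by rw [map_add]; exact add_mem hx hy

theorem pm_kill {P : TwoSidedIdeal A} (hM : ∀ a ∈ P, ∀ x : M, a • x = 0) {x : M}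
    (hx : x ∈ pm P M) : x = 0 :=
  Submodule.smul_induction_on hx (fun r hr n _ => hM r hr n)
    fun x y hx hy => by rw [hx, hy, add_zero]

variable (T : Tower A M) (f : M →ₗ[A] M)

/-- A lift of an endomorphism to the syzygies. -/
noncomputable def Tower.lf : ∀ p, T.Ω p →ₗ[A] T.Ω p
  | 0 => T.e.toLinearMap ∘ₗ f ∘ₗ T.e.symm.toLinearMap
  | p + 1 => ((T.ses p).exists_lift (T.ses p) (Tower.lf p)).choose_spec.2.choose

/-- A lift of an endomorphism to the free modules. -/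
noncomputable def Tower.lg (p : ℕ) : (Fin (T.g p) → A) →ₗ[A] (Fin (T.g p) → A) :=
  ((T.ses p).exists_lift (T.ses p) (T.lf f p)).choose

theorem Tower.p_lg (p : ℕ) : T.p p ∘ₗ T.lg f p = T.lf f p ∘ₗ T.p p :=
  ((T.ses p).exists_lift (T.ses p) (T.lf f p)).choose_spec.1

theorem Tower.ι_lf (p : ℕ) : T.ι p ∘ₗ T.lf f (p + 1) = T.lg f p ∘ₗ T.ι p :=
  ((T.ses p).exists_lift (T.ses p) (T.lf f p)).choose_spec.2.choose_spec

theorem Tower.lf_e (x : M) : T.lf f 0 (T.e x) = T.e (f x) :=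
  congrArg (fun y => T.e (f y)) (T.e.symm_apply_apply x)

theorem Tower.η_lf (p : ℕ) : post (T.η p) (T.lf f p) = pre f (T.η p) := by
  induction p with
  | zero =>
    rw [Tower.η, post_m0, pre_m0]
    exact congrArg m0 (LinearMap.ext (T.lf_e f))
  | succ p ih =>
    rw [Tower.η, pre_comp, ← ih, post_comp, ← comp_pre,
      (T.ses p).nat (T.ses p) _ (T.lg f p) _ (T.ι_lf f p) (T.p_lg f p)]

variable (P : TwoSidedIdeal A)

/-- The cycles computing Tor with the factor ring. -/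
def Tower.K : ∀ p, Submodule A (T.Ω p)
  | 0 => ⊤
  | p + 1 => (pm P _).comap (T.ι p)

theorem Tower.lf_K {p : ℕ} {x : T.Ω p} (hx : x ∈ T.K P p) : T.lf f p x ∈ T.K P p := by
  cases p with
  | zero => trivial
  | succ p =>
    change T.ι p (T.lf f (p + 1) x) ∈ pm P _
    rw [show T.ι p (T.lf f (p + 1) x) = _ from LinearMap.congr_fun (T.ι_lf f p) x]
    exact map_pm (T.lg f p) (x := T.ι p x) hx

theorem Tower.K_kill {p : ℕ} {φ : T.Ω p →ₗ[A] N} (h : post (T.η p) φ = 0) {x : T.Ω p}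
    (hx : x ∈ T.K P p) : φ x ∈ pm P N := by
  cases p with
  | zero => rw [T.ker0 φ h]; exact zero_mem _
  | succ p =>
    obtain ⟨g, rfl⟩ := (T.ker p φ).1 h
    exact map_pm g hx

/-- A free resolution of the factor ring as a right module. -/
structure CR where
  g : ℕ → ℕ
  α : ∀ p, Matrix (Fin (g p)) (Fin (g (p + 1))) A
  zz : ∀ p, α p * α (p + 1) = 0
  ex : ∀ p, Van (α p) (α (p + 1)) A
  uniq : Subsingleton (Fin (g 0))
  i0 : Fin (g 0)
  mem : ∀ i j, α 0 i j ∈ P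
  gen : ∀ x ∈ P, ∃ z : Fin (g 1) → A, act (α 0) z i0 = x

theorem nonempty_cr [IsLocalRing A] [IsNoetherianRing Aᵐᵒᵖ] : Nonempty (CR P) := by
  obtain ⟨g0, φ0, h0, -⟩ := exists_mat ((rsub P).comap (LinearMap.proj (0 : Fin 1)))
  choose g φ h _ using fun s : Σ m n : ℕ, Matrix (Fin m) (Fin n) A =>
    exists_mat (LinearMap.ker (rmat s.2.2))
  let s : ℕ → Σ m n : ℕ, Matrix (Fin m) (Fin n) A := fun k =>
    Nat.rec ⟨1, g0, φ0⟩ (fun _ s => ⟨s.2.1, g s, φ s⟩) k
  refine ⟨⟨fun k => (s k).1, fun k => (s k).2.2, fun k => mul_eq_zero_of_range (h (s k)),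
    fun k => van_of_range (h (s k)), inferInstanceAs (Subsingleton (Fin 1)), (0 : Fin 1),
    fun i j => ?_, fun x hx => ?_⟩⟩
  · have h1 : rmat φ0 (Pi.single j 1) ∈ (rsub P).comap (LinearMap.proj (0 : Fin 1)) :=
      h0 ▸ ⟨_, rfl⟩
    rw [Subsingleton.elim (α := Fin 1) i 0]
    exact (congrArg (· ∈ P) (act_single φ0 j 0)).mp h1
  · have h1 : (fun _ => x) ∈ LinearMap.range (rmat φ0) := h0 ▸ hx
    obtain ⟨z, hz⟩ := h1
    exact ⟨z, congrFun hz 0⟩

variable {P} (X : CR P)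

theorem CR.gen' {x : N} (hx : x ∈ pm P N) :
    ∃ w : Fin (X.g 1) → N, act (X.α 0) w X.i0 = x := by
  refine Submodule.smul_induction_on hx (fun r hr n _ => ?_) ?_
  · obtain ⟨z, rfl⟩ := X.gen r hr
    exact ⟨fun k => z k • n, by simp [act, Finset.sum_smul, mul_smul]⟩
  · rintro _ _ ⟨w, rfl⟩ ⟨w', rfl⟩
    exact ⟨w + w', congrFun (act_add _ w w') _⟩

variable {s : ℕ}

/-- Zigzags between the two ways to compute Tor. -/
def Zz (x : T.Ω s) : ∀ j i, (Fin (X.g j) → T.Ω i) → Prop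
  | 0, i, z => ∃ h : s = i, ∀ k, z k = cast (congrArg T.Ω h) x
  | j + 1, i, z => ∃ (z' : Fin (X.g j) → T.Ω (i + 1))
      (w : Fin (X.g (j + 1)) → Fin (T.g i) → A), Zz x j (i + 1) z' ∧
      (fun k => T.ι i (z' k)) = act (X.α j) w ∧ (fun k => T.p i (w k)) = z

variable {T X}

theorem Zz.add {x x' : T.Ω s} (j : ℕ) : ∀ i (z z' : Fin (X.g j) → T.Ω i), Zz T X x j i z →
    Zz T X x' j i z' → Zz T X (x + x') j i (z + z') := by
  induction j with
  | zero =>
    rintro _ z z' ⟨rfl, h⟩ ⟨_, h'⟩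
    exact ⟨rfl, fun k => congrArg₂ (· + ·) (h k) (h' k)⟩
  | succ j ih =>
    rintro i _ _ ⟨y, w, h1, h2, rfl⟩ ⟨y', w', h1', h2', rfl⟩
    refine ⟨y + y', w + w', ih _ _ _ h1 h1', ?_, funext fun k => map_add _ _ _⟩
    rw [act_add, ← h2, ← h2']
    exact funext fun k => map_add _ _ _

theorem Zz.congr {x : T.Ω s} {j i : ℕ} {z z' : Fin (X.g j) → T.Ω i} (h : Zz T X x j i z)
    (he : ∀ k, z' k = z k) : Zz T X x j i z' := funext he ▸ h

theorem Zz.map {x : T.Ω s} (j : ℕ) : ∀ i (z : Fin (X.g j) → T.Ω i), Zz T X x j i z →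
    Zz T X (T.lf f s x) j i fun k => T.lf f i (z k) := by
  induction j with
  | zero =>
    rintro _ z ⟨rfl, h⟩
    exact ⟨rfl, fun k => congrArg _ (h k)⟩
  | succ j ih =>
    rintro i _ ⟨y, w, h1, h2, rfl⟩
    refine ⟨_, fun k => T.lg f i (w k), ih _ _ h1, ?_,
      funext fun k => LinearMap.congr_fun (T.p_lg f i) _⟩
    rw [← act_map, ← h2]
    exact funext fun k => LinearMap.congr_fun (T.ι_lf f i) _

theorem Zz.zero (j : ℕ) : ∀ i, i + j = s → Zz T X (0 : T.Ω s) j i 0 := by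
  induction j with
  | zero =>
    rintro _ rfl
    exact ⟨rfl, fun _ => rfl⟩
  | succ j ih =>
    intro i hi
    exact ⟨0, 0, ih _ (by omega), (funext fun k => map_zero _).trans (act_zero _).symm,
      funext fun k => map_zero _⟩

theorem Zz.van {x : T.Ω s} (j : ℕ) : ∀ i (v : Fin (X.g (j + 1)) → T.Ω i),
    Zz T X x j i (act (X.α j) v) → x ∈ pm P (T.Ω s) := by
  induction j with
  | zero =>
    rintro _ v ⟨rfl, h⟩
    rw [← show act (X.α 0) v X.i0 = x from h X.i0]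
    exact sum_mem fun k _ => Submodule.smul_mem_smul (X.mem _ k) trivial
  | succ j ih =>
    rintro i v ⟨y, w, h1, h2, h3⟩
    choose v' hv' using fun k => (T.ses i).surj (v k)
    choose t ht using fun k => ((T.ses i).ex (w k - act (X.α (j + 1)) v' k)).1 (by
      rw [map_sub, congrFun h3 k, congrFun (act_map (T.p i) _ v') k, funext hv', sub_self])
    refine ih (i + 1) t ?_
    convert h1 using 1
    refine funext fun k => (T.ses i).inj ?_
    rw [congrFun (act_map (T.ι i) _ t) k, funext ht, congrFun h2 k]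
    change act (X.α j) (w - act (X.α (j + 1)) v') k = _
    rw [act_sub, act_act (X.zz j), sub_zero]

variable (T X) in
/-- Cycles. -/
def Cy : ∀ j i, (Fin (X.g j) → T.Ω i) → Prop
  | 0, i, z => ∀ k, z k ∈ T.K P i
  | j + 1, _, z => act (X.α j) z = 0

variable (X) in
theorem Zz.ex {x : T.Ω s} (hx : x ∈ T.K P s) (j : ℕ) : ∀ i, i + j = s →
    ∃ z, Zz T X x j i z ∧ Cy T X j i z := by
  induction j with
  | zero =>
    rintro _ rfl
    exact ⟨fun _ => x, ⟨rfl, fun _ => rfl⟩, fun _ => hx⟩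
  | succ j ih =>
    intro i hi
    obtain ⟨y, h1, h2⟩ := ih (i + 1) (by omega)
    obtain ⟨w, hw⟩ : ∃ w, (fun k => T.ι i (y k)) = act (X.α j) w := by
      cases j with
      | zero =>
        obtain ⟨w, hw⟩ := X.gen' (h2 X.i0)
        exact ⟨w, funext fun k => by rw [X.uniq.elim k X.i0]; exact hw.symm⟩
      | succ j =>
        refine (X.ex j).pi _ _ ?_
        rw [← act_map, show act (X.α j) y = 0 from h2]
        exact funext fun k => map_zero _
    refine ⟨_, ⟨y, w, h1, hw, rfl⟩, ?_⟩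
    change act (X.α j) _ = 0
    rw [← act_map, ← hw]
    exact funext fun k => (T.ses i).ex.apply_apply_eq_zero _

end Lift

variable {A A' U : Type} [Ring A] [Ring A'] [AddCommGroup U] [Module A U] [Module A' U]
  [SMulCommClass A A' U] (u : Un A A' U) {P : TwoSidedIdeal A} (T : Tower A (A ⧸ lsub P)) (s : ℕ)

/-- The action of the other ring on a syzygy. -/
noncomputable def Tower.θ (a : A') : T.Ω s →ₗ[A] T.Ω s := T.lf (rho P (u.t a)) s

theorem Tower.θ_one {x : T.Ω s} (hx : x ∈ T.K P s) : T.θ u s 1 x - x ∈ pm P (T.Ω s) :=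
  T.K_kill P (φ := T.θ u s 1 - LinearMap.id) (by
    rw [post_sub, Tower.θ, T.η_lf, u.t_one, rho_one'', pre_id, post_id, sub_self]) hx

theorem Tower.θ_mul (a b : A') {x : T.Ω s} (hx : x ∈ T.K P s) :
    T.θ u s (a * b) x - T.θ u s a (T.θ u s b x) ∈ pm P (T.Ω s) :=
  T.K_kill P (φ := T.θ u s (a * b) - T.θ u s a ∘ₗ T.θ u s b) (by
    rw [post_sub, ← post_post, Tower.θ, Tower.θ, Tower.θ, T.η_lf, T.η_lf, ← pre_post, T.η_lf,
      pre_pre, u.t_mul, rho_mul', sub_self]) hx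

theorem Tower.θ_add (a b : A') {x : T.Ω s} (hx : x ∈ T.K P s) :
    T.θ u s (a + b) x - (T.θ u s a x + T.θ u s b x) ∈ pm P (T.Ω s) :=
  T.K_kill P (φ := T.θ u s (a + b) - (T.θ u s a + T.θ u s b)) (by
    rw [post_sub, post_add, Tower.θ, Tower.θ, Tower.θ, T.η_lf, T.η_lf, T.η_lf, u.t_add, rho_add',
      add_pre, sub_self]) hx

theorem Tower.θ_mem {a : A'} (ha : u.t a ∈ P) {x : T.Ω s} (hx : x ∈ T.K P s) :
    T.θ u s a x ∈ pm P (T.Ω s) :=
  T.K_kill P (by rw [Tower.θ, T.η_lf, rho_mem ha, zero_pre]) hx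

variable {s} {V W : Submodule A (T.Ω s)} (h1 : V ≤ T.K P s) (h2 : pm P (T.Ω s) ≤ W)
  (hV : ∀ a, ∀ x ∈ V, T.θ u s a x ∈ V) (hW : ∀ a, ∀ x ∈ W, T.θ u s a x ∈ W)

/-- Subquotients of Tor. -/
noncomputable def Tower.act : Act A A' (T.Ω s) where
  θ := T.θ u s
  V := V
  W := W
  hV := hV
  hW := hW
  one _ hx := h2 (T.θ_one u s (h1 hx))
  mul a b _ hx := h2 (T.θ_mul u s a b (h1 hx))
  add a b _ hx := h2 (T.θ_add u s a b (h1 hx))

theorem Tower.act_fin [IsLocalRing A] [IsNoetherianRing Aᵐᵒᵖ] [IsNoetherianRing A'] :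
    Module.Finite A' (T.act u h1 h2 hV hW).Q := by
  obtain ⟨X⟩ := nonempty_cr P
  let S := T.act u h1 h2 hV hW
  let Γ : Submodule A' ((Fin (X.g s) → A') × S.Q) :=
    { carrier := {y | ∃ x : S.V, S.π x = y.2 ∧
        Zz T X x.1 s 0 fun k => T.e ((lsub P).mkQ (u.t (y.1 k)))}
      add_mem' := by
        rintro ⟨z, _⟩ ⟨z', _⟩ ⟨x, rfl, hx⟩ ⟨x', rfl, hx'⟩
        exact ⟨x + x', map_add _ _ _, (Zz.add _ _ _ _ hx hx').congr fun k => by simp [u.t_add]⟩
      zero_mem' := ⟨0, map_zero _, (Zz.zero s 0 (zero_add s)).congr fun k => by simp [u.t_zero]⟩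
      smul_mem' := by
        rintro a ⟨z, _⟩ ⟨x, rfl, hx⟩
        refine ⟨_, (S.smul_π a x).symm, (Zz.map (rho P (u.t a)) _ _ _ hx).congr fun k => ?_⟩
        rw [T.lf_e, rho_mk, ← u.t_mul]
        rfl }
  have : IsNoetherian A' Γ := by
    refine isNoetherian_of_injective (LinearMap.fst A' _ _ ∘ₗ Γ.subtype) ?_
    rw [injective_iff_map_eq_zero]
    rintro ⟨⟨z, q⟩, x, hq, hx⟩ (rfl : z = 0)
    exact Subtype.ext (Prod.ext rfl (hq.symm.trans (S.eq_zero.2 (h2 (Zz.van (X := X) s 0 0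
      (hx.congr fun k => by simp [u.t_zero]))))))
  refine Module.Finite.of_surjective (LinearMap.snd A' _ _ ∘ₗ Γ.subtype) fun q => ?_
  obtain ⟨x, rfl⟩ := S.surj q
  obtain ⟨z, hz, -⟩ := Zz.ex X (h1 x.2) s 0 (zero_add s)
  choose y hy using fun k => (T.e.surjective.comp (lsub P).mkQ_surjective) (z k)
  exact ⟨⟨(fun k => u.s (y k), S.π x), x, rfl, hz.congr fun k => by rw [u.t_s]; exact hy k⟩, rfl⟩

end Pool.Agent.Lib.MP_95d09c_al
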