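import Pool.Agent.Lib.MP_95d09c_al.ArLC

/-!
Zigzags in directed systems of double complexes, and functorial free resolutions.
-/

set_option autoImplicit false
set_option linter.unusedSectionVars false

namespace Pool.Agent.Lib.MP_95d09c_al

open CategoryTheory Abelian

/-- A directed system of double complexes with commuting differentials. -/
structure DC where
  C : ℕ → ℕ → ℕ → Type
  [grp : ∀ j p q, AddCommGroup (C j p q)]
  dl : ∀ {j p q}, C j p q →+ C j (p + 1) q
  dr : ∀ {j p q}, C j p q →+ C j p (q + 1)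
  tr : ∀ {j b p q}, j ≤ b → C j p q →+ C b p q
  ll : ∀ {j p q} (x : C j p q), dl (dl x) = 0
  rr : ∀ {j p q} (x : C j p q), dr (dr x) = 0
  lr : ∀ {j p q} (x : C j p q), dl (dr x) = dr (dl x)
  tl : ∀ {j b p q} (h : j ≤ b) (x : C j p q), tr h (dl x) = dl (tr h x)
  tr' : ∀ {j b p q} (h : j ≤ b) (x : C j p q), tr h (dr x) = dr (tr h x)
  tt : ∀ {j b c p q} (h : j ≤ b) (h' : b ≤ c) (x : C j p q), tr h' (tr h x) = tr (h.trans h') x
  ts : ∀ {j p q} (x : C j p q), tr le_rfl x = x

attribute [instance] DC.grp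

namespace DC

variable (D : DC)

/-- Boundaries for the first differential. -/
def Bl {j : ℕ} : ∀ {p q : ℕ}, D.C j p q → Prop
  | 0, _, x => x = 0
  | _ + 1, _, x => ∃ w, D.dl w = x

/-- Boundaries for the second differential. -/
def Br {j p : ℕ} : ∀ {q : ℕ}, D.C j p q → Prop
  | 0, x => x = 0
  | _ + 1, x => ∃ w, D.dr w = x

/-- Zigzags of total degree `m`. -/
def Zg {j : ℕ} (m : ℕ) (z : ∀ p q, D.C j p q) : Prop :=
  (∀ p q, p + q + 1 = m → D.dl (z p (q + 1)) = D.dr (z (p + 1) q)) ∧ D.dr (z 0 m) = 0 ∧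
    D.dl (z m 0) = 0

/-- Exactness of the second page away from the first edge. -/
def HR : Prop := ∀ j p q (x : D.C j (p + 1) q), D.dr x = 0 → D.Br (D.dl x) →
  ∃ b, ∃ h : j ≤ b, ∃ w : D.C b p q, D.dr w = 0 ∧ D.Br (D.tr h x - D.dl w)

/-- Exactness of the second page away from the other edge. -/
def HL : Prop := ∀ j p q (x : D.C j p (q + 1)), D.dl x = 0 → D.Bl (D.dr x) →
  ∃ b, ∃ h : j ≤ b, ∃ w : D.C b p q, D.dl w = 0 ∧ D.Bl (D.tr h x - D.dr w)

variable {D}

theorem Br.zero {j p q : ℕ} : D.Br (0 : D.C j p q) := by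
  cases q with
  | zero => rfl
  | succ q => exact ⟨0, map_zero _⟩

theorem Bl.zero {j p q : ℕ} : D.Bl (0 : D.C j p q) := by
  cases p with
  | zero => rfl
  | succ p => exact ⟨0, map_zero _⟩

theorem Br.dr {j p q : ℕ} {x : D.C j p q} (h : D.Br x) : D.dr x = 0 := by
  cases q with
  | zero => rw [show x = 0 from h, map_zero]
  | succ q => obtain ⟨w, rfl⟩ := h; exact D.rr w

theorem Br.tr {j b p q : ℕ} (hb : j ≤ b) {x : D.C j p q} (h : D.Br x) : D.Br (D.tr hb x) := by
  cases q with
  | zero => rw [show x = 0 from h, map_zero]; rfl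
  | succ q => obtain ⟨w, rfl⟩ := h; exact ⟨_, (D.tr' hb w).symm⟩

theorem Zg.tr {j b m : ℕ} (hb : j ≤ b) {z : ∀ p q, D.C j p q} (h : D.Zg m z) :
    D.Zg m fun p q => D.tr hb (z p q) :=
  ⟨fun p q hm => by rw [← D.tl, ← D.tr', h.1 p q hm], by rw [← D.tr', h.2.1, map_zero],
    by rw [← D.tl, h.2.2, map_zero]⟩

theorem Zg.sub {j m : ℕ} {z z' : ∀ p q, D.C j p q} (h : D.Zg m z) (h' : D.Zg m z') :
    D.Zg m fun p q => z p q - z' p q :=
  ⟨fun p q hm => by rw [map_sub, map_sub, h.1 p q hm, h'.1 p q hm],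
    by rw [map_sub, h.2.1, h'.2.1, sub_zero], by rw [map_sub, h.2.2, h'.2.2, sub_zero]⟩

theorem exists_zg_aux (hR : D.HR) (q : ℕ) : ∀ j p (y : D.C j p q), D.Br (D.dl y) →
    ∃ b, ∃ h : j ≤ b, ∃ z : ∀ p q, D.C b p q, z p q = D.tr h y ∧
      (∀ p' q', p ≤ p' → p' + q' + 1 = p + q → D.dl (z p' (q' + 1)) = D.dr (z (p' + 1) q')) ∧
      ∀ m, p + q = m → D.dl (z m 0) = 0 := by
  induction q with
  | zero =>
    intro j p y hy
    refine ⟨j, le_rfl, Function.update (fun _ _ => 0) p (Function.update (fun _ => 0) 0 y), ?_,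
      fun p' q' h1 h2 => by omega, ?_⟩
    · rw [Function.update_self, Function.update_self, D.ts]
    · rintro _ rfl
      change D.dl (Function.update (fun p q => (0 : D.C j p q)) p _ p 0) = 0
      rw [Function.update_self, Function.update_self]
      exact hy
  | succ q ih =>
    rintro j p y ⟨w, hw⟩
    obtain ⟨b, hb, v, hv, hv'⟩ := hR j (p + 1) q (D.dl w) (by rw [← D.lr, hw, D.ll])
      (by rw [D.ll]; exact Br.zero)
    obtain ⟨c, hc, z, h1, h2, h3⟩ := ih b (p + 1) (D.tr hb w - v) (by rwa [map_sub, ← D.tl])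
    refine ⟨c, hb.trans hc, Function.update z p (Function.update (z p) (q + 1)
      (D.tr (hb.trans hc) y)), ?_, fun p' q' hp hq => ?_, fun m hm => ?_⟩
    · rw [Function.update_self, Function.update_self]
    · rw [Function.update_of_ne (by omega : p' + 1 ≠ p)]
      rcases hp.eq_or_lt with rfl | hp
      · obtain rfl : q' = q := by omega
        rw [Function.update_self, Function.update_self, h1, ← D.tr', map_sub, hv, sub_zero,
          ← D.tr', hw, D.tt, D.tl]
      · rw [Function.update_of_ne hp.ne']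
        exact h2 p' q' hp (by omega)
    · rw [Function.update_of_ne (by omega : m ≠ p)]
      exact h3 m (by omega)

theorem exists_zg (hR : D.HR) {j m : ℕ} (y : D.C j 0 m) (h1 : D.dr y = 0) (h2 : D.Br (D.dl y)) :
    ∃ b, ∃ h : j ≤ b, ∃ z : ∀ p q, D.C b p q, z 0 m = D.tr h y ∧ D.Zg m z := by
  obtain ⟨b, hb, z, h3, h4, h5⟩ := exists_zg_aux hR m j 0 y h2
  exact ⟨b, hb, z, h3, fun p q h => h4 p q (Nat.zero_le p) (by omega),
    by rw [h3, ← D.tr', h1, map_zero], h5 m (zero_add m)⟩

theorem Zg.van (hL : D.HL) {j m : ℕ} {z : ∀ p q, D.C j p q} (h : D.Zg m z) (h0 : D.Bl (z m 0)) :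
    ∃ b, ∃ hb : j ≤ b, D.Br (D.tr hb (z 0 m)) := by
  have key : ∀ q p, p + q = m → ∃ b, ∃ hb : j ≤ b, ∃ v : D.C b p q, D.Br v ∧
      D.Bl (D.tr hb (z p q) - v) := by
    intro q
    induction q with
    | zero =>
      rintro p rfl
      exact ⟨j, le_rfl, 0, rfl, by rwa [D.ts, sub_zero]⟩
    | succ q ih =>
      intro p hp
      obtain ⟨b, hb, v, hv, w, hw⟩ := ih (p + 1) (by omega)
      obtain ⟨c, hc, u, -, hu⟩ := hL b p q (D.tr hb (z p (q + 1)) - D.dr w)
        (by rw [map_sub, ← D.tl, h.1 p q (by omega), D.lr, hw, map_sub, hv.dr, sub_zero, D.tr',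
          sub_self])
        (by
          rw [map_sub, D.rr, sub_zero, ← D.tr']
          cases p with
          | zero =>
            obtain rfl : m = q + 1 := by omega
            rw [h.2.1, map_zero]; rfl
          | succ p => exact ⟨_, by rw [← h.1 p (q + 1) (by omega), D.tl]⟩)
      refine ⟨c, hb.trans hc, D.dr (D.tr hc w + u), ⟨_, rfl⟩, ?_⟩
      rwa [map_sub, D.tt, D.tr', sub_sub, ← map_add] at hu
  obtain ⟨b, hb, v, hv, hv'⟩ := key m 0 (zero_add m)
  exact ⟨b, hb, by rwa [sub_eq_zero.1 hv']⟩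

end DC

theorem SES.nat {A : Type} [Ring A] {L M P L' M' P' : Type} [AddCommGroup L] [Module A L]
    [AddCommGroup M] [Module A M] [AddCommGroup P] [Module A P] [AddCommGroup L'] [Module A L']
    [AddCommGroup M'] [Module A M'] [AddCommGroup P'] [Module A P'] {ι : L →ₗ[A] M}
    {p : M →ₗ[A] P} (h : SES ι p) {ι' : L' →ₗ[A] M'} {p' : M' →ₗ[A] P'} (h' : SES ι' p')
    (f1 : L →ₗ[A] L') (f2 : M →ₗ[A] M') (f3 : P →ₗ[A] P') (h1 : ι' ∘ₗ f1 = f2 ∘ₗ ι)
    (h2 : p' ∘ₗ f2 = f3 ∘ₗ p) : post h.cls f1 = pre f3 h'.cls :=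
  ShortComplex.ShortExact.extClass_naturality (shortExact_of h.inj h.surj h.ex)
    (shortExact_of h'.inj h'.surj h'.ex)
    ⟨ModuleCat.ofHom f1, ModuleCat.ofHom f2, ModuleCat.ofHom f3, ModuleCat.hom_ext h1,
      ModuleCat.hom_ext h2⟩

section It

variable (A : Type) [Ring A]

/-- The canonical free cover. -/
noncomputable def cov (X : Type) [AddCommGroup X] [Module A X] : (X →₀ A) →ₗ[A] X :=
  Finsupp.linearCombination A id

variable (M N : Type) [AddCommGroup M] [Module A M] [AddCommGroup N] [Module A N]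

/-- Iterated canonical syzygies. -/
noncomputable def It : ℕ → ModuleCat.{0} A
  | 0 => ModuleCat.of A M
  | p + 1 => ModuleCat.of A (LinearMap.ker (cov A (It p)))

/-- The inclusion of a canonical syzygy. -/
noncomputable def It.ι (p : ℕ) : It A M (p + 1) →ₗ[A] (It A M p →₀ A) :=
  (LinearMap.ker (cov A (It A M p))).subtype

theorem cov_single (x : M) : cov A M (Finsupp.single x 1) = x := by simp [cov]

theorem It.ses (p : ℕ) : SES (It.ι A M p) (cov A (It A M p)) :=
  SES.ker fun x => ⟨_, cov_single A _ x⟩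

variable {A M N}

theorem cov_map (f : M →ₗ[A] N) : cov A N ∘ₗ Finsupp.lmapDomain A A f = f ∘ₗ cov A M := by
  ext x
  simp [cov]

/-- The induced maps of syzygies. -/
noncomputable def It.map (f : M →ₗ[A] N) : ∀ p, It A M p →ₗ[A] It A N p
  | 0 => f
  | p + 1 => (Finsupp.lmapDomain A A (It.map f p)).restrict
      (p := LinearMap.ker (cov A (It A M p))) (q := LinearMap.ker (cov A (It A N p)))
      fun x hx => (LinearMap.congr_fun (cov_map (It.map f p)) x).trans (by
        rw [LinearMap.comp_apply, hx, map_zero])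

theorem It.ι_map (f : M →ₗ[A] N) (p : ℕ) (x : It A M (p + 1)) :
    It.ι A N p (It.map f (p + 1) x) = Finsupp.mapDomain (It.map f p) (It.ι A M p x) := rfl

theorem It.map_id (p : ℕ) : ∀ x : It A M p, It.map LinearMap.id p x = x := by
  induction p with
  | zero => exact fun _ => rfl
  | succ p ih =>
    intro x
    refine (It.ses A M p).inj ?_
    rw [It.ι_map, show ⇑(It.map (LinearMap.id : M →ₗ[A] M) p) = id from funext ih,
      Finsupp.mapDomain_id]

theorem It.map_map {P : Type} [AddCommGroup P] [Module A P] (f : M →ₗ[A] N) (g : N →ₗ[A] P)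
    (p : ℕ) : ∀ x : It A M p, It.map g p (It.map f p x) = It.map (g ∘ₗ f) p x := by
  induction p with
  | zero => exact fun _ => rfl
  | succ p ih =>
    intro x
    refine (It.ses A P p).inj ?_
    rw [It.ι_map, It.ι_map, It.ι_map, ← Finsupp.mapDomain_comp]
    congr 1
    exact funext ih

variable (A M) in
/-- The class of the truncated canonical resolution. -/
noncomputable def It.η : ∀ p, EX A M (It A M p) p
  | 0 => m0 LinearMap.id
  | p + 1 => (It.η p).comp (It.ses A M p).cls rfl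

theorem It.nat (f : M →ₗ[A] N) (p : ℕ) : pre f (It.η A N p) = post (It.η A M p) (It.map f p) := by
  induction p with
  | zero => exact (pre_m0 f LinearMap.id).trans (post_m0 LinearMap.id f).symm
  | succ p ih =>
    rw [It.η, It.η, pre_comp, ih, post_comp, ← comp_pre,
      (It.ses A M p).nat (It.ses A N p) (It.map f (p + 1)) (Finsupp.lmapDomain A A (It.map f p))
        (It.map f p) rfl (cov_map _)]

theorem It.surj (q : ℕ) : ∀ (t s : ℕ) (h : q + t = s) (x : EX A M N s),
    ∃ y : EX A (It A M q) N t, (It.η A M q).comp y h = x := by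
  induction q with
  | zero =>
    intro t s h x
    obtain rfl : t = s := by omega
    exact ⟨x, pre_id x⟩
  | succ q ih =>
    intro t s h x
    obtain ⟨y, rfl⟩ := ih (t + 1) s (by omega) x
    obtain ⟨z, rfl⟩ := (It.ses A M q).l3 y (ex_proj _)
    exact ⟨z, Ext.comp_assoc _ _ _ rfl _ (by omega)⟩

theorem It.inj (q : ℕ) : ∀ (t s : ℕ) (h : q + (t + 1) = s) (y : EX A (It A M q) N (t + 1)),
    (It.η A M q).comp y h = 0 → y = 0 := by
  induction q with
  | zero =>
    intro t s h y hy
    obtain rfl : t + 1 = s := by omega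
    exact (pre_id y).symm.trans hy
  | succ q ih =>
    intro t s h y hy
    have h1 := ih (t + 1) s (by omega) ((It.ses A M q).cls.comp y (add_comm 1 _))
      ((Ext.comp_assoc _ _ _ rfl _ (by omega)).symm.trans hy)
    obtain ⟨z, rfl⟩ := (It.ses A M q).l1 y h1
    rw [ex_proj z, pre_zero]

variable (A) in
/-- The differential on cochains. -/
noncomputable def cd {p : ℕ} (x : It A M p → N) : It A M (p + 1) →ₗ[A] N :=
  Finsupp.linearCombination A x ∘ₗ It.ι A M p

theorem cd_lin {p : ℕ} (f : It A M p →ₗ[A] N) : cd A f = 0 := by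
  have : Finsupp.linearCombination A f = f ∘ₗ cov A (It A M p) := by
    ext x
    simp [cov]
  refine LinearMap.ext fun z => ?_
  rw [cd, this, LinearMap.comp_apply, LinearMap.comp_apply,
    (It.ses A M p).ex.apply_apply_eq_zero, map_zero]
  rfl

theorem cd_smul {p : ℕ} (a : A) (s : It A M p) :
    ∃ z, ∀ x : It A M p → N, cd A x z = x (a • s) - a • x s :=
  ⟨⟨Finsupp.single (a • s) 1 - Finsupp.single s a, by simp [cov]⟩, fun x => by
    change Finsupp.linearCombination A x (Finsupp.single (a • s) 1 - Finsupp.single s a) = _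
    simp⟩

theorem exists_lin {p : ℕ} {x : It A M p → N} (h : ∀ z, cd A x z = 0) :
    ∃ f : It A M p →ₗ[A] N, ⇑f = x := by
  refine ⟨⟨⟨x, fun s t => ?_⟩, fun a s => ?_⟩, rfl⟩
  · have h0 : Finsupp.single (s + t) 1 - Finsupp.single s 1 - Finsupp.single t 1 ∈
        LinearMap.ker (cov A (It A M p)) := by simp [cov]
    have h1 := h ⟨_, h0⟩
    change Finsupp.linearCombination A x (Finsupp.single (s + t) 1 - Finsupp.single s 1 -
        Finsupp.single t 1) = 0 at h1
    simpa [sub_sub, sub_eq_zero] using h1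
  · obtain ⟨z, hz⟩ := cd_smul (N := N) a s
    exact sub_eq_zero.1 ((hz x).symm.trans (h z))

theorem cd_map {P : Type} [AddCommGroup P] [Module A P] (f : P →ₗ[A] M) {p : ℕ}
    (x : It A M p → N) (z : It A P (p + 1)) :
    cd A x (It.map f (p + 1) z) = cd A (fun s => x (It.map f p s)) z := by
  rw [cd, cd, LinearMap.comp_apply, LinearMap.comp_apply, It.ι_map,
    Finsupp.linearCombination_mapDomain]
  rfl

theorem cd_post {P : Type} [AddCommGroup P] [Module A P] (g : N →ₗ[A] P) {p : ℕ}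
    (x : It A M p → N) (z : It A M (p + 1)) : g (cd A x z) = cd A (fun s => g (x s)) z :=
  Finsupp.apply_linearCombination A g x _

theorem cd_add {p : ℕ} (x y : It A M p → N) (z : It A M (p + 1)) :
    cd A (x + y) z = cd A x z + cd A y z := by
  simp [cd, Finsupp.linearCombination_apply, Finsupp.sum, Finset.sum_add_distrib]

variable (A) in
/-- Coboundaries. -/
def CB : ∀ {p : ℕ}, (It A M p → N) → Prop
  | 0, x => x = 0
  | _ + 1, x => ∃ w, ⇑(cd A w) = x

theorem It.surj0 (q : ℕ) (x : EX A M N q) : ∃ f : It A M q →ₗ[A] N, post (It.η A M q) f = x := by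
  obtain ⟨y, rfl⟩ := It.surj q 0 q rfl x
  obtain ⟨f, rfl⟩ := m0_surj y
  exact ⟨f, rfl⟩

theorem It.ker {q : ℕ} (f : It A M q →ₗ[A] N) : post (It.η A M q) f = 0 ↔ CB A f := by
  cases q with
  | zero =>
    rw [show post (It.η A M 0) f = m0 (M := M) f from post_m0 (L := M) LinearMap.id f, ← m0_zero]
    exact ⟨fun h => funext fun x => LinearMap.congr_fun (m0_inj h) x,
      fun h => congrArg m0 (LinearMap.ext fun x => congrFun h x)⟩
  | succ q =>
    constructor
    · intro hf
      have h1 := It.inj q 0 (q + 1) rfl ((It.ses A M q).cls.comp (m0 f) (add_comm 1 0))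
        ((Ext.comp_assoc _ _ _ rfl _ (by omega)).symm.trans hf)
      obtain ⟨z, hz⟩ := (It.ses A M q).l1 _ h1
      obtain ⟨g, rfl⟩ := m0_surj z
      rw [pre_m0] at hz
      refine ⟨fun s => g (Finsupp.single s 1), ?_⟩
      rw [← m0_inj hz, cd]
      congr 2
      ext x
      simp
    · rintro ⟨w, hw⟩
      rw [← DFunLike.coe_injective hw, cd, ← post_post, It.η, post_comp, (It.ses A M q).post_cls,
        Ext.comp_zero, zero_post]

end It

end Pool.Agent.Lib.MP_95d09c_al
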