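import Pool.Agent.Lib.MP_95d09c_al.Compl

/-!
Hom and Ext of a bimodule into the ring, and modules of maximal depth.
-/

set_option autoImplicit false
set_option linter.unusedSectionVars false

namespace Pool.Agent.Lib.MP_95d09c_al

open CategoryTheory Abelian Matrix

attribute [local instance] ModuleCat.Algebra.instLinear

variable {C : Type} [CommRing C] {A : Type} [Ring A] [Algebra C A]
  {A' : Type} [Ring A'] [Algebra C A'] (σ : Anti C A A')

section WW

variable (M : Type) [AddCommGroup M] [Module A M] (q : ℕ)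

/-- Right multiplication. -/
abbrev rm (a : A) : A →ₗ[A] A := LinearMap.toSpanSingleton A A a

/-- Ext into the ring, with its module structures. -/
def WW (_ : Anti C A A') (M : Type) [AddCommGroup M] [Module A M] (q : ℕ) : Type := EX A M A q

noncomputable instance : AddCommGroup (WW σ M q) := inferInstanceAs (AddCommGroup (EX A M A q))

noncomputable instance : Module C (WW σ M q) := inferInstanceAs (Module C (EX A M A q))

noncomputable instance : Module A' (WW σ M q) where
  smul a w := post w (rm (σ.symm.s a))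
  one_smul w := by
    change post w (rm (σ.symm.s 1)) = w
    rw [σ.symm.one, show rm (1 : A) = LinearMap.id from LinearMap.ext fun x => mul_one x, post_id]
  mul_smul a b w := by
    change post w (rm (σ.symm.s (a * b))) = post (post w (rm (σ.symm.s b))) (rm (σ.symm.s a))
    rw [post_post, σ.symm.mul]
    congr 1
    exact LinearMap.ext fun x => (mul_assoc x _ _).symm
  smul_zero _ := zero_post _
  smul_add _ _ _ := add_post _ _ _
  add_smul a b w := by
    change post w (rm (σ.symm.s (a + b))) = post w (rm (σ.symm.s a)) + post w (rm (σ.symm.s b))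
    rw [← post_add, map_add]
    congr 1
    exact LinearMap.ext fun x => mul_add x _ _
  zero_smul w := by
    change post w (rm (σ.symm.s 0)) = 0
    rw [map_zero, show rm (0 : A) = 0 from LinearMap.ext fun x => mul_zero x, post_zero]

variable {M q}

theorem WW.smul_def' (a : A') (w : WW σ M q) : a • w = post w (rm (σ.symm.s a)) := rfl

instance : IsScalarTower C A' (WW σ M q) := ⟨fun c a w => by
  rw [WW.smul_def', WW.smul_def', map_smul,
    show rm (c • σ.symm.s a) = c • rm (σ.symm.s a) from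
      LinearMap.ext fun x => mul_smul_comm c x _]
  exact post_smul c w _⟩

/-- The linear map given by an element of Ext in degree zero. -/
noncomputable def h0 {N : Type} [AddCommGroup N] [Module A N] (w : EX A M N 0) : M →ₗ[A] N :=
  (m0_surj w).choose

theorem m0_h0 {N : Type} [AddCommGroup N] [Module A N] (w : EX A M N 0) : m0 (h0 w) = w :=
  (m0_surj w).choose_spec

theorem h0_m0 {N : Type} [AddCommGroup N] [Module A N] (f : M →ₗ[A] N) : h0 (m0 f) = f :=
  m0_inj (m0_h0 _)

/-- Evaluation. -/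
noncomputable def ev0 (x : M) : WW σ M 0 →ₗ[A'] A' where
  toFun w := σ.s (h0 w x)
  map_add' v w := by
    obtain ⟨f, rfl⟩ := m0_surj v
    obtain ⟨g, rfl⟩ := m0_surj w
    have : h0 (m0 f + m0 g) = f + g := by rw [← m0_add, h0_m0]
    exact (congrArg (fun u : M →ₗ[A] A => σ.s (u x)) this).trans
      (by rw [h0_m0, h0_m0, LinearMap.add_apply, map_add])
  map_smul' a w := by
    obtain ⟨f, rfl⟩ := m0_surj w
    rw [WW.smul_def', post_m0, h0_m0, h0_m0]
    exact (σ.mul _ _).trans (congrArg (· * _) (σ.s.apply_symm_apply a))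

theorem ev0_m0 (x : M) (f : M →ₗ[A] A) : ev0 σ x (m0 f) = σ.s (f x) :=
  congrArg (fun u : M →ₗ[A] A => σ.s (u x)) (h0_m0 f)

theorem WW.fin0 [IsNoetherianRing A'] [Module.Finite A M] : Module.Finite A' (WW σ M 0) := by
  obtain ⟨e, π, hπ⟩ := Module.Finite.exists_fin' A M
  refine Module.Finite.of_injective (LinearMap.pi fun j : Fin e => ev0 σ (π (Pi.single j 1))) ?_
  rw [injective_iff_map_eq_zero]
  intro w hw
  obtain ⟨f, rfl⟩ := m0_surj w
  have h1 : f ∘ₗ π = 0 := by
    rw [eq_colF (f ∘ₗ π), show (fun j => (f ∘ₗ π) (Pi.single j 1)) = 0 from funext fun j =>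
      (map_eq_zero_iff _ σ.s.injective).1 ((ev0_m0 σ _ f).symm.trans (congrFun hw j))]
    ext
    simp [colF]
  rw [show f = 0 from LinearMap.ext fun x => by
    obtain ⟨r, rfl⟩ := hπ x
    exact LinearMap.congr_fun h1 r]
  exact m0_zero

instance WW.fin [IsLocalRing A] [IsNoetherianRing A] [IsNoetherianRing A'] [Module.Finite A M] :
    Module.Finite A' (WW σ M q) := by
  obtain ⟨T⟩ := nonempty_tower A M
  have : Module.Finite A (T.Ω q) := Module.Finite.of_surjective _ (T.ses q).surj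
  have := WW.fin0 σ (M := T.Ω q)
  let φ : WW σ (T.Ω q) 0 →ₗ[A'] WW σ M q :=
    { toFun := fun y => (T.η q).comp y (add_zero q)
      map_add' := fun _ _ => Ext.comp_add _ _ _ _
      map_smul' := fun _ _ => (post_comp _ _ _ _).symm }
  exact Module.Finite.of_surjective φ (T.surj q 0 q rfl)

end WW

variable (Y : Type) [AddCommGroup Y] [Module A Y] [Module A' Y] [SMulCommClass A A' Y]
  [Module C Y] [IsScalarTower C A Y] [IsScalarTower C A' Y]

/-- The action of the other ring. -/
def th (a : A) : Y →ₗ[A] Y where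
  toFun y := σ.s a • y
  map_add' := smul_add _
  map_smul' b y := (smul_comm b (σ.s a) y).symm

theorem th_one : th σ Y 1 = LinearMap.id := LinearMap.ext fun y => by
  change σ.s 1 • y = y
  rw [σ.one, one_smul]

theorem th_mul (a b : A) : th σ Y (a * b) = th σ Y b ∘ₗ th σ Y a := LinearMap.ext fun y => by
  change σ.s (a * b) • y = σ.s b • σ.s a • y
  rw [σ.mul, mul_smul]

theorem th_add (a b : A) : th σ Y (a + b) = th σ Y a + th σ Y b := LinearMap.ext fun y => by
  change σ.s (a + b) • y = σ.s a • y + σ.s b • y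
  rw [map_add, add_smul]

theorem th_zero : th σ Y 0 = 0 := LinearMap.ext fun y => by
  change σ.s 0 • y = 0
  rw [map_zero, zero_smul]

theorem th_smul (c : C) (a : A) : th σ Y (c • a) = c • th σ Y a := LinearMap.ext fun y => by
  change σ.s (c • a) • y = c • σ.s a • y
  rw [map_smul, smul_assoc]

noncomputable instance (q : ℕ) : Module A (WW σ Y q) where
  smul a w := pre (th σ Y a) w
  one_smul w := by
    change pre (th σ Y 1) w = w
    rw [th_one, pre_id]
  mul_smul a b w := by
    change pre (th σ Y (a * b)) w = pre (th σ Y a) (pre (th σ Y b) w)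
    rw [pre_pre, th_mul]
  smul_zero _ := pre_zero _
  smul_add _ _ _ := pre_add _ _ _
  add_smul a b w := by
    change pre (th σ Y (a + b)) w = pre (th σ Y a) w + pre (th σ Y b) w
    rw [th_add, add_pre]
  zero_smul w := by
    change pre (th σ Y 0) w = 0
    rw [th_zero, zero_pre]

theorem WW.smul_def {q : ℕ} (a : A) (w : WW σ Y q) : a • w = pre (th σ Y a) w := rfl

instance (q : ℕ) : IsScalarTower C A (WW σ Y q) := ⟨fun c a w => by
  rw [WW.smul_def, WW.smul_def, th_smul]
  exact smul_pre c _ w⟩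

instance (q : ℕ) : SMulCommClass A A' (WW σ Y q) := ⟨fun _ _ _ => pre_post _ _ _⟩

instance (q : ℕ) : SMulCommClass A' A (WW σ Y q) := SMulCommClass.symm _ _ _

section ZZ

variable (E : Type) [AddCommGroup E] [Module A E] [Module C E] [IsScalarTower C A E]

/-- Linear maps from a bimodule, with the module structure coming from the other side. -/
def ZZ (_ : Anti C A A') (Y : Type) [AddCommGroup Y] [Module A Y] (E : Type) [AddCommGroup E]
    [Module A E] : Type := Y →ₗ[A] E

instance : AddCommGroup (ZZ σ Y E) := inferInstanceAs (AddCommGroup (Y →ₗ[A] E))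

instance : Module C (ZZ σ Y E) := inferInstanceAs (Module C (Y →ₗ[A] E))

variable {σ Y E} in
/-- The underlying linear map. -/
def ZZ.h (z : ZZ σ Y E) : Y →ₗ[A] E := z

instance : Module A (ZZ σ Y E) where
  smul a z := z.h ∘ₗ th σ Y a
  one_smul z := by
    change z.h ∘ₗ th σ Y 1 = z.h
    rw [th_one, LinearMap.comp_id]
  mul_smul a b z := by
    change z.h ∘ₗ th σ Y (a * b) = (z.h ∘ₗ th σ Y b) ∘ₗ th σ Y a
    rw [th_mul, LinearMap.comp_assoc]
  smul_zero _ := LinearMap.zero_comp _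
  smul_add _ _ _ := LinearMap.add_comp _ _ _
  add_smul a b z := by
    change z.h ∘ₗ th σ Y (a + b) = z.h ∘ₗ th σ Y a + z.h ∘ₗ th σ Y b
    rw [th_add, LinearMap.comp_add]
  zero_smul z := by
    change z.h ∘ₗ th σ Y 0 = 0
    rw [th_zero, LinearMap.comp_zero]

instance : IsScalarTower C A (ZZ σ Y E) := ⟨fun c a z => LinearMap.ext fun y => by
  change z.h (th σ Y (c • a) y) = c • z.h (th σ Y a y)
  rw [th_smul, LinearMap.smul_apply, LinearMap.map_smul_of_tower]⟩

variable {E} {E' : Type} [AddCommGroup E'] [Module A E'] [Module C E'] [IsScalarTower C A E']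

/-- Functoriality in the target. -/
def zmap (f : E →ₗ[A] E') : ZZ σ Y E →ₗ[A] ZZ σ Y E' where
  toFun z := f ∘ₗ z.h
  map_add' _ _ := LinearMap.comp_add _ _ _
  map_smul' _ _ := rfl

variable {b b' : Type} [Fintype b] [DecidableEq b] [Fintype b'] [DecidableEq b']

/-- Columns of linear maps are linear maps on rows. -/
def hat (b : Type) [Fintype b] [DecidableEq b] : (b → ZZ σ Y E) ≃ₗ[C] ((b → Y) →ₗ[A] E) :=
  LinearMap.lsum A (fun _ : b => Y) C

theorem hat_apply (z : b → ZZ σ Y E) (y : b → Y) : hat σ Y b z y = ∑ j, (z j).h (y j) :=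
  LinearMap.sum_apply _ _ _

/-- The action of a matrix on rows with entries in the bimodule. -/
def dl (α : Matrix b' b A) : (b' → Y) →ₗ[A] (b → Y) where
  toFun := act (σ.tr α)
  map_add' := act_add _
  map_smul' a y := (act_map (DistribSMul.toLinearMap A' Y a) _ y).symm

theorem hat_act (α : Matrix b' b A) (z : b → ZZ σ Y E) :
    hat σ Y b' (act α z) = hat σ Y b z ∘ₗ dl σ Y α := by
  refine LinearMap.ext fun y => ?_
  rw [LinearMap.comp_apply, hat_apply, hat_apply]
  have h1 : ∀ i, (act α z i).h (y i) = ∑ j, (z j).h (σ.s (α i j) • y i) := fun i =>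
    LinearMap.sum_apply _ _ _
  have h2 : ∀ j, (z j).h (dl σ Y α y j) = ∑ i, (z j).h (σ.s (α i j) • y i) := fun j =>
    map_sum _ _ _
  simp only [h1, h2]
  exact Finset.sum_comm

theorem hat_cm (f : E →ₗ[A] E') (z : b → ZZ σ Y E) :
    hat σ Y b (cm C (zmap σ Y f) b z) = f ∘ₗ hat σ Y b z := by
  refine LinearMap.ext fun y => ?_
  rw [LinearMap.comp_apply, hat_apply, hat_apply, map_sum]
  rfl

end ZZ

section Hom

variable {L M E E' : Type} [AddCommGroup L] [Module A L] [AddCommGroup M] [Module A M]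
  [AddCommGroup E] [Module A E] [Module C E] [IsScalarTower C A E]
  [AddCommGroup E'] [Module A E'] [Module C E'] [IsScalarTower C A E']

variable (C) in
/-- Composition in the target. -/
def pc (M : Type) [AddCommGroup M] [Module A M] (f : E →ₗ[A] E') :
    (M →ₗ[A] E) →ₗ[C] (M →ₗ[A] E') where
  toFun z := f ∘ₗ z
  map_add' _ _ := LinearMap.comp_add _ _ _
  map_smul' c z := LinearMap.ext fun y => f.map_smul_of_tower c (z y)

variable (C E) in
/-- Composition in the source. -/
def prc (f : L →ₗ[A] M) : (M →ₗ[A] E) →ₗ[C] (L →ₗ[A] E) where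
  toFun z := z ∘ₗ f
  map_add' _ _ := rfl
  map_smul' _ _ := rfl

theorem inj_ext {E : Type} [AddCommGroup E] [Module A E] [hE : Module.Injective A E]
    (f : L →ₗ[A] M) (g : L →ₗ[A] E) (h : ∀ x, f x = 0 → g x = 0) : ∃ k, k ∘ₗ f = g := by
  obtain ⟨k, hk⟩ := hE.out ((LinearMap.ker f).liftQ f le_rfl)
    (LinearMap.ker_eq_bot.1 (Submodule.ker_liftQ_eq_bot _ _ _ le_rfl))
    ((LinearMap.ker f).liftQ g h)
  exact ⟨k, LinearMap.ext fun x => hk (Submodule.Quotient.mk x)⟩

variable (J : InjR C A)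

theorem InjR.dd' (j : ℕ) (x : J.E j) : J.d (j + 1) (J.d j x) = 0 := LinearMap.congr_fun (J.dd j) x

theorem InjR.smT {τ : Prop} {t : ℕ} (h : IsFiniteLength C (EX A M A t))
    (ht : τ → ∀ x : EX A M A t, x = 0) :
    Sm τ (LinearMap.ker (pc C M (J.d (t + 1)))) (LinearMap.range (pc C M (J.d t))) := by
  let g : LinearMap.ker (pc C M (J.d (t + 1))) →ₗ[C] EX A M A t :=
    { toFun := fun φ => pre (φ.1.codRestrict _ fun x => LinearMap.congr_fun φ.2 x) (J.ε t)
      map_add' := fun φ ψ => add_pre (φ.1.codRestrict _ fun x => LinearMap.congr_fun φ.2 x)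
        (ψ.1.codRestrict _ fun x => LinearMap.congr_fun ψ.2 x) _
      map_smul' := fun c φ =>
        smul_pre c (φ.1.codRestrict _ fun x => LinearMap.congr_fun φ.2 x) _ }
  refine Sm.of_map g h (fun t _ => ht t _) fun φ hφ => ?_
  obtain ⟨ψ, hψ⟩ := (J.ker M t _).1 hφ
  exact ⟨ψ, hψ⟩

end Hom

variable [IsLocalRing A] [IsNoetherianRing A] [IsLocalRing A'] [IsNoetherianRing A']

theorem ASD.smA (X : ASD C A) (p : ℕ) :
    Sm (p < X.n) (cyc C A (X.Φ (p + 1))) (bd C A (X.Φ p)) :=
  X.toMR.sm (X.fl p) (X.van p)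

/-- The cohomology of the vertical cohomology of the double complex. -/
theorem pbar (X : ASD C A) (J : InjR C A) (hk : IsFiniteLength C (kk A)) [Module.Finite A' Y]
    (p t : ℕ) : Sm (t < X.n)
      (cyc C (ZZ σ Y (J.E (t + 1))) (X.Φ (p + 1)) ⊓
        (bd C (ZZ σ Y (J.E (t + 2))) (X.Φ p)).comap (cm C (zmap σ Y (J.d (t + 1))) _))
      (bd C (ZZ σ Y (J.E (t + 1))) (X.Φ p) ⊔
        (cyc C (ZZ σ Y (J.E t)) (X.Φ (p + 1))).map (cm C (zmap σ Y (J.d t)) _)) := by
  let K := LinearMap.ker (dl σ Y (X.Φ p))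
  let I := (LinearMap.range (dl σ Y (X.Φ (p + 1)))).comap K.subtype
  have hT : IsFiniteLength A (K ⧸ I) := by
    refine fl_tower (C := C) ((X.toMR.torFL σ hk p Y).fl_of
      { toFun := fun z => I.mkQ ⟨z.1, z.2⟩
        map_add' := fun _ _ => rfl
        map_smul' := fun _ _ => rfl } (fun y => ?_) fun z hz => (mkQ_eq_zero (V := I)).2 hz)
    obtain ⟨⟨z, hz⟩, rfl⟩ := I.mkQ_surjective y
    exact ⟨⟨z, hz⟩, rfl⟩
  have hI : ∀ y, dl σ Y (X.Φ (p + 1)) y ∈ K := fun y => act_act (X.toMR.tzz σ p) y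
  refine (((J.smT (dev_fl (X.fl t) hT) fun h => dev_van (X.van t h) hT).map
    (prc C _ I.mkQ)).comap (prc C _ K.subtype ∘ₗ (hat σ Y _).toLinearMap)).mono ?_ ?_
  · rintro z ⟨hz, w, hw⟩
    have h1 : hat σ Y _ z ∘ₗ dl σ Y (X.Φ (p + 1)) = 0 := by
      rw [← hat_act, mem_cyc.1 hz, map_zero]
    refine ⟨I.liftQ (hat σ Y _ z ∘ₗ K.subtype) ?_, ?_, rfl⟩
    · rintro ⟨_, _⟩ ⟨y, rfl⟩
      exact LinearMap.congr_fun h1 y
    · refine Submodule.linearMap_qext _ (LinearMap.ext fun y => ?_)
      have hw' : act (X.Φ p) w = cm C (zmap σ Y (J.d (t + 1))) _ z := hw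
      have h2 := hat_cm σ Y (J.d (t + 1)) z
      rw [← hw', hat_act] at h2
      refine (LinearMap.congr_fun h2 y.1).symm.trans ?_
      rw [LinearMap.comp_apply, y.2, map_zero]
      rfl
  · rintro z ⟨-, _, ⟨ψ, rfl⟩, hψ⟩
    obtain ⟨Ψ, hΨ⟩ := inj_ext K.subtype (ψ ∘ₗ I.mkQ) fun x hx => by
      rw [show x = 0 from Subtype.ext hx, map_zero]
    obtain ⟨u, rfl⟩ := (hat σ Y _).surjective Ψ
    obtain ⟨χ, hχ⟩ := inj_ext (dl σ Y (X.Φ p)) (hat σ Y _ (z - cm C (zmap σ Y (J.d t)) _ u))
      fun y hy => by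
        rw [map_sub, hat_cm, LinearMap.sub_apply, sub_eq_zero]
        exact (LinearMap.congr_fun hψ ⟨y, hy⟩).symm.trans
          (congrArg (J.d t) (LinearMap.congr_fun hΨ ⟨y, hy⟩).symm)
    obtain ⟨v, rfl⟩ := (hat σ Y _).surjective χ
    rw [← hat_act] at hχ
    rw [← sub_add_cancel z (cm C (zmap σ Y (J.d t)) _ u), ← (hat σ Y _).injective hχ]
    refine Submodule.add_mem_sup (act_mem_bd _ _) ⟨u, (hat σ Y _).injective ?_, rfl⟩
    change hat σ Y _ (act _ u) = _
    rw [hat_act, map_zero]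
    refine LinearMap.ext fun y => (LinearMap.congr_fun hΨ ⟨_, hI y⟩).trans ?_
    rw [LinearMap.comp_apply, mkQ_eq_zero.2 (show (⟨_, hI y⟩ : K) ∈ I from ⟨y, rfl⟩), map_zero]
    rfl

section Depth

variable {M M' M'' : Type} [AddCommGroup M] [Module A M] [Module C M] [IsScalarTower C A M]
  [AddCommGroup M'] [Module A M'] [Module C M'] [IsScalarTower C A M']
  [AddCommGroup M''] [Module A M''] [Module C M''] [IsScalarTower C A M'']

theorem MR.conn (X : MR C A) {ι : M' →ₗ[A] M} {ρ : M →ₗ[A] M''} (h : SES ι ρ) {τ : Prop} (p : ℕ)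
    (H : ∀ q, p = q + 1 → Sm τ (cyc C M'' (X.Φ (q + 1)))
      (bd C M'' (X.Φ q) ⊔ (cyc C M (X.Φ (q + 1))).map (cm C ρ _))) :
    Sm τ ((bd C M (X.Φ p)).comap (cm C ι _)) (bd C M' (X.Φ p)) := by
  rcases p with _ | p
  · have := X.triv M''
    exact h.connA (γ := (0 : Matrix (Fin (X.g 0)) Empty A)) (Matrix.mul_zero _)
      (Sm.top .of_subsingleton fun _ => this)
  · exact h.connA (X.zz p) (H p rfl)

include σ in
theorem ASD.soc (X : ASD C A) : ∃ l : Fin (X.g (X.n + 1)) → A, l ∉ bd C A (X.Φ X.n) ∧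
    ∀ μ, ¬ IsUnit μ → cm C (rm μ) _ l ∈ bd C A (X.Φ X.n) := by
  have := X.toMR.ntC σ X.pos
  have := (isFiniteLength_iff_isNoetherian_isArtinian.1 (X.toMR.flC σ X.fl X.top)).2
  obtain ⟨x, hx, h⟩ := exists_soc (A := A') (T := X.toMR.Cq σ X.n)
  obtain ⟨r, rfl⟩ := Submodule.mkQ_surjective _ x
  obtain ⟨l, rfl⟩ := (σ.sv _).surjective r
  have : IsEmpty (Fin (X.g (X.n + 1 + 1))) := by rw [X.top]; infer_instance
  have key : ∀ z, (LinearMap.range (X.toMR.rw σ X.n)).mkQ (σ.sv _ z) = 0 ↔
      z ∈ bd C A (X.Φ X.n) := fun z =>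
    Subtype.ext_iff.symm.trans (X.toMR.toL_eq_zero σ X.n ⟨z, Subsingleton.elim _ _⟩)
  refine ⟨l, fun h => hx ((key l).2 h), fun μ hμ => (key _).1 ?_⟩
  rw [← h _ (σ.nu hμ), ← map_smul]
  exact congrArg _ (funext fun j => σ.mul _ _)

include σ in
/-- A module of maximal depth is projective. -/
theorem ASD.proj (X : ASD C A) (s : ℕ) :
    ∀ (M : Type) [AddCommGroup M] [Module A M] [Module C M] [IsScalarTower C A M]
      [Module.Finite A M], PD A (s + 1) M →
      (∀ p < X.n, cyc C M (X.Φ (p + 1)) ≤ bd C M (X.Φ p)) → Module.Projective A M := by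
  induction s with
  | zero => exact fun M _ _ _ _ _ h _ => pd_one h
  | succ s ih =>
    intro M _ _ _ _ _ h hM
    obtain ⟨c⟩ := nonempty_cover A M
    have hs := SES.ker c.surj
    have key : ∀ p ≤ X.n, (bd C _ (X.Φ p)).comap (cm C (LinearMap.ker c.p).subtype _) ≤
        bd C (LinearMap.ker c.p) (X.Φ p) := fun p hp =>
      (X.toMR.conn hs (τ := True) p fun q hq =>
        Sm.of_le ((hM q (by omega)).trans le_sup_left)).le trivial
    have := ih _ (pd_ker' c.p c.surj h) fun p hp y hy =>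
      key p hp.le (((X.smA p).free _).le hp (cm_cyc _ hy))
    obtain ⟨c'⟩ := nonempty_cover A (LinearMap.ker c.p)
    let e := LinearEquiv.ofBijective c'.p ⟨c'.inj, c'.surj⟩
    have : IsEmpty (Fin c'.g) := ⟨fun j => by
      obtain ⟨l, hl, hl'⟩ := X.soc σ
      let x := e (Pi.single j 1)
      have h1 := key X.n le_rfl (x := cm C (LinearMap.toSpanSingleton A _ x) _ l)
        (mem_bd_free fun k => hl' _ (c.min x.1 x.2 k))
      have h2 := cm_bd (LinearMap.proj j ∘ₗ e.symm.toLinearMap) h1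
      refine hl (by
        convert h2 using 1
        ext i
        simp [cm_apply, x])⟩
    have : Subsingleton (LinearMap.ker c.p) := c'.surj.subsingleton
    refine Module.Projective.of_equiv (LinearEquiv.ofBijective c.p ⟨?_, c.surj⟩)
    rw [injective_iff_map_eq_zero]
    exact fun x hx => congrArg Subtype.val (Subsingleton.elim (⟨x, hx⟩ : LinearMap.ker c.p) 0)

end Depth

end Pool.Agent.Lib.MP_95d09c_al
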