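import Pool.Agent.Lib.MP_95d09c_al.Len

/-!
The Euler characteristic and the nilpotent elements of a local ring of finite global dimension.
-/

set_option autoImplicit false
set_option linter.unusedSectionVars false

namespace Pool.Agent.Lib.MP_95d09c_al

variable {Λ : Type} [Ring Λ] [IsNoetherianRing Λ]

namespace Addf

variable (F : Addf Λ) {A B C : Type} [AddCommGroup A] [Module Λ A] [AddCommGroup B] [Module Λ B]
  [AddCommGroup C] [Module Λ C]

theorem le_of_inj [Module.Finite Λ B] (f : A →ₗ[Λ] B) (hf : Function.Injective f) :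
    F.lam A ≤ F.lam B :=
  F.sq f LinearMap.id Function.surjective_id fun x hx =>
    (injective_iff_map_eq_zero f).1 hf x hx

theorem le_of_surj [Module.Finite Λ A] (f : A →ₗ[Λ] B) (hf : Function.Surjective f) :
    F.lam B ≤ F.lam A :=
  F.sq LinearMap.id f hf fun x hx => by rw [show x = 0 from hx, map_zero]

theorem eq_of_bij [Module.Finite Λ A] (f : A →ₗ[Λ] B) (hf : Function.Bijective f) :
    F.lam A = F.lam B := by
  have : Module.Finite Λ B := Module.Finite.of_surjective f hf.2
  exact le_antisymm (F.le_of_inj f hf.1) (F.le_of_surj f hf.2)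

theorem ker_add [Module.Finite Λ B] (g : B →ₗ[Λ] C) (hg : Function.Surjective g) :
    F.lam B = F.lam (LinearMap.ker g) + F.lam C := by
  rw [F.add (LinearMap.ker g), F.eq_of_bij _ (g.quotKerEquivOfSurjective hg).bijective]

theorem le_of_ex [Module.Finite Λ A] [Module.Finite Λ B] [Module.Finite Λ C] (f : A →ₗ[Λ] B)
    (g : B →ₗ[Λ] C) (he : Ex f g) : F.lam B ≤ F.lam A + F.lam C := by
  rw [F.ker_add g.rangeRestrict g.surjective_rangeRestrict]
  refine add_le_add ?_ (F.le_of_inj _ (Submodule.injective_subtype _))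
  refine F.sq (X := (LinearMap.ker g.rangeRestrict).comap f) (Submodule.subtype _)
    (f.restrict fun x hx => hx) ?_ ?_
  · rintro ⟨b, hb⟩
    obtain ⟨a, rfl⟩ := he b (congrArg Subtype.val hb)
    exact ⟨⟨a, hb⟩, rfl⟩
  · intro x hx
    rw [show x = 0 from Subtype.ext hx, map_zero]

theorem eq_zero [Subsingleton A] : F.lam A = 0 := by
  have h1 := F.add (B := A) ⊤
  have h2 : F.lam (⊤ : Submodule Λ A) = F.lam A :=
    F.eq_of_bij _ (Submodule.topEquiv (R := Λ) (M := A)).bijective
  have h3 : F.lam A ≤ F.lam (A ⧸ (⊤ : Submodule Λ A)) :=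
    F.le_of_inj _ (Function.injective_of_subsingleton (⊤ : Submodule Λ A).mkQ)
  omega

theorem free (n : ℕ) : F.lam (Fin n → Λ) = n * F.lam Λ := by
  induction n with
  | zero => rw [F.eq_zero]; simp
  | succ n ih =>
    have hs : Function.Surjective (LinearMap.funLeft Λ Λ (Fin.succ : Fin n → Fin (n + 1))) :=
      LinearMap.funLeft_surjective_of_injective _ _ _ (Fin.succ_injective n)
    rw [F.ker_add _ hs, ih]
    have : F.lam (LinearMap.ker (LinearMap.funLeft Λ Λ (Fin.succ : Fin n → Fin (n + 1)))) =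
        F.lam Λ := by
      refine F.eq_of_bij (LinearMap.proj 0 ∘ₗ Submodule.subtype _) ⟨?_, fun r => ?_⟩
      · rw [injective_iff_map_eq_zero]
        rintro ⟨x, hx⟩ h0
        apply Subtype.ext
        ext i
        refine Fin.cases h0 (fun i => ?_) i
        exact congrFun hx i
      · refine ⟨⟨Pi.single 0 r, ?_⟩, by simp⟩
        ext i
        simp [LinearMap.funLeft_apply]
    rw [this]; ring

end Addf

variable [IsLocalRing Λ]

theorem exists_chi_aux (n : ℕ) : ∀ (E : Type) [AddCommGroup E] [Module Λ E] [Module.Finite Λ E],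
    PD Λ (n + 1) E → ∃ c : ℤ, ∀ F : Addf Λ, (F.lam E : ℤ) = c * F.lam Λ := by
  induction n with
  | zero =>
    intro E _ _ _ h
    have := pd_one h
    obtain ⟨c⟩ := nonempty_cover Λ E
    refine ⟨c.g, fun F => ?_⟩
    rw [← F.eq_of_bij c.p ⟨c.inj, c.surj⟩, F.free]
    push_cast; rfl
  | succ n ih =>
    intro E _ _ _ h
    obtain ⟨c⟩ := nonempty_cover Λ E
    obtain ⟨d, hd⟩ := ih _ (pd_ker' c.p c.surj h)
    refine ⟨c.g - d, fun F => ?_⟩
    have h1 := F.ker_add c.p c.surj
    rw [F.free] at h1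
    have h2 := hd F
    have h3 : ((c.g * F.lam Λ : ℕ) : ℤ) = (F.lam (LinearMap.ker c.p) + F.lam E : ℕ) := by rw [h1]
    push_cast at h3
    linarith

variable (Λ) in
/-- Finite global dimension, for left modules. -/
def GDf : Prop := ∃ n, ∀ (E : Type) [AddCommGroup E] [Module Λ E], PD Λ (n + 1) E

theorem GD4.gdf (hG : GD4 Λ) : GDf Λ := ⟨4, hG⟩

theorem exists_chi (hG : GDf Λ) (E : Type) [AddCommGroup E] [Module Λ E] [Module.Finite Λ E] :
    ∃ c : ℤ, ∀ F : Addf Λ, (F.lam E : ℤ) = c * F.lam Λ :=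
  hG.elim fun n h => exists_chi_aux n E (h E)

theorem exists_addf_pos : ∃ F : Addf Λ, 0 < F.lam Λ := by
  have h0 : IsSerre {X : ModuleCat.{0} Λ | Subsingleton X} := by
    refine ⟨fun A _ _ hA => hA, fun A B C _ _ _ _ _ _ f g he hA hC => ?_⟩
    have hA' : Subsingleton A := hA
    have hC' : Subsingleton C := hC
    refine subsingleton_of_forall_eq (0 : B) fun b => ?_
    obtain ⟨a, rfl⟩ := he b (Subsingleton.elim _ _)
    rw [Subsingleton.elim a 0, map_zero]
  obtain ⟨F, hF, -⟩ := exists_addf h0 (fun h => by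
    have : Subsingleton Λ := h
    exact one_ne_zero (Subsingleton.elim (1 : Λ) 0))
  exact ⟨F, hF⟩

section Fixed

variable (hG : GDf Λ) {F : Addf Λ} (hF : 0 < F.lam Λ)

/-- Right multiplication between cyclic left ideals. -/
def rmul (x y : Λ) : Submodule.span Λ {x} →ₗ[Λ] Submodule.span Λ {x * y} :=
  (LinearMap.toSpanSingleton Λ Λ y).restrict fun z hz => by
    obtain ⟨r, rfl⟩ := Submodule.mem_span_singleton.1 hz
    exact Submodule.mem_span_singleton.2 ⟨r, by simp [mul_assoc]⟩

theorem rmul_surj (x y : Λ) : Function.Surjective (rmul x y) := by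
  rintro ⟨z, hz⟩
  obtain ⟨r, rfl⟩ := Submodule.mem_span_singleton.1 hz
  exact ⟨⟨r • x, Submodule.mem_span_singleton.2 ⟨r, rfl⟩⟩, Subtype.ext (by simp [rmul, mul_assoc])⟩

include hG hF in
theorem lam_ann {y : Λ} (hy : F.lam (Submodule.span Λ {y}) ≠ 0) :
    F.lam (LinearMap.ker (LinearMap.toSpanSingleton Λ Λ y)) = 0 := by
  have h1 := F.ker_add _ (LinearMap.toSpanSingleton Λ Λ y).surjective_rangeRestrict
  rw [LinearMap.ker_rangeRestrict, LinearMap.range_toSpanSingleton] at h1
  obtain ⟨c, hc⟩ := exists_chi hG (Submodule.span Λ {y})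
  have h2 := hc F
  have h3 : (1 : ℤ) ≤ c := by
    by_contra h
    have h4 : c * (F.lam Λ : ℤ) ≤ 0 := mul_nonpos_of_nonpos_of_nonneg (by omega) (by positivity)
    omega
  have h4 : (F.lam Λ : ℤ) ≤ c * F.lam Λ := le_mul_of_one_le_left (by positivity) h3
  omega

include hG hF in
theorem lam_mul {x y : Λ} (hx : F.lam (Submodule.span Λ {x}) ≠ 0)
    (hy : F.lam (Submodule.span Λ {y}) ≠ 0) : F.lam (Submodule.span Λ {x * y}) ≠ 0 := by
  have h1 := F.ker_add _ (rmul_surj x y)
  have h2 : F.lam (LinearMap.ker (rmul x y)) ≤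
      F.lam (LinearMap.ker (LinearMap.toSpanSingleton Λ Λ y)) := by
    refine F.le_of_inj (((Submodule.span Λ {x}).subtype).restrict
      (p := LinearMap.ker (rmul x y)) (q := LinearMap.ker (LinearMap.toSpanSingleton Λ Λ y))
      fun z hz => congrArg Subtype.val hz) ?_
    intro a b hab
    have h := congrArg Subtype.val hab
    exact Subtype.ext (Subtype.ext h)
  have h3 := lam_ann hG hF hy
  omega

theorem lam_sup (U V : Submodule Λ Λ) : F.lam (U ⊔ V : Submodule Λ Λ) ≤ F.lam U + F.lam V := by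
  refine (F.le_of_ex (Submodule.inclusion (le_sup_left : U ≤ U ⊔ V))
    (U.mkQ.restrict (p := U ⊔ V) (q := V.map U.mkQ) ?_) ?_).trans (add_le_add le_rfl ?_)
  · intro x hx
    obtain ⟨a, ha, b, hb, rfl⟩ := Submodule.mem_sup.1 hx
    refine ⟨b, hb, ?_⟩
    have : U.mkQ a = 0 := by simpa using ha
    rw [map_add, this, zero_add]
  · rintro ⟨b, hb⟩ h0
    have : U.mkQ b = 0 := congrArg Subtype.val h0
    exact ⟨⟨b, by simpa using this⟩, rfl⟩
  · refine F.le_of_surj (U.mkQ.restrict (p := V) (q := V.map U.mkQ) fun x hx => ⟨x, hx, rfl⟩) ?_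
    rintro ⟨_, x, hx, rfl⟩
    exact ⟨⟨x, hx⟩, rfl⟩

theorem lam_mono {U V : Submodule Λ Λ} (h : U ≤ V) : F.lam U ≤ F.lam V :=
  F.le_of_inj _ (Submodule.inclusion_injective h)

variable (F) in
/-- The elements generating a left ideal of rank zero. -/
def tau : TwoSidedIdeal Λ :=
  TwoSidedIdeal.mk' {x | F.lam (Submodule.span Λ {x}) = 0}
    (by
      have : Subsingleton (Submodule.span Λ {(0 : Λ)}) := by
        rw [Submodule.span_zero_singleton]; infer_instance
      exact F.eq_zero)
    (fun {x y} hx hy => by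
      have h1 : Submodule.span Λ {x + y} ≤ Submodule.span Λ {x} ⊔ Submodule.span Λ {y} :=
        (Submodule.span_singleton_le_iff_mem _ _).2 (Submodule.add_mem_sup
          (Submodule.mem_span_singleton_self x) (Submodule.mem_span_singleton_self y))
      have h2 := lam_mono (F := F) h1
      have h3 := lam_sup (F := F) (Submodule.span Λ {x}) (Submodule.span Λ {y})
      simp only [Set.mem_ofPred_eq] at hx hy ⊢
      omega)
    (fun {x} hx => by
      have h1 : Submodule.span Λ {-x} ≤ Submodule.span Λ {x} :=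
        (Submodule.span_singleton_le_iff_mem _ _).2
          (Submodule.neg_mem _ (Submodule.mem_span_singleton_self x))
      have h2 := lam_mono (F := F) h1
      simp only [Set.mem_ofPred_eq] at hx ⊢
      omega)
    (fun {x y} hy => by
      have h1 : Submodule.span Λ {x * y} ≤ Submodule.span Λ {y} :=
        (Submodule.span_singleton_le_iff_mem _ _).2
          (Submodule.smul_mem _ x (Submodule.mem_span_singleton_self y))
      have h2 := lam_mono (F := F) h1
      simp only [Set.mem_ofPred_eq] at hy ⊢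
      omega)
    (fun {x y} hx => by
      have h2 := F.le_of_surj _ (rmul_surj x y)
      simp only [Set.mem_ofPred_eq] at hx ⊢
      omega)

theorem mem_tau {x : Λ} : x ∈ tau F ↔ F.lam (Submodule.span Λ {x}) = 0 := by simp [tau]

theorem lam_of_le_tau (U : Submodule Λ Λ) (hU : ∀ x ∈ U, x ∈ tau F) : F.lam U = 0 := by
  have hfg : U.FG := IsNoetherian.noetherian U
  induction U, hfg using Submodule.fg_induction with
  | singleton x => exact mem_tau.1 (hU x (Submodule.mem_span_singleton_self x))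
  | sup U V _ _ ihU ihV =>
    have h1 := ihU fun x hx => hU x (Submodule.mem_sup_left hx)
    have h2 := ihV fun x hx => hU x (Submodule.mem_sup_right hx)
    have h3 := lam_sup (F := F) U V
    omega

include hG hF in
theorem mem_tau_iff {x : Λ} : x ∈ tau F ↔ IsNilpotent x := by
  constructor
  · intro hx
    by_contra hn
    have h0 : IsSerre {X : ModuleCat.{0} Λ | ∀ m : X, ∃ j : ℕ, x ^ j • m = 0} := by
      refine ⟨fun A _ _ hA m => ⟨0, Subsingleton.elim _ _⟩,
        fun A B C _ _ _ _ _ _ f g he hA hC b => ?_⟩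
      obtain ⟨j, hj⟩ := hC (g b)
      obtain ⟨a, ha⟩ := he (x ^ j • b) (by rw [map_smul]; exact hj)
      obtain ⟨i, hi⟩ := hA a
      refine ⟨i + j, ?_⟩
      change x ^ (i + j) • (b : B) = 0
      rw [pow_add, mul_smul, ← ha, ← map_smul]
      exact (congrArg f hi).trans (map_zero f)
    obtain ⟨F', hF', h1⟩ := exists_addf h0 (fun h => by
      obtain ⟨j, hj⟩ := h (1 : Λ)
      exact hn ⟨j, by simpa using hj⟩)
    have h2 : F'.lam (Λ ⧸ (tau F).asIdeal) = 0 := by
      refine h1 _ fun m => ⟨1, ?_⟩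
      obtain ⟨m, rfl⟩ := Submodule.mkQ_surjective (tau F).asIdeal m
      change x ^ 1 • (tau F).asIdeal.mkQ m = 0
      rw [← map_smul, Submodule.mkQ_apply, Submodule.Quotient.mk_eq_zero, pow_one]
      exact (tau F).mul_mem_right _ _ hx
    obtain ⟨c, hc⟩ := exists_chi hG (Λ ⧸ (tau F).asIdeal)
    have h3 := hc F'
    have h4 := hc F
    have h5 := F.add (B := Λ) (tau F).asIdeal
    rw [lam_of_le_tau (F := F) (tau F).asIdeal fun x hx => hx] at h5
    rw [h2] at h3
    have hc0 : c = 0 := by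
      rcases mul_eq_zero.1 h3.symm with h | h
      · exact h
      · omega
    rw [hc0] at h4
    omega
  · rintro ⟨j, hj⟩
    by_contra hx
    have : ∀ j : ℕ, F.lam (Submodule.span Λ {x ^ (j + 1)}) ≠ 0 := by
      intro j
      induction j with
      | zero => rw [zero_add, pow_one]; exact fun h => hx (mem_tau.2 h)
      | succ j ih => rw [pow_succ]; exact lam_mul hG hF ih fun h => hx (mem_tau.2 h)
    apply this j
    rw [pow_succ, hj, zero_mul]
    exact mem_tau.1 (tau F).zero_mem

end Fixed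

/-- The nilpotent elements form a completely prime ideal. -/
theorem exists_nil' (hG : GDf Λ) : ∃ N : TwoSidedIdeal Λ, (∀ x, x ∈ N ↔ IsNilpotent x) ∧
    ∀ x y, x * y ∈ N → x ∈ N ∨ y ∈ N := by
  obtain ⟨F, hF⟩ := exists_addf_pos (Λ := Λ)
  refine ⟨tau F, fun x => mem_tau_iff hG hF, fun x y h => ?_⟩
  by_contra hc
  push Not at hc
  exact lam_mul hG hF (fun h => hc.1 (mem_tau.2 h)) (fun h => hc.2 (mem_tau.2 h)) (mem_tau.1 h)

/-- Finitely many nilpotent elements are killed on the left by a non nilpotent element. -/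
theorem exists_ann' (hG : GDf Λ) (s : Finset Λ) (hs : ∀ x ∈ s, IsNilpotent x) :
    ∃ y, ¬ IsNilpotent y ∧ ∀ x ∈ s, y * x = 0 := by
  classical
  obtain ⟨F, hF⟩ := exists_addf_pos (Λ := Λ)
  have key : ∃ L : Submodule Λ Λ, F.lam L ≠ 0 ∧ ∀ y ∈ L, ∀ x ∈ s, y * x = 0 := by
    induction s using Finset.induction_on with
    | empty =>
      refine ⟨⊤, ?_, by simp⟩
      rw [F.eq_of_bij _ (Submodule.topEquiv (R := Λ) (M := Λ)).bijective]
      omega
    | insert a s _ ih =>
      obtain ⟨L, hL, hL'⟩ := ih fun x hx => hs x (Finset.mem_insert_of_mem hx)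
      have ha : F.lam (Submodule.span Λ {a}) = 0 :=
        mem_tau.1 ((mem_tau_iff hG hF).2 (hs a (Finset.mem_insert_self a s)))
      refine ⟨L ⊓ LinearMap.ker (LinearMap.toSpanSingleton Λ Λ a), ?_, fun y hy x hx => ?_⟩
      · have := F.le_of_ex (Submodule.inclusion
          (inf_le_left : L ⊓ LinearMap.ker (LinearMap.toSpanSingleton Λ Λ a) ≤ L))
          ((LinearMap.toSpanSingleton Λ Λ a).restrict (p := L) (q := Submodule.span Λ {a})
            fun x _ => Submodule.mem_span_singleton.2 ⟨x, rfl⟩)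
          (fun b hb => ⟨⟨b.1, b.2, congrArg Subtype.val hb⟩, rfl⟩)
        omega
      · rcases Finset.mem_insert.1 hx with rfl | hx
        · exact hy.2
        · exact hL' y hy.1 x hx
  obtain ⟨L, hL, hL'⟩ := key
  by_contra hc
  push Not at hc
  apply hL
  refine lam_of_le_tau L fun y hy => (mem_tau_iff hG hF).2 ?_
  by_contra hn
  obtain ⟨x, hx, h⟩ := hc y hn
  exact h (hL' y hy x hx)

theorem exists_nil (hG : GD4 Λ) : ∃ N : TwoSidedIdeal Λ, (∀ x, x ∈ N ↔ IsNilpotent x) ∧
    ∀ x y, x * y ∈ N → x ∈ N ∨ y ∈ N := exists_nil' hG.gdf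

theorem exists_ann (hG : GD4 Λ) (s : Finset Λ) (hs : ∀ x ∈ s, IsNilpotent x) :
    ∃ y, ¬ IsNilpotent y ∧ ∀ x ∈ s, y * x = 0 := exists_ann' hG.gdf s hs

/-- A nil left ideal has rank zero. -/
theorem exists_addf_nil (hG : GD4 Λ) : ∃ F : Addf Λ, 0 < F.lam Λ ∧
    ∀ U : Submodule Λ Λ, (∀ x ∈ U, IsNilpotent x) → F.lam U = 0 := by
  obtain ⟨F, hF⟩ := exists_addf_pos (Λ := Λ)
  exact ⟨F, hF, fun U hU => lam_of_le_tau U fun x hx => (mem_tau_iff hG.gdf hF).2 (hU x hx)⟩

end Pool.Agent.Lib.MP_95d09c_al
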