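import Pool.Agent.Lib.MP_95d09c_al.Goldie

/-!
Extension of linear maps up to a regular element, linear algebra modulo a prime ideal,
and maximal annihilator primes.
-/

set_option autoImplicit false
set_option linter.unusedSectionVars false

namespace Pool.Agent.Lib.MP_95d09c_al

open MulOpposite

variable {Λ : Type} [Ring Λ] [IsNoetherianRing Λ] {P : TwoSidedIdeal Λ}

theorem exists_extend (hP : Prm P) (hO : ROre P) {N0 N : Type} [AddCommGroup N0] [Module Λ N0]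
    [AddCommGroup N] [Module Λ N] [IsNoetherian Λ N] (hN : ∀ p ∈ P, ∀ x : N, p • x = 0)
    (j : N0 →ₗ[Λ] N) (g : N0 →ₗ[Λ] Λ ⧸ lsub P) (hjg : ∀ x, j x = 0 → g x = 0) :
    ∃ e, Reg P e ∧ ∃ θ : N →ₗ[Λ] Λ ⧸ lsub P, ∀ x, θ (j x) = rho P e (g x) := by
  obtain ⟨_, ⟨Γ, rfl, hΓ, e, he, hej⟩, hmax⟩ :=
    set_has_maximal_iff_noetherian.2 (inferInstance : IsNoetherian Λ N)
    {U | ∃ Γ : Submodule Λ (N × (Λ ⧸ lsub P)), U = Γ.map (LinearMap.fst Λ _ _) ∧
      (∀ q, (0, q) ∈ Γ → q = 0) ∧ ∃ e, Reg P e ∧ ∀ x, (j x, rho P e (g x)) ∈ Γ}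
    ⟨_, LinearMap.range (j.prod g), rfl, (by
      rintro q ⟨x, hx⟩
      have h1 : j x = 0 := congrArg Prod.fst hx
      have h2 : g x = q := congrArg Prod.snd hx
      rw [← h2, hjg x h1]), 1, Reg.one, fun x => ⟨x, by
        obtain ⟨y, hy⟩ := (lsub P).mkQ_surjective (g x)
        rw [← hy, rho_mk, mul_one, hy]; rfl⟩⟩
  have htop : ∀ y, y ∈ Γ.map (LinearMap.fst Λ _ _) := by
    intro y
    by_contra hy
    by_cases hd : ∃ d, Reg P d ∧ d • y ∈ Γ.map (LinearMap.fst Λ _ _)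
    · obtain ⟨d, hd, ⟨y', q⟩, hq, hy'⟩ := hd
      have hy'' : y' = d • y := hy'
      subst hy''
      obtain ⟨b, rfl⟩ := (lsub P).mkQ_surjective q
      obtain ⟨a, c, hc, hbc⟩ := hO b d hd
      refine hmax _ ⟨Γ.map (LinearMap.prodMap LinearMap.id (rho P c)) ⊔
        Submodule.span Λ {(y, (lsub P).mkQ a)}, rfl, ?_, e * c, he.mul hc,
        fun x => Submodule.mem_sup_left ⟨_, hej x, ?_⟩⟩ (lt_of_le_of_ne ?_ fun h => hy ?_)
      · intro q hq'
        obtain ⟨_, ⟨⟨u, qu⟩, hu, rfl⟩, z, hz, hs⟩ := Submodule.mem_sup.1 hq'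
        obtain ⟨r, rfl⟩ := Submodule.mem_span_singleton.1 hz
        have h1 : u + r • y = 0 := congrArg Prod.fst hs
        have h2 : rho P c qu + r • (lsub P).mkQ a = q := congrArg Prod.snd hs
        obtain ⟨r', d', hd', hr⟩ := lore hP r hd
        have h3 : d' • (u, qu) + r' • (d • y, (lsub P).mkQ b) ∈ Γ :=
          Γ.add_mem (Γ.smul_mem _ hu) (Γ.smul_mem _ hq)
        have h4 : d' • u + r' • d • y = 0 := by
          have h5 := hN _ hr y
          rw [sub_smul, sub_eq_zero, mul_smul, mul_smul] at h5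
          rw [← h5, ← smul_add, h1, smul_zero]
        have h5 : d' • qu + r' • (lsub P).mkQ b = 0 := by
          apply hΓ
          rw [← h4]
          exact h3
        refine reg_smul_eq_zero hd' ?_
        have h6 := congrArg (rho P c) h5
        rw [map_add, map_smul, map_smul, map_zero, rho_mk] at h6
        rw [← h2, smul_add, ← h6, add_right_inj, smul_mk, smul_mk, smul_mk, mk_eq_mk]
        have := P.sub_mem (P.mul_mem_right _ a hr) (P.mul_mem_left r' _ hbc)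
        convert this using 1
        noncomm_ring
      · obtain ⟨z, hz⟩ := (lsub P).mkQ_surjective (g x)
        rw [← hz]
        refine Prod.ext rfl ?_
        change rho P c (rho P e ((lsub P).mkQ z)) = rho P (e * c) ((lsub P).mkQ z)
        rw [rho_mk, rho_mk, rho_mk, mul_assoc]
      · rintro _ ⟨z, hz, rfl⟩
        exact ⟨_, Submodule.mem_sup_left ⟨z, hz, rfl⟩, rfl⟩
      · rw [h]
        exact ⟨_, Submodule.mem_sup_right (Submodule.mem_span_singleton_self _), rfl⟩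
    · have h1 : ¬ Ess P ((Γ.map (LinearMap.fst Λ _ _)).comap (LinearMap.toSpanSingleton Λ N y)) :=
        fun h => by
          obtain ⟨d, hd1, hd2⟩ := exists_reg hP h
          exact hd ⟨d, hd2, hd1⟩
      unfold Ess at h1
      push Not at h1
      obtain ⟨x, hx, hx'⟩ := h1
      refine hmax _ ⟨Γ ⊔ Submodule.span Λ {(x • y, 0)}, rfl, ?_, e, he,
        fun x => Submodule.mem_sup_left (hej x)⟩
        (lt_of_le_of_ne (Submodule.map_mono le_sup_left) fun h => hx ?_)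
      · intro q hq
        obtain ⟨⟨u, qu⟩, hu, z, hz, hs⟩ := Submodule.mem_sup.1 hq
        obtain ⟨r, rfl⟩ := Submodule.mem_span_singleton.1 hz
        have h1 : u + r • x • y = 0 := congrArg Prod.fst hs
        have h2 : qu + r • (0 : Λ ⧸ lsub P) = q := congrArg Prod.snd hs
        have h3 : r * x ∈ P := hx' r ⟨-(u, qu), Γ.neg_mem hu, by
          change -u = (r * x) • y
          rw [mul_smul, neg_eq_iff_add_eq_zero, h1]⟩
        rw [← mul_smul, hN _ h3, add_zero] at h1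
        rw [← h2, smul_zero, add_zero]
        exact hΓ qu (h1 ▸ hu)
      · have := hx' 1 (by
          rw [h]
          exact ⟨(x • y, 0), Submodule.mem_sup_right (Submodule.mem_span_singleton_self _), by
            change x • y = (1 * x) • y
            rw [one_mul]⟩)
        rwa [one_mul] at this
  have hbij : Function.Bijective (LinearMap.fst Λ N (Λ ⧸ lsub P) ∘ₗ Γ.subtype) := by
    constructor
    · rw [injective_iff_map_eq_zero]
      rintro ⟨⟨u, q⟩, hu⟩ h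
      have h1 : u = 0 := h
      subst h1
      exact Subtype.ext (Prod.ext rfl (hΓ q hu))
    · intro y
      obtain ⟨z, hz, rfl⟩ := htop y
      exact ⟨⟨z, hz⟩, rfl⟩
  refine ⟨e, he, LinearMap.snd Λ N _ ∘ₗ Γ.subtype ∘ₗ (LinearEquiv.ofBijective _ hbij).symm,
    fun x => ?_⟩
  have : (LinearEquiv.ofBijective _ hbij).symm (j x) = ⟨_, hej x⟩ := by
    rw [LinearEquiv.symm_apply_eq]; rfl
  simp only [LinearMap.comp_apply, LinearEquiv.coe_coe, this]
  rfl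

theorem exists_row_col (hP : Prm P) (hO : ROre P) {f2 f3 f4 : ℕ} (hf : f3 = f4 + f2)
    (Φ4 : (Fin f4 → Λ ⧸ lsub P) →ₗ[Λ] (Fin f3 → Λ ⧸ lsub P)) (h4 : Function.Injective Φ4)
    (Φ3 : (Fin f3 → Λ ⧸ lsub P) →ₗ[Λ] (Fin f2 → Λ ⧸ lsub P)) (x : Fin f2 → Λ ⧸ lsub P)
    (hx : ∀ d, Reg P d → d • x ∉ LinearMap.range Φ3) :
    ∃ v, Φ3 v = 0 ∧ ∃ θ : (Fin f3 → Λ ⧸ lsub P) →ₗ[Λ] Λ ⧸ lsub P,
      (∀ w, θ (Φ4 w) = 0) ∧ θ v ≠ 0 := by
  subst hf
  have hk : ∀ n : ℕ, ∀ p ∈ P, ∀ z : Fin n → Λ ⧸ lsub P, p • z = 0 := fun n p hp z =>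
    funext fun i => quot_killed P hp _
  have h1 : ∀ i : Fin f4, ∃ e, Reg P e ∧ ∃ θ : (Fin (f4 + f2) → Λ ⧸ lsub P) →ₗ[Λ] Λ ⧸ lsub P,
      ∀ w, θ (Φ4 w) = rho P e (w i) := fun i =>
    exists_extend hP hO (hk _) Φ4 (LinearMap.proj i) fun w hw => by
      rw [(injective_iff_map_eq_zero Φ4).1 h4 w hw, map_zero]
  choose e he θ hθ using h1
  let σ : (Fin (f4 + f2) → Λ ⧸ lsub P) →ₗ[Λ] (Fin f4 → Λ ⧸ lsub P) := LinearMap.pi θ
  have hσ : ∀ w, σ (Φ4 w) = 0 → w = 0 := fun w hw => funext fun i =>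
    (injective_iff_map_eq_zero _).1 (rho_inj (he i)) _ ((hθ i w).symm.trans (congrFun hw i))
  let E : (Fin (f4 + f2) → Λ ⧸ lsub P) ≃ₗ[Λ] (Fin f4 → Λ ⧸ lsub P) × (Fin f2 → Λ ⧸ lsub P) :=
    (LinearEquiv.funCongrLeft Λ (Λ ⧸ lsub P) finSumFinEquiv).trans
      (LinearEquiv.sumArrowLequivProdArrow _ _ Λ _)
  have h2 : ¬ Function.Injective (σ.prod Φ3) := by
    intro hinj
    obtain ⟨d, hd, z, hz⟩ := exists_reg_smul hP
      (M := (Fin f4 → Λ ⧸ lsub P) × (Fin f2 → Λ ⧸ lsub P))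
      (fun p hp z => Prod.ext (hk _ p hp _) (hk _ p hp _)) (σ.prod Φ3 ∘ₗ E.symm.toLinearMap)
      (hinj.comp E.symm.injective) (0, x)
    exact hx d hd ⟨E.symm z, congrArg Prod.snd hz⟩
  rw [injective_iff_map_eq_zero] at h2
  push Not at h2
  obtain ⟨v, hv, hv0⟩ := h2
  have hv1 : σ v = 0 := congrArg Prod.fst hv
  have hv2 : Φ3 v = 0 := congrArg Prod.snd hv
  obtain ⟨i, hi⟩ := Function.ne_iff.1 hv0
  obtain ⟨e', he', θ', hθ'⟩ := exists_extend hP hO (hk _)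
    (Φ4.coprod (LinearMap.toSpanSingleton Λ _ v))
    (LinearMap.toSpanSingleton Λ _ (v i) ∘ₗ LinearMap.snd Λ _ Λ) (by
      rintro ⟨w, r⟩ h
      have h' : Φ4 w + r • v = 0 := h
      have h3 : w = 0 := hσ w (by
        have := congrArg σ h'
        rwa [map_add, map_smul, hv1, smul_zero, add_zero, map_zero] at this)
      rw [h3, map_zero, zero_add] at h'
      exact congrFun h' i)
  refine ⟨v, hv2, θ', fun w => ?_, fun h => hi ?_⟩
  · simpa using hθ' (w, 0)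
  · have := hθ' (0, 1)
    simp only [LinearMap.coprod_apply, map_zero, LinearMap.toSpanSingleton_apply, one_smul,
      zero_add, LinearMap.comp_apply, LinearMap.snd_apply, h] at this
    exact (injective_iff_map_eq_zero _).1 (rho_inj he') _ this.symm

variable (Λ) in
/-- The ring as a right module over itself. -/
def opEq : Λ ≃ₗ[Λᵐᵒᵖ] Λᵐᵒᵖ where
  toFun := op
  invFun := unop
  map_add' := op_add
  map_smul' _ _ := rfl
  left_inv _ := rfl
  right_inv _ := rfl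

theorem isNoetherian_right {Λ : Type} [Ring Λ] [IsNoetherianRing Λᵐᵒᵖ] : IsNoetherian Λᵐᵒᵖ Λ :=
  isNoetherian_of_linearEquiv (opEq Λ).symm

/-- Left multiplication as a map of right modules. -/
def lmul {Λ : Type} [Ring Λ] (a : Λ) : Λ →ₗ[Λᵐᵒᵖ] Λ where
  toFun x := a * x
  map_add' := mul_add a
  map_smul' c x := (mul_assoc a x c.unop).symm

@[simp] theorem lmul_apply {Λ : Type} [Ring Λ] (a x : Λ) : lmul a x = a * x := rfl

/-- The left annihilator of a two-sided ideal. -/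
def annL {Λ : Type} [Ring Λ] (X : TwoSidedIdeal Λ) : TwoSidedIdeal Λ :=
  TwoSidedIdeal.mk' {a | ∀ x ∈ X, a * x = 0} (fun x _ => zero_mul x)
    (fun ha hb x hx => by rw [add_mul, ha x hx, hb x hx, add_zero])
    (fun ha x hx => by rw [neg_mul, ha x hx, neg_zero])
    (fun hb x hx => by rw [mul_assoc, hb x hx, mul_zero])
    (fun ha x hx => by rw [mul_assoc, ha _ (X.mul_mem_left _ _ hx)])

theorem mem_annL {Λ : Type} [Ring Λ] {X : TwoSidedIdeal Λ} {a : Λ} :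
    a ∈ annL X ↔ ∀ x ∈ X, a * x = 0 := by simp [annL]

/-- The elements of `I` killed on the left by a set. -/
def killed {Λ : Type} [Ring Λ] (I : TwoSidedIdeal Λ) (s : Set Λ)
    (hs : ∀ a ∈ s, ∀ r, a * r ∈ s) : TwoSidedIdeal Λ :=
  TwoSidedIdeal.mk' {x | x ∈ I ∧ ∀ a ∈ s, a * x = 0} ⟨I.zero_mem, fun a _ => mul_zero a⟩
    (fun hx hy => ⟨I.add_mem hx.1 hy.1, fun a ha => by
      rw [mul_add, hx.2 a ha, hy.2 a ha, add_zero]⟩)
    (fun hx => ⟨I.neg_mem hx.1, fun a ha => by rw [mul_neg, hx.2 a ha, neg_zero]⟩)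
    (fun {r y} hy => ⟨I.mul_mem_left _ _ hy.1, fun a ha => by
      rw [← mul_assoc, hy.2 _ (hs a ha r)]⟩)
    (fun hx => ⟨I.mul_mem_right _ _ hx.1, fun a ha => by rw [← mul_assoc, hx.2 a ha, zero_mul]⟩)

theorem mem_killed {Λ : Type} [Ring Λ] {I : TwoSidedIdeal Λ} {s : Set Λ}
    {hs : ∀ a ∈ s, ∀ r, a * r ∈ s} {x : Λ} :
    x ∈ killed I s hs ↔ x ∈ I ∧ ∀ a ∈ s, a * x = 0 := by simp [killed]

theorem exists_max_ideal (s : Set (TwoSidedIdeal Λ)) (hs : s.Nonempty) :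
    ∃ I ∈ s, ∀ J ∈ s, I ≤ J → J ≤ I := by
  obtain ⟨_, ⟨I, hI, rfl⟩, hmax⟩ :=
    set_has_maximal_iff_noetherian.2 (inferInstance : IsNoetherian Λ Λ) (lsub '' s) (hs.image _)
  refine ⟨I, hI, fun J hJ h => ?_⟩
  have h1 : lsub I ≤ lsub J := h
  have h2 := (h1.lt_or_eq).resolve_left (hmax _ ⟨J, hJ, rfl⟩)
  intro x hx
  have : x ∈ lsub J := hx
  rwa [← h2] at this

/-- Maximal annihilator primes. -/
theorem exists_ann_prime [IsNoetherianRing Λᵐᵒᵖ] (I : TwoSidedIdeal Λ) {x0 : Λ} (hx0 : x0 ∈ I)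
    (hx0' : x0 ≠ 0) : ∃ Q : TwoSidedIdeal Λ, Prm Q ∧ (∀ y, (∀ x ∈ I, y * x = 0) → y ∈ Q) ∧
      (∃ x ∈ I, x ≠ 0 ∧ ∀ p ∈ Q, p * x = 0) ∧
      ∀ c, Reg Q c → ∀ x ∈ I, (∀ p ∈ Q, p * x = 0) → c * x = 0 → x = 0 := by
  have := isNoetherian_right (Λ := Λ)
  obtain ⟨_, ⟨X, hXI, ⟨x1, hx1, hx1'⟩, rfl⟩, hmax⟩ := exists_max_ideal
    {Q | ∃ X : TwoSidedIdeal Λ, X ≤ I ∧ (∃ x ∈ X, x ≠ 0) ∧ Q = annL X}
    ⟨_, I, le_rfl, ⟨x0, hx0, hx0'⟩, rfl⟩
  have key : ∀ a y, y ∈ I → (∀ p ∈ annL X, p * y = 0) → y ≠ 0 → (∀ r, a * r * y = 0) →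
      a ∈ annL X := by
    intro a y hy hy1 hy0 h
    let s : Set Λ := (annL X : Set Λ) ∪ {z | ∃ r, z = a * r}
    have hs : ∀ z ∈ s, ∀ r, z * r ∈ s := by
      rintro z (hz | ⟨r', rfl⟩) r
      · exact Or.inl ((annL X).mul_mem_right _ _ hz)
      · exact Or.inr ⟨r' * r, mul_assoc _ _ _⟩
    refine hmax (annL (killed I s hs)) ⟨_, fun z hz => (mem_killed.1 hz).1,
      ⟨y, mem_killed.2 ⟨hy, ?_⟩, hy0⟩, rfl⟩ (fun p hp => mem_annL.2 fun z hz =>
        (mem_killed.1 hz).2 p (Or.inl hp)) (mem_annL.2 fun z hz =>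
        (mem_killed.1 hz).2 a (Or.inr ⟨1, (mul_one a).symm⟩))
    rintro z (hz | ⟨r, rfl⟩)
    · exact hy1 z hz
    · exact h r
  have hQ : Prm (annL X) := by
    refine ⟨fun h => hx1' (by simpa using mem_annL.1 h x1 hx1), fun a b h => ?_⟩
    by_cases hb : b ∈ annL X
    · exact Or.inr hb
    left
    rw [mem_annL] at hb
    push Not at hb
    obtain ⟨x, hx, hbx⟩ := hb
    refine key a (b * x) (hXI (X.mul_mem_left _ _ hx))
      (fun p hp => mem_annL.1 hp _ (X.mul_mem_left _ _ hx)) hbx fun r => ?_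
    rw [← mul_assoc]
    exact mem_annL.1 (h r) x hx
  refine ⟨annL X, hQ, fun y hy => mem_annL.2 fun x hx => hy x (hXI hx),
    ⟨x1, hXI hx1, hx1', fun p hp => mem_annL.1 hp x1 hx1⟩, fun c hc x hx hx' hcx => ?_⟩
  let K := killed I (annL X) fun a ha r => (annL X).mul_mem_right a r ha
  obtain ⟨d, hd, h⟩ := exists_common hQ (rsub K) ⊥ lmul
    (fun a w hw => by rw [(Submodule.mem_bot _).1 hw, map_zero]; exact Submodule.zero_mem _)
    (fun a w hw => K.mul_mem_left a w hw)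
    (fun a b w _ => by simp [mul_assoc])
    (fun a b hab w hw => by
      rw [Submodule.mem_bot, lmul_apply, lmul_apply, ← sub_mul]
      exact (mem_killed.1 hw).2 _ hab)
  by_contra h0
  exact hd.notMem hQ (key d x hx hx' h0 fun r => h x (mem_killed.2 ⟨hx, hx'⟩) c hc hcx r)

end Pool.Agent.Lib.MP_95d09c_al
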