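import Pool.Agent.Lib.MP_95d09c_al.Chi
import Pool.Agent.Lib.MP_95d09c_al.Extend

/-!
Complexes of matrices acting on columns with entries in a left module, and dimension shifting.
-/

set_option autoImplicit false
set_option linter.unusedSectionVars false

namespace Pool.Agent.Lib.MP_95d09c_al

open MulOpposite

variable {R : Type} [Ring R]

section Act

variable {a b c d : Type} [Fintype b] [Fintype c] [Fintype d]
  {E E' : Type} [AddCommGroup E] [Module R E] [AddCommGroup E'] [Module R E']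

/-- A matrix acting on a column with entries in a left module. -/
def act (φ : Matrix a b R) (z : b → E) : a → E := fun i => ∑ j, φ i j • z j

theorem act_mul (φ : Matrix a b R) (ψ : Matrix b c R) (z : c → E) :
    act (φ * ψ) z = act φ (act ψ z) := by
  ext i
  simp only [act, Matrix.mul_apply, Finset.sum_smul, Finset.smul_sum, mul_smul]
  exact Finset.sum_comm

theorem act_add (φ : Matrix a b R) (z w : b → E) : act φ (z + w) = act φ z + act φ w := by
  ext i; simp [act, Finset.sum_add_distrib]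

theorem act_sub (φ : Matrix a b R) (z w : b → E) : act φ (z - w) = act φ z - act φ w := by
  ext i; simp [act, smul_sub, Finset.sum_sub_distrib]

theorem act_neg (φ : Matrix a b R) (z : b → E) : act φ (-z) = -act φ z := by
  ext i; simp [act]

@[simp] theorem act_zero (φ : Matrix a b R) : act φ (0 : b → E) = 0 := by
  ext i; simp [act]

@[simp] theorem zero_act (z : b → E) : act (0 : Matrix a b R) z = 0 := by
  ext i; simp [act]

theorem act_map (f : E →ₗ[R] E') (φ : Matrix a b R) (z : b → E) :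
    (fun i => f (act φ z i)) = act φ fun j => f (z j) := by
  ext i; simp [act]

theorem act_mem (φ : Matrix a b R) {z : b → E} {V : Submodule R E} (hz : ∀ j, z j ∈ V) (i : a) :
    act φ z i ∈ V :=
  V.sum_mem fun j _ => V.smul_mem _ (hz j)

theorem act_act {φ : Matrix a b R} {ψ : Matrix b c R} (h : φ * ψ = 0) (z : c → E) :
    act φ (act ψ z) = 0 := by rw [← act_mul, h, zero_act]

/-- The map induced by `f` on homology vanishes. -/
def ZO (α : Matrix a b R) (β : Matrix b c R) (f : E →ₗ[R] E') : Prop :=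
  ∀ z : b → E, act α z = 0 → ∃ w : c → E', (fun i => f (z i)) = act β w

/-- Exactness on columns with entries in `E`. -/
def Van (α : Matrix a b R) (β : Matrix b c R) (E : Type) [AddCommGroup E] [Module R E] : Prop :=
  ∀ z : b → E, act α z = 0 → ∃ w : c → E, z = act β w

theorem Van.pi {α : Matrix a b R} {β : Matrix b c R} (h : Van α β R) (n : ℕ) :
    Van α β (Fin n → R) := by
  intro z hz
  have : ∀ k : Fin n, ∃ w : c → R, (fun i => z i k) = act β w := fun k => h _ (by
    have := act_map (LinearMap.proj k : (Fin n → R) →ₗ[R] R) α z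
    rw [hz] at this
    exact this.symm)
  choose w hw using this
  refine ⟨fun j k => w k j, funext fun i => funext fun k => ?_⟩
  rw [congrFun (hw k) i]
  simp [act]

theorem Van.of_bij {α : Matrix a b R} {β : Matrix b c R} (h : Van α β E) (f : E →ₗ[R] E')
    (hf : Function.Bijective f) : Van α β E' := by
  intro z hz
  choose x hx using fun i => hf.2 (z i)
  obtain ⟨w, hw⟩ := h x (funext fun i => hf.1 (by
    rw [congrFun (act_map f α x) i, funext hx, hz]; simp))
  exact ⟨fun j => f (w j), by rw [← act_map, ← hw, funext hx]⟩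

variable {G G' : Type} [AddCommGroup G] [Module R G] [AddCommGroup G'] [Module R G']

/-- `f'` is induced on kernels by a lift of `f`. -/
def Lf (p : G →ₗ[R] E) (p' : G' →ₗ[R] E') (f : E →ₗ[R] E')
    (f' : LinearMap.ker p →ₗ[R] LinearMap.ker p') : Prop :=
  ∃ t : G →ₗ[R] G', (∀ x, p' (t x) = f (p x)) ∧ ∀ x : LinearMap.ker p, (f' x : G') = t x

theorem exists_lf [Module.Projective R G] (p : G →ₗ[R] E) {p' : G' →ₗ[R] E'}
    (hp' : Function.Surjective p') (f : E →ₗ[R] E') : ∃ f', Lf p p' f f' := by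
  obtain ⟨t, ht⟩ := Module.projective_lifting_property p' (f ∘ₗ p) hp'
  have h : ∀ x, p' (t x) = f (p x) := fun x => LinearMap.congr_fun ht x
  exact ⟨t.restrict fun x hx => by rw [LinearMap.mem_ker, h, hx, map_zero], t, h, fun _ => rfl⟩

theorem Lf.id (p : G →ₗ[R] E) : Lf p p LinearMap.id LinearMap.id :=
  ⟨LinearMap.id, fun _ => rfl, fun _ => rfl⟩

theorem Lf.sub {p : G →ₗ[R] E} {p' : G' →ₗ[R] E'} {f g : E →ₗ[R] E'}
    {f' g' : LinearMap.ker p →ₗ[R] LinearMap.ker p'} (h1 : Lf p p' f f') (h2 : Lf p p' g g') :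
    Lf p p' (f - g) (f' - g') := by
  obtain ⟨t, ht, ht'⟩ := h1
  obtain ⟨u, hu, hu'⟩ := h2
  exact ⟨t - u, fun x => by simp [ht, hu], fun x => by simp [ht', hu']⟩

theorem Lf.comp {E'' G'' : Type} [AddCommGroup E''] [Module R E''] [AddCommGroup G'']
    [Module R G''] {p : G →ₗ[R] E} {p' : G' →ₗ[R] E'} {p'' : G'' →ₗ[R] E''} {f : E →ₗ[R] E'}
    {g : E' →ₗ[R] E''} {f' : LinearMap.ker p →ₗ[R] LinearMap.ker p'}
    {g' : LinearMap.ker p' →ₗ[R] LinearMap.ker p''} (h1 : Lf p p' f f') (h2 : Lf p' p'' g g') :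
    Lf p p'' (g ∘ₗ f) (g' ∘ₗ f') := by
  obtain ⟨t, ht, ht'⟩ := h1
  obtain ⟨u, hu, hu'⟩ := h2
  exact ⟨u ∘ₗ t, fun x => by simp [ht, hu], fun x => by simp [ht', hu']⟩

theorem Lf.null {G0 : Type} [AddCommGroup G0] [Module R G0] [Module.Projective R G0]
    {p : G →ₗ[R] E} {p' : G' →ₗ[R] E'} (hp' : Function.Surjective p') {f : E →ₗ[R] E'}
    {f' : LinearMap.ker p →ₗ[R] LinearMap.ker p'} (h : Lf p p' f f') {ι : E →ₗ[R] G0}
    {s : G0 →ₗ[R] E'} (hs : f = s ∘ₗ ι) :
    ∃ s' : G →ₗ[R] LinearMap.ker p', f' = s' ∘ₗ (LinearMap.ker p).subtype := by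
  obtain ⟨t, ht, ht'⟩ := h
  obtain ⟨u, hu⟩ := Module.projective_lifting_property p' s hp'
  have hu' : ∀ x, p' (u x) = s x := fun x => LinearMap.congr_fun hu x
  refine ⟨(t - u ∘ₗ ι ∘ₗ p).codRestrict _ fun x => by simp [ht, hu', hs], ?_⟩
  ext x
  have : p x = 0 := x.2
  simp [ht', this]

theorem zo_step {α : Matrix a b R} {β : Matrix b c R} {γ : Matrix c d R} (hαβ : α * β = 0)
    (hG : Van β γ G') {p : G →ₗ[R] E} (hp : Function.Surjective p) {p' : G' →ₗ[R] E'}
    {f : E →ₗ[R] E'} {f' : LinearMap.ker p →ₗ[R] LinearMap.ker p'} (h : Lf p p' f f')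
    (hz : ZO α β f') : ZO β γ f := by
  obtain ⟨t, ht, ht'⟩ := h
  intro z hz0
  choose x hx using fun i => hp (z i)
  have h1 : ∀ i, act β x i ∈ LinearMap.ker p := fun i => by
    rw [LinearMap.mem_ker, congrFun (act_map p β x) i, funext hx, hz0]; rfl
  obtain ⟨y, hy⟩ := hz (fun i => ⟨_, h1 i⟩) (funext fun i => Subtype.ext (by
    have := congrFun (act_map (LinearMap.ker p).subtype α fun i => ⟨_, h1 i⟩) i
    refine this.trans ?_
    exact congrFun (act_act hαβ x) i))
  obtain ⟨w, hw⟩ := hG (fun j => t (x j) - y j) (by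
    have h2 := act_map (LinearMap.ker p').subtype β y
    rw [← hy] at h2
    have h3 : (fun j => t (x j) - y j) = (fun j => t (x j)) - fun j => (y j : G') := rfl
    rw [h3, act_sub, ← act_map]
    ext i
    have h4 := congrFun h2 i
    simp only [Submodule.subtype_apply, ht'] at h4
    simp only [Pi.sub_apply, Pi.zero_apply, sub_eq_zero]
    exact h4)
  refine ⟨fun k => p' (w k), ?_⟩
  rw [← act_map, ← hw]
  ext j
  have : p' (y j) = 0 := (y j).2
  simp [ht, hx, this]

theorem van_down {β : Matrix b c R} {γ : Matrix c d R} (hβγ : β * γ = 0) {p : G →ₗ[R] E}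
    (hp : Function.Surjective p) (hE : Van β γ E) (z : b → LinearMap.ker p) (x : c → G)
    (hx : (fun i => (z i : G)) = act β x) : ∃ w : c → LinearMap.ker p, z = act β w := by
  obtain ⟨w, hw⟩ := hE (fun j => p (x j)) (by
    rw [← act_map, ← hx]
    exact funext fun i => (z i).2)
  choose y hy using fun k => hp (w k)
  have h1 : ∀ j, (x - act γ y) j ∈ LinearMap.ker p := fun j => by
    rw [LinearMap.mem_ker, Pi.sub_apply, map_sub, congrFun (act_map p γ y) j, funext hy, ← hw,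
      sub_self]
  refine ⟨fun j => ⟨_, h1 j⟩, funext fun i => Subtype.ext ?_⟩
  have := congrFun (act_map (LinearMap.ker p).subtype β fun j => ⟨_, h1 j⟩) i
  refine Eq.trans ?_ this.symm
  change (z i : G) = act β (x - act γ y) i
  rw [act_sub, act_act hβγ, sub_zero, ← hx]

theorem van_ker {α : Matrix a b R} {β : Matrix b c R} {γ : Matrix c d R} (hβγ : β * γ = 0)
    (hG : Van α β G) {p : G →ₗ[R] E} (hp : Function.Surjective p) (hE : Van β γ E) :
    Van α β (LinearMap.ker p) := by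
  intro z hz
  obtain ⟨x, hx⟩ := hG (fun i => (z i : G)) (by
    have := act_map (LinearMap.ker p).subtype α z
    rw [hz] at this
    exact this.symm)
  exact van_down hβγ hp hE z x hx

/-- The descending chain condition on stable subgroups of the homology. -/
def DCC {O : Type} (ρ : O → Matrix b b R) (α : Matrix a b R) (β : Matrix b c R) (E : Type)
    [AddCommGroup E] [Module R E] : Prop :=
  ∀ U : ℕ → AddSubgroup (b → E), Antitone U → (∀ j o, ∀ z ∈ U j, act (ρ o) z ∈ U j) →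
    (∀ j, ∀ z ∈ U j, act α z = 0) → (∀ j w, act β w ∈ U j) → ∃ n, ∀ j, n ≤ j → U n ≤ U j

theorem dcc_step {O : Type} {ρ : O → Matrix b b R} {ρ' : O → Matrix c c R} {α : Matrix a b R}
    {β : Matrix b c R} {γ : Matrix c d R} (hαβ : α * β = 0) (hρ : ∀ o, β * ρ' o = ρ o * β)
    (hG : Van β γ G) {p : G →ₗ[R] E} (hp : Function.Surjective p)
    (h : DCC ρ α β (LinearMap.ker p)) : DCC ρ' β γ E := by
  intro U hU h1 h2 h3
  let U' : ℕ → AddSubgroup (b → LinearMap.ker p) := fun j =>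
    { carrier := {z | ∃ x : c → G, (fun k => p (x k)) ∈ U j ∧ (fun i => (z i : G)) = act β x}
      add_mem' := by
        rintro z z' ⟨x, hx, hz⟩ ⟨x', hx', hz'⟩
        refine ⟨x + x', ?_, ?_⟩
        · have := (U j).add_mem hx hx'
          convert this using 1
          ext k; simp
        · rw [act_add, ← hz, ← hz']; rfl
      zero_mem' := ⟨0, by
        convert (U j).zero_mem using 1
        ext k; simp, by rw [act_zero]; rfl⟩
      neg_mem' := by
        rintro z ⟨x, hx, hz⟩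
        refine ⟨-x, ?_, ?_⟩
        · have := (U j).neg_mem hx
          convert this using 1
          ext k; simp
        · rw [act_neg, ← hz]; rfl }
  obtain ⟨n, hn⟩ := h U' (fun i j hij z ⟨x, hx, hz⟩ => ⟨x, hU hij hx, hz⟩)
    (fun j o z ⟨x, hx, hz⟩ => ⟨act (ρ' o) x, by rw [act_map]; exact h1 j o _ hx, by
      rw [← act_mul, hρ, act_mul, ← hz]
      exact act_map (LinearMap.ker p).subtype (ρ o) z⟩)
    (fun j z ⟨x, _, hz⟩ => funext fun i => Subtype.ext (by
      have := congrFun (act_map (LinearMap.ker p).subtype α z) i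
      refine this.trans ?_
      change act α (fun i => (z i : G)) i = 0
      rw [hz, act_act hαβ]; rfl))
    (fun j w => ⟨fun k => w k, by
      convert (U j).zero_mem using 1
      ext k; exact (w k).2, act_map (LinearMap.ker p).subtype β w⟩)
  refine ⟨n, fun j hj u hu => ?_⟩
  choose x hx using fun k => hp (u k)
  have h4 : ∀ i, act β x i ∈ LinearMap.ker p := fun i => by
    rw [LinearMap.mem_ker, congrFun (act_map p β x) i, funext hx, h2 n u hu]; rfl
  obtain ⟨x', hx', he⟩ := hn j hj (x := fun i => ⟨_, h4 i⟩) ⟨x, by rw [funext hx]; exact hu, rfl⟩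
  obtain ⟨y, hy⟩ := hG (x - x') (by rw [act_sub, ← he]; exact sub_self _)
  have h5 : u = (fun k => p (x' k)) + act γ fun l => p (y l) := by
    rw [← act_map, ← hy]
    ext k; simp [hx]
  rw [h5]
  exact (U j).add_mem hx' (h3 j _)

theorem act_smul (φ : Matrix a b R) (r : b → R) (x : E) (i : a) :
    act φ (fun j => r j • x) i = act φ r i • x := by
  simp [act, Finset.sum_smul, mul_smul]

theorem mem_msub_act [IsLocalRing R] {φ : Matrix Unit c R} (h1 : ∀ j, ¬ IsUnit (φ () j))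
    (h2 : ∀ μ, ¬ IsUnit μ → ∃ r : c → R, μ = act φ r ())
    {x : E} (hx : x ∈ msub 1 (⊤ : Submodule R E)) : ∃ w : c → E, x = act φ w () := by
  let V : Submodule R E :=
    { carrier := {x | ∃ w : c → E, x = act φ w ()}
      add_mem' := by
        rintro _ _ ⟨w, rfl⟩ ⟨w', rfl⟩
        exact ⟨w + w', by rw [act_add]; rfl⟩
      zero_mem' := ⟨0, by rw [act_zero]; rfl⟩
      smul_mem' := by
        rintro r _ ⟨w, rfl⟩
        choose s hs using fun j => h2 _ (nu_mul_left r (h1 j))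
        refine ⟨act (Matrix.of fun k j => s j k) w, ?_⟩
        rw [← act_mul]
        simp only [act, Finset.smul_sum, ← mul_smul]
        refine Finset.sum_congr rfl fun j _ => ?_
        rw [hs j]
        simp [act, Matrix.mul_apply] }
  have : msub 1 (⊤ : Submodule R E) ≤ V := by
    refine msub_le.2 ?_
    rintro _ ⟨μ, w, hμ, hw, rfl⟩ y -
    have hw1 : w = 1 := hw
    obtain ⟨r, hr⟩ := h2 μ hμ
    exact ⟨fun j => r j • y, by rw [act_smul, ← hr, hw1, mul_one]⟩
  exact this hx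

theorem dcc_base [IsLocalRing R] [IsNoetherian R E] {O : Type} {ρ : O → Matrix Unit Unit R}
    (hρ : ∀ r, ∃ o, ρ o () () = r) (α : Matrix a Unit R) {φ : Matrix Unit c R}
    (h1 : ∀ j, ¬ IsUnit (φ () j)) (h2 : ∀ μ, ¬ IsUnit μ → ∃ r : c → R, μ = act φ r ()) :
    DCC ρ α φ E := by
  intro U hU k1 _ k3
  let V : ℕ → Submodule R E := fun j =>
    { carrier := {x | (fun _ => x) ∈ U j}
      add_mem' := fun hx hy => (U j).add_mem hx hy
      zero_mem' := (U j).zero_mem
      smul_mem' := fun r x hx => by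
        obtain ⟨o, rfl⟩ := hρ r
        have := k1 j o _ hx
        have h3 : act (ρ o) (fun _ => x) = fun _ => ρ o () () • x := by
          ext; simp [act]
        rw [h3] at this
        exact this }
  obtain ⟨n, hn⟩ := chain_stops (U := ⊤) (U0 := msub 1 ⊤) le_rfl V
    (fun i j hij x hx => hU hij hx) (fun j x hx => by
      obtain ⟨w, rfl⟩ := mem_msub_act h1 h2 hx
      exact k3 j w) (fun j => by simp)
  exact ⟨n, fun j hj z hz => hn j hj (x := z ()) hz⟩

/-- A matrix as a map of right modules. -/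
def rmat (φ : Matrix a b R) : (b → R) →ₗ[Rᵐᵒᵖ] (a → R) where
  toFun := act φ
  map_add' := act_add φ
  map_smul' r z := by
    ext i
    simp [act, Finset.sum_mul, mul_assoc]

@[simp] theorem rmat_apply (φ : Matrix a b R) (z : b → R) : rmat φ z = act φ z := rfl

end Act

section Mat

/-- Columns as a free right module. -/
def piOp (R : Type) [Ring R] (n : Type) : (n → R) ≃ₗ[Rᵐᵒᵖ] (n → Rᵐᵒᵖ) :=
  LinearEquiv.piCongrRight fun _ => opEq R

theorem proj_col (n : Type) [Finite n] : Module.Projective Rᵐᵒᵖ (n → R) :=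
  Module.Projective.of_equiv (piOp R n).symm

variable [IsLocalRing R] [IsNoetherianRing Rᵐᵒᵖ]

theorem exists_mat {a : Type} [Finite a] (U : Submodule Rᵐᵒᵖ (a → R)) :
    ∃ (g : ℕ) (φ : Matrix a (Fin g) R), LinearMap.range (rmat φ) = U ∧
      (∀ v : Fin g → R, act φ v = 0 → ∀ j, ¬ IsUnit (v j)) ∧
      (PD Rᵐᵒᵖ 1 U → ∀ v : Fin g → R, act φ v = 0 → v = 0) := by
  classical
  have := op_local (Λ := R)
  have := isNoetherian_right (Λ := R)
  obtain ⟨c⟩ := nonempty_cover Rᵐᵒᵖ U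
  let q : (Fin c.g → R) →ₗ[Rᵐᵒᵖ] (a → R) := U.subtype ∘ₗ c.p ∘ₗ (piOp R _).toLinearMap
  have hq : rmat (Matrix.of fun i j => q (Pi.single j 1) i) = q := by
    refine LinearMap.pi_ext' fun j => LinearMap.ext fun r => ?_
    have h1 : (Pi.single j r : Fin c.g → R) = op r • (Pi.single j 1 : Fin c.g → R) := by
      ext k
      by_cases h : k = j
      · subst h; simp
      · simp [h]
    simp only [LinearMap.comp_apply, LinearMap.coe_single]
    rw [h1, map_smul, map_smul]
    congr 1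
    ext i
    simp [act, Pi.single_apply]
  have hq0 : ∀ v, act (Matrix.of fun i j => q (Pi.single j 1) i) v = 0 → c.p (piOp R _ v) = 0 :=
    fun v hv => by
      rw [← rmat_apply, hq] at hv
      exact Subtype.ext hv
  refine ⟨c.g, Matrix.of fun i j => q (Pi.single j 1) i, ?_, fun v hv j hj => ?_,
    fun hU v hv => ?_⟩
  · rw [hq]
    simp only [q, LinearMap.range_comp, LinearEquiv.range, Submodule.map_top,
      LinearMap.range_eq_top.2 c.surj, Submodule.range_subtype]
  · exact c.min _ (hq0 v hv) j hj.op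
  · have := pd_one hU
    exact (piOp R _).injective (c.inj (by rw [hq0 v hv]; simp))

theorem pd_ker_rmat {a b : Type} [Fintype b] (φ : Matrix a b R) {n : ℕ}
    (h : PD Rᵐᵒᵖ (n + 2) (LinearMap.range (rmat φ))) :
    PD Rᵐᵒᵖ (n + 1) (LinearMap.ker (rmat φ)) := by
  have := proj_col (R := R) b
  refine pd_ker (Submodule.injective_subtype _) (rmat φ).surjective_rangeRestrict ?_ h
  rw [LinearMap.exact_iff, LinearMap.ker_rangeRestrict, Submodule.range_subtype]

theorem lam_col (F : Addf Rᵐᵒᵖ) (n : ℕ) : F.lam (Fin n → R) = n * F.lam Rᵐᵒᵖ := by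
  have := isNoetherian_right (Λ := R)
  rw [F.eq_of_bij _ (piOp R (Fin n)).bijective, F.free]

/-- A resolution of length four of the cokernel of a matrix. -/
structure Cx {a b : Type} [Fintype b] (d1 : Matrix a b R) where
  g2 : ℕ
  g3 : ℕ
  g4 : ℕ
  d2 : Matrix b (Fin g2) R
  d3 : Matrix (Fin g2) (Fin g3) R
  d4 : Matrix (Fin g3) (Fin g4) R
  z12 : d1 * d2 = 0
  z23 : d2 * d3 = 0
  z34 : d3 * d4 = 0
  e12 : Van d1 d2 R
  e23 : Van d2 d3 R
  e34 : Van d3 d4 R
  inj : ∀ v : Fin g4 → R, act d4 v = 0 → v = 0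
  min : ∀ i j, ¬ IsUnit (d4 i j)
  rk : ∀ F : Addf Rᵐᵒᵖ, F.lam (LinearMap.ker (rmat d1)) + g3 * F.lam Rᵐᵒᵖ =
    (g4 + g2) * F.lam Rᵐᵒᵖ

theorem act_single {a : Type} {n : ℕ} (φ : Matrix a (Fin n) R) (j : Fin n) (i : a) :
    act φ (Pi.single j (1 : R) : Fin n → R) i = φ i j := by
  simp [act, Pi.single_apply]

theorem mul_eq_zero_of_range {a b : Type} [Fintype b] {n : ℕ} {φ : Matrix a b R}
    {ψ : Matrix b (Fin n) R} (h : LinearMap.range (rmat ψ) = LinearMap.ker (rmat φ)) :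
    φ * ψ = 0 := by
  ext i j
  have : rmat ψ (Pi.single j 1) ∈ LinearMap.ker (rmat φ) := h ▸ ⟨_, rfl⟩
  rw [← act_single (φ * ψ), act_mul]
  exact congrFun this i

theorem van_of_range {a b : Type} [Fintype b] {n : ℕ} {φ : Matrix a b R}
    {ψ : Matrix b (Fin n) R} (h : LinearMap.range (rmat ψ) = LinearMap.ker (rmat φ)) :
    Van φ ψ R := by
  intro z hz
  have : z ∈ LinearMap.range (rmat ψ) := h ▸ hz
  obtain ⟨w, hw⟩ := this
  exact ⟨w, hw.symm⟩

theorem nonempty_cx (hG : GD4 Rᵐᵒᵖ) {a b : Type} [Finite a] [Fintype b] (d1 : Matrix a b R) :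
    Nonempty (Cx d1) := by
  have := isNoetherian_right (Λ := R)
  have := proj_col (R := R) a
  have p1 : PD Rᵐᵒᵖ 4 (LinearMap.range (rmat d1)) :=
    pd_ker (Submodule.injective_subtype _) (Submodule.mkQ_surjective _)
      (LinearMap.exact_subtype_mkQ _) (hG _)
  have p2 := pd_ker_rmat d1 p1
  obtain ⟨g2, d2, r2, -, -⟩ := exists_mat (LinearMap.ker (rmat d1))
  have p3 := pd_ker_rmat d2 (r2 ▸ p2)
  obtain ⟨g3, d3, r3, m3, -⟩ := exists_mat (LinearMap.ker (rmat d2))
  have p4 := pd_ker_rmat d3 (r3 ▸ p3)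
  obtain ⟨g4, d4, r4, -, i4⟩ := exists_mat (LinearMap.ker (rmat d3))
  refine ⟨⟨g2, g3, g4, d2, d3, d4, mul_eq_zero_of_range r2, mul_eq_zero_of_range r3,
    mul_eq_zero_of_range r4, van_of_range r2, van_of_range r3, van_of_range r4, i4 p4,
    fun i j => ?_, fun F => ?_⟩⟩
  · rw [← act_single d4]
    exact m3 _ (act_act (mul_eq_zero_of_range r4) _) i
  · have h2 := F.ker_add _ (rmat d2).surjective_rangeRestrict
    have h3 := F.ker_add _ (rmat d3).surjective_rangeRestrict
    have h4 := F.eq_of_bij (rmat d4).rangeRestrict ⟨by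
      rw [injective_iff_map_eq_zero]
      exact fun v hv => i4 p4 v (congrArg Subtype.val hv), (rmat d4).surjective_rangeRestrict⟩
    rw [LinearMap.ker_rangeRestrict, lam_col] at h2 h3
    rw [lam_col] at h4
    rw [r2] at h2
    rw [r3] at h3
    rw [r4] at h4
    rw [add_mul]
    omega

end Mat

section Res

variable (R) in
/-- The first three steps of a minimal resolution. -/
structure Res (E : Type) [AddCommGroup E] [Module R E] where
  c0 : Cover R E
  c1 : Cover R (LinearMap.ker c0.p)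
  c2 : Cover R (LinearMap.ker c1.p)

variable {E E' E'' : Type} [AddCommGroup E] [Module R E] [AddCommGroup E'] [Module R E']
  [AddCommGroup E''] [Module R E'']

theorem nonempty_res [IsLocalRing R] [IsNoetherianRing R] [Module.Finite R E] :
    Nonempty (Res R E) := by
  obtain ⟨c0⟩ := nonempty_cover R E
  obtain ⟨c1⟩ := nonempty_cover R (LinearMap.ker c0.p)
  obtain ⟨c2⟩ := nonempty_cover R (LinearMap.ker c1.p)
  exact ⟨⟨c0, c1, c2⟩⟩

/-- The map induced on third syzygies. -/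
def L3 (r : Res R E) (r' : Res R E') (f : E →ₗ[R] E')
    (g : LinearMap.ker r.c2.p →ₗ[R] LinearMap.ker r'.c2.p) : Prop :=
  ∃ f1 f2, Lf r.c0.p r'.c0.p f f1 ∧ Lf r.c1.p r'.c1.p f1 f2 ∧ Lf r.c2.p r'.c2.p f2 g

theorem exists_L3 (r : Res R E) (r' : Res R E') (f : E →ₗ[R] E') : ∃ g, L3 r r' f g := by
  obtain ⟨f1, h1⟩ := exists_lf r.c0.p r'.c0.surj f
  obtain ⟨f2, h2⟩ := exists_lf r.c1.p r'.c1.surj f1
  obtain ⟨g, h3⟩ := exists_lf r.c2.p r'.c2.surj f2
  exact ⟨g, f1, f2, h1, h2, h3⟩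

theorem L3.sub {r : Res R E} {r' : Res R E'} {f f' : E →ₗ[R] E'}
    {g g' : LinearMap.ker r.c2.p →ₗ[R] LinearMap.ker r'.c2.p} (h : L3 r r' f g)
    (h' : L3 r r' f' g') : L3 r r' (f - f') (g - g') := by
  obtain ⟨f1, f2, h1, h2, h3⟩ := h
  obtain ⟨f1', f2', h1', h2', h3'⟩ := h'
  exact ⟨_, _, h1.sub h1', h2.sub h2', h3.sub h3'⟩

theorem L3.comp {r : Res R E} {r' : Res R E'} {r'' : Res R E''} {f : E →ₗ[R] E'}
    {f' : E' →ₗ[R] E''} {g : LinearMap.ker r.c2.p →ₗ[R] LinearMap.ker r'.c2.p}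
    {g' : LinearMap.ker r'.c2.p →ₗ[R] LinearMap.ker r''.c2.p} (h : L3 r r' f g)
    (h' : L3 r' r'' f' g') : L3 r r'' (f' ∘ₗ f) (g' ∘ₗ g) := by
  obtain ⟨f1, f2, h1, h2, h3⟩ := h
  obtain ⟨f1', f2', h1', h2', h3'⟩ := h'
  exact ⟨_, _, h1.comp h1', h2.comp h2', h3.comp h3'⟩

theorem L3.null {r : Res R E} {r' : Res R E'} {f : E →ₗ[R] E'}
    {g : LinearMap.ker r.c2.p →ₗ[R] LinearMap.ker r'.c2.p} (h : L3 r r' f g) (hf : f = 0) :
    ∃ s, g = s ∘ₗ (LinearMap.ker r.c2.p).subtype := by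
  obtain ⟨f1, f2, h1, h2, h3⟩ := h
  obtain ⟨s1, hs1⟩ := h1.null (G0 := R) r'.c0.surj (ι := 0) (s := 0) (by rw [hf]; rfl)
  obtain ⟨s2, hs2⟩ := h2.null r'.c1.surj hs1
  exact h3.null r'.c2.surj hs2

variable {a b : Type} [Fintype b] {d1 : Matrix a b R} (X : Cx d1)

theorem L3.zo [Fintype a] {r : Res R E} {r' : Res R E'} {f : E →ₗ[R] E'}
    {g : LinearMap.ker r.c2.p →ₗ[R] LinearMap.ker r'.c2.p} (h : L3 r r' f g)
    {s : (Fin r.c2.g → R) →ₗ[R] LinearMap.ker r'.c2.p}
    (hs : g = s ∘ₗ (LinearMap.ker r.c2.p).subtype) : ZO X.d3 X.d4 f := by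
  obtain ⟨f1, f2, h1, h2, t, ht, ht'⟩ := h
  have h3 : Lf r.c2.p r'.c2.p f2 0 := by
    refine ⟨t - (LinearMap.ker r'.c2.p).subtype ∘ₗ s, fun x => ?_, fun x => ?_⟩
    · have : r'.c2.p (s x) = 0 := (s x).2
      simp [ht, this]
    · simp [← ht', hs]
  have k0 : ZO (0 : Matrix Unit a R) d1 (0 : LinearMap.ker r.c2.p →ₗ[R] LinearMap.ker r'.c2.p) :=
    fun z _ => ⟨0, by rw [act_zero]; rfl⟩
  have k1 := zo_step (Matrix.zero_mul _) (X.e12.pi _) r.c2.surj h3 k0
  have k2 := zo_step X.z12 (X.e23.pi _) r.c1.surj h2 k1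
  exact zo_step X.z23 (X.e34.pi _) r.c0.surj h1 k2

theorem Cx.e45 : Van X.d4 (0 : Matrix (Fin X.g4) Empty R) R := fun z hz =>
  ⟨0, by rw [X.inj z hz, act_zero]⟩

theorem Cx.inj_of_free (r : Res R E) (c : Cover R (LinearMap.ker r.c2.p))
    (hc : Function.Injective c.p) (z : Fin X.g4 → E) (hz : act X.d4 z = 0) : z = 0 := by
  have k1 : ZO d1 X.d2 (LinearMap.id : LinearMap.ker r.c2.p →ₗ[R] _) :=
    (X.e12.pi _).of_bij c.p ⟨hc, c.surj⟩
  have k2 := zo_step X.z12 (X.e23.pi _) r.c2.surj (Lf.id _) k1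
  have k3 := zo_step X.z23 (X.e34.pi _) r.c1.surj (Lf.id _) k2
  have k4 := zo_step X.z34 (X.e45.pi _) r.c0.surj (Lf.id _) k3
  obtain ⟨w, hw⟩ := k4 z hz
  rw [zero_act] at hw
  exact hw

end Res

end Pool.Agent.Lib.MP_95d09c_al
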