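import Pool.Agent.Lib.MP_95d09c_al.AS

/-!
Complete local rings: finitely generated modules are separated, and generation of bimodules.
-/

set_option autoImplicit false
set_option linter.unusedSectionVars false

namespace Pool.Agent.Lib.MP_95d09c_al

section Pow

variable {A : Type} [Ring A] [IsLocalRing A] {M : Type} [AddCommGroup M] [Module A M]

theorem smul_mem_of_pow {j : ℕ} {a : A} (ha : a ∈ msub j (⊤ : Submodule A A))
    {U : Submodule A M} {x : M} (hx : x ∈ U) : a • x ∈ msub j U :=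
  msub_map_le (LinearMap.toSpanSingleton A M x) j (fun r _ => U.smul_mem r hx) ha

theorem word_smul_one {j : ℕ} {w : A} (hw : w ∈ Wd A j) {U : Submodule A M} {m : M}
    (hm : m ∈ msub 1 U) : w • m ∈ msub (j + 1) U := by
  have : ∀ r : A, w • r • m ∈ msub (j + 1) U := by
    induction hm using Submodule.span_induction with
    | mem y hy =>
      obtain ⟨_, ⟨μ, v, hμ, hv, rfl⟩, x, hx, rfl⟩ := hy
      intro r
      rw [← mul_smul, ← mul_smul, mul_assoc]
      exact smul_mem_msub (Wd_mul_right hw (nu_mul_left r (nu_mul_right hμ v))) hx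
    | zero => intro r; rw [smul_zero, smul_zero]; exact Submodule.zero_mem _
    | add y z _ _ hy hz => intro r; rw [smul_add, smul_add]; exact add_mem (hy r) (hz r)
    | smul s y _ hy => intro r; rw [← mul_smul r]; exact hy _
  simpa using this 1

theorem msub_one_msub (j : ℕ) (U : Submodule A M) : msub 1 (msub j U) ≤ msub (j + 1) U := by
  refine msub_le.2 ?_
  rintro _ ⟨μ, v, hμ, hv, rfl⟩ m hm
  have : ∀ ν : A, ¬ IsUnit ν → ν • m ∈ msub (j + 1) U := by
    induction hm using Submodule.span_induction with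
    | mem y hy =>
      obtain ⟨w, hw, x, hx, rfl⟩ := hy
      intro ν hν
      rw [← mul_smul]
      exact smul_mem_msub ⟨ν, w, hν, hw, rfl⟩ hx
    | zero => intro r _; rw [smul_zero]; exact Submodule.zero_mem _
    | add y z _ _ hy hz => intro r hr; rw [smul_add]; exact add_mem (hy r hr) (hz r hr)
    | smul s y _ hy => intro r hr; rw [← mul_smul r]; exact hy _ (nu_mul_right hr s)
  exact this _ (nu_mul_right hμ v)

theorem mem_msub_zero (x : M) : x ∈ msub 0 (⊤ : Submodule A M) := by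
  simpa using smul_mem_msub (Λ := A) (j := 0) (U := ⊤) (w := 1) (x := x) rfl trivial

theorem mem_msub_pi {e j : ℕ} {z : Fin e → A} :
    z ∈ msub j (⊤ : Submodule A (Fin e → A)) ↔ ∀ i, z i ∈ msub j (⊤ : Submodule A A) := by
  refine ⟨fun h i => msub_map_le (LinearMap.proj i : (Fin e → A) →ₗ[A] A) j
    (fun _ _ => Submodule.mem_top) h, fun h => ?_⟩
  rw [eq_sum_single z]
  exact sum_mem fun i _ => smul_mem_of_pow (h i) trivial

theorem jac_pow (j : ℕ) : (Ring.jacobson A ^ j : Ideal A) = msub j (⊤ : Submodule A A) := by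
  induction j with
  | zero =>
    rw [Submodule.pow_zero, Ideal.one_eq_top, eq_comm, eq_top_iff]
    exact fun x _ => mem_msub_zero x
  | succ j ih =>
    rw [Ideal.IsTwoSided.pow_succ, ih]
    refine le_antisymm (Submodule.mul_le.2 fun μ hμ y hy => msub_one_msub j ⊤
      (smul_mem_msub ⟨μ, 1, mem_jac.1 hμ, rfl, (mul_one μ).symm⟩ hy)) (msub_le.2 ?_)
    rintro _ ⟨μ, w, hμ, hw, rfl⟩ x hx
    rw [smul_eq_mul, mul_assoc]
    exact Submodule.mul_mem_mul (mem_jac.2 hμ) (smul_mem_msub hw hx)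

variable (A M) in
/-- Separated modules. -/
def Sep : Prop := ∀ x : M, (∀ j, x ∈ msub j (⊤ : Submodule A M)) → x = 0

variable (A M) in
/-- Complete modules. -/
def Lim : Prop := ∀ f : ℕ → M, (∀ j, f (j + 1) - f j ∈ msub j (⊤ : Submodule A M)) →
  ∃ x, ∀ j, x - f j ∈ msub j (⊤ : Submodule A M)

theorem Sep.pi (h : Sep A A) (e : ℕ) : Sep A (Fin e → A) := fun _ hx =>
  funext fun i => h _ fun j => mem_msub_pi.1 (hx j) i

theorem Lim.pi (h : Lim A A) (e : ℕ) : Lim A (Fin e → A) := by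
  intro f hf
  choose x hx using fun i => h (fun j => f j i) fun j => mem_msub_pi.1 (hf j) i
  exact ⟨x, fun j => mem_msub_pi.2 fun i => hx i j⟩

theorem exists_seq {α : Type} (P : ℕ → α → Prop) (Q : ℕ → α → α → Prop) (a0 : α) (h0 : P 0 a0)
    (h : ∀ t a, P t a → ∃ b, P (t + 1) b ∧ Q t a b) :
    ∃ f : ℕ → α, f 0 = a0 ∧ ∀ t, P t (f t) ∧ Q t (f t) (f (t + 1)) := by
  choose g hg hg' using h
  let f : ∀ t, {a // P t a} := fun t => Nat.rec ⟨a0, h0⟩ (fun t a => ⟨g t a.1 a.2, hg t _ _⟩) t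
  exact ⟨fun t => (f t).1, rfl, fun t => ⟨(f t).2, hg' t _ (f t).2⟩⟩

/-- Generators modulo the maximal ideal generate a separated module. -/
theorem surj_of_sep (hA : Lim A A) (hM : Sep A M) {e : ℕ} (φ : (Fin e → A) →ₗ[A] M)
    (h : ⊤ ≤ LinearMap.range φ ⊔ msub 1 ⊤) : Function.Surjective φ := by
  intro x
  have key : ∀ j, msub j (⊤ : Submodule A M) ≤ (msub j ⊤).map φ ⊔ msub (j + 1) ⊤ := fun j => by
    refine msub_le.2 fun w hw y hy => ?_
    obtain ⟨_, ⟨a, rfl⟩, m, hm, rfl⟩ := Submodule.mem_sup.1 (h hy)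
    rw [smul_add, ← map_smul]
    exact Submodule.add_mem_sup ⟨_, smul_mem_msub hw trivial, rfl⟩ (word_smul_one hw hm)
  obtain ⟨f, -, hf⟩ := exists_seq (fun t (a : Fin e → A) => x - φ a ∈ msub t (⊤ : Submodule A M))
    (fun t a b => b - a ∈ msub t (⊤ : Submodule A (Fin e → A))) 0 (mem_msub_zero _) (by
      intro t a ha
      obtain ⟨_, ⟨c, hc, rfl⟩, m, hm, he⟩ := Submodule.mem_sup.1 (key t ha)
      refine ⟨a + c, ?_, by simpa using hc⟩
      rw [map_add, ← sub_sub, ← he, add_sub_cancel_left]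
      exact hm)
  obtain ⟨a, ha⟩ := hA.pi e f fun j => (hf j).2
  refine ⟨a, (sub_eq_zero.1 (hM _ fun j => ?_)).symm⟩
  have : x - φ a = (x - φ (f j)) - φ (a - f j) := by rw [map_sub]; abel
  rw [this]
  exact sub_mem (hf j).1 (msub_map_le φ j (fun _ _ => Submodule.mem_top) (ha j))

/-- Finitely generated modules over a complete ring are separated. -/
theorem sep_of_finite [IsNoetherianRing A] (h1 : Sep A A) (h2 : Lim A A) [Module.Finite A M] :
    Sep A M := by
  intro x hx
  obtain ⟨e, π, hπ⟩ := Module.Finite.exists_fin' A M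
  obtain ⟨e', υ', hυ'⟩ := Module.Finite.exists_fin' A (LinearMap.ker π)
  let υ := (LinearMap.ker π).subtype ∘ₗ υ'
  obtain ⟨y, rfl⟩ := hπ x
  let S : ℕ → (Fin e' → A) → Prop := fun b a => y - υ a ∈ msub b (⊤ : Submodule A (Fin e → A))
  have hS : ∀ b, ∃ a, S b a := fun b => by
    have h3 : msub b (⊤ : Submodule A M) ≤ (msub b ⊤).map π := by
      refine msub_le.2 fun w hw z _ => ?_
      obtain ⟨z, rfl⟩ := hπ z
      exact ⟨w • z, smul_mem_msub hw trivial, map_smul _ _ _⟩
    obtain ⟨m, hm, he⟩ := h3 (hx b)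
    obtain ⟨a, ha⟩ := hυ' ⟨y - m, by rw [LinearMap.mem_ker, map_sub, he, sub_self]⟩
    refine ⟨a, ?_⟩
    change y - (υ' a).1 ∈ _
    rw [ha]
    simpa using hm
  let G : ℕ → (Fin e' → A) → Prop := fun t a =>
    ∀ b, ∃ a', S b a' ∧ a - a' ∈ msub t (⊤ : Submodule A (Fin e' → A))
  have hG : ∀ t, ∃ b0, ∀ a, S b0 a → G t a := fun t => by
    obtain ⟨b0, hb0⟩ := chain_stops (U := ⊤) (U0 := msub t (⊤ : Submodule A (Fin e' → A))) le_rfl
      (fun b => (msub b ⊤).comap υ ⊔ msub t ⊤)
      (fun _ _ h => sup_le_sup_right (Submodule.comap_mono (msub_anti ⊤ h)) _)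
      (fun _ => le_sup_right) fun _ => le_top.trans le_sup_right
    refine ⟨b0, fun a ha b => ?_⟩
    rcases le_total b b0 with h | h
    · exact ⟨a, msub_anti ⊤ h ha, by rw [sub_self]; exact Submodule.zero_mem _⟩
    obtain ⟨a', ha'⟩ := hS b
    obtain ⟨v, hv, m, hm, he⟩ := Submodule.mem_sup.1 (hb0 b h (x := a - a')
      (Submodule.mem_sup_left (by
        have : υ (a - a') = (y - υ a') - (y - υ a) := by rw [map_sub]; abel
        rw [Submodule.mem_comap, this]
        exact sub_mem (msub_anti ⊤ h ha') ha)))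
    refine ⟨a' + v, ?_, ?_⟩
    · change y - υ (a' + v) ∈ _
      rw [map_add, ← sub_sub]
      exact sub_mem ha' hv
    · rw [← sub_sub, ← he, add_sub_cancel_left]
      exact hm
  obtain ⟨f, -, hf⟩ := exists_seq G
    (fun t a b => b - a ∈ msub t (⊤ : Submodule A (Fin e' → A))) 0
    (fun b => (hS b).imp fun a ha => ⟨ha, mem_msub_zero _⟩) (by
      intro t a ha
      obtain ⟨b0, hb0⟩ := hG (t + 1)
      obtain ⟨a', h3, h4⟩ := ha b0
      exact ⟨a', hb0 a' h3, by simpa using neg_mem h4⟩)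
  obtain ⟨a, ha⟩ := h2.pi e' f fun j => (hf j).2
  have h3 : y - υ a = 0 := h1.pi e _ fun t => by
    obtain ⟨a', h3, h4⟩ := (hf t).1 t
    have : y - υ a = (y - υ a') - υ ((a - f t) + (f t - a')) := by
      simp only [map_sub, map_add]; abel
    rw [this]
    exact sub_mem h3 (msub_map_le υ t (fun _ _ => Submodule.mem_top) (add_mem (ha t) h4))
  rw [sub_eq_zero.1 h3]
  exact (υ' a).2

end Pow

variable {C : Type} [CommRing C] {A : Type} [Ring A] [Algebra C A] [IsLocalRing A]
  {A' : Type} [Ring A'] [Algebra C A'] [IsLocalRing A']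

theorem Anti.wd (σ : Anti C A A') {j : ℕ} {w : A} (hw : w ∈ Wd A j) : σ.s w ∈ Wd A' j := by
  induction j generalizing w with
  | zero => rw [show w = 1 from hw, σ.one]; rfl
  | succ j ih =>
    obtain ⟨μ, v, hμ, hv, rfl⟩ := hw
    rw [σ.mul]
    exact Wd_mul_right (ih hv) (σ.nu hμ)

theorem Anti.pow (σ : Anti C A A') {j : ℕ} {x : A} (hx : x ∈ msub j (⊤ : Submodule A A)) :
    σ.s x ∈ msub j (⊤ : Submodule A' A') := by
  induction hx using Submodule.span_induction with
  | mem y hy =>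
    obtain ⟨w, hw, x, -, rfl⟩ := hy
    rw [smul_eq_mul, σ.mul]
    exact Submodule.smul_mem _ (σ.s x)
      (by simpa using smul_mem_msub (σ.wd hw) (Submodule.mem_top (x := (1 : A'))))
  | zero => rw [map_zero]; exact Submodule.zero_mem _
  | add y z _ _ hy hz => rw [map_add]; exact add_mem hy hz
  | smul s y _ hy => rw [smul_eq_mul, σ.mul]; exact smul_mem_of_pow hy trivial

theorem Anti.sep (σ : Anti C A A') (h : Sep A A) : Sep A' A' := fun _ hx =>
  (map_eq_zero_iff _ σ.symm.s.injective).1 (h _ fun j => σ.symm.pow (hx j))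

theorem Anti.lim (σ : Anti C A A') (h : Lim A A) : Lim A' A' := by
  intro f hf
  obtain ⟨x, hx⟩ := h (fun j => σ.symm.s (f j)) fun j => by
    rw [← map_sub]; exact σ.symm.pow (hf j)
  refine ⟨σ.s x, fun j => ?_⟩
  have := σ.pow (hx j)
  rwa [map_sub, show σ.s (σ.symm.s (f j)) = f j from σ.s.apply_symm_apply _] at this

variable {W : Type} [AddCommGroup W] [Module A W] [Module C W] [IsScalarTower C A W]

theorem sm_one (hk : IsFiniteLength C (kk A)) {U : Submodule A W} (hU : U.FG) :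
    Sm False (U.restrictScalars C) ((msub 1 U).restrictScalars C) := by
  have : Module.Finite A U := Module.Finite.iff_fg.2 hU
  obtain ⟨e, π, hπ⟩ := Module.Finite.exists_fin' A U
  have h1 : Sm False ⊤ ((Ring.jacobson A).restrictScalars C) :=
    Sm.of_map ((Ring.jacobson A).mkQ.restrictScalars C ∘ₗ Submodule.subtype ⊤) hk False.elim
      fun x hx => (mkQ_eq_zero (V := Ring.jacobson A)).1 hx
  refine ((Sm.iInf fun i : Fin e => h1.comap (LinearMap.proj i : (Fin e → A) →ₗ[C] A)).map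
    ((U.subtype ∘ₗ π).restrictScalars C)).mono' (fun x hx => ?_) ?_
  · obtain ⟨a, ha⟩ := hπ ⟨x, hx⟩
    exact ⟨a, by simp, congrArg Subtype.val ha⟩
  · rintro _ ⟨a, ha, rfl⟩
    exact msub_map_le (U.subtype ∘ₗ π) 1 (fun x _ => (π x).2)
      (mem_msub_top_of_nu fun i => mem_jac.1 ((Submodule.mem_iInf _).1 ha i))

theorem sm_pow (hk : IsFiniteLength C (kk A)) [IsNoetherian A W] (b : ℕ) :
    Sm False ⊤ ((msub b (⊤ : Submodule A W)).restrictScalars C) := by
  induction b with
  | zero => exact Sm.of_le fun x _ => mem_msub_zero x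
  | succ b ih =>
    exact ih.trans' ((sm_one hk (IsNoetherian.noetherian _)).mono' le_rfl
      fun x hx => msub_one_msub b ⊤ hx)

theorem exists_pow_le {V : Submodule A W} (h : Sm False ⊤ (V.restrictScalars C)) :
    ∃ a, msub a ⊤ ≤ V := by
  obtain ⟨_, _⟩ := isFiniteLength_iff_isNoetherian_isArtinian.1 (fl_tower (B := A) h.quot_top)
  obtain ⟨a, ha⟩ := IsArtinian.monotone_stabilizes (R := A) (M := W ⧸ V)
    ⟨fun a => OrderDual.toDual (msub a ⊤), fun _ _ h => msub_anti ⊤ h⟩
  have h1 : msub a (⊤ : Submodule A (W ⧸ V)) ≤ ⊥ :=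
    nak_msub (le_sup_of_le_right (le_of_eq (ha (a + 1) (Nat.le_succ a))))
  exact ⟨a, fun x hx => mkQ_eq_zero.1 (h1 (msub_map_le V.mkQ a (fun _ _ => Submodule.mem_top) hx))⟩

/-- A bimodule which is finitely generated on one side is separated on the other side. -/
theorem sep_bimod [Module A' W] [IsScalarTower C A' W] [SMulCommClass A A' W]
    [IsNoetherianRing A'] [Module.Finite A' W] (hk : IsFiniteLength C (kk A'))
    (h1 : Sep A' A') (h2 : Lim A' A') : Sep A W := by
  intro x hx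
  refine sep_of_finite h1 h2 x fun b => ?_
  let V : Submodule A W :=
    { carrier := msub b (⊤ : Submodule A' W)
      add_mem' := add_mem
      zero_mem' := zero_mem _
      smul_mem' := fun a y hy =>
        msub_map_le (DistribSMul.toLinearMap A' W a) b (fun _ _ => Submodule.mem_top) hy }
  obtain ⟨a, ha⟩ := exists_pow_le (C := C) (V := V) ((sm_pow hk b).mono' le_rfl fun y hy => hy)
  exact ha (hx a)

end Pool.Agent.Lib.MP_95d09c_al
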