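import Pool.Agent.Lib.MP_95d09c_al.Sm

/-!
Ext groups of modules: composition, long exact sequences, syzygies and cosyzygies.
-/

set_option autoImplicit false
set_option linter.unusedSectionVars false

namespace Pool.Agent.Lib.MP_95d09c_al

open CategoryTheory Abelian

attribute [local instance] ModuleCat.Algebra.instLinear

/-- Ext groups of modules. -/
abbrev EX (A : Type) [Ring A] (M N : Type) [AddCommGroup M] [Module A M] [AddCommGroup N]
    [Module A N] (q : ℕ) : Type :=
  Ext.{0} (ModuleCat.of A M) (ModuleCat.of A N) q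

section Basic

variable {A : Type} [Ring A] {L M N P : Type} [AddCommGroup L] [Module A L] [AddCommGroup M]
  [Module A M] [AddCommGroup N] [Module A N] [AddCommGroup P] [Module A P] {q a b c : ℕ}

/-- A linear map as an element of Ext in degree zero. -/
noncomputable def m0 (f : M →ₗ[A] N) : EX A M N 0 := Ext.mk₀ (ModuleCat.ofHom f)

/-- Composition with a linear map in the first variable. -/
noncomputable def pre (f : L →ₗ[A] M) (x : EX A M N q) : EX A L N q :=
  (m0 f).comp x (zero_add q)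

/-- Composition with a linear map in the second variable. -/
noncomputable def post (x : EX A L M q) (g : M →ₗ[A] N) : EX A L N q :=
  x.comp (m0 g) (add_zero q)

theorem m0_surj (x : EX A M N 0) : ∃ f, m0 f = x := by
  obtain ⟨f, rfl⟩ := (Ext.mk₀_bijective _ _).2 x
  exact ⟨f.hom, rfl⟩

theorem m0_inj {f g : M →ₗ[A] N} (h : m0 f = m0 g) : f = g :=
  congrArg ModuleCat.Hom.hom ((Ext.mk₀_bijective _ _).1 h)

theorem m0_add (f g : M →ₗ[A] N) : m0 (f + g) = m0 f + m0 g := Ext.mk₀_add _ _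

theorem m0_zero : m0 (0 : M →ₗ[A] N) = 0 := Ext.mk₀_zero _ _

theorem pre_m0 (f : L →ₗ[A] M) (g : M →ₗ[A] N) : pre f (m0 g) = m0 (g ∘ₗ f) :=
  Ext.mk₀_comp_mk₀ _ _

theorem post_m0 (f : L →ₗ[A] M) (g : M →ₗ[A] N) : post (m0 f) g = m0 (g ∘ₗ f) :=
  Ext.mk₀_comp_mk₀ _ _

theorem pre_comp (f : P →ₗ[A] L) (x : EX A L M a) (y : EX A M N b) (h : a + b = c) :
    pre f (x.comp y h) = (pre f x).comp y h :=
  (Ext.comp_assoc _ _ _ (zero_add a) h (by omega)).symm

theorem post_comp (x : EX A L M a) (y : EX A M N b) (h : a + b = c) (g : N →ₗ[A] P) :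
    post (x.comp y h) g = x.comp (post y g) h :=
  Ext.comp_assoc _ _ _ h (add_zero b) (by omega)

theorem comp_pre (x : EX A L M a) (f : M →ₗ[A] P) (y : EX A P N b) (h : a + b = c) :
    x.comp (pre f y) h = (post x f).comp y h :=
  (Ext.comp_assoc _ _ _ (add_zero a) (zero_add b) (by omega)).symm

theorem pre_pre (f : P →ₗ[A] L) (g : L →ₗ[A] M) (x : EX A M N q) :
    pre f (pre g x) = pre (g ∘ₗ f) x := Ext.mk₀_comp_mk₀_assoc _ _ _

theorem post_post (x : EX A L M q) (f : M →ₗ[A] N) (g : N →ₗ[A] P) :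
    post (post x f) g = post x (g ∘ₗ f) := by
  rw [post, post, Ext.comp_assoc _ _ _ (add_zero q) (add_zero 0) (by omega)]
  exact congrArg (fun y => x.comp y (add_zero q)) (post_m0 f g)

theorem pre_post (f : P →ₗ[A] L) (x : EX A L M q) (g : M →ₗ[A] N) :
    pre f (post x g) = post (pre f x) g := pre_comp _ _ _ _

theorem pre_id (x : EX A M N q) : pre LinearMap.id x = x := Ext.mk₀_id_comp x

theorem post_id (x : EX A M N q) : post x LinearMap.id = x := Ext.comp_mk₀_id x

theorem pre_add (f : L →ₗ[A] M) (x y : EX A M N q) : pre f (x + y) = pre f x + pre f y :=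
  Ext.comp_add _ _ _ _

theorem add_pre (f g : L →ₗ[A] M) (x : EX A M N q) : pre (f + g) x = pre f x + pre g x := by
  rw [pre, m0_add, Ext.add_comp]; rfl

theorem add_post (x y : EX A L M q) (g : M →ₗ[A] N) : post (x + y) g = post x g + post y g :=
  Ext.add_comp _ _ _ _

theorem post_add (x : EX A L M q) (f g : M →ₗ[A] N) : post x (f + g) = post x f + post x g := by
  rw [post, m0_add, Ext.comp_add]; rfl

theorem pre_zero (f : L →ₗ[A] M) : pre f (0 : EX A M N q) = 0 := Ext.comp_zero _ _ _ _ _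

theorem zero_pre (x : EX A M N q) : pre (0 : L →ₗ[A] M) x = 0 := by
  rw [pre, m0_zero, Ext.zero_comp]

theorem zero_post (g : M →ₗ[A] N) : post (0 : EX A L M q) g = 0 := Ext.zero_comp _ _ _ _ _

theorem post_zero (x : EX A L M q) : post x (0 : M →ₗ[A] N) = 0 := by
  rw [post, m0_zero, Ext.comp_zero]

theorem post_sum {ι : Type} (s : Finset ι) (x : EX A L M q) (f : ι → M →ₗ[A] N) :
    post x (∑ i ∈ s, f i) = ∑ i ∈ s, post x (f i) :=
  map_sum (AddMonoidHom.mk' (fun g : M →ₗ[A] N => post x g) (post_add x)) f s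

theorem ex_proj [Module.Projective A M] (x : EX A M N (q + 1)) : x = 0 := by
  have : Projective (ModuleCat.of A M) := (IsProjective.iff_projective M).1 ‹_›
  exact Ext.eq_zero_of_projective x

theorem ex_inj [Module.Injective A N] (x : EX A M N (q + 1)) : x = 0 := by
  have := Module.injective_object_of_injective_module A N
  exact Ext.eq_zero_of_injective x

theorem ex_pd {n : ℕ} (h : PD A n M) (hq : n ≤ q) (x : EX A M N q) : x = 0 := by
  have : HasProjectiveDimensionLT (ModuleCat.of A M) n := h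
  exact x.eq_zero_of_hasProjectiveDimensionLT n hq

theorem ex_triv [Subsingleton M] (x : EX A M N q) : x = 0 := ex_pd pd_zero (Nat.zero_le q) x

variable {ι : L →ₗ[A] M} {p : M →ₗ[A] P} (h : SES ι p)

/-- The class of a short exact sequence. -/
noncomputable def SES.cls : EX A P L 1 := (shortExact_of h.inj h.surj h.ex).extClass

theorem SES.l1 (x : EX A L N q) (hx : h.cls.comp x (add_comm 1 q) = 0) : ∃ y, pre ι y = x :=
  Ext.contravariant_sequence_exact₁ (shortExact_of h.inj h.surj h.ex) _ x _ hx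

include h in
theorem SES.l2 (x : EX A M N q) (hx : pre ι x = 0) : ∃ y, pre p y = x :=
  Ext.contravariant_sequence_exact₂ (shortExact_of h.inj h.surj h.ex) _ x hx

theorem SES.l3 (x : EX A P N (q + 1)) (hx : pre p x = 0) :
    ∃ y : EX A L N q, h.cls.comp y (add_comm 1 q) = x :=
  Ext.contravariant_sequence_exact₃ (shortExact_of h.inj h.surj h.ex) _ x hx _

theorem SES.r1 (x : EX A N L (q + 1)) (hx : post x ι = 0) :
    ∃ y : EX A N P q, y.comp h.cls rfl = x :=
  Ext.covariant_sequence_exact₁ _ (shortExact_of h.inj h.surj h.ex) x hx _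

theorem SES.r3 (x : EX A N P q) (hx : x.comp h.cls (rfl : q + 1 = q + 1) = 0) :
    ∃ y, post y p = x :=
  Ext.covariant_sequence_exact₃ _ (shortExact_of h.inj h.surj h.ex) x _ hx

theorem SES.post_cls : post h.cls ι = 0 := (shortExact_of h.inj h.surj h.ex).extClass_comp

theorem SES.pre_cls : pre p h.cls = 0 := (shortExact_of h.inj h.surj h.ex).comp_extClass

end Basic

section Lin

variable (C : Type) [CommRing C] {A : Type} [Ring A] [Algebra C A] {L M N : Type}
  [AddCommGroup L] [Module A L] [AddCommGroup M] [Module A M] [AddCommGroup N] [Module A N]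
  {q : ℕ}

/-- Composition in the first variable as a linear map over the base. -/
noncomputable def preL (f : L →ₗ[A] M) (N : Type) [AddCommGroup N] [Module A N] (q : ℕ) :
    EX A M N q →ₗ[C] EX A L N q :=
  (m0 f).precompOfLinear C _ (zero_add q)

theorem preL_apply (f : L →ₗ[A] M) (x : EX A M N q) : preL C f N q x = pre f x := rfl

variable {C}

theorem m0_smul [Module C N] [IsScalarTower C A N] (c : C) (f : M →ₗ[A] N) :
    m0 (c • f) = c • m0 f := by
  rw [m0, m0, ← Ext.mk₀_smul]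
  congr 1
  ext x
  exact (algebraMap_smul A c (f x)).symm

theorem smul_pre [Module C M] [IsScalarTower C A M] (c : C) (f : L →ₗ[A] M) (x : EX A M N q) :
    pre (c • f) x = c • pre f x := by
  rw [pre, m0_smul, Ext.smul_comp]; rfl

theorem post_smul [Module C N] [IsScalarTower C A N] (c : C) (x : EX A L M q) (g : M →ₗ[A] N) :
    post x (c • g) = c • post x g := by
  rw [post, m0_smul, Ext.comp_smul]; rfl

theorem fl_ext_of_ses {P : Type} [AddCommGroup P] [Module A P] {ι : L →ₗ[A] M} {p : M →ₗ[A] P}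
    (h : SES ι p) (h1 : IsFiniteLength C (EX A L N q)) (h2 : IsFiniteLength C (EX A P N q)) :
    IsFiniteLength C (EX A M N q) :=
  fl_of_ex (preL C p N q) (preL C ι N q) h.l2 h2 h1

theorem fl_ext_of_equiv (e : L ≃ₗ[A] M) (h1 : IsFiniteLength C (EX A L N q)) :
    IsFiniteLength C (EX A M N q) := by
  refine h1.of_surjective (f := preL C e.symm.toLinearMap N q) fun x => ⟨pre e.toLinearMap x, ?_⟩
  rw [preL_apply, pre_pre, LinearEquiv.comp_symm, pre_id]

end Lin

section Proj

variable (A : Type) [Ring A] (M : Type) [AddCommGroup M] [Module A M]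

/-- A minimal free resolution, given by its syzygies. -/
structure Tower where
  Ω : ℕ → Type
  [i1 : ∀ q, AddCommGroup (Ω q)]
  [i2 : ∀ q, Module A (Ω q)]
  g : ℕ → ℕ
  ι : ∀ q, Ω (q + 1) →ₗ[A] (Fin (g q) → A)
  p : ∀ q, (Fin (g q) → A) →ₗ[A] Ω q
  ses : ∀ q, SES (ι q) (p q)
  e : M ≃ₗ[A] Ω 0
  min : ∀ q x j, ¬ IsUnit (ι q x j)

attribute [instance] Tower.i1 Tower.i2

/-- Finitely generated modules. -/
structure FGM where
  X : Type
  [i1 : AddCommGroup X]
  [i2 : Module A X]
  [i3 : Module.Finite A X]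

attribute [instance] FGM.i1 FGM.i2 FGM.i3

section

variable {A} [IsLocalRing A] [IsNoetherianRing A]

/-- A chosen minimal cover. -/
noncomputable def FGM.cov (X : FGM A) : Cover A X.X := (nonempty_cover A X.X).some

/-- The syzygy. -/
noncomputable def FGM.syz (X : FGM A) : FGM A := ⟨LinearMap.ker X.cov.p⟩

/-- The inclusion of the syzygy. -/
noncomputable def FGM.sub (X : FGM A) : X.syz.X →ₗ[A] (Fin X.cov.g → A) :=
  (LinearMap.ker X.cov.p).subtype

/-- Iterated syzygies. -/
noncomputable def FGM.it (X : FGM A) : ℕ → FGM A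
  | 0 => X
  | q + 1 => (FGM.it X q).syz

end

theorem nonempty_tower [IsLocalRing A] [IsNoetherianRing A] [Module.Finite A M] :
    Nonempty (Tower A M) :=
  ⟨{ Ω := fun q => (FGM.it ⟨M⟩ q : FGM A).X
     g := fun q => (FGM.it ⟨M⟩ q : FGM A).cov.g
     ι := fun q => (FGM.it ⟨M⟩ q : FGM A).sub
     p := fun q => (FGM.it ⟨M⟩ q : FGM A).cov.p
     ses := fun q => SES.ker (FGM.it ⟨M⟩ q : FGM A).cov.surj
     e := LinearEquiv.refl A M
     min := fun q x j => (FGM.it ⟨M⟩ q : FGM A).cov.min x.1 x.2 j }⟩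

variable {A M} (T : Tower A M) {N : Type} [AddCommGroup N] [Module A N]

/-- The class of the truncated resolution. -/
noncomputable def Tower.η : ∀ q, EX A M (T.Ω q) q
  | 0 => m0 T.e.toLinearMap
  | q + 1 => (Tower.η q).comp (T.ses q).cls rfl

theorem Tower.surj (q : ℕ) : ∀ (t s : ℕ) (h : q + t = s) (x : EX A M N s),
    ∃ y : EX A (T.Ω q) N t, (T.η q).comp y h = x := by
  induction q with
  | zero =>
    intro t s h x
    obtain rfl : t = s := by omega
    refine ⟨pre T.e.symm.toLinearMap x, ?_⟩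
    change pre _ _ = _
    rw [pre_pre, LinearEquiv.symm_comp, pre_id]
  | succ q ih =>
    intro t s h x
    obtain ⟨y, rfl⟩ := ih (t + 1) s (by omega) x
    obtain ⟨z, rfl⟩ := (T.ses q).l3 y (ex_proj _)
    exact ⟨z, Ext.comp_assoc _ _ _ rfl _ (by omega)⟩

theorem Tower.surj0 (q : ℕ) (x : EX A M N q) : ∃ f : T.Ω q →ₗ[A] N, post (T.η q) f = x := by
  obtain ⟨y, rfl⟩ := T.surj q 0 q rfl x
  obtain ⟨f, rfl⟩ := m0_surj y
  exact ⟨f, rfl⟩

theorem Tower.inj (q : ℕ) : ∀ (t s : ℕ) (h : q + (t + 1) = s) (y : EX A (T.Ω q) N (t + 1)),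
    (T.η q).comp y h = 0 → y = 0 := by
  induction q with
  | zero =>
    intro t s h y hy
    obtain rfl : t + 1 = s := by omega
    have h1 : pre T.e.toLinearMap y = 0 := hy
    rw [← pre_id y, ← T.e.comp_symm, ← pre_pre, h1, pre_zero]
  | succ q ih =>
    intro t s h y hy
    have h1 := ih (t + 1) s (by omega) ((T.ses q).cls.comp y (add_comm 1 _))
      ((Ext.comp_assoc _ _ _ rfl _ (by omega)).symm.trans hy)
    obtain ⟨z, rfl⟩ := (T.ses q).l1 y h1
    rw [ex_proj z, pre_zero]

theorem Tower.ker (q : ℕ) (f : T.Ω (q + 1) →ₗ[A] N) :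
    post (T.η (q + 1)) f = 0 ↔ ∃ g, f = g ∘ₗ T.ι q := by
  constructor
  · intro hf
    have h1 := T.inj q 0 (q + 1) rfl ((T.ses q).cls.comp (m0 f) (add_comm 1 0))
      ((Ext.comp_assoc _ _ _ rfl _ (by omega)).symm.trans hf)
    obtain ⟨z, hz⟩ := (T.ses q).l1 _ h1
    obtain ⟨g, rfl⟩ := m0_surj z
    rw [pre_m0] at hz
    exact ⟨g, (m0_inj hz).symm⟩
  · rintro ⟨g, rfl⟩
    rw [← post_post, Tower.η, post_comp, (T.ses q).post_cls, Ext.comp_zero, zero_post]

theorem Tower.ker0 (f : T.Ω 0 →ₗ[A] N) (hf : post (T.η 0) f = 0) : f = 0 := by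
  rw [Tower.η, post_m0, ← m0_zero] at hf
  ext x
  obtain ⟨y, rfl⟩ := T.e.surjective x
  exact LinearMap.congr_fun (m0_inj hf) y

theorem Tower.pd (q : ℕ) : ∀ n, PD A (n + q + 1) M → PD A (n + 1) (T.Ω q) := by
  induction q with
  | zero =>
    intro n h
    have : HasProjectiveDimensionLT (ModuleCat.of A M) (n + 1) := h
    exact hasProjectiveDimensionLT_of_iso T.e.toModuleIso _
  | succ q ih =>
    intro n h
    exact pd_ker (T.ses q).inj (T.ses q).surj (T.ses q).ex
      (ih (n + 1) (by rw [show n + 1 + q + 1 = n + (q + 1) + 1 by omega]; exact h))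

end Proj

section Inj

variable (C : Type) [CommRing C] (A : Type) [Ring A] [Algebra C A]

/-- An injective resolution of the ring, starting with a zero term. -/
structure InjR where
  E : ℕ → Type
  [i1 : ∀ j, AddCommGroup (E j)]
  [i2 : ∀ j, Module A (E j)]
  [i3 : ∀ j, Module C (E j)]
  [i4 : ∀ j, IsScalarTower C A (E j)]
  inj : ∀ j, Module.Injective A (E j)
  triv : Subsingleton (E 0)
  d : ∀ j, E j →ₗ[A] E (j + 1)
  dd : ∀ j, d (j + 1) ∘ₗ d j = 0
  ε : ∀ j, EX A (LinearMap.ker (d (j + 1))) A j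
  surj : ∀ (M : Type) [AddCommGroup M] [Module A M] (j : ℕ) (x : EX A M A j),
    ∃ φ, pre φ (ε j) = x
  ker : ∀ (M : Type) [AddCommGroup M] [Module A M] (j : ℕ)
    (φ : M →ₗ[A] LinearMap.ker (d (j + 1))),
    pre φ (ε j) = 0 ↔ ∃ ψ, d j ∘ₗ ψ = (LinearMap.ker (d (j + 1))).subtype ∘ₗ φ

attribute [instance] InjR.i1 InjR.i2 InjR.i3 InjR.i4 InjR.inj InjR.triv

/-- Cosyzygies of the ring. -/
structure CoT where
  I : ℕ → Type
  [i1 : ∀ j, AddCommGroup (I j)]
  [i2 : ∀ j, Module A (I j)]
  E : ℕ → Type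
  [i3 : ∀ j, AddCommGroup (E j)]
  [i4 : ∀ j, Module A (E j)]
  inj : ∀ j, Module.Injective A (E j)
  ι : ∀ j, I j →ₗ[A] E j
  p : ∀ j, E j →ₗ[A] I (j + 1)
  ses : ∀ j, SES (ι j) (p j)
  e : I 0 ≃ₗ[A] A

attribute [instance] CoT.i1 CoT.i2 CoT.i3 CoT.i4 CoT.inj

/-- An injective module containing a given one. -/
noncomputable def und (X : ModuleCat.{0} A) : ModuleCat.{0} A := Injective.under X

/-- The embedding in an injective module. -/
noncomputable def undι (X : ModuleCat.{0} A) : X →ₗ[A] und A X := (Injective.ι X).hom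

/-- Iterated cosyzygies. -/
noncomputable def cosy : ℕ → ModuleCat.{0} A
  | 0 => ModuleCat.of A A
  | q + 1 => ModuleCat.of A (und A (cosy q) ⧸ LinearMap.range (undι A (cosy q)))

theorem ses_und (X : ModuleCat.{0} A) : SES (undι A X) (LinearMap.range (undι A X)).mkQ :=
  ⟨(ModuleCat.mono_iff_injective _).1 (Injective.ι_mono X), Submodule.mkQ_surjective _,
    LinearMap.exact_map_mkQ_range _⟩

theorem nonempty_cot : Nonempty (CoT A) :=
  ⟨{ I := fun q => cosy A q
     E := fun q => und A (cosy A q)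
     inj := fun _ => Module.injective_module_of_injective_object A _
       (inj := Injective.injective_under _)
     ι := fun q => undι A (cosy A q)
     p := fun q => (LinearMap.range (undι A (cosy A q))).mkQ
     ses := fun q => ses_und A (cosy A q)
     e := LinearEquiv.refl A A }⟩

variable {A} (T : CoT A) {M : Type} [AddCommGroup M] [Module A M]

/-- The class of the truncated coresolution. -/
noncomputable def CoT.ε : ∀ q, EX A (T.I q) A q
  | 0 => m0 T.e.toLinearMap
  | q + 1 => (T.ses q).cls.comp (CoT.ε q) (add_comm 1 q)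

theorem CoT.surj (q : ℕ) : ∀ (t s : ℕ) (h : t + q = s) (x : EX A M A s),
    ∃ y : EX A M (T.I q) t, y.comp (T.ε q) h = x := by
  induction q with
  | zero =>
    intro t s h x
    obtain rfl : t = s := by omega
    refine ⟨post x T.e.symm.toLinearMap, ?_⟩
    change post _ _ = _
    rw [post_post, LinearEquiv.comp_symm, post_id]
  | succ q ih =>
    intro t s h x
    obtain ⟨y, rfl⟩ := ih (t + 1) s (by omega) x
    obtain ⟨z, rfl⟩ := (T.ses q).r1 y (ex_inj _)
    exact ⟨z, (Ext.comp_assoc _ _ _ rfl _ (by omega)).symm⟩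

theorem CoT.inj' (q : ℕ) : ∀ (t s : ℕ) (h : (t + 1) + q = s) (y : EX A M (T.I q) (t + 1)),
    y.comp (T.ε q) h = 0 → y = 0 := by
  induction q with
  | zero =>
    intro t s h y hy
    obtain rfl : t + 1 = s := by omega
    have h1 : post y T.e.toLinearMap = 0 := hy
    rw [← post_id y, ← T.e.symm_comp, ← post_post, h1, zero_post]
  | succ q ih =>
    intro t s h y hy
    have h1 := ih (t + 1) s (by omega) (y.comp (T.ses q).cls rfl)
      ((Ext.comp_assoc _ _ _ rfl _ (by omega)).trans hy)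
    obtain ⟨z, rfl⟩ := (T.ses q).r3 y h1
    rw [ex_inj z, zero_post]

theorem CoT.ker (q : ℕ) (f : M →ₗ[A] T.I (q + 1)) :
    pre f (T.ε (q + 1)) = 0 ↔ ∃ g, T.p q ∘ₗ g = f := by
  constructor
  · intro hf
    have h1 := T.inj' q 0 (q + 1) (by omega) ((m0 f).comp (T.ses q).cls rfl)
      ((Ext.comp_assoc _ _ _ rfl _ (by omega)).trans hf)
    obtain ⟨z, hz⟩ := (T.ses q).r3 _ h1
    obtain ⟨g, rfl⟩ := m0_surj z
    rw [post_m0] at hz
    exact ⟨g, m0_inj hz⟩
  · rintro ⟨g, rfl⟩
    rw [← pre_pre, CoT.ε, pre_comp, (T.ses q).pre_cls, Ext.zero_comp, pre_zero]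

/-- The terms of the resolution with a zero term in front. -/
def CoT.F : ℕ → ModuleCat.{0} A
  | 0 => ModuleCat.of A PUnit
  | j + 1 => ModuleCat.of A (T.E j)

/-- The differential. -/
def CoT.d : ∀ j, T.F j →ₗ[A] T.F (j + 1)
  | 0 => 0
  | j + 1 => T.ι (j + 1) ∘ₗ T.p j

/-- The cosyzygy is the module of cycles. -/
noncomputable def CoT.eq (j : ℕ) : T.I j ≃ₗ[A] LinearMap.ker (T.d (j + 1)) :=
  LinearEquiv.ofBijective ((T.ι j).codRestrict _ fun x => by
    change T.ι (j + 1) (T.p j (T.ι j x)) = 0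
    rw [(T.ses j).ex.apply_apply_eq_zero, map_zero])
    ⟨fun a b h => (T.ses j).inj (congrArg Subtype.val h), fun x => by
      obtain ⟨y, hy⟩ := ((T.ses j).ex x.1).1 ((T.ses (j + 1)).inj (x.2.trans (map_zero _).symm))
      exact ⟨y, Subtype.ext hy⟩⟩

variable (A) in
theorem nonempty_injR : Nonempty (InjR C A) := by
  obtain ⟨T⟩ := nonempty_cot A
  let i3 : ∀ j, Module C (T.F j) := fun j => Module.compHom _ (algebraMap C A)
  have i4 : ∀ j, IsScalarTower C A (T.F j) := fun j =>
    ⟨fun c a x => by rw [Algebra.smul_def, mul_smul]; rfl⟩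
  have hv : ∀ j (x : LinearMap.ker (T.d (j + 1))), T.ι j ((T.eq j).symm x) = x.1 := fun j x =>
    congrArg Subtype.val ((T.eq j).apply_symm_apply x)
  refine ⟨⟨fun j => T.F j, ?_, inferInstanceAs (Subsingleton PUnit), T.d, ?_,
    fun j => pre (T.eq j).symm.toLinearMap (T.ε j), ?_, ?_⟩⟩
  · rintro (_ | j)
    · exact ⟨fun X Y _ _ _ _ f _ g => ⟨0, fun x => Subsingleton.elim (α := PUnit) _ _⟩⟩
    · exact T.inj j
  · rintro (_ | j)
    · exact LinearMap.comp_zero _
    · ext x
      change T.ι (j + 2) (T.p (j + 1) (T.ι (j + 1) (T.p j x))) = 0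
      rw [(T.ses (j + 1)).ex.apply_apply_eq_zero, map_zero]
  · intro M _ _ j x
    obtain ⟨y, rfl⟩ := T.surj j 0 j (zero_add j) x
    obtain ⟨f, rfl⟩ := m0_surj y
    refine ⟨(T.eq j).toLinearMap ∘ₗ f, ?_⟩
    rw [pre_pre, ← LinearMap.comp_assoc, LinearEquiv.symm_comp, LinearMap.id_comp]
    rfl
  · intro M _ _ j φ
    rw [pre_pre]
    rcases j with _ | j
    · rw [CoT.ε, pre_m0, ← m0_zero]
      constructor
      · intro h
        refine ⟨0, LinearMap.ext fun x => ?_⟩
        have h1 : T.e ((T.eq 0).symm (φ x)) = 0 := LinearMap.congr_fun (m0_inj h) x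
        rw [map_eq_zero_iff _ T.e.injective, map_eq_zero_iff _ (T.eq 0).symm.injective] at h1
        change (0 : T.F 1) = (φ x).1
        rw [h1]; rfl
      · rintro ⟨ψ, h⟩
        congr 1
        ext x
        have h1 : φ x = 0 := Subtype.ext (LinearMap.congr_fun h x).symm
        simp [h1]
    · rw [T.ker]
      refine exists_congr fun g => ⟨fun h => LinearMap.ext fun x => ?_, fun h => ?_⟩
      · have h1 : T.p j (g x) = (T.eq (j + 1)).symm (φ x) := LinearMap.congr_fun h x
        change T.ι (j + 1) (T.p j (g x)) = (φ x).1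
        rw [h1, hv]
      · ext x
        refine (T.ses (j + 1)).inj ?_
        exact (LinearMap.congr_fun h x).trans (hv _ _).symm

end Inj

end Pool.Agent.Lib.MP_95d09c_al
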