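import Pool.Agent.Lib.MP_95d09c_al.Local

/-!
Goldie's theorem modulo a prime ideal, and some of its consequences.
-/

set_option autoImplicit false
set_option linter.unusedSectionVars false

namespace Pool.Agent.Lib.MP_95d09c_al

open MulOpposite

variable {Λ : Type} [Ring Λ]

/-- Prime two-sided ideals. -/
def Prm (P : TwoSidedIdeal Λ) : Prop :=
  (1 : Λ) ∉ P ∧ ∀ a b, (∀ r, a * r * b ∈ P) → a ∈ P ∨ b ∈ P

/-- Elements regular modulo `P`. -/
def Reg (P : TwoSidedIdeal Λ) (d : Λ) : Prop :=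
  (∀ x, d * x ∈ P → x ∈ P) ∧ ∀ x, x * d ∈ P → x ∈ P

/-- Left ideals essential modulo `P`. -/
def Ess (P : TwoSidedIdeal Λ) (L : Submodule Λ Λ) : Prop :=
  ∀ x, x ∉ P → ∃ r, r * x ∈ L ∧ r * x ∉ P

/-- A two-sided ideal as a left ideal. -/
def lsub (P : TwoSidedIdeal Λ) : Submodule Λ Λ := P.asIdeal

@[simp] theorem mem_lsub {P : TwoSidedIdeal Λ} {x : Λ} : x ∈ lsub P ↔ x ∈ P := Iff.rfl

/-- A two-sided ideal as a right ideal. -/
def rsub (P : TwoSidedIdeal Λ) : Submodule Λᵐᵒᵖ Λ where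
  carrier := P
  add_mem' := P.add_mem
  zero_mem' := P.zero_mem
  smul_mem' c x hx := P.mul_mem_right x c.unop hx

@[simp] theorem mem_rsub {P : TwoSidedIdeal Λ} {x : Λ} : x ∈ rsub P ↔ x ∈ P := Iff.rfl

/-- The left annihilator of an element modulo `P`. -/
def lann (P : TwoSidedIdeal Λ) (c : Λ) : Submodule Λ Λ :=
  (lsub P).comap (LinearMap.toSpanSingleton Λ Λ c)

@[simp] theorem mem_lann {P : TwoSidedIdeal Λ} {c x : Λ} : x ∈ lann P c ↔ x * c ∈ P := Iff.rfl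

/-- Right multiplication on the quotient by `P`. -/
def rho (P : TwoSidedIdeal Λ) (e : Λ) : (Λ ⧸ lsub P) →ₗ[Λ] (Λ ⧸ lsub P) :=
  (lsub P).mapQ (lsub P) (LinearMap.toSpanSingleton Λ Λ e) fun x hx => P.mul_mem_right x e hx

@[simp] theorem rho_mk (P : TwoSidedIdeal Λ) (e x : Λ) :
    rho P e ((lsub P).mkQ x) = (lsub P).mkQ (x * e) := rfl

theorem mk_eq_zero {P : TwoSidedIdeal Λ} {x : Λ} : (lsub P).mkQ x = 0 ↔ x ∈ P :=
  Submodule.Quotient.mk_eq_zero _

theorem mk_eq_mk {P : TwoSidedIdeal Λ} {x y : Λ} : (lsub P).mkQ x = (lsub P).mkQ y ↔ x - y ∈ P :=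
  Submodule.Quotient.eq _

theorem smul_mk (P : TwoSidedIdeal Λ) (r x : Λ) : r • (lsub P).mkQ x = (lsub P).mkQ (r * x) := rfl

theorem quot_killed (P : TwoSidedIdeal Λ) {p : Λ} (hp : p ∈ P) (q : Λ ⧸ lsub P) : p • q = 0 := by
  obtain ⟨x, rfl⟩ := (lsub P).mkQ_surjective q
  rw [smul_mk, mk_eq_zero]
  exact P.mul_mem_right _ _ hp

variable {P : TwoSidedIdeal Λ}

theorem Reg.one : Reg P 1 := ⟨fun x hx => by simpa using hx, fun x hx => by simpa using hx⟩

theorem Reg.mul {c d : Λ} (hc : Reg P c) (hd : Reg P d) : Reg P (c * d) :=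
  ⟨fun x hx => hd.1 x (hc.1 _ (by rwa [← mul_assoc])),
    fun x hx => hc.2 x (hd.2 _ (by rwa [mul_assoc]))⟩

theorem Reg.pow {c : Λ} (hc : Reg P c) (n : ℕ) : Reg P (c ^ n) := by
  induction n with
  | zero => rw [pow_zero]; exact Reg.one
  | succ n ih => rw [pow_succ]; exact ih.mul hc

theorem Reg.notMem (hP : Prm P) {c : Λ} (hc : Reg P c) : c ∉ P := fun h =>
  hP.1 (hc.1 1 (by simpa using h))

theorem mop {x : Λᵐᵒᵖ} : x ∈ P.op ↔ x.unop ∈ P := TwoSidedIdeal.mem_op_iff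

theorem Reg.op {c : Λ} (hc : Reg P c) : Reg P.op (op c) :=
  ⟨fun x hx => mop.2 (hc.2 x.unop (mop.1 hx)), fun x hx => mop.2 (hc.1 x.unop (mop.1 hx))⟩

theorem Reg.unop {c : Λᵐᵒᵖ} (hc : Reg P.op c) : Reg P c.unop :=
  ⟨fun x hx => mop.1 (hc.2 (MulOpposite.op x) (mop.2 hx)),
    fun x hx => mop.1 (hc.1 (MulOpposite.op x) (mop.2 hx))⟩

theorem Prm.op (hP : Prm P) : Prm P.op :=
  ⟨fun h => hP.1 (mop.1 h), fun a b h => ((hP.2 b.unop a.unop fun r => by
    have := mop.1 (h (MulOpposite.op r))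
    simpa [mul_assoc] using this).symm).imp mop.2 mop.2⟩

theorem rho_inj {e : Λ} (he : Reg P e) : Function.Injective (rho P e) := by
  rw [injective_iff_map_eq_zero]
  intro q hq
  obtain ⟨x, rfl⟩ := (lsub P).mkQ_surjective q
  rw [rho_mk, mk_eq_zero] at hq
  exact mk_eq_zero.2 (he.2 x hq)

theorem reg_smul_eq_zero {e : Λ} (he : Reg P e) {q : Λ ⧸ lsub P} (hq : e • q = 0) : q = 0 := by
  obtain ⟨x, rfl⟩ := (lsub P).mkQ_surjective q
  rw [smul_mk, mk_eq_zero] at hq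
  exact mk_eq_zero.2 (he.1 x hq)

theorem ess_range {M : Type} [AddCommGroup M] [Module Λ M] [IsNoetherian Λ M] (f : M →ₗ[Λ] M)
    (hf : Function.Injective f) {y : M} (hy : y ≠ 0) :
    ∃ r : Λ, r • y ≠ 0 ∧ r • y ∈ LinearMap.range f := by
  by_contra hc
  push Not at hc
  have h1 : Function.Injective (f.coprod (Submodule.span Λ {y}).subtype) := by
    rw [injective_iff_map_eq_zero]
    rintro ⟨m, z, hz⟩ h
    obtain ⟨r, rfl⟩ := Submodule.mem_span_singleton.1 hz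
    have h' : f m + r • y = 0 := h
    have h2 : r • y = 0 := by
      by_contra h2
      exact hc r h2 ⟨-m, by rw [map_neg, neg_eq_iff_add_eq_zero, h']⟩
    rw [h2, add_zero] at h'
    have h3 : m = 0 := (injective_iff_map_eq_zero f).1 hf m h'
    exact Prod.ext h3 (Subtype.ext h2)
  have := IsNoetherian.subsingleton_of_prod_injective _ h1
  exact hy (congrArg Subtype.val
    (Subsingleton.elim (⟨y, Submodule.mem_span_singleton_self y⟩ : Submodule.span Λ {y}) 0))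

variable [IsNoetherianRing Λ]

theorem exists_not_nil_right (hP : Prm P) {a : Λ} (ha : a ∉ P) :
    ∃ r, ∀ k : ℕ, (a * r) ^ (k + 1) ∉ P := by
  classical
  by_contra hc
  push Not at hc
  obtain ⟨_, ⟨r0, hr0, rfl⟩, hmax⟩ :=
    set_has_maximal_iff_noetherian.2 (inferInstance : IsNoetherian Λ Λ)
    {L | ∃ r, a * r ∉ P ∧ L = lann P (a * r)} ⟨_, 1, by simpa using ha, rfl⟩
  refine hr0 ((hP.2 (a * r0) (a * r0) fun r => ?_).elim id id)
  have hex : ∃ k : ℕ, (a * r0 * r) ^ (k + 1) ∈ P := by simpa [mul_assoc] using hc (r0 * r)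
  obtain hk | ⟨k, hk⟩ : Nat.find hex = 0 ∨ ∃ k, Nat.find hex = k + 1 := by
    cases Nat.find hex with
    | zero => exact Or.inl rfl
    | succ k => exact Or.inr ⟨k, rfl⟩
  · have := Nat.find_spec hex
    rw [hk, zero_add, pow_one] at this
    exact P.mul_mem_right _ _ this
  · have h1 := Nat.find_spec hex
    have h2 : (a * r0 * r) ^ (k + 1) ∉ P := Nat.find_min hex (by omega)
    rw [hk] at h1
    have h3 : (a * r0 * r) ^ (k + 1) = a * (r0 * (r * (a * r0 * r) ^ k)) := by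
      rw [pow_succ']; simp only [mul_assoc]
    have h4 : lann P (a * r0) ≤ lann P (a * (r0 * (r * (a * r0 * r) ^ k))) := fun x hx => by
      rw [mem_lann] at hx ⊢
      have := P.mul_mem_right _ (r * (a * r0 * r) ^ k) hx
      simpa only [mul_assoc] using this
    have h5 := (h4.lt_or_eq).resolve_left (hmax _ ⟨_, h3 ▸ h2, rfl⟩)
    have h6 : a * r0 * r ∈ lann P (a * (r0 * (r * (a * r0 * r) ^ k))) := by
      rw [mem_lann, ← h3, ← pow_succ']; exact h1
    rw [← h5] at h6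
    exact h6

theorem exists_idem (hP : Prm P) {E : Submodule Λ Λ} {a : Λ} (haE : a ∈ E) (ha : a ∉ P) :
    ∃ b ∈ E, b ∉ P ∧ ∀ x, x * b * b ∈ P → x * b ∈ P := by
  obtain ⟨r, hr⟩ := exists_not_nil_right hP ha
  have h1 : ∀ k : ℕ, (r * a) ^ (k + 1) ∉ P := fun k h => hr (k + 1) (by
    have : (a * r) ^ (k + 1 + 1) = a * (r * a) ^ (k + 1) * r := by
      rw [← mul_pow_mul, pow_succ (a * r) (k + 1), mul_assoc _ a r]
    rw [this]
    exact P.mul_mem_right _ _ (P.mul_mem_left _ _ h))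
  obtain ⟨n, hn⟩ := monotone_stabilizes_iff_noetherian.2 (inferInstance : IsNoetherian Λ Λ)
    ⟨fun k => lann P ((r * a) ^ (k + 1)), monotone_nat_of_le_succ fun k x hx => by
      rw [mem_lann] at hx ⊢
      rw [pow_succ, ← mul_assoc]
      exact P.mul_mem_right _ _ hx⟩
  refine ⟨(r * a) ^ (n + 1), ?_, h1 n, fun x hx => ?_⟩
  · rw [pow_succ, ← mul_assoc]
    exact E.smul_mem _ haE
  · have h2 : lann P ((r * a) ^ (n + 1)) = lann P ((r * a) ^ (n + 1 + n + 1)) :=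
      hn (n + 1 + n) (by omega)
    rw [← mem_lann, h2, mem_lann, add_assoc (n + 1), pow_add, ← mul_assoc]
    exact hx

theorem exists_lreg (hP : Prm P) {E : Submodule Λ Λ} (hE : Ess P E) :
    ∃ c ∈ E, ∀ x, x * c ∈ P → x ∈ P := by
  obtain ⟨L, ⟨c, hcE, hcL, hPL, hL⟩, hmax⟩ :=
    set_has_maximal_iff_noetherian.2 (inferInstance : IsNoetherian Λ Λ)
    {L | ∃ c ∈ E, c ∈ L ∧ lsub P ≤ L ∧ ∀ x ∈ L, x * c ∈ P → x ∈ P}
    ⟨lsub P, 0, E.zero_mem, P.zero_mem, le_rfl, fun x hx _ => hx⟩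
  refine ⟨c, hcE, fun x0 hx0 => ?_⟩
  by_contra hn
  obtain ⟨r, hr, hrP⟩ := hE x0 hn
  obtain ⟨a, ⟨haE, hac⟩, haP, ha⟩ := exists_idem hP (E := E ⊓ lann P c) (a := r * x0)
    ⟨hr, by
      change r * x0 * c ∈ P
      rw [mul_assoc]; exact P.mul_mem_left _ _ hx0⟩ hrP
  have hac : a * c ∈ P := hac
  refine hmax (L ⊔ Submodule.span Λ {a}) ⟨c + a, E.add_mem hcE haE,
    Submodule.add_mem_sup hcL (Submodule.mem_span_singleton_self a), hPL.trans le_sup_left, ?_⟩
    (lt_of_le_of_ne le_sup_left fun h => haP (hL a ?_ hac))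
  · intro y hy hyc
    obtain ⟨x, hx, z, hz, rfl⟩ := Submodule.mem_sup.1 hy
    obtain ⟨s, rfl⟩ := Submodule.mem_span_singleton.1 hz
    rw [smul_eq_mul] at hyc ⊢
    have h1 : x * c + (x + s * a) * a ∈ P := by
      have := P.sub_mem hyc (P.mul_mem_left s _ hac)
      convert this using 1
      noncomm_ring
    have h2 : x * c * c ∈ P := by
      have := P.sub_mem (P.mul_mem_right _ c h1) (P.mul_mem_left (x + s * a) _ hac)
      convert this using 1
      noncomm_ring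
    have h3 : x ∈ P := hL x hx (hL _ (L.smul_mem x hcL) h2)
    have h4 : s * a * a ∈ P := by
      have := P.sub_mem h1 (P.mul_mem_right x (c + a) h3)
      convert this using 1
      noncomm_ring
    exact P.add_mem h3 (ha s h4)
  · rw [h]
    exact Submodule.mem_sup_right (Submodule.mem_span_singleton_self a)

theorem reg_of_lreg (hP : Prm P) {c : Λ} (hc : ∀ x, x * c ∈ P → x ∈ P) : Reg P c := by
  refine ⟨fun x hx => ?_, hc⟩
  by_contra hn
  obtain ⟨b, hb, hbP, hbb⟩ := exists_idem hP (Submodule.mem_span_singleton_self x) hn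
  obtain ⟨s, rfl⟩ := Submodule.mem_span_singleton.1 hb
  rw [smul_eq_mul] at hbP hbb
  by_cases h1 : s * x * s ∈ P
  · refine hbP ?_
    have := hbb 1 (by
      rw [one_mul, ← mul_assoc]; exact P.mul_mem_right _ _ h1)
    rwa [one_mul] at this
  · have hinj : Function.Injective (rho P c) := by
      rw [injective_iff_map_eq_zero]
      intro q hq
      obtain ⟨y, rfl⟩ := (lsub P).mkQ_surjective q
      rw [rho_mk, mk_eq_zero] at hq
      exact mk_eq_zero.2 (hc y hq)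
    obtain ⟨t, ht, q, hq⟩ := ess_range (rho P c) hinj (mt mk_eq_zero.1 h1)
    obtain ⟨y, rfl⟩ := (lsub P).mkQ_surjective q
    rw [rho_mk, smul_mk, mk_eq_mk] at hq
    rw [smul_mk, Ne, mk_eq_zero] at ht
    apply ht
    have h2 : t * (s * x) * (s * x) ∈ P := by
      have := P.sub_mem (P.mul_mem_left y _ hx) (P.mul_mem_right _ x hq)
      convert this using 1
      noncomm_ring
    have := P.mul_mem_right _ s (hbb t h2)
    simpa only [mul_assoc] using this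

/-- Goldie's lemma. -/
theorem exists_reg (hP : Prm P) {E : Submodule Λ Λ} (hE : Ess P E) : ∃ c ∈ E, Reg P c := by
  obtain ⟨c, hc, h⟩ := exists_lreg hP hE
  exact ⟨c, hc, reg_of_lreg hP h⟩

theorem exists_reg_ideal (hP : Prm P) {J : TwoSidedIdeal Λ} {a : Λ} (haJ : a ∈ J) (ha : a ∉ P) :
    ∃ c ∈ J, Reg P c := by
  refine exists_reg hP (E := lsub J) fun x hx => ?_
  by_contra hc
  push Not at hc
  refine (hP.2 a x fun r => ?_).elim ha hx
  exact hc (a * r) (J.mul_mem_right _ _ (J.mul_mem_right _ _ haJ))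

theorem exists_reg_smul (hP : Prm P) {M : Type} [AddCommGroup M] [Module Λ M] [IsNoetherian Λ M]
    (hM : ∀ p ∈ P, ∀ x : M, p • x = 0) (f : M →ₗ[Λ] M) (hf : Function.Injective f) (y : M) :
    ∃ d, Reg P d ∧ d • y ∈ LinearMap.range f := by
  obtain ⟨d, hd, h⟩ := exists_reg hP
    (E := (LinearMap.range f).comap (LinearMap.toSpanSingleton Λ M y)) fun x hx => by
      by_cases h0 : x • y = 0
      · refine ⟨1, ?_, by simpa using hx⟩
        change (1 * x) • y ∈ LinearMap.range f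
        rw [one_mul, h0]; exact Submodule.zero_mem _
      · obtain ⟨r, hr, hr'⟩ := ess_range f hf h0
        rw [← mul_smul] at hr hr'
        exact ⟨r, hr', fun h => hr (hM _ h y)⟩
  exact ⟨d, h, hd⟩

theorem lore (hP : Prm P) (a : Λ) {d : Λ} (hd : Reg P d) :
    ∃ a' d', Reg P d' ∧ d' * a - a' * d ∈ P := by
  obtain ⟨d', hd', q, hq⟩ := exists_reg_smul hP (fun p hp => quot_killed P hp) (rho P d)
    (rho_inj hd) ((lsub P).mkQ a)
  obtain ⟨a', rfl⟩ := (lsub P).mkQ_surjective q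
  rw [rho_mk, smul_mk, eq_comm, mk_eq_mk] at hq
  exact ⟨a', d', hd', hq⟩

/-- The right Ore condition modulo `P`. -/
def ROre (P : TwoSidedIdeal Λ) : Prop :=
  ∀ a d, Reg P d → ∃ a' d', Reg P d' ∧ a * d' - d * a' ∈ P

theorem rore [IsNoetherianRing Λᵐᵒᵖ] (hP : Prm P) : ROre P := by
  intro a d hd
  obtain ⟨a', d', hd', h⟩ := lore hP.op (op a) hd.op
  exact ⟨a'.unop, d'.unop, hd'.unop, mop.1 h⟩

theorem rore_op (hP : Prm P) : ROre P.op := by
  intro a d hd
  obtain ⟨a', d', hd', h⟩ := lore hP a.unop hd.unop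
  exact ⟨op a', op d', hd'.op, mop.2 h⟩

/-- One regular element kills all the torsion. -/
theorem exists_common (hP : Prm P) {S W : Type} [Ring S] [AddCommGroup W] [Module S W]
    [IsNoetherian S W] (U U0 : Submodule S W) (α : Λ → W →ₗ[S] W)
    (h0 : ∀ a, ∀ w ∈ U0, α a w ∈ U0) (hU : ∀ a, ∀ w ∈ U, α a w ∈ U)
    (hmul : ∀ a b, ∀ w ∈ U, α (a * b) w - α a (α b w) ∈ U0)
    (hcongr : ∀ a b, a - b ∈ P → ∀ w ∈ U, α a w - α b w ∈ U0) :
    ∃ d0, Reg P d0 ∧ ∀ w ∈ U, ∀ d, Reg P d → α d w ∈ U0 → ∀ a, α (d0 * a) w ∈ U0 := by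
  have hl : ∀ a b, ∀ w ∈ U, α b w ∈ U0 → α (a * b) w ∈ U0 := fun a b w hw h => by
    simpa using U0.add_mem (hmul a b w hw) (h0 a _ h)
  obtain ⟨_, ⟨d0, hd0, rfl⟩, hmax⟩ :=
    set_has_maximal_iff_noetherian.2 (inferInstance : IsNoetherian S W)
    {V | ∃ d, Reg P d ∧ V = U ⊓ U0.comap (α d)} ⟨_, 1, Reg.one, rfl⟩
  have key : ∀ w ∈ U, ∀ d, Reg P d → α d w ∈ U0 → α d0 w ∈ U0 := by
    intro w hw d hd h
    obtain ⟨a', d', hd', he⟩ := lore hP d0 hd
    have h1 : U ⊓ U0.comap (α d0) ≤ U ⊓ U0.comap (α (d' * d0)) := fun x hx =>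
      ⟨hx.1, hl _ _ x hx.1 hx.2⟩
    have h2 := (h1.lt_or_eq).resolve_left (hmax _ ⟨_, hd'.mul hd0, rfl⟩)
    have h3 : w ∈ U ⊓ U0.comap (α (d' * d0)) := ⟨hw, by
      simpa using U0.add_mem (hcongr _ _ he w hw) (hl a' d w hw h)⟩
    rw [← h2] at h3
    exact h3.2
  refine ⟨d0, hd0, fun w hw d hd h a => ?_⟩
  obtain ⟨a', d', hd', he⟩ := lore hP a hd
  have h1 : α (d' * a) w ∈ U0 := by
    simpa using U0.add_mem (hcongr _ _ he w hw) (hl a' d w hw h)
  have h2 : α d' (α a w) ∈ U0 := by simpa using U0.sub_mem h1 (hmul d' a w hw)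
  simpa using U0.add_mem (hmul d0 a w hw) (key _ (hU a w hw) d' hd' h2)

end Pool.Agent.Lib.MP_95d09c_al
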