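import Pool.Agent.Lib.MP_95d09c_al.PD

/-!
Length modulo a Serre class of modules, and additive functions on finitely generated modules.
-/

set_option autoImplicit false
set_option linter.unusedSectionVars false

namespace Pool.Agent.Lib.MP_95d09c_al

variable {Λ : Type} [Ring Λ]

/-- Membership of a module in a class of modules. -/
def In (S : Set (ModuleCat.{0} Λ)) (M : Type) [AddCommGroup M] [Module Λ M] : Prop :=
  ModuleCat.of Λ M ∈ S

/-- The kernel of `g` lies in the range of `f`. -/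
def Ex {A B C : Type} [AddCommGroup A] [Module Λ A] [AddCommGroup B] [Module Λ B]
    [AddCommGroup C] [Module Λ C] (f : A →ₗ[Λ] B) (g : B →ₗ[Λ] C) : Prop :=
  ∀ b, g b = 0 → ∃ a, f a = b

/-- Serre classes. -/
structure IsSerre (S : Set (ModuleCat.{0} Λ)) : Prop where
  zero : ∀ (A : Type) [AddCommGroup A] [Module Λ A], Subsingleton A → In S A
  mid : ∀ (A B C : Type) [AddCommGroup A] [Module Λ A] [AddCommGroup B] [Module Λ B]
    [AddCommGroup C] [Module Λ C] (f : A →ₗ[Λ] B) (g : B →ₗ[Λ] C), Ex f g → In S A → In S C →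
    In S B

/-- Simple or zero modulo the class. -/
def Simp (S : Set (ModuleCat.{0} Λ)) (Q : Type) [AddCommGroup Q] [Module Λ Q] : Prop :=
  ∀ V : Submodule Λ Q, In S V ∨ In S (Q ⧸ V)

/-- Length at most `l` modulo the class. -/
def Len (S : Set (ModuleCat.{0} Λ)) : ℕ → ∀ (M : Type) [AddCommGroup M] [Module Λ M], Prop
  | 0, M, _, _ => In S M
  | l + 1, M, _, _ => ∃ (A C : ModuleCat.{0} Λ) (f : A →ₗ[Λ] M) (g : M →ₗ[Λ] C),
      Ex f g ∧ Len S l A ∧ Simp S C

variable {S : Set (ModuleCat.{0} Λ)}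

section

variable {X Y Z : Type} [AddCommGroup X] [Module Λ X] [AddCommGroup Y] [Module Λ Y]
  [AddCommGroup Z] [Module Λ Z]

theorem ex_subtype_mkQ (U : Submodule Λ X) : Ex U.subtype U.mkQ := fun b hb =>
  ⟨⟨b, by simpa using hb⟩, rfl⟩

theorem IsSerre.sq (hS : IsSerre S) (h : X →ₗ[Λ] Y) (k : X →ₗ[Λ] Z)
    (hk : Function.Surjective k) (hker : ∀ x, h x = 0 → k x = 0) (hY : In S Y) : In S Z := by
  have h1 : In S (X ⧸ LinearMap.ker h) := by
    refine hS.mid PUnit _ Y 0 ((LinearMap.ker h).liftQ h le_rfl) ?_ (hS.zero _ inferInstance) hY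
    intro b hb
    obtain ⟨b, rfl⟩ := Submodule.mkQ_surjective _ b
    refine ⟨0, ?_⟩
    rw [LinearMap.zero_apply, eq_comm, Submodule.mkQ_apply, Submodule.Quotient.mk_eq_zero]
    exact hb
  refine hS.mid _ Z PUnit ((LinearMap.ker h).liftQ k fun x hx => hker x hx) 0 ?_ h1
    (hS.zero _ inferInstance)
  intro b _
  obtain ⟨x, rfl⟩ := hk b
  exact ⟨Submodule.Quotient.mk x, rfl⟩

theorem IsSerre.simp_sq (hS : IsSerre S) (h : X →ₗ[Λ] Y) (k : X →ₗ[Λ] Z)
    (hk : Function.Surjective k) (hker : ∀ x, h x = 0 → k x = 0) (hY : Simp S Y) : Simp S Z := by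
  intro V
  rcases hY ((V.comap k).map h) with h1 | h1
  · left
    refine hS.sq (X := V.comap k)
      (h.restrict (p := V.comap k) (q := (V.comap k).map h) fun x hx => ⟨x, hx, rfl⟩)
      (k.restrict fun x hx => hx) ?_ ?_ h1
    · rintro ⟨z, hz⟩
      obtain ⟨x, rfl⟩ := hk z
      exact ⟨⟨x, hz⟩, rfl⟩
    · intro x hx
      exact Subtype.ext (hker x (congrArg Subtype.val hx))
  · right
    refine hS.sq (Submodule.mkQ _ ∘ₗ h) (V.mkQ ∘ₗ k) (V.mkQ_surjective.comp hk) ?_ h1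
    intro x hx
    simp only [LinearMap.comp_apply, Submodule.mkQ_apply, Submodule.Quotient.mk_eq_zero] at hx ⊢
    obtain ⟨x', hx', he⟩ := hx
    have : k (x - x') = 0 := hker _ (by rw [map_sub, he, sub_self])
    rw [map_sub, sub_eq_zero] at this
    rw [this]; exact hx'

theorem IsSerre.simp_ext (hS : IsSerre S) (f : X →ₗ[Λ] Y) (g : Y →ₗ[Λ] Z) (he : Ex f g)
    (hX : Simp S X) (hZ : In S Z) : Simp S Y := by
  intro V
  rcases hX (V.comap f) with h1 | h1
  · left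
    refine hS.mid (V.comap f) V Z (f.restrict fun x hx => hx) (g ∘ₗ V.subtype) ?_ h1 hZ
    rintro ⟨b, hb⟩ h0
    obtain ⟨a, rfl⟩ := he b h0
    exact ⟨⟨a, hb⟩, rfl⟩
  · right
    have h2 : In S (Z ⧸ V.map g) :=
      hS.sq LinearMap.id (V.map g).mkQ (Submodule.mkQ_surjective _) (by simp +contextual) hZ
    refine hS.mid _ _ _ ((V.comap f).mapQ V f le_rfl)
      (V.mapQ (V.map g) g fun x hx => ⟨x, hx, rfl⟩) ?_ h1 h2
    intro b hb
    obtain ⟨b, rfl⟩ := V.mkQ_surjective b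
    simp only [Submodule.mkQ_apply, Submodule.mapQ_apply, Submodule.Quotient.mk_eq_zero] at hb
    obtain ⟨v, hv, hvb⟩ := hb
    obtain ⟨a, ha⟩ := he (b - v) (by rw [map_sub, hvb, sub_self])
    refine ⟨Submodule.Quotient.mk a, ?_⟩
    simp only [Submodule.mkQ_apply, Submodule.mapQ_apply, ha]
    rw [Submodule.Quotient.eq]
    simpa using hv

end

theorem IsSerre.len_sq (hS : IsSerre S) (l : ℕ) : ∀ {X Y Z : Type} [AddCommGroup X] [Module Λ X]
    [AddCommGroup Y] [Module Λ Y] [AddCommGroup Z] [Module Λ Z] (h : X →ₗ[Λ] Y) (k : X →ₗ[Λ] Z),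
    Function.Surjective k → (∀ x, h x = 0 → k x = 0) → Len S l Y → Len S l Z := by
  induction l with
  | zero => intro X Y Z _ _ _ _ _ _ h k hk hker hY; exact hS.sq h k hk hker hY
  | succ l ih =>
    intro X Y Z _ _ _ _ _ _ h k hk hker hY
    obtain ⟨A, C, f, g, he, hA, hC⟩ := hY
    let P : Submodule Λ (X × A) := LinearMap.ker (h ∘ₗ LinearMap.fst Λ X A - f ∘ₗ LinearMap.snd Λ X A)
    let q : P →ₗ[Λ] Z := k ∘ₗ LinearMap.fst Λ X A ∘ₗ P.subtype
    refine ⟨ModuleCat.of Λ (LinearMap.range q), ModuleCat.of Λ (Z ⧸ LinearMap.range q),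
      (LinearMap.range q).subtype, (LinearMap.range q).mkQ, ex_subtype_mkQ _, ?_, ?_⟩
    · refine ih (LinearMap.snd Λ X A ∘ₗ P.subtype) q.rangeRestrict
        (LinearMap.surjective_rangeRestrict _) ?_ hA
      rintro ⟨⟨x, a⟩, hxa⟩ h0
      have ha : a = 0 := h0
      have hx : h x = 0 := by
        have : h x - f a = 0 := hxa
        rwa [ha, map_zero, sub_zero] at this
      exact Subtype.ext (hker x hx)
    · refine hS.simp_sq (g ∘ₗ h) ((LinearMap.range q).mkQ ∘ₗ k)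
        ((Submodule.mkQ_surjective _).comp hk) ?_ hC
      intro x hx
      obtain ⟨a, ha⟩ := he (h x) hx
      simp only [LinearMap.comp_apply, Submodule.mkQ_apply, Submodule.Quotient.mk_eq_zero]
      exact ⟨⟨(x, a), show h x - f a = 0 by rw [ha, sub_self]⟩, rfl⟩

theorem IsSerre.len_ext (hS : IsSerre S) (a : ℕ) : ∀ {A B C : Type} [AddCommGroup A] [Module Λ A]
    [AddCommGroup B] [Module Λ B] [AddCommGroup C] [Module Λ C] (f : A →ₗ[Λ] B) (g : B →ₗ[Λ] C),
    Ex f g → Len S a A → In S C → Len S a B := by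
  cases a with
  | zero => intro A B C _ _ _ _ _ _ f g he hA hC; exact hS.mid A B C f g he hA hC
  | succ a =>
    intro A B C _ _ _ _ _ _ f g he hA hC
    obtain ⟨A0, C0, f0, g0, he0, hA0, hC0⟩ := hA
    let U := LinearMap.range (f ∘ₗ f0)
    refine ⟨A0, ModuleCat.of Λ (B ⧸ U), f ∘ₗ f0, U.mkQ, fun b hb => by simpa [U] using hb,
      hA0, ?_⟩
    let W := LinearMap.range (U.mkQ ∘ₗ f)
    refine hS.simp_ext W.subtype W.mkQ (ex_subtype_mkQ _) ?_ ?_
    · refine hS.simp_sq g0 (U.mkQ ∘ₗ f).rangeRestrict (LinearMap.surjective_rangeRestrict _) ?_ hC0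
      intro x hx
      obtain ⟨y, rfl⟩ := he0 x hx
      apply Subtype.ext
      change U.mkQ (f (f0 y)) = 0
      rw [Submodule.mkQ_apply, Submodule.Quotient.mk_eq_zero]
      exact ⟨y, rfl⟩
    · refine hS.sq g (W.mkQ ∘ₗ U.mkQ)
        ((Submodule.mkQ_surjective _).comp (Submodule.mkQ_surjective _)) ?_ hC
      intro x hx
      obtain ⟨y, rfl⟩ := he x hx
      rw [LinearMap.comp_apply, Submodule.mkQ_apply W, Submodule.Quotient.mk_eq_zero]
      exact ⟨y, rfl⟩

theorem IsSerre.len_add (hS : IsSerre S) (a c : ℕ) : ∀ {A B C : Type} [AddCommGroup A]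
    [Module Λ A] [AddCommGroup B] [Module Λ B] [AddCommGroup C] [Module Λ C] (f : A →ₗ[Λ] B)
    (g : B →ₗ[Λ] C), Ex f g → Len S a A → Len S c C → Len S (a + c) B := by
  induction c with
  | zero => intro A B C _ _ _ _ _ _ f g he hA hC; exact hS.len_ext a f g he hA hC
  | succ c ih =>
    intro A B C _ _ _ _ _ _ f g he hA hC
    obtain ⟨C0, D, f0, g0, he0, hC0, hD⟩ := hC
    let B' := LinearMap.ker (g0 ∘ₗ g)
    refine ⟨ModuleCat.of Λ B', D, B'.subtype, g0 ∘ₗ g, fun b hb => ⟨⟨b, hb⟩, rfl⟩, ?_, hD⟩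
    refine ih (A := B'.comap f) (C := LinearMap.range f0) (f.restrict fun x hx => hx)
      (g.restrict fun x hx => he0 (g x) hx) ?_ ?_ ?_
    · rintro ⟨b, hb⟩ h0
      obtain ⟨x, rfl⟩ := he b (congrArg Subtype.val h0)
      exact ⟨⟨x, hb⟩, rfl⟩
    · exact hS.len_sq a (B'.comap f).subtype LinearMap.id Function.surjective_id
        (fun x hx => Subtype.ext hx) hA
    · exact hS.len_sq c LinearMap.id f0.rangeRestrict (LinearMap.surjective_rangeRestrict _)
        (fun x hx => by rw [show x = 0 from hx, map_zero]) hC0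

theorem IsSerre.len_split (hS : IsSerre S) (l : ℕ) : ∀ {B : Type} [AddCommGroup B] [Module Λ B]
    (U : Submodule Λ B), Len S l B → ∃ a c, a + c ≤ l ∧ Len S a U ∧ Len S c (B ⧸ U) := by
  induction l with
  | zero =>
    intro B _ _ U hB
    exact ⟨0, 0, le_rfl, hS.sq U.subtype LinearMap.id Function.surjective_id
      (fun x hx => Subtype.ext hx) hB, hS.sq LinearMap.id U.mkQ U.mkQ_surjective
      (fun x hx => by rw [show x = 0 from hx, map_zero]) hB⟩
  | succ l ih =>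
    intro B _ _ U hB
    obtain ⟨A0, C0, f, g, he, hA0, hC0⟩ := hB
    obtain ⟨a, c, hac, ha, hc⟩ := ih (U.comap f) hA0
    let V := U.map g
    let C1 := LinearMap.range (U.mkQ ∘ₗ f)
    have hc1 : Len S c C1 := by
      refine hS.len_sq c (U.comap f).mkQ (U.mkQ ∘ₗ f).rangeRestrict
        (LinearMap.surjective_rangeRestrict _) ?_ hc
      intro x hx
      apply Subtype.ext
      change U.mkQ (f x) = 0
      simpa using hx
    have e1 : Ex (f.restrict (p := U.comap f) (q := U) fun x hx => hx)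
        (g.restrict (p := U) (q := V) fun x hx => ⟨x, hx, rfl⟩) := by
      rintro ⟨b, hb⟩ h0
      obtain ⟨x, rfl⟩ := he b (congrArg Subtype.val h0)
      exact ⟨⟨x, hb⟩, rfl⟩
    have hsurj : Function.Surjective (C1.mkQ ∘ₗ U.mkQ) :=
      (Submodule.mkQ_surjective _).comp (Submodule.mkQ_surjective _)
    rcases hC0 V with h1 | h1
    · refine ⟨a, c + 1, by omega, hS.len_ext a _ _ e1 ha h1, ModuleCat.of Λ C1,
        ModuleCat.of Λ ((B ⧸ U) ⧸ C1), C1.subtype, C1.mkQ, ex_subtype_mkQ _, hc1, ?_⟩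
      refine hS.simp_sq g (C1.mkQ ∘ₗ U.mkQ) hsurj ?_ hC0
      intro x hx
      obtain ⟨y, rfl⟩ := he x hx
      rw [LinearMap.comp_apply, Submodule.mkQ_apply C1, Submodule.Quotient.mk_eq_zero]
      exact ⟨y, rfl⟩
    · refine ⟨a + 1, c, by omega, ⟨ModuleCat.of Λ (U.comap f), ModuleCat.of Λ V, _, _, e1, ha,
        hS.simp_sq V.subtype LinearMap.id Function.surjective_id (fun x hx => Subtype.ext hx) hC0⟩,
        hS.len_ext c C1.subtype C1.mkQ (ex_subtype_mkQ _) hc1 ?_⟩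
      refine hS.sq (V.mkQ ∘ₗ g) (C1.mkQ ∘ₗ U.mkQ) hsurj ?_ h1
      intro x hx
      rw [LinearMap.comp_apply, Submodule.mkQ_apply, Submodule.Quotient.mk_eq_zero] at hx
      obtain ⟨u, hu, hux⟩ := hx
      obtain ⟨y, hy⟩ := he (x - u) (by rw [map_sub, hux, sub_self])
      rw [LinearMap.comp_apply, Submodule.mkQ_apply C1, Submodule.Quotient.mk_eq_zero]
      refine ⟨y, ?_⟩
      rw [LinearMap.comp_apply, hy, Submodule.mkQ_apply, Submodule.mkQ_apply,
        Submodule.Quotient.eq]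
      simpa using hu

theorem exists_max_serre {S0 : Set (ModuleCat.{0} Λ)} (h0 : IsSerre S0) (hn : ¬ In S0 Λ) :
    ∃ S : Set (ModuleCat.{0} Λ), S0 ⊆ S ∧ IsSerre S ∧ ¬ In S Λ ∧
      ∀ S', IsSerre S' → S ⊆ S' → ¬ In S' Λ → S' ⊆ S := by
  obtain ⟨S, hS0, hS⟩ := zorn_subset_nonempty {S : Set (ModuleCat.{0} Λ) | IsSerre S ∧ ¬ In S Λ}
    (fun c hc hchain hne => by
      refine ⟨⋃₀ c, ⟨⟨fun A _ _ hA => ?_, fun A B C _ _ _ _ _ _ f g he hA hC => ?_⟩, ?_⟩,
        fun s hs => Set.subset_sUnion_of_mem hs⟩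
      · obtain ⟨s, hs⟩ := hne
        exact ⟨s, hs, (hc hs).1.zero A hA⟩
      · obtain ⟨s, hs, hA⟩ := hA
        obtain ⟨t, ht, hC⟩ := hC
        rcases hchain.total hs ht with h | h
        · exact ⟨t, ht, (hc ht).1.mid A B C f g he (h hA) hC⟩
        · exact ⟨s, hs, (hc hs).1.mid A B C f g he hA (h hC)⟩
      · rintro ⟨s, hs, h⟩
        exact (hc hs).2 h) S0 ⟨h0, hn⟩
  exact ⟨S, hS0, hS.prop.1, hS.prop.2, fun S' h1 h2 h3 => hS.2 ⟨h1, h3⟩ h2⟩

theorem len_of_max [IsNoetherianRing Λ] (hS : IsSerre S) (hn : ¬ In S Λ)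
    (hmax : ∀ S', IsSerre S' → S ⊆ S' → ¬ In S' Λ → S' ⊆ S) : ∃ l, Len S l Λ := by
  let S' : Set (ModuleCat.{0} Λ) := {X | ∃ l, Len S l X}
  have h1 : IsSerre S' := ⟨fun A _ _ hA => ⟨0, hS.zero A hA⟩,
    fun A B C _ _ _ _ _ _ f g he ⟨a, ha⟩ ⟨c, hc⟩ => ⟨a + c, hS.len_add a c f g he ha hc⟩⟩
  by_contra hcon
  have h2 : S' ⊆ S := hmax S' h1 (fun X hX => ⟨0, hX⟩) hcon
  obtain ⟨U, hU, hUmax⟩ := set_has_maximal_iff_noetherian.2 (inferInstance : IsNoetherian Λ Λ)
    {U : Submodule Λ Λ | ¬ In S (Λ ⧸ U)} ⟨⊥, fun h => hn (hS.sq (⊥ : Submodule Λ Λ).mkQ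
      LinearMap.id Function.surjective_id
      (fun x hx => (Submodule.Quotient.mk_eq_zero (⊥ : Submodule Λ Λ)).1 hx) h)⟩
  apply hU
  refine h2 ⟨1, ModuleCat.of Λ PUnit, ModuleCat.of Λ (Λ ⧸ U), 0, LinearMap.id,
    fun b hb => ⟨0, hb.symm⟩, hS.zero _ inferInstance, fun V => ?_⟩
  by_cases hV : V = ⊥
  · left
    exact hS.zero _ (by rw [hV]; infer_instance)
  · right
    have hlt : U < V.comap U.mkQ := by
      refine lt_of_le_of_ne (fun x hx => ?_) fun h => hV ?_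
      · have : U.mkQ x = 0 := by simpa using hx
        rw [Submodule.mem_comap, this]; exact V.zero_mem
      · rw [eq_bot_iff]
        intro y hy
        obtain ⟨y, rfl⟩ := U.mkQ_surjective y
        have : y ∈ V.comap U.mkQ := hy
        rw [← h] at this
        simpa using this
    have h3 : In S (Λ ⧸ V.comap U.mkQ) := by
      by_contra h
      exact hUmax _ h hlt
    refine hS.sq (V.comap U.mkQ).mkQ (V.mkQ ∘ₗ U.mkQ)
      ((Submodule.mkQ_surjective _).comp (Submodule.mkQ_surjective _)) ?_ h3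
    intro x hx
    simpa using hx

theorem IsSerre.len_fin (hS : IsSerre S) {l : ℕ} (hl : Len S l Λ) (M : Type) [AddCommGroup M]
    [Module Λ M] [Module.Finite Λ M] : ∃ l, Len S l M := by
  obtain ⟨n, f, hf⟩ := Module.Finite.exists_fin' Λ M
  have : ∀ n : ℕ, ∃ l, Len S l (Fin n → Λ) := by
    intro n
    induction n with
    | zero => exact ⟨0, hS.zero _ inferInstance⟩
    | succ n ih =>
      obtain ⟨a, ha⟩ := ih
      refine ⟨l + a, hS.len_add l a (LinearMap.single Λ (fun _ => Λ) 0)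
        (LinearMap.funLeft Λ Λ Fin.succ) ?_ hl ha⟩
      intro b hb
      refine ⟨b 0, ?_⟩
      ext i
      refine Fin.cases (by simp) (fun i => ?_) i
      have := congrFun hb i
      simp only [LinearMap.funLeft_apply, Pi.zero_apply] at this
      simp [this]
  obtain ⟨a, ha⟩ := this n
  exact ⟨a, hS.len_sq a LinearMap.id f hf (fun x hx => by rw [show x = 0 from hx, map_zero]) ha⟩

variable (Λ) in
/-- An additive function on finitely generated modules. -/
structure Addf where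
  lam : ∀ (M : Type) [AddCommGroup M] [Module Λ M], ℕ
  sq : ∀ {X Y Z : Type} [AddCommGroup X] [Module Λ X] [AddCommGroup Y] [Module Λ Y]
    [AddCommGroup Z] [Module Λ Z] [Module.Finite Λ Y] (h : X →ₗ[Λ] Y) (k : X →ₗ[Λ] Z),
    Function.Surjective k → (∀ x, h x = 0 → k x = 0) → lam Z ≤ lam Y
  add : ∀ {B : Type} [AddCommGroup B] [Module Λ B] [Module.Finite Λ B] (U : Submodule Λ B),
    lam B = lam U + lam (B ⧸ U)

theorem exists_addf [IsNoetherianRing Λ] {S0 : Set (ModuleCat.{0} Λ)} (h0 : IsSerre S0)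
    (hn : ¬ In S0 Λ) : ∃ F : Addf Λ, 0 < F.lam Λ ∧
      ∀ (M : Type) [AddCommGroup M] [Module Λ M], In S0 M → F.lam M = 0 := by
  obtain ⟨S, hS0, hS, hn', hmax⟩ := exists_max_serre h0 hn
  obtain ⟨l, hl⟩ := len_of_max hS hn' hmax
  have hmem : ∀ (M : Type) [AddCommGroup M] [Module Λ M] [Module.Finite Λ M],
      Len S (sInf {l | Len S l M}) M := fun M _ _ _ =>
    Nat.sInf_mem (s := {l | Len S l M}) (hS.len_fin hl M)
  refine ⟨⟨fun M _ _ => sInf {l | Len S l M}, ?_, ?_⟩, ?_, ?_⟩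
  · intro X Y Z _ _ _ _ _ _ _ h k hk hker
    exact Nat.sInf_le (hS.len_sq _ h k hk hker (hmem Y))
  · intro B _ _ _ U
    apply le_antisymm
    · exact Nat.sInf_le (hS.len_add _ _ U.subtype U.mkQ (ex_subtype_mkQ U) (hmem U) (hmem _))
    · obtain ⟨a, c, hac, ha, hc⟩ := hS.len_split _ U (hmem B)
      exact (add_le_add (Nat.sInf_le ha) (Nat.sInf_le hc)).trans hac
  · rw [Nat.pos_iff_ne_zero]
    intro h
    have := hmem Λ
    change sInf {l | Len S l Λ} = 0 at h
    rw [h] at this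
    exact hn' this
  · intro M _ _ hM
    exact Nat.le_zero.1 (Nat.sInf_le (show Len S 0 M from hS0 hM))

end Pool.Agent.Lib.MP_95d09c_al
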