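import Mathlib

/-!
Basic facts on noncommutative local rings: the maximal ideal, words in nonunits, Nakayama's lemma,
modules killed by words, and minimal covers by free modules of finite rank.
-/

set_option autoImplicit false
set_option linter.unusedSectionVars false

namespace Pool.Agent.Lib.MP_95d09c_al

open MulOpposite

section Local

variable {Λ : Type} [Ring Λ] [IsLocalRing Λ]

theorem isUnit_or_one_sub (a : Λ) : IsUnit a ∨ IsUnit (1 - a) :=
  IsLocalRing.isUnit_or_isUnit_of_add_one (by abel)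

theorem mul_eq_one_swap {a b : Λ} (h : a * b = 1) : b * a = 1 := by
  have he : (b * a) * (b * a) = b * a := by
    calc (b * a) * (b * a) = b * (a * b) * a := by simp only [mul_assoc]
      _ = b * a := by rw [h, mul_one]
  rcases isUnit_or_one_sub (b * a) with hu | hu
  · have : (b * a) * (b * a) = (b * a) * 1 := by rw [he, mul_one]
    exact hu.mul_left_cancel this
  · have h0 : (1 - b * a) * (b * a) = (1 - b * a) * 0 := by rw [sub_mul, one_mul, he]; simp
    have h1 : b * a = 0 := hu.mul_left_cancel h0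
    have h2 : (1 : Λ) = 0 := by
      calc (1 : Λ) = (a * b) * (a * b) := by rw [h, mul_one]
        _ = a * (b * a) * b := by simp only [mul_assoc]
        _ = 0 := by rw [h1]; simp
    exact absurd h2 one_ne_zero

theorem nu_mul_left (r : Λ) {x : Λ} (hx : ¬ IsUnit x) : ¬ IsUnit (r * x) := by
  intro h
  obtain ⟨s, hs⟩ := h.exists_left_inv
  have h1 : (s * r) * x = 1 := by rw [mul_assoc, hs]
  exact hx ⟨⟨x, s * r, mul_eq_one_swap h1, h1⟩, rfl⟩

theorem nu_mul_right {x : Λ} (hx : ¬ IsUnit x) (r : Λ) : ¬ IsUnit (x * r) := by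
  intro h
  obtain ⟨s, hs⟩ := h.exists_right_inv
  have h1 : x * (r * s) = 1 := by rw [← mul_assoc, hs]
  exact hx ⟨⟨x, r * s, h1, mul_eq_one_swap h1⟩, rfl⟩

theorem nu_add {x y : Λ} (hx : ¬ IsUnit x) (hy : ¬ IsUnit y) : ¬ IsUnit (x + y) := fun h =>
  (IsLocalRing.isUnit_or_isUnit_of_isUnit_add h).elim hx hy

theorem op_local : IsLocalRing Λᵐᵒᵖ :=
  ⟨fun {a b} hab => by
    have h1 : a.unop + b.unop = 1 := by rw [← unop_add, hab, unop_one]
    rcases IsLocalRing.isUnit_or_isUnit_of_add_one h1 with h | h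
    · exact Or.inl (by simpa using h.op)
    · exact Or.inr (by simpa using h.op)⟩

variable (Λ) in
/-- The maximal ideal of a local ring. -/
def mx : TwoSidedIdeal Λ :=
  TwoSidedIdeal.mk' {x | ¬ IsUnit x} not_isUnit_zero (fun hx hy => nu_add hx hy)
    (fun hx h => hx (by simpa using h.neg)) (fun hy => nu_mul_left _ hy)
    (fun hx => nu_mul_right hx _)

theorem mem_mx {x : Λ} : x ∈ mx Λ ↔ ¬ IsUnit x := by simp [mx]

end Local

section Words

variable (Λ : Type) [Ring Λ]

/-- Products of `j` nonunits. -/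
def Wd : ℕ → Set Λ
  | 0 => {1}
  | j + 1 => {x | ∃ μ w, ¬ IsUnit μ ∧ w ∈ Wd j ∧ x = μ * w}

variable {Λ}

theorem Wd_mul_right {j : ℕ} {w μ : Λ} (hw : w ∈ Wd Λ j) (hμ : ¬ IsUnit μ) :
    w * μ ∈ Wd Λ (j + 1) := by
  induction j generalizing w with
  | zero =>
    have : w = 1 := hw
    exact ⟨μ, 1, hμ, rfl, by rw [this]; simp⟩
  | succ j ih =>
    obtain ⟨ν, v, hν, hv, rfl⟩ := hw
    exact ⟨ν, v * μ, hν, ih hv, by rw [mul_assoc]⟩

theorem Wd_succ_right {j : ℕ} {x : Λ} (hx : x ∈ Wd Λ (j + 1)) :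
    ∃ w μ, w ∈ Wd Λ j ∧ ¬ IsUnit μ ∧ x = w * μ := by
  induction j generalizing x with
  | zero =>
    obtain ⟨μ, w, hμ, hw, rfl⟩ := hx
    have : w = 1 := hw
    exact ⟨1, μ, rfl, hμ, by rw [this]; simp⟩
  | succ j ih =>
    obtain ⟨ν, v, hν, hv, rfl⟩ := hx
    obtain ⟨w, μ, hw, hμ, rfl⟩ := ih hv
    exact ⟨ν * w, μ, ⟨ν, w, hν, hw, rfl⟩, hμ, by rw [mul_assoc]⟩

theorem Wd_op {j : ℕ} {w : Λ} (hw : w ∈ Wd Λ j) : op w ∈ Wd Λᵐᵒᵖ j := by
  induction j generalizing w with
  | zero =>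
    have : w = 1 := hw
    rw [this]; rfl
  | succ j ih =>
    obtain ⟨ν, v, hν, hv, rfl⟩ := hw
    rw [op_mul]
    exact Wd_mul_right (ih hv) (by simpa using hν)

theorem Wd_unop {j : ℕ} {w : Λᵐᵒᵖ} (hw : w ∈ Wd Λᵐᵒᵖ j) : unop w ∈ Wd Λ j := by
  induction j generalizing w with
  | zero =>
    have : w = 1 := hw
    rw [this]; rfl
  | succ j ih =>
    obtain ⟨ν, v, hν, hv, rfl⟩ := hw
    rw [unop_mul]
    exact Wd_mul_right (ih hv) (by simpa using hν)

theorem Wd_add {i j : ℕ} {x : Λ} (hx : x ∈ Wd Λ (i + j)) :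
    ∃ v w, v ∈ Wd Λ i ∧ w ∈ Wd Λ j ∧ x = v * w := by
  induction i generalizing x with
  | zero => exact ⟨1, x, rfl, by simpa using hx, by simp⟩
  | succ i ih =>
    rw [show i + 1 + j = (i + j) + 1 by omega] at hx
    obtain ⟨ν, u, hν, hu, rfl⟩ := hx
    obtain ⟨v, w, hv, hw, rfl⟩ := ih hu
    exact ⟨ν * v, w, ⟨ν, v, hν, hv, rfl⟩, hw, by rw [mul_assoc]⟩

theorem pow_mem_Wd {c : Λ} (hc : ¬ IsUnit c) (j : ℕ) : c ^ j ∈ Wd Λ j := by
  induction j with
  | zero => rw [pow_zero]; rfl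
  | succ j ih => exact ⟨c, c ^ j, hc, ih, pow_succ' c j⟩

variable {M : Type} [AddCommGroup M] [Module Λ M]

/-- The submodule spanned by the multiples of elements of `U` by words of length `j`. -/
def msub (j : ℕ) (U : Submodule Λ M) : Submodule Λ M :=
  Submodule.span Λ {y | ∃ w ∈ Wd Λ j, ∃ x ∈ U, y = w • x}

theorem smul_mem_msub {j : ℕ} {U : Submodule Λ M} {w : Λ} {x : M} (hw : w ∈ Wd Λ j)
    (hx : x ∈ U) : w • x ∈ msub j U :=
  Submodule.subset_span ⟨w, hw, x, hx, rfl⟩

theorem msub_le {j : ℕ} {U V : Submodule Λ M} :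
    msub j U ≤ V ↔ ∀ w ∈ Wd Λ j, ∀ x ∈ U, w • x ∈ V := by
  constructor
  · intro h w hw x hx
    exact h (smul_mem_msub hw hx)
  · intro h
    refine Submodule.span_le.2 ?_
    rintro _ ⟨w, hw, x, hx, rfl⟩
    exact h w hw x hx

theorem msub_le_self (j : ℕ) (U : Submodule Λ M) : msub j U ≤ U :=
  msub_le.2 fun w _ _ hx => U.smul_mem w hx

theorem msub_succ_le (j : ℕ) (U : Submodule Λ M) : msub (j + 1) U ≤ msub j U := by
  refine msub_le.2 ?_
  rintro _ ⟨μ, w, -, hw, rfl⟩ x hx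
  rw [mul_smul]
  exact Submodule.smul_mem _ _ (smul_mem_msub hw hx)

theorem msub_anti (U : Submodule Λ M) : Antitone fun j => msub j U :=
  antitone_nat_of_succ_le fun j => msub_succ_le j U

theorem msub_succ_le_one (j : ℕ) (U : Submodule Λ M) : msub (j + 1) U ≤ msub 1 (msub j U) := by
  refine msub_le.2 ?_
  rintro _ ⟨μ, w, hμ, hw, rfl⟩ x hx
  rw [mul_smul]
  exact smul_mem_msub ⟨μ, 1, hμ, rfl, by simp⟩ (smul_mem_msub hw hx)

theorem msub_map_le {N : Type} [AddCommGroup N] [Module Λ N] (f : M →ₗ[Λ] N) (j : ℕ)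
    {U : Submodule Λ M} {V : Submodule Λ N} (h : ∀ x ∈ U, f x ∈ V) {y : M} (hy : y ∈ msub j U) :
    f y ∈ msub j V := by
  have : msub j U ≤ (msub j V).comap f := msub_le.2 fun w hw x hx => by
    rw [Submodule.mem_comap, map_smul]
    exact smul_mem_msub hw (h x hx)
  exact this hy

end Words

section Nak

variable {Λ : Type} [Ring Λ] [IsLocalRing Λ] {M : Type} [AddCommGroup M] [Module Λ M]

theorem mem_jacobson_of_nu {μ : Λ} (hμ : ¬ IsUnit μ) : μ ∈ Ring.jacobson Λ := by
  rw [Ring.jacobson, Module.jacobson, Submodule.mem_sInf]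
  intro I hI
  have hI' : IsCoatom I := hI
  by_contra hn
  have h1 : I ⊔ Submodule.span Λ {μ} = ⊤ := by
    apply hI'.2
    refine lt_of_le_of_ne le_sup_left fun h => hn ?_
    rw [h]
    exact Submodule.mem_sup_right (Submodule.mem_span_singleton_self μ)
  have h2 : (1 : Λ) ∈ I ⊔ Submodule.span Λ {μ} := by rw [h1]; trivial
  obtain ⟨i, hi, z, hz, hs⟩ := Submodule.mem_sup.1 h2
  obtain ⟨r, rfl⟩ := Submodule.mem_span_singleton.1 hz
  have hu : IsUnit i :=
    (IsLocalRing.isUnit_or_isUnit_of_add_one hs).resolve_right (nu_mul_left r hμ)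
  exact hI'.1 (Ideal.eq_top_of_isUnit_mem I hi hu)

/-- Nakayama's lemma. -/
theorem nak {U U0 : Submodule Λ M} (hU : U.FG) (h : U ≤ U0 ⊔ msub 1 U) : U ≤ U0 := by
  have hfg : (U.map U0.mkQ).FG := hU.map _
  have hle : U.map U0.mkQ ≤ Ring.jacobson Λ • U.map U0.mkQ := by
    rintro _ ⟨x, hx, rfl⟩
    obtain ⟨a, ha, b, hb, rfl⟩ := Submodule.mem_sup.1 (h hx)
    have ha0 : U0.mkQ a = 0 := by simpa using ha
    rw [map_add, ha0, zero_add]
    have : msub 1 U ≤ (Ring.jacobson Λ • U.map U0.mkQ).comap U0.mkQ := by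
      refine msub_le.2 ?_
      rintro _ ⟨μ, w, hμ, hw, rfl⟩ y hy
      have hw1 : w = 1 := hw
      rw [hw1, mul_one, Submodule.mem_comap, map_smul]
      exact Submodule.smul_mem_smul (mem_jacobson_of_nu hμ) ⟨y, hy, rfl⟩
    exact this hb
  have h0 := hfg.eq_bot_of_le_jacobson_smul hle
  intro x hx
  have : U0.mkQ x ∈ U.map U0.mkQ := ⟨x, hx, rfl⟩
  rw [h0, Submodule.mem_bot] at this
  simpa using this

theorem nak_msub [IsNoetherian Λ M] {U U0 : Submodule Λ M} {j : ℕ}
    (h : msub j U ≤ U0 ⊔ msub (j + 1) U) : msub j U ≤ U0 :=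
  nak (IsNoetherian.noetherian _) (h.trans (sup_le_sup_left (msub_succ_le_one j U) _))

theorem isArtinian_of_nu_smul [Module.Finite Λ M] (h : ∀ μ : Λ, ¬ IsUnit μ → ∀ x : M, μ • x = 0) :
    IsArtinian Λ M := by
  have : IsSemisimpleModule Λ M := by
    apply IsSemisimpleModule.of_sSup_simples_eq_top
    rw [eq_top_iff]
    intro x _
    by_cases hx : x = 0
    · rw [hx]; exact Submodule.zero_mem _
    have hs : IsSimpleModule Λ (Submodule.span Λ {x}) := by
      rw [isSimpleModule_iff_isAtom]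
      refine ⟨by simpa using hx, fun V hV => ?_⟩
      rw [eq_bot_iff]
      intro y hy
      obtain ⟨r, rfl⟩ := Submodule.mem_span_singleton.1 (hV.le hy)
      by_cases hr : IsUnit r
      · exfalso
        obtain ⟨s, hs⟩ := hr.exists_left_inv
        have : x ∈ V := by
          have := V.smul_mem s hy
          rwa [← mul_smul, hs, one_smul] at this
        exact hV.not_ge (by simpa using this)
      · rw [h r hr]; exact Submodule.zero_mem _
    exact (le_sSup (s := {m : Submodule Λ M | IsSimpleModule Λ m}) hs)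
      (Submodule.mem_span_singleton_self x)
  infer_instance

theorem isArtinian_of_Wd (j : ℕ) : ∀ (M : Type) [AddCommGroup M] [Module Λ M] [IsNoetherian Λ M],
    (∀ w ∈ Wd Λ j, ∀ x : M, w • x = 0) → IsArtinian Λ M := by
  induction j with
  | zero =>
    intro M _ _ _ h
    have : Subsingleton M := subsingleton_of_forall_eq 0 fun x => by simpa using h 1 rfl x
    infer_instance
  | succ j ih =>
    intro M _ _ _ h
    let N : Submodule Λ M :=
      { carrier := {x | ∀ μ : Λ, ¬ IsUnit μ → μ • x = 0}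
        add_mem' := fun hx hy μ hμ => by rw [smul_add, hx μ hμ, hy μ hμ, add_zero]
        zero_mem' := fun μ _ => smul_zero μ
        smul_mem' := fun r x hx μ hμ => by rw [← mul_smul]; exact hx _ (nu_mul_right hμ r) }
    have h1 : IsArtinian Λ N := isArtinian_of_nu_smul fun μ hμ x => Subtype.ext (x.2 μ hμ)
    have h2 : IsArtinian Λ (M ⧸ N) := ih _ fun w hw x => by
      obtain ⟨x, rfl⟩ := N.mkQ_surjective x
      rw [← map_smul, Submodule.mkQ_apply, Submodule.Quotient.mk_eq_zero]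
      intro μ hμ
      rw [← mul_smul]
      exact h _ ⟨μ, w, hμ, hw, rfl⟩ x
    exact isArtinian_of_range_eq_ker N.subtype N.mkQ (by simp)

/-- A descending chain of submodules between `U0` and `U0 ⊔ U` stops when a word length
kills `U` modulo `U0`. -/
theorem chain_stops [IsNoetherian Λ M] {U U0 : Submodule Λ M} {j : ℕ} (h : msub j U ≤ U0)
    (V : ℕ → Submodule Λ M) (hV : Antitone V) (h0 : ∀ i, U0 ≤ V i) (h1 : ∀ i, V i ≤ U0 ⊔ U) :
    ∃ n, ∀ i, n ≤ i → V n ≤ V i := by
  let W : Submodule Λ (M ⧸ U0) := U.map U0.mkQ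
  have hA : IsArtinian Λ W := isArtinian_of_Wd j W fun w hw x => by
    obtain ⟨_, y, hy, rfl⟩ := x
    apply Subtype.ext
    change w • U0.mkQ y = 0
    rw [← map_smul, Submodule.mkQ_apply, Submodule.Quotient.mk_eq_zero]
    exact h (smul_mem_msub hw hy)
  obtain ⟨n, hn⟩ := IsArtinian.monotone_stabilizes (R := Λ) (M := W)
    ⟨fun i => OrderDual.toDual (((V i).map U0.mkQ).comap W.subtype), fun a b hab =>
      Submodule.comap_mono (Submodule.map_mono (hV hab))⟩
  refine ⟨n, fun i hi x hx => ?_⟩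
  have he : ((V n).map U0.mkQ).comap W.subtype = ((V i).map U0.mkQ).comap W.subtype := hn i hi
  obtain ⟨a, ha, b, hb, rfl⟩ := Submodule.mem_sup.1 (h1 n hx)
  have hbV : b ∈ V n := by simpa using (V n).sub_mem hx (h0 n ha)
  have h3 : (⟨U0.mkQ b, b, hb, rfl⟩ : W) ∈ ((V n).map U0.mkQ).comap W.subtype := ⟨b, hbV, rfl⟩
  rw [he] at h3
  obtain ⟨y, hy, hyb⟩ := h3
  have h4 : y - b ∈ U0 := by
    rw [← Submodule.Quotient.eq]; exact hyb
  have h5 : b = y - (y - b) := by abel
  rw [h5]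
  exact (V i).add_mem (h0 _ ha) ((V i).sub_mem hy (h0 _ h4))

end Nak

section Cover

variable (Λ : Type) [Ring Λ] (E : Type) [AddCommGroup E] [Module Λ E]

/-- A minimal cover of a module by a free module of finite rank. -/
structure Cover where
  g : ℕ
  p : (Fin g → Λ) →ₗ[Λ] E
  surj : Function.Surjective p
  min : ∀ x, p x = 0 → ∀ j, ¬ IsUnit (x j)

theorem nonempty_cover [IsLocalRing Λ] [Module.Finite Λ E] : Nonempty (Cover Λ E) := by
  classical
  have hex : ∃ n : ℕ, ∃ f : (Fin n → Λ) →ₗ[Λ] E, Function.Surjective f :=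
    Module.Finite.exists_fin' Λ E
  obtain ⟨f, hf⟩ := Nat.find_spec hex
  refine ⟨⟨Nat.find hex, f, hf, fun x hx j hj => ?_⟩⟩
  obtain ⟨n, hn⟩ : ∃ n, Nat.find hex = n + 1 := Nat.exists_eq_succ_of_ne_zero (by
    intro h0
    exact (h0 ▸ j).elim0)
  have hmin : ¬ ∃ f : (Fin n → Λ) →ₗ[Λ] E, Function.Surjective f :=
    Nat.find_min hex (by omega)
  apply hmin
  revert f x j
  rw [hn]
  intro f hf x hx j hj
  let ins : (Fin n → Λ) →ₗ[Λ] (Fin (n + 1) → Λ) :=
    { toFun := fun v => Fin.insertNth j 0 v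
      map_add' := fun v w => by
        ext i
        refine Fin.succAboveCases j ?_ (fun i => ?_) i <;> simp
      map_smul' := fun r v => by
        ext i
        refine Fin.succAboveCases j ?_ (fun i => ?_) i <;> simp }
  refine ⟨f ∘ₗ ins, fun y => ?_⟩
  obtain ⟨z, rfl⟩ := hf y
  obtain ⟨s, hs⟩ := hj.exists_left_inv
  refine ⟨fun i => (z - (z j * s) • x) (j.succAbove i), ?_⟩
  have : ins (fun i => (z - (z j * s) • x) (j.succAbove i)) = z - (z j * s) • x := by
    ext i
    refine Fin.succAboveCases j ?_ (fun i => ?_) i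
    · simp [ins, mul_assoc, hs]
    · simp [ins]
  rw [LinearMap.comp_apply, this, map_sub, map_smul, hx, smul_zero, sub_zero]

variable {Λ E}

theorem mem_msub_top_of_nu {n : ℕ} {x : Fin n → Λ} (hx : ∀ j, ¬ IsUnit (x j)) :
    x ∈ msub 1 (⊤ : Submodule Λ (Fin n → Λ)) := by
  classical
  rw [pi_eq_sum_univ' x]
  refine Submodule.sum_mem _ fun j _ => ?_
  exact smul_mem_msub ⟨x j, 1, hx j, rfl, by simp⟩ trivial

/-- A minimal cover of a projective module is injective. -/
theorem Cover.inj [IsLocalRing Λ] [IsNoetherianRing Λ] [Module.Projective Λ E] (c : Cover Λ E) :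
    Function.Injective c.p := by
  obtain ⟨s, hs⟩ := Module.projective_lifting_property c.p LinearMap.id c.surj
  have h : (⊤ : Submodule Λ (Fin c.g → Λ)) ≤ LinearMap.range s := by
    apply nak (IsNoetherian.noetherian _)
    intro x _
    have hx : x = s (c.p x) + (x - s (c.p x)) := by abel
    rw [hx]
    refine Submodule.add_mem_sup ⟨_, rfl⟩ (mem_msub_top_of_nu (c.min _ ?_))
    have := LinearMap.congr_fun hs (c.p x)
    simp only [LinearMap.comp_apply, LinearMap.id_apply] at this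
    rw [map_sub, this, sub_self]
  rw [injective_iff_map_eq_zero]
  intro x hx
  obtain ⟨y, rfl⟩ := h (Submodule.mem_top (x := x))
  have := LinearMap.congr_fun hs y
  simp only [LinearMap.comp_apply, LinearMap.id_apply] at this
  rw [this] at hx
  rw [hx, map_zero]

end Cover

end Pool.Agent.Lib.MP_95d09c_al
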