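import Pool.Agent.Lib.MP_95d09c_al.Col

-- part Pool.Agent.Lib.MP_95d09c_al.Psi
section

/-!
The minimal resolution of the residue division ring as a right module, and the class of left
modules of projective dimension at most three.
-/

set_option autoImplicit false
set_option linter.unusedSectionVars false

namespace Pool.Agent.Lib.MP_95d09c_al

open MulOpposite

section Socle

variable {Λ : Type} [Ring Λ] [IsLocalRing Λ] [IsNoetherianRing Λ]

theorem cover_inj_of_socle {x : Λ} (hx : ∀ μ, ¬ IsUnit μ → x * μ = 0) (hx0 : x ≠ 0) (n : ℕ) :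
    ∀ (E : Type) [AddCommGroup E] [Module Λ E], PD Λ (n + 1) E → ∀ c : Cover Λ E,
      Function.Injective c.p := by
  classical
  induction n with
  | zero =>
    intro E _ _ h c
    have := pd_one h
    exact c.inj
  | succ n ih =>
    intro E _ _ h c
    obtain ⟨c'⟩ := nonempty_cover Λ (LinearMap.ker c.p)
    have h1 := ih _ (pd_ker' c.p c.surj h) c'
    rw [injective_iff_map_eq_zero]
    intro y hy
    obtain ⟨z, hz⟩ := c'.surj ⟨y, hy⟩
    have h2 : z = 0 := by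
      ext j
      exfalso
      have h3 : c'.p (x • Pi.single j 1) = 0 := by
        rw [map_smul]
        ext i
        exact hx _ (c.min _ (c'.p (Pi.single j 1)).2 i)
      have h4 := congrFun ((injective_iff_map_eq_zero _).1 h1 _ h3) j
      exact hx0 (by simpa using h4)
    rw [h2, map_zero] at hz
    exact (congrArg Subtype.val hz).symm

theorem no_right_socle (hG : GD4 Λ) {ν : Λ} (hν : ¬ IsUnit ν) (hν0 : ν ≠ 0) {x : Λ}
    (hx : ∀ μ, ¬ IsUnit μ → x * μ = 0) : x = 0 := by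
  classical
  by_contra hx0
  obtain ⟨c⟩ := nonempty_cover Λ (Λ ⧸ lsub (mx Λ))
  have h1 := cover_inj_of_socle hx hx0 4 _ (hG _) c
  obtain ⟨z, hz⟩ := c.surj ((lsub (mx Λ)).mkQ 1)
  have h2 : ∀ j, z j = 0 := by
    intro j
    exfalso
    have h3 : c.p (ν • Pi.single j 1) = 0 := by
      rw [map_smul]
      exact quot_killed _ (mem_mx.2 hν) _
    have h4 := congrFun ((injective_iff_map_eq_zero _).1 h1 _ h3) j
    exact hν0 (by simpa using h4)
  rw [show z = 0 from funext h2, map_zero, eq_comm, mk_eq_zero, mem_mx] at hz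
  exact hz isUnit_one

end Socle

variable {R : Type} [Ring R] [IsLocalRing R] [IsNoetherianRing R] [IsNoetherianRing Rᵐᵒᵖ]

/-- Nilpotence on the right gives nilpotence on the left. -/
theorem left_nil_of_right_nil {U U' : TwoSidedIdeal R} {j : ℕ}
    (h : ∀ w ∈ Wd R j, ∀ x ∈ U, x * w ∈ U') : ∃ i, ∀ w ∈ Wd R i, ∀ x ∈ U, w * x ∈ U' := by
  have := op_local (Λ := R)
  have := isNoetherian_right (Λ := R)
  let V : ℕ → Submodule Rᵐᵒᵖ R := fun i =>
    { carrier := (lsub U' ⊔ msub i (lsub U) : Submodule R R)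
      add_mem' := fun hx hy => Submodule.add_mem _ hx hy
      zero_mem' := Submodule.zero_mem _
      smul_mem' := fun r x hx => by
        obtain ⟨a, ha, b, hb, rfl⟩ := Submodule.mem_sup.1 hx
        rw [smul_add]
        exact Submodule.add_mem_sup (U'.mul_mem_right a r.unop ha)
          (msub_map_le (LinearMap.toSpanSingleton R R r.unop) i
            (fun y hy => U.mul_mem_right y r.unop hy) hb) }
  obtain ⟨n, hn⟩ := chain_stops (U := rsub U) (U0 := rsub U') (j := j)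
    (msub_le.2 fun w hw x hx => h _ (Wd_unop hw) x hx) V
    (fun i j hij x hx => sup_le_sup_left (msub_anti (lsub U) hij) (lsub U') hx)
    (fun i x hx => Submodule.mem_sup_left (S := lsub U') hx)
    (fun i x hx => by
      obtain ⟨a, ha, b, hb, rfl⟩ := Submodule.mem_sup.1 hx
      exact Submodule.add_mem_sup ha (msub_le_self i (lsub U) hb))
  have h1 : msub n (lsub U) ≤ lsub U' :=
    nak_msub fun x hx => hn (n + 1) (Nat.le_succ n) (Submodule.mem_sup_right (T := msub n _) hx)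
  exact ⟨n, fun w hw x hx => msub_le.1 h1 w hw x hx⟩

variable (R) in
/-- A resolution of the residue division ring as a right module. -/
structure Psi where
  g1 : ℕ
  d1 : Matrix Unit (Fin g1) R
  h1 : ∀ j, ¬ IsUnit (d1 () j)
  h2 : ∀ μ, ¬ IsUnit μ → ∃ r : Fin g1 → R, μ = act d1 r ()
  X : Cx d1

theorem nonempty_psi (hR : GD4 Rᵐᵒᵖ) : Nonempty (Psi R) := by
  obtain ⟨g, φ, hφ, -, -⟩ := exists_mat
    ((rsub (mx R)).comap (LinearMap.proj () : (Unit → R) →ₗ[Rᵐᵒᵖ] R))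
  obtain ⟨X⟩ := nonempty_cx hR φ
  refine ⟨⟨g, φ, fun j => ?_, fun μ hμ => ?_, X⟩⟩
  · have : rmat φ (Pi.single j 1) ∈ LinearMap.range (rmat φ) := ⟨_, rfl⟩
    rw [hφ] at this
    rw [← act_single φ]
    exact mem_mx.1 this
  · have : (fun _ => μ) ∈ LinearMap.range (rmat φ) := by
      rw [hφ]; exact mem_mx.2 hμ
    obtain ⟨r, hr⟩ := this
    exact ⟨r, (congrFun hr ()).symm⟩

/-- Chain endomorphisms of the resolution. -/
structure CM (Ψ : Psi R) where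
  o0 : Matrix Unit Unit R
  o1 : Matrix (Fin Ψ.g1) (Fin Ψ.g1) R
  o2 : Matrix (Fin Ψ.X.g2) (Fin Ψ.X.g2) R
  o3 : Matrix (Fin Ψ.X.g3) (Fin Ψ.X.g3) R
  o4 : Matrix (Fin Ψ.X.g4) (Fin Ψ.X.g4) R
  c1 : Ψ.d1 * o1 = o0 * Ψ.d1
  c2 : Ψ.X.d2 * o2 = o1 * Ψ.X.d2
  c3 : Ψ.X.d3 * o3 = o2 * Ψ.X.d3
  c4 : Ψ.X.d4 * o4 = o3 * Ψ.X.d4

theorem exists_mul_eq {b c e : Type} [Fintype c] (β : Matrix b c R) (μ : Matrix b e R)
    (h : ∀ k, ∃ w : c → R, (fun i => μ i k) = act β w) : ∃ o : Matrix c e R, β * o = μ := by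
  choose w hw using h
  refine ⟨Matrix.of fun j k => w k j, ?_⟩
  ext i k
  rw [congrFun (hw k) i]
  simp [act, Matrix.mul_apply]

theorem Van.lift {a b c e : Type} [Fintype b] [Fintype c] {α : Matrix a b R} {β : Matrix b c R}
    (h : Van α β R) (μ : Matrix b e R) (hμ : α * μ = 0) : ∃ o : Matrix c e R, β * o = μ :=
  exists_mul_eq β μ fun k => h _ (by
    ext i
    have := congrFun (congrFun hμ i) k
    simpa [act, Matrix.mul_apply] using this)

variable (Ψ : Psi R)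

theorem exists_cm (r : R) : ∃ o : CM Ψ, o.o0 () () = r := by
  let o0 : Matrix Unit Unit R := Matrix.of fun _ _ => r
  obtain ⟨o1, c1⟩ := exists_mul_eq Ψ.d1 (o0 * Ψ.d1) fun k => by
    obtain ⟨w, hw⟩ := Ψ.h2 _ (nu_mul_left r (Ψ.h1 k))
    exact ⟨w, funext fun _ => by rw [← hw]; simp [o0, Matrix.mul_apply]⟩
  obtain ⟨o2, c2⟩ := Ψ.X.e12.lift (o1 * Ψ.X.d2) (by
    rw [← Matrix.mul_assoc, c1, Matrix.mul_assoc, Ψ.X.z12, Matrix.mul_zero])
  obtain ⟨o3, c3⟩ := Ψ.X.e23.lift (o2 * Ψ.X.d3) (by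
    rw [← Matrix.mul_assoc, c2, Matrix.mul_assoc, Ψ.X.z23, Matrix.mul_zero])
  obtain ⟨o4, c4⟩ := Ψ.X.e34.lift (o3 * Ψ.X.d4) (by
    rw [← Matrix.mul_assoc, c3, Matrix.mul_assoc, Ψ.X.z34, Matrix.mul_zero])
  exact ⟨⟨o0, o1, o2, o3, o4, c1, c2, c3, c4⟩, rfl⟩

theorem dcc4 (E : Type) [AddCommGroup E] [Module R E] [Module.Finite R E] :
    DCC (fun o : CM Ψ => o.o4) Ψ.X.d4 (0 : Matrix (Fin Ψ.X.g4) Empty R) E := by
  obtain ⟨r⟩ := nonempty_res (R := R) (E := E)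
  obtain ⟨c⟩ := nonempty_cover R (LinearMap.ker r.c2.p)
  have k0 : DCC (fun o : CM Ψ => o.o0) (0 : Matrix Unit Unit R) Ψ.d1 (LinearMap.ker c.p) :=
    dcc_base (exists_cm Ψ) _ Ψ.h1 Ψ.h2
  have k1 := dcc_step (Matrix.zero_mul _) (fun o : CM Ψ => o.c1) (Ψ.X.e12.pi _) c.surj k0
  have k2 := dcc_step Ψ.X.z12 (fun o : CM Ψ => o.c2) (Ψ.X.e23.pi _) r.c2.surj k1
  have k3 := dcc_step Ψ.X.z23 (fun o : CM Ψ => o.c3) (Ψ.X.e34.pi _) r.c1.surj k2
  exact dcc_step Ψ.X.z34 (fun o : CM Ψ => o.c4) (Ψ.X.e45.pi _) r.c0.surj k3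

/-- The last matrix is injective on columns with entries in `E`. -/
def Cl (E : Type) [AddCommGroup E] [Module R E] : Prop :=
  ∀ z : Fin Ψ.X.g4 → E, act Ψ.X.d4 z = 0 → z = 0

variable {Ψ}

theorem cover_inj_of_van {E : Type} [AddCommGroup E] [Module R E] (k1 : Van Ψ.d1 Ψ.X.d2 E)
    (c : Cover R E) : Function.Injective c.p := by
  have h1 : LinearMap.ker c.p ≤ ⊥ := by
    apply nak (IsNoetherian.noetherian _)
    intro y hy
    obtain ⟨x, hx⟩ := mem_msub_act Ψ.h1 Ψ.h2 (mem_msub_top_of_nu (c.min y hy))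
    obtain ⟨w, hw⟩ := van_down Ψ.X.z12 c.surj k1 (fun _ => ⟨y, hy⟩) x (funext fun _ => hx)
    have h2 := congrArg Subtype.val (congrFun hw ())
    refine Submodule.mem_sup_right ?_
    change y = _ at h2
    rw [h2]
    simp only [act, AddSubmonoidClass.coe_finsetSum, SetLike.val_smul]
    exact Submodule.sum_mem _ fun j _ => smul_mem_msub ⟨_, 1, Ψ.h1 j, rfl, by simp⟩ (w j).2
  exact LinearMap.ker_eq_bot.1 (le_bot_iff.1 h1)

theorem Cl.cover_inj {E : Type} [AddCommGroup E] [Module R E] (h : Cl Ψ E) (r : Res R E)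
    (c : Cover R (LinearMap.ker r.c2.p)) : Function.Injective c.p := by
  have k4 : Van Ψ.X.d4 (0 : Matrix (Fin Ψ.X.g4) Empty R) E := fun z hz =>
    ⟨0, by rw [h z hz, act_zero]⟩
  have k3 := van_ker (Matrix.mul_zero _) (Ψ.X.e34.pi _) r.c0.surj k4
  have k2 := van_ker Ψ.X.z34 (Ψ.X.e23.pi _) r.c1.surj k3
  have k1 := van_ker Ψ.X.z23 (Ψ.X.e12.pi _) r.c2.surj k2
  exact cover_inj_of_van k1 c

theorem mem_of_Wd {J : TwoSidedIdeal R} (hJ : ∀ x, (∀ μ, ¬ IsUnit μ → x * μ ∈ J) → x ∈ J) (n : ℕ) :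
    ∀ x, (∀ w ∈ Wd R n, x * w ∈ J) → x ∈ J := by
  induction n with
  | zero => intro x hx; simpa using hx 1 rfl
  | succ n ih =>
    intro x hx
    refine hJ x fun μ hμ => ih _ fun w hw => ?_
    rw [mul_assoc]
    exact hx _ ⟨μ, w, hμ, hw, rfl⟩

theorem act_mk {a b : Type} [Fintype b] (L : Submodule R R) (φ : Matrix a b R) (z : b → R) :
    act φ (fun j => L.mkQ (z j)) = fun i => L.mkQ (act φ z i) := (act_map L.mkQ φ z).symm

theorem cl_iff (L : Submodule R R) : Cl Ψ (R ⧸ L) ↔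
    ∀ z : Fin Ψ.X.g4 → R, (∀ i, act Ψ.X.d4 z i ∈ L) → ∀ j, z j ∈ L := by
  constructor
  · intro h z hz j
    have := h (fun j => L.mkQ (z j)) (by
      rw [act_mk]
      exact funext fun i => (Submodule.Quotient.mk_eq_zero L).2 (hz i))
    exact (Submodule.Quotient.mk_eq_zero L).1 (congrFun this j)
  · intro h z hz
    choose x hx using fun j => L.mkQ_surjective (z j)
    rw [← funext hx, act_mk] at hz
    rw [← funext hx]
    exact funext fun j => (Submodule.Quotient.mk_eq_zero L).2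
      (h x (fun i => (Submodule.Quotient.mk_eq_zero L).1 (congrFun hz i)) j)

/-- A quotient by a two-sided ideal without right socle has projective dimension at most three. -/
theorem cl_of_no_socle {J : TwoSidedIdeal R}
    (hJ : ∀ x, (∀ μ, ¬ IsUnit μ → x * μ ∈ J) → x ∈ J) : Cl Ψ (R ⧸ lsub J) := by
  have := op_local (Λ := R)
  have := isNoetherian_right (Λ := R)
  let Jc : ∀ n : ℕ, Submodule Rᵐᵒᵖ (Fin n → R) := fun n => Submodule.pi Set.univ fun _ => rsub J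
  let T : Submodule Rᵐᵒᵖ (Fin Ψ.X.g4 → R) := (Jc _).comap (rmat Ψ.X.d4)
  let q : (Fin Ψ.X.g4 → R) →+ (Fin Ψ.X.g4 → R ⧸ lsub J) :=
    ((lsub J).mkQ.compLeft _).toAddMonoidHom
  obtain ⟨n, hn⟩ := dcc4 Ψ (R ⧸ lsub J) (fun i => (msub i T).toAddSubgroup.map q)
    (fun i j hij => AddSubgroup.map_mono (msub_anti T hij))
    (by
      rintro i o _ ⟨z, hz, rfl⟩
      refine ⟨rmat o.o4 z, msub_map_le (rmat o.o4) i (U := T) (V := T) (fun x hx k _ => ?_) hz,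
        (act_mk (lsub J) o.o4 z).symm⟩
      change act Ψ.X.d4 (act o.o4 x) k ∈ lsub J
      rw [← act_mul, o.c4, act_mul]
      exact act_mem (V := lsub J) o.o3 (z := act Ψ.X.d4 x) (fun l => hx l trivial) k)
    (by
      rintro i _ ⟨z, hz, rfl⟩
      refine (act_mk _ _ _).trans (funext fun k => mk_eq_zero.2 ?_)
      exact msub_le_self i T hz k trivial)
    (fun i w => by rw [zero_act]; exact AddSubgroup.zero_mem _)
  have h1 : msub n T ≤ Jc _ := by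
    refine nak_msub fun x hx => ?_
    obtain ⟨y, hy, hxy⟩ := hn (n + 1) (Nat.le_succ n) ⟨x, hx, rfl⟩
    have : x = (x - y) + y := by abel
    rw [this]
    refine Submodule.add_mem_sup (fun k _ => ?_) hy
    exact mk_eq_mk.1 (congrFun hxy k).symm
  rw [cl_iff]
  intro z hz j
  exact mem_of_Wd hJ n _ fun w hw =>
    msub_le.1 h1 (op w) (Wd_op hw) z (fun k _ => hz k) j trivial

theorem exists_cl_of_chain {E : Type} [AddCommGroup E] [Module R E] [Module.Finite R E]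
    (V : ℕ → Submodule R E) (hV : Antitone V) (h0 : ∀ x, (∀ j, x ∈ V j) → x = 0) :
    ∃ j, ∀ z : Fin Ψ.X.g4 → E, (∀ k, z k ∈ V j) → act Ψ.X.d4 z = 0 → z = 0 := by
  let U : ℕ → AddSubgroup (Fin Ψ.X.g4 → E) := fun j =>
    { carrier := {z | (∀ k, z k ∈ V j) ∧ act Ψ.X.d4 z = 0}
      add_mem' := fun hx hy => ⟨fun k => (V j).add_mem (hx.1 k) (hy.1 k), by
        rw [act_add, hx.2, hy.2, add_zero]⟩
      zero_mem' := ⟨fun k => (V j).zero_mem, act_zero _⟩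
      neg_mem' := fun hx => ⟨fun k => (V j).neg_mem (hx.1 k), by rw [act_neg, hx.2, neg_zero]⟩ }
  obtain ⟨n, hn⟩ := dcc4 Ψ E U (fun i j hij z hz => ⟨fun k => hV hij (hz.1 k), hz.2⟩)
    (fun j o z hz => ⟨act_mem _ hz.1, by rw [← act_mul, o.c4, act_mul, hz.2, act_zero]⟩)
    (fun j z hz => hz.2) (fun i w => by rw [zero_act]; exact AddSubgroup.zero_mem _)
  refine ⟨n, fun z hz hz' => funext fun k => h0 _ fun j => ?_⟩
  rcases le_total n j with h | h
  · exact (hn j h (x := z) ⟨hz, hz'⟩).1 k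
  · exact hV h (hz k)

end Pool.Agent.Lib.MP_95d09c_al
end

-- part Pool.Agent.Lib.MP_95d09c_al.OneDim
section

/-!
Primes of homological height three have one dimensional quotients.
-/

set_option autoImplicit false
set_option linter.unusedSectionVars false

namespace Pool.Agent.Lib.MP_95d09c_al

open MulOpposite

variable {R : Type} [Ring R] [IsLocalRing R] [IsNoetherianRing R] [IsNoetherianRing Rᵐᵒᵖ]
  {Ψ : Psi R} {P : TwoSidedIdeal R}

theorem mem_of_closed (hP : Prm P) {t : R}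
    (ht : ∀ J : Submodule R R, lsub P ≤ J → (∃ d ∈ J, Reg P d) → Cl Ψ (R ⧸ J) → t ∈ J)
    {L : Submodule R R} (hL : lsub P ≤ L) (hL' : ∃ d ∈ L, Reg P d) {x : R}
    (hx : ∀ z : Fin Ψ.X.g4 → R, (∀ i, act Ψ.X.d4 (fun j => z j * x) i ∈ L) → ∀ j, z j * x ∈ L) :
    t * x ∈ L := by
  refine ht (L.comap (LinearMap.toSpanSingleton R R x))
    (fun p hp => hL (P.mul_mem_right p x hp)) ?_ ?_
  · obtain ⟨d, hd, hd'⟩ := hL'
    obtain ⟨a', d', h1, h2⟩ := lore hP x hd'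
    refine ⟨d', ?_, h1⟩
    have := L.add_mem (hL h2) (L.smul_mem a' hd)
    simpa using this
  · rw [cl_iff]
    intro z hz
    refine hx z fun i => ?_
    exact (act_smul Ψ.X.d4 z x i) ▸ hz i

variable (Ψ) in
/-- The intersection of all closed essential left ideals. -/
def Tid (hP : Prm P) : TwoSidedIdeal R :=
  TwoSidedIdeal.mk'
    {t | ∀ J : Submodule R R, lsub P ≤ J → (∃ d ∈ J, Reg P d) → Cl Ψ (R ⧸ J) → t ∈ J}
    (fun J _ _ _ => J.zero_mem)
    (fun hx hy J h1 h2 h3 => J.add_mem (hx J h1 h2 h3) (hy J h1 h2 h3))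
    (fun hx J h1 h2 h3 => J.neg_mem (hx J h1 h2 h3))
    (fun hy J h1 h2 h3 => J.smul_mem _ (hy J h1 h2 h3))
    (fun hx J h1 h2 h3 => mem_of_closed hP hx h1 h2 fun _ hz => (cl_iff J).1 h3 _ hz)

theorem mem_Tid (hP : Prm P) {t : R} : t ∈ Tid Ψ hP ↔
    ∀ J : Submodule R R, lsub P ≤ J → (∃ d ∈ J, Reg P d) → Cl Ψ (R ⧸ J) → t ∈ J := by
  simp [Tid]

theorem Tid_ideal (hP : Prm P) {J : TwoSidedIdeal R} (hPJ : P ≤ J) {a : R} (haJ : a ∈ J)
    (ha : a ∉ P) : ∃ j, ∀ w ∈ Wd R j, ∀ t ∈ Tid Ψ hP, w * t ∈ J := by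
  let S : ℕ → Submodule R R := fun j =>
    { carrier := {x | ∀ w ∈ Wd R j, x * w ∈ J}
      add_mem' := fun hx hy w hw => by rw [add_mul]; exact J.add_mem (hx w hw) (hy w hw)
      zero_mem' := fun w _ => by rw [zero_mul]; exact J.zero_mem
      smul_mem' := fun r x hx w hw => by
        rw [smul_eq_mul, mul_assoc]; exact J.mul_mem_left _ _ (hx w hw) }
  have hS : Monotone S := monotone_nat_of_le_succ fun j x hx w hw => by
    obtain ⟨v, μ, hv, -, rfl⟩ := Wd_succ_right hw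
    rw [← mul_assoc]
    exact J.mul_mem_right _ _ (hx v hv)
  obtain ⟨n, hn⟩ := monotone_stabilizes_iff_noetherian.2 (inferInstance : IsNoetherian R R) ⟨S, hS⟩
  have hn' : S n = S (n + 1) := hn (n + 1) (Nat.le_succ n)
  let J' : TwoSidedIdeal R := TwoSidedIdeal.mk' (S n) (S n).zero_mem (S n).add_mem (S n).neg_mem
    (fun hy => (S n).smul_mem _ hy) (fun {x r} hx => by
      rw [hn'] at hx ⊢
      rintro _ ⟨μ, w, hμ, hw, rfl⟩
      have := hx _ ⟨r * μ, w, nu_mul_left r hμ, hw, rfl⟩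
      simpa only [mul_assoc] using this)
  have hJ' : ∀ x, x ∈ J' ↔ x ∈ S n := fun x => by simp [J']
  have hJJ' : J ≤ J' := fun x hx => (hJ' x).2 fun w _ => J.mul_mem_right _ _ hx
  have hcl : Cl Ψ (R ⧸ lsub J') := cl_of_no_socle fun x hx => by
    rw [hJ', hn']
    rintro _ ⟨μ, w, hμ, hw, rfl⟩
    rw [← mul_assoc]
    exact (hJ' _).1 (hx μ hμ) w hw
  obtain ⟨c, hc, hc'⟩ := exists_reg_ideal hP haJ ha
  refine left_nil_of_right_nil (j := n) fun w hw t ht => ?_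
  exact (hJ' t).1 ((mem_Tid hP).1 ht (lsub J') (hPJ.trans hJJ') ⟨c, hJJ' hc, hc'⟩ hcl) w hw

theorem Tid_left (hP : Prm P) {t0 : R} (ht0 : t0 ∈ Tid Ψ hP) (ht0' : t0 ∉ P)
    {L : Submodule R R} (hL : lsub P ≤ L) (hL' : ∃ d ∈ L, Reg P d) :
    ∃ j, msub j (lsub (Tid Ψ hP)) ≤ L := by
  by_contra hcon
  obtain ⟨L, ⟨hL, hL', hcon⟩, hmax⟩ :=
    set_has_maximal_iff_noetherian.2 (inferInstance : IsNoetherian R R)
    {L | lsub P ≤ L ∧ (∃ d ∈ L, Reg P d) ∧ ¬ ∃ j, msub j (lsub (Tid Ψ hP)) ≤ L}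
    ⟨L, hL, hL', hcon⟩
  apply hcon
  have h0 : ∀ x, (∀ j, x ∈ (msub j (lsub (Tid Ψ hP))).map L.mkQ) → x = 0 := by
    intro x hx
    by_contra hx0
    obtain ⟨x, rfl⟩ := L.mkQ_surjective x
    have h1 : L < L ⊔ Submodule.span R {x} := lt_of_le_of_ne le_sup_left fun h => hx0 (by
      rw [Submodule.mkQ_apply, Submodule.Quotient.mk_eq_zero, h]
      exact Submodule.mem_sup_right (Submodule.mem_span_singleton_self x))
    have h2 : ∃ j, msub j (lsub (Tid Ψ hP)) ≤ L ⊔ Submodule.span R {x} := by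
      by_contra h2
      obtain ⟨d, hd, hd'⟩ := hL'
      exact hmax _ ⟨hL.trans le_sup_left, ⟨d, Submodule.mem_sup_left hd, hd'⟩, h2⟩ h1
    obtain ⟨j, hj⟩ := h2
    refine hcon ⟨j, nak_msub (hj.trans (sup_le le_sup_left ?_))⟩
    rw [Submodule.span_singleton_le_iff_mem]
    obtain ⟨y, hy, hxy⟩ := hx (j + 1)
    have : x = (x - y) + y := by abel
    rw [this]
    exact Submodule.add_mem_sup ((Submodule.Quotient.eq L).1 hxy.symm) hy
  obtain ⟨j, hj⟩ := exists_cl_of_chain (Ψ := Ψ) (fun j => (msub j (lsub (Tid Ψ hP))).map L.mkQ)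
    (fun i j hij => Submodule.map_mono (msub_anti _ hij)) h0
  have h3 : ∀ t ∈ Tid Ψ hP, ∀ x ∈ msub j (lsub (Tid Ψ hP)), t * x ∈ L := by
    intro t ht x hx
    refine mem_of_closed hP ((mem_Tid hP).1 ht) hL hL' fun z hz k => ?_
    have := hj (fun k => L.mkQ (z k * x)) (fun k => ⟨_, Submodule.smul_mem _ (z k) hx, rfl⟩) (by
      rw [act_mk]
      exact funext fun i => (Submodule.Quotient.mk_eq_zero L).2 (hz i))
    exact (Submodule.Quotient.mk_eq_zero L).1 (congrFun this k)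
  let J : TwoSidedIdeal R := TwoSidedIdeal.mk' {x | ∀ r, x * r ∈ L}
    (fun r => by rw [zero_mul]; exact L.zero_mem)
    (fun hx hy r => by rw [add_mul]; exact L.add_mem (hx r) (hy r))
    (fun hx r => by rw [neg_mul]; exact L.neg_mem (hx r))
    (fun hy r => by rw [mul_assoc]; exact L.smul_mem _ (hy r))
    (fun hx r => by rw [mul_assoc]; exact hx _)
  have hJ : ∀ x, x ∈ J ↔ ∀ r, x * r ∈ L := fun x => by simp [J]
  obtain ⟨e, he, he'⟩ := exists_reg_ideal hP ht0 ht0'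
  by_cases hm : ∃ μ, ¬ IsUnit μ ∧ μ ∉ P
  · obtain ⟨μ, hμ, hμ'⟩ := hm
    obtain ⟨c, hc, hc'⟩ := exists_reg_ideal hP (mem_mx.2 hμ) hμ'
    obtain ⟨i, hi⟩ := Tid_ideal (Ψ := Ψ) hP (J := J)
      (fun p hp => (hJ p).2 fun r => hL (P.mul_mem_right _ _ hp)) (a := e * (c ^ j * e))
      ((hJ _).2 fun r => by
        rw [mul_assoc, mul_assoc]
        exact h3 e he _ (smul_mem_msub (pow_mem_Wd (mem_mx.1 hc) j)
          ((Tid Ψ hP).mul_mem_right _ _ he)))
      ((he'.mul ((hc'.pow j).mul he')).notMem hP)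
    exact ⟨i, msub_le.2 fun w hw t ht => by simpa using (hJ _).1 (hi w hw t ht) 1⟩
  · push Not at hm
    refine ⟨1, msub_le.2 ?_⟩
    rintro _ ⟨μ, w, hμ, -, rfl⟩ t -
    exact hL (P.mul_mem_right _ _ (P.mul_mem_right _ _ (hm μ hμ)))

theorem one_dim (hP : Prm P) {t0 : R} (ht0 : t0 ∈ Tid Ψ hP) (ht0' : t0 ∉ P) {d : R}
    (hd : Reg P d) : ∃ j, ∀ w ∈ Wd R j, ∃ r, w - r * d ∈ P := by
  obtain ⟨e, he, he'⟩ := exists_reg_ideal hP ht0 ht0'
  obtain ⟨j, hj⟩ := Tid_left hP ht0 ht0' (L := lsub P ⊔ Submodule.span R {d * e}) le_sup_left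
    ⟨d * e, Submodule.mem_sup_right (Submodule.mem_span_singleton_self _), hd.mul he'⟩
  refine ⟨j, fun w hw => ?_⟩
  obtain ⟨p, hp, z, hz, hs⟩ := Submodule.mem_sup.1 (msub_le.1 hj w hw e he)
  obtain ⟨r, rfl⟩ := Submodule.mem_span_singleton.1 hz
  refine ⟨r, he'.2 _ ?_⟩
  rw [sub_mul, mul_assoc]
  simp only [smul_eq_mul] at hs
  rw [← hs, add_sub_cancel_right]
  exact hp

theorem g4_pos (hP : Prm P) {t0 : R} (ht0 : t0 ∈ Tid Ψ hP) (ht0' : t0 ∉ P) {d : R}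
    (hd : Reg P d) (hd' : ¬ IsUnit d) : Nonempty (Fin Ψ.X.g4) := by
  by_contra h
  have : IsEmpty (Fin Ψ.X.g4) := not_nonempty_iff.1 h
  obtain ⟨e, he, he'⟩ := exists_reg_ideal hP ht0 ht0'
  obtain ⟨p, hp, z, hz, hs⟩ := Submodule.mem_sup.1 ((mem_Tid hP).1 he
    (lsub P ⊔ Submodule.span R {d * e}) le_sup_left
    ⟨d * e, Submodule.mem_sup_right (Submodule.mem_span_singleton_self _), hd.mul he'⟩
    fun z _ => Subsingleton.elim _ _)
  obtain ⟨r, rfl⟩ := Submodule.mem_span_singleton.1 hz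
  have h1 : 1 - r * d ∈ P := he'.2 _ (by
    rw [sub_mul, mul_assoc, one_mul]
    simp only [smul_eq_mul] at hs
    rw [sub_eq_of_eq_add hs.symm]
    exact hp)
  obtain ⟨s, hs⟩ := ((isUnit_or_one_sub (r * d)).resolve_left (nu_mul_left r hd')).exists_left_inv
  exact hP.1 (hs ▸ P.mul_mem_left s _ h1)

section Dual

variable {Z G : Type} [AddCommGroup Z] [Module R Z] [AddCommGroup G] [Module R G]

/-- Precomposition on duals. -/
def pre (f : Z →ₗ[R] G) : (G →ₗ[R] R) →ₗ[Rᵐᵒᵖ] (Z →ₗ[R] R) where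
  toFun ω := ω ∘ₗ f
  map_add' _ _ := rfl
  map_smul' _ _ := rfl

theorem dual_noetherian [Module.Finite R Z] : IsNoetherian Rᵐᵒᵖ (Z →ₗ[R] R) := by
  classical
  have := isNoetherian_right (Λ := R)
  obtain ⟨n, f, hf⟩ := Module.Finite.exists_fin' R Z
  let ev : (Z →ₗ[R] R) →ₗ[Rᵐᵒᵖ] (Fin n → R) :=
    { toFun := fun ω j => ω (f (Pi.single j 1))
      map_add' := fun _ _ => rfl
      map_smul' := fun _ _ => rfl }
  refine isNoetherian_of_injective ev ?_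
  rw [injective_iff_map_eq_zero]
  intro ω hω
  have : ω ∘ₗ f = 0 := LinearMap.pi_ext' fun j => LinearMap.ext_ring (congrFun hω j)
  ext z
  obtain ⟨x, rfl⟩ := hf z
  exact LinearMap.congr_fun this x

theorem exists_common_dual [Module.Finite R Z] (hP : Prm P) (ι : Z →ₗ[R] G) (L : R → Z →ₗ[R] Z)
    (h1 : ∀ a, ∃ t : G →ₗ[R] G, ι ∘ₗ L a = t ∘ₗ ι)
    (h2 : ∀ a b, ∃ s : G →ₗ[R] Z, L (a * b) - L b ∘ₗ L a = s ∘ₗ ι)
    (h3 : ∀ a b, a - b ∈ P → ∃ s : G →ₗ[R] Z, L a - L b = s ∘ₗ ι) :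
    ∃ d0, Reg P d0 ∧ ∀ (ω : Z →ₗ[R] R) (d : R), Reg P d → (∃ s, s ∘ₗ ι = ω ∘ₗ L d) →
      ∃ s, s ∘ₗ ι = ω ∘ₗ L d0 := by
  have := dual_noetherian (R := R) (Z := Z)
  obtain ⟨d0, hd0, h⟩ := exists_common hP ⊤ (LinearMap.range (pre ι)) (fun a => pre (L a))
    (by
      rintro a _ ⟨s, rfl⟩
      obtain ⟨t, ht⟩ := h1 a
      exact ⟨s ∘ₗ t, show (s ∘ₗ t) ∘ₗ ι = (s ∘ₗ ι) ∘ₗ L a by
        rw [LinearMap.comp_assoc, LinearMap.comp_assoc, ht]⟩)
    (fun _ _ _ => trivial)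
    (fun a b ω _ => by
      obtain ⟨s, hs⟩ := h2 a b
      exact ⟨ω ∘ₗ s, show (ω ∘ₗ s) ∘ₗ ι = ω ∘ₗ L (a * b) - (ω ∘ₗ L b) ∘ₗ L a by
        rw [LinearMap.comp_assoc, ← hs, LinearMap.comp_sub, LinearMap.comp_assoc]⟩)
    (fun a b hab ω _ => by
      obtain ⟨s, hs⟩ := h3 a b hab
      exact ⟨ω ∘ₗ s, show (ω ∘ₗ s) ∘ₗ ι = ω ∘ₗ L a - ω ∘ₗ L b by
        rw [LinearMap.comp_assoc, ← hs, LinearMap.comp_sub]⟩)
  refine ⟨d0, hd0, fun ω d hd hω => ?_⟩
  have := h ω trivial d hd hω 1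
  rw [mul_one] at this
  exact this

theorem factor_of_dual {Z' : Type} [AddCommGroup Z'] [Module R Z'] (c : Cover R Z')
    (hc : Function.Injective c.p) (ι : Z →ₗ[R] G) (g : Z →ₗ[R] Z')
    (h : ∀ ω : Z' →ₗ[R] R, ∃ s, s ∘ₗ ι = ω ∘ₗ g) : ∃ s, g = s ∘ₗ ι := by
  let e := LinearEquiv.ofBijective c.p ⟨hc, c.surj⟩
  choose s hs using fun k => h (LinearMap.proj k ∘ₗ e.symm.toLinearMap)
  refine ⟨e.toLinearMap ∘ₗ LinearMap.pi s, LinearMap.ext fun z => ?_⟩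
  change g z = e (LinearMap.pi s (ι z))
  rw [← e.symm_apply_eq]
  ext k
  exact (LinearMap.congr_fun (hs k) z).symm

theorem factor_step {Z' : Type} [AddCommGroup Z'] [Module R Z'] (c : Cover R Z')
    (hc : Function.Injective c.p) {ι : Z →ₗ[R] G} {g : Z →ₗ[R] Z'} {l l0 : Z →ₗ[R] Z}
    {s : G →ₗ[R] Z'} (hs : g ∘ₗ l = s ∘ₗ ι)
    (h : ∀ ω : Z →ₗ[R] R, (∃ s, s ∘ₗ ι = ω ∘ₗ l) → ∃ s, s ∘ₗ ι = ω ∘ₗ l0) :
    ∃ s, g ∘ₗ l0 = s ∘ₗ ι :=
  factor_of_dual c hc ι (g ∘ₗ l0) fun ω => h (ω ∘ₗ g) ⟨ω ∘ₗ s, by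
    rw [LinearMap.comp_assoc, LinearMap.comp_assoc, hs]⟩

end Dual

theorem rho_mul (a b : R) : rho P (a * b) = rho P b ∘ₗ rho P a := by
  refine LinearMap.ext fun q => ?_
  obtain ⟨x, rfl⟩ := (lsub P).mkQ_surjective q
  rw [LinearMap.comp_apply, rho_mk, rho_mk, rho_mk, mul_assoc]

theorem rho_congr {a b : R} (h : a - b ∈ P) : rho P a = rho P b := by
  refine LinearMap.ext fun q => ?_
  obtain ⟨x, rfl⟩ := (lsub P).mkQ_surjective q
  rw [rho_mk, rho_mk, mk_eq_mk, ← mul_sub]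
  exact P.mul_mem_left _ _ h

theorem L3.lift {E E' : Type} [AddCommGroup E] [Module R E] [AddCommGroup E'] [Module R E']
    {r : Res R E} {r' : Res R E'} {f : E →ₗ[R] E'}
    {g : LinearMap.ker r.c2.p →ₗ[R] LinearMap.ker r'.c2.p} (h : L3 r r' f g) :
    ∃ t, (LinearMap.ker r'.c2.p).subtype ∘ₗ g = t ∘ₗ (LinearMap.ker r.c2.p).subtype := by
  obtain ⟨_, _, _, _, t, _, ht⟩ := h
  exact ⟨t, LinearMap.ext ht⟩

theorem exists_zo (hP : Prm P) {a b : Type} [Fintype a] [Fintype b] {d1 : Matrix a b R}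
    (X : Cx d1) {A : Type} [AddCommGroup A] [Module R A] [Module.Finite R A] (ρ : R → A →ₗ[R] A)
    (h1 : ∀ a b, ρ (a * b) = ρ b ∘ₗ ρ a) (h2 : ∀ a b, a - b ∈ P → ρ a = ρ b) :
    ∃ d0, Reg P d0 ∧ ∀ (M : Type) [AddCommGroup M] [Module R M] [Module.Finite R M]
      (π : A →ₗ[R] M) (d : R), Reg P d → π ∘ₗ ρ d = 0 → Cl Ψ M → ZO X.d3 X.d4 (π ∘ₗ ρ d0) := by
  obtain ⟨r⟩ := nonempty_res (R := R) (E := A)
  choose L hL using fun a => exists_L3 r r (ρ a)
  obtain ⟨d0, hd0, h⟩ := exists_common_dual hP (LinearMap.ker r.c2.p).subtype L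
    (fun a => (hL a).lift)
    (fun a b => ((hL (a * b)).sub ((hL a).comp (hL b))).null (by rw [h1, sub_self]))
    (fun a b hab => ((hL a).sub (hL b)).null (by rw [h2 a b hab, sub_self]))
  refine ⟨d0, hd0, fun M _ _ _ π d hd hπ hcl => ?_⟩
  obtain ⟨r'⟩ := nonempty_res (R := R) (E := M)
  obtain ⟨c⟩ := nonempty_cover R (LinearMap.ker r'.c2.p)
  obtain ⟨g, hg⟩ := exists_L3 r r' π
  obtain ⟨s, hs⟩ := ((hL d).comp hg).null hπ
  obtain ⟨s', hs'⟩ := factor_step c (hcl.cover_inj r' c) hs fun ω => h ω d hd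
  exact ((hL d0).comp hg).zo X hs'

theorem exists_mem_Tid (hP : Prm P) {a b : Type} [Fintype a] [Fintype b] {d1 : Matrix a b R}
    (X : Cx d1) (u v : Fin X.g3 → R) (hv : ∀ i, act X.d3 v i ∈ P)
    (hu : ∀ w : Fin X.g4 → R, ∑ i, u i * act X.d4 w i ∈ P) (huv : ∑ i, u i * v i ∉ P) :
    ∃ t ∈ Tid Ψ hP, t ∉ P := by
  obtain ⟨d0, hd0, h⟩ := exists_zo (Ψ := Ψ) hP X (rho P) rho_mul fun _ _ => rho_congr
  refine ⟨(∑ i, u i * v i) * d0, (mem_Tid hP).2 ?_, fun h => huv (hd0.2 _ h)⟩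
  rintro J hJ ⟨d, hdJ, hd⟩ hcl
  obtain ⟨w, hw⟩ := h (R ⧸ J) ((lsub P).liftQ J.mkQ (by simpa using hJ)) d hd
    (LinearMap.ext fun q => by
      obtain ⟨x, rfl⟩ := (lsub P).mkQ_surjective q
      exact (Submodule.Quotient.mk_eq_zero J).2 (J.smul_mem x hdJ)) hcl
    (fun i => (lsub P).mkQ (v i)) (by
      rw [act_mk]
      exact funext fun i => mk_eq_zero.2 (hv i))
  choose y hy using fun k => J.mkQ_surjective (w k)
  rw [← funext hy, act_mk] at hw
  have h1 : ∀ i, v i * d0 - act X.d4 y i ∈ J := fun i =>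
    (Submodule.Quotient.eq J).1 (congrFun hw i)
  have h2 : (∑ i, u i * v i) * d0 =
      ∑ i, u i * (v i * d0 - act X.d4 y i) + ∑ i, u i * act X.d4 y i := by
    rw [← Finset.sum_add_distrib, Finset.sum_mul]
    exact Finset.sum_congr rfl fun i _ => by noncomm_ring
  rw [h2]
  exact J.add_mem (J.sum_mem fun i _ => J.smul_mem _ (h1 i)) (hJ (hu y))

end Pool.Agent.Lib.MP_95d09c_al
end

-- part Pool.Agent.Lib.MP_95d09c_al.Bond
section

/-!
A top bimodule factor of an annihilator ideal, and transfer of one dimensionality along it.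
-/

set_option autoImplicit false
set_option linter.unusedSectionVars false

namespace Pool.Agent.Lib.MP_95d09c_al

open MulOpposite

variable {R : Type} [Ring R] [IsLocalRing R] [IsNoetherianRing R] [IsNoetherianRing Rᵐᵒᵖ]

theorem noeth_opop : IsNoetherianRing Rᵐᵒᵖᵐᵒᵖ := isNoetherianRing_of_ringEquiv R (RingEquiv.opOp R)

/-- The factor `K / K'` is a bimodule over `R / Q` and `R / P`, torsion free on both sides. -/
structure Bond (Q K K' P : TwoSidedIdeal R) : Prop where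
  hQ : Prm Q
  hP : Prm P
  ne : ∃ y ∈ K, y ∉ K'
  lk : ∀ p ∈ Q, ∀ x ∈ K, p * x ∈ K'
  rk : ∀ p ∈ P, ∀ x ∈ K, x * p ∈ K'
  ltf : ∀ c, Reg Q c → ∀ x ∈ K, c * x ∈ K' → x ∈ K'
  rtf : ∀ d, Reg P d → ∀ x ∈ K, x * d ∈ K' → x ∈ K'

theorem exists_bond {Q K : TwoSidedIdeal R} (hQ : Prm Q) (hk : ∀ p ∈ Q, ∀ x ∈ K, p * x = 0)
    (htf : ∀ c, Reg Q c → ∀ x ∈ K, c * x = 0 → x = 0) {x1 : R} (hx1 : x1 ∈ K) (hx1' : x1 ≠ 0) :
    ∃ K' P, Bond Q K K' P := by
  obtain ⟨K', ⟨hK', x0, hx0, hx0'⟩, hmax⟩ := exists_max_ideal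
    {K' : TwoSidedIdeal R | K' ≤ K ∧ ∃ x ∈ K, ∀ c, Reg Q c → c * x ∉ K'}
    ⟨⊥, bot_le, x1, hx1, fun c hc h => hx1' (htf c hc x1 hx1 ((TwoSidedIdeal.mem_bot R).1 h))⟩
  have lk : ∀ p ∈ Q, ∀ x ∈ K, p * x ∈ K' := fun p hp x hx => by
    rw [hk p hp x hx]; exact K'.zero_mem
  have ltf : ∀ c, Reg Q c → ∀ x ∈ K, c * x ∈ K' → x ∈ K' := by
    let K1 : TwoSidedIdeal R := TwoSidedIdeal.mk' {x | x ∈ K ∧ ∃ c, Reg Q c ∧ c * x ∈ K'}
      ⟨K.zero_mem, 1, Reg.one, by rw [mul_zero]; exact K'.zero_mem⟩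
      (by
        rintro x y ⟨hx, c, hc, hcx⟩ ⟨hy, d, hd, hdy⟩
        obtain ⟨a', d', hd', h⟩ := lore hQ c hd
        refine ⟨K.add_mem hx hy, d' * c, hd'.mul hc, ?_⟩
        have := K'.add_mem (K'.add_mem (K'.mul_mem_left d' _ hcx) (lk _ h y hy))
          (K'.mul_mem_left a' _ hdy)
        convert this using 1
        noncomm_ring)
      (by
        rintro x ⟨hx, c, hc, hcx⟩
        exact ⟨K.neg_mem hx, c, hc, by rw [mul_neg]; exact K'.neg_mem hcx⟩)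
      (by
        rintro r x ⟨hx, c, hc, hcx⟩
        obtain ⟨a', d', hd', h⟩ := lore hQ r hc
        refine ⟨K.mul_mem_left _ _ hx, d', hd', ?_⟩
        have := K'.add_mem (lk _ h x hx) (K'.mul_mem_left a' _ hcx)
        convert this using 1
        noncomm_ring)
      (by
        rintro x r ⟨hx, c, hc, hcx⟩
        exact ⟨K.mul_mem_right _ _ hx, c, hc, by
          rw [← mul_assoc]; exact K'.mul_mem_right _ _ hcx⟩)
    have hK1 : ∀ x, x ∈ K1 ↔ x ∈ K ∧ ∃ c, Reg Q c ∧ c * x ∈ K' := fun x => by simp [K1]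
    have h1 : K1 ≤ K' := hmax K1 ⟨fun x hx => ((hK1 x).1 hx).1, x0, hx0, fun c hc h => by
      obtain ⟨-, d, hd, h'⟩ := (hK1 _).1 h
      exact hx0' _ (hd.mul hc) (by rwa [mul_assoc])⟩
      fun x hx => (hK1 x).2 ⟨hK' hx, 1, Reg.one, by rwa [one_mul]⟩
    exact fun c hc x hx h => h1 ((hK1 x).2 ⟨hx, c, hc, h⟩)
  have key : ∀ b, ∀ x ∈ K, x ∉ K' → (∀ r, x * r * b ∈ K') → ∀ y ∈ K, y * b ∈ K' := by
    intro b x hx hx' h y hy
    let K1 : TwoSidedIdeal R := TwoSidedIdeal.mk' {x | x ∈ K ∧ ∀ r, x * r * b ∈ K'}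
      ⟨K.zero_mem, fun r => by rw [zero_mul, zero_mul]; exact K'.zero_mem⟩
      (fun hx hy => ⟨K.add_mem hx.1 hy.1, fun r => by
        rw [add_mul, add_mul]; exact K'.add_mem (hx.2 r) (hy.2 r)⟩)
      (fun hx => ⟨K.neg_mem hx.1, fun r => by rw [neg_mul, neg_mul]; exact K'.neg_mem (hx.2 r)⟩)
      (fun {s x} hx => ⟨K.mul_mem_left _ _ hx.1, fun r => by
        have := K'.mul_mem_left s _ (hx.2 r)
        simpa only [mul_assoc] using this⟩)
      (fun {x s} hx => ⟨K.mul_mem_right _ _ hx.1, fun r => by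
        have := hx.2 (s * r)
        simpa only [mul_assoc] using this⟩)
    have hK1 : ∀ x, x ∈ K1 ↔ x ∈ K ∧ ∀ r, x * r * b ∈ K' := fun x => by simp [K1]
    by_contra hyb
    refine hx' (hmax K1 ⟨fun x hx => ((hK1 x).1 hx).1, y, hy, fun c hc h => hyb ?_⟩
      (fun x hx => (hK1 x).2 ⟨hK' hx, fun r => K'.mul_mem_right _ _ (K'.mul_mem_right _ _ hx)⟩)
      ((hK1 x).2 ⟨hx, h⟩))
    refine ltf c hc _ (K.mul_mem_right _ _ hy) ?_
    have := ((hK1 _).1 h).2 1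
    rwa [mul_one, mul_assoc] at this
  let P : TwoSidedIdeal R := TwoSidedIdeal.mk' {a | ∀ x ∈ K, x * a ∈ K'}
    (fun x _ => by rw [mul_zero]; exact K'.zero_mem)
    (fun ha hb x hx => by rw [mul_add]; exact K'.add_mem (ha x hx) (hb x hx))
    (fun ha x hx => by rw [mul_neg]; exact K'.neg_mem (ha x hx))
    (fun ha x hx => by rw [← mul_assoc]; exact ha _ (K.mul_mem_right _ _ hx))
    (fun ha x hx => by rw [← mul_assoc]; exact K'.mul_mem_right _ _ (ha x hx))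
  have hPm : ∀ a, a ∈ P ↔ ∀ x ∈ K, x * a ∈ K' := fun a => by simp [P]
  have hx0K : x0 ∉ K' := by simpa using hx0' 1 Reg.one
  have hP : Prm P := by
    refine ⟨fun h => hx0K (by simpa using (hPm 1).1 h x0 hx0), fun a b h => ?_⟩
    by_cases ha : a ∈ P
    · exact Or.inl ha
    rw [hPm] at ha
    push Not at ha
    obtain ⟨x, hx, hxa⟩ := ha
    refine Or.inr ((hPm b).2 (key b (x * a) (K.mul_mem_right _ _ hx) hxa fun r => ?_))
    have := (hPm _).1 (h r) x hx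
    simpa only [mul_assoc] using this
  refine ⟨K', P, hQ, hP, ⟨x0, hx0, hx0K⟩, lk, fun p hp => (hPm p).1 hp, ltf, fun d hd x hx h => ?_⟩
  have := noeth_opop (R := R)
  obtain ⟨d0, hd0, h0⟩ := exists_common hP.op (lsub K) (lsub K')
    (fun a => LinearMap.toSpanSingleton R R a.unop)
    (fun a w hw => K'.mul_mem_right _ _ hw) (fun a w hw => K.mul_mem_right _ _ hw)
    (fun a b w _ => by simp [mul_assoc])
    (fun a b hab w hw => by
      have := (hPm _).1 (mop.1 hab) w hw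
      rwa [unop_sub, mul_sub] at this)
  by_contra hx'
  refine hd0.unop.notMem hP ((hPm _).2 (key _ x hx hx' fun r => ?_))
  have := h0 x hx (op d) hd.op h (op r)
  rw [mul_assoc]
  exact this

variable {Q K K' P : TwoSidedIdeal R}

theorem Bond.mem_of_ann (B : Bond Q K K' P) {b : R} (hb : ∀ x ∈ K, b * x ∈ K') : b ∈ Q := by
  by_contra h
  let J : TwoSidedIdeal R := TwoSidedIdeal.mk' {a | ∀ x ∈ K, a * x ∈ K'}
    (fun x _ => by rw [zero_mul]; exact K'.zero_mem)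
    (fun ha hb x hx => by rw [add_mul]; exact K'.add_mem (ha x hx) (hb x hx))
    (fun ha x hx => by rw [neg_mul]; exact K'.neg_mem (ha x hx))
    (fun ha x hx => by rw [mul_assoc]; exact K'.mul_mem_left _ _ (ha x hx))
    (fun ha x hx => by rw [mul_assoc]; exact ha _ (K.mul_mem_left _ _ hx))
  have hJ : ∀ a, a ∈ J ↔ ∀ x ∈ K, a * x ∈ K' := fun a => by simp [J]
  obtain ⟨c, hc, hc'⟩ := exists_reg_ideal B.hQ ((hJ b).2 hb) h
  obtain ⟨y, hy, hy'⟩ := B.ne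
  exact hy' (B.ltf c hc' y hy ((hJ c).1 hc y hy))

theorem Bond.exists_nu (B : Bond Q K K' P) {c : R} (hc : Reg Q c) (hc' : ¬ IsUnit c) :
    ∃ d, Reg P d ∧ ¬ IsUnit d := by
  by_cases h : ∃ μ, ¬ IsUnit μ ∧ μ ∉ P
  · obtain ⟨μ, hμ, hμ'⟩ := h
    obtain ⟨d, hd, hd'⟩ := exists_reg_ideal B.hP (mem_mx.2 hμ) hμ'
    exact ⟨d, hd', mem_mx.1 hd⟩
  · push Not at h
    obtain ⟨i, hi⟩ := left_nil_of_right_nil (U := K) (U' := K') (j := 1) (by
      rintro _ ⟨μ, w, hμ, -, rfl⟩ x hx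
      exact B.rk _ (P.mul_mem_right _ _ (h μ hμ)) x hx)
    obtain ⟨y, hy, hy'⟩ := B.ne
    exact absurd (B.ltf _ (hc.pow i) y hy (hi _ (pow_mem_Wd hc' i) y hy)) hy'

theorem Bond.exists_den (B : Bond Q K K' P) {c : R} (hc : Reg Q c) {n : ℕ} (s : Fin n → R)
    (hs : ∀ i, s i ∈ K) : ∃ d, Reg P d ∧ ∀ i, ∃ y ∈ K, s i * d - c * y ∈ K' := by
  have := isNoetherian_right (Λ := R)
  let U : Submodule Rᵐᵒᵖ (rsub K) := (rsub K').comap (rsub K).subtype
  let f : (rsub K ⧸ U) →ₗ[Rᵐᵒᵖ] (rsub K ⧸ U) :=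
    U.mapQ U ((lmul c).restrict fun x hx => K.mul_mem_left c x hx)
      fun x hx => K'.mul_mem_left c x hx
  have hf : Function.Injective f := by
    rw [injective_iff_map_eq_zero]
    intro q hq
    obtain ⟨x, rfl⟩ := U.mkQ_surjective q
    exact (Submodule.Quotient.mk_eq_zero U).2
      (B.ltf c hc x x.2 ((Submodule.Quotient.mk_eq_zero U).1 hq))
  obtain ⟨d, hd, z, hz⟩ := exists_reg_smul B.hP.op (M := Fin n → rsub K ⧸ U)
    (fun p hp z => funext fun i => by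
      obtain ⟨x, hx⟩ := U.mkQ_surjective (z i)
      rw [Pi.smul_apply, ← hx, ← map_smul]
      exact (Submodule.Quotient.mk_eq_zero U).2 (B.rk _ (mop.1 hp) x x.2))
    (f.compLeft _) (fun z w h => funext fun i => hf (congrFun h i))
    (fun i => U.mkQ ⟨s i, hs i⟩)
  refine ⟨d.unop, hd.unop, fun i => ?_⟩
  obtain ⟨y, hy⟩ := U.mkQ_surjective (z i)
  have h1 : f (z i) = d • U.mkQ ⟨s i, hs i⟩ := congrFun hz i
  rw [← hy, ← map_smul] at h1
  exact ⟨y, y.2, (Submodule.Quotient.eq U).1 h1.symm⟩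

theorem Bond.words (B : Bond Q K K' P) {d : R} {j : ℕ} (h : ∀ w ∈ Wd R j, ∃ r, w - r * d ∈ P) :
    ∃ i, ∀ w ∈ Wd R i, ∀ x ∈ K, ∃ z ∈ K, w * x - z * d ∈ K' := by
  let U : TwoSidedIdeal R := TwoSidedIdeal.mk' {x | ∀ r, ∃ z ∈ K, x * r - z * d ∈ K'}
    (fun r => ⟨0, K.zero_mem, by simp⟩)
    (fun hx hy r => by
      obtain ⟨z, hz, h1⟩ := hx r
      obtain ⟨z', hz', h2⟩ := hy r
      refine ⟨z + z', K.add_mem hz hz', ?_⟩
      convert K'.add_mem h1 h2 using 1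
      noncomm_ring)
    (fun hx r => by
      obtain ⟨z, hz, h1⟩ := hx r
      refine ⟨-z, K.neg_mem hz, ?_⟩
      convert K'.neg_mem h1 using 1
      noncomm_ring)
    (fun {s x} hx r => by
      obtain ⟨z, hz, h1⟩ := hx r
      refine ⟨s * z, K.mul_mem_left _ _ hz, ?_⟩
      convert K'.mul_mem_left s _ h1 using 1
      noncomm_ring)
    (fun {x s} hx r => by rw [mul_assoc]; exact hx _)
  have hU : ∀ x, x ∈ U ↔ ∀ r, ∃ z ∈ K, x * r - z * d ∈ K' := fun x => by simp [U]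
  obtain ⟨i, hi⟩ := left_nil_of_right_nil (U := K) (U' := U) (j := j + 1) fun w hw x hx => by
    rw [hU]
    intro r
    obtain ⟨v, μ, hv, hμ, rfl⟩ := Wd_succ_right hw
    obtain ⟨ν, u, -, hu, he⟩ := Wd_mul_right hv (nu_mul_right hμ r)
    obtain ⟨r0, hr0⟩ := h u hu
    refine ⟨x * ν * r0, K.mul_mem_right _ _ (K.mul_mem_right _ _ hx), ?_⟩
    have := B.rk _ hr0 _ (K.mul_mem_right x ν hx)
    convert this using 1
    rw [mul_assoc x, mul_assoc v, he]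
    noncomm_ring
  exact ⟨i, fun w hw x hx => by simpa using (hU _).1 (hi w hw x hx) 1⟩

theorem Bond.transfer (B : Bond Q K K' P)
    (h : ∀ d, Reg P d → ∃ j, ∀ w ∈ Wd R j, ∃ r, w - r * d ∈ P) {c' : R} (hc' : Reg Q c') :
    ∃ j, ∀ w ∈ Wd R j, ∃ r, w - r * c' ∈ Q := by
  have := isNoetherian_right (Λ := R)
  obtain ⟨n, s, hs⟩ := Submodule.fg_iff_exists_fin_generating_family.1
    (IsNoetherian.noetherian (rsub K))
  have hsK : ∀ i, s i ∈ K := fun i => by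
    have : s i ∈ rsub K := hs ▸ Submodule.subset_span ⟨i, rfl⟩
    exact this
  let U : Submodule R (lsub K) := (lsub K').comap (lsub K).subtype
  let η : Fin n → lsub K ⧸ U := fun i => U.mkQ ⟨s i, hsK i⟩
  obtain ⟨e, he, θ, hθ⟩ := exists_extend B.hQ (rore B.hQ) (N := Fin n → lsub K ⧸ U)
    (fun p hp z => funext fun i => by
      obtain ⟨x, hx⟩ := U.mkQ_surjective (z i)
      rw [Pi.smul_apply, ← hx, ← map_smul]
      exact (Submodule.Quotient.mk_eq_zero U).2 (B.lk _ hp x x.2))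
    (LinearMap.toSpanSingleton R _ η) (lsub Q).mkQ (fun b hb => by
      refine mk_eq_zero.2 (B.mem_of_ann fun x hx => ?_)
      have h1 : rsub K ≤ (rsub K').comap (lmul b) := by
        rw [← hs, Submodule.span_le]
        rintro _ ⟨i, rfl⟩
        have h2 : b • η i = 0 := congrFun hb i
        rw [← map_smul] at h2
        exact (Submodule.Quotient.mk_eq_zero U).1 h2
      exact h1 hx)
  obtain ⟨d, hd, hy⟩ := B.exists_den (he.mul hc') s hsK
  choose y hy hy' using hy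
  obtain ⟨j, hj⟩ := h d hd
  obtain ⟨i, hi⟩ := B.words hj
  refine ⟨i, fun μ hμ => ?_⟩
  choose z hz hz' using fun k => hi μ hμ (y k) (hy k)
  obtain ⟨b1, c1, hc1, h1⟩ := lore B.hQ μ (he.mul hc')
  have h2 : c1 • (fun k => U.mkQ ⟨z k, hz k⟩ : Fin n → lsub K ⧸ U) =
      LinearMap.toSpanSingleton R _ η b1 := by
    ext k
    change c1 • U.mkQ ⟨z k, hz k⟩ = b1 • U.mkQ ⟨s k, hsK k⟩
    rw [← map_smul, ← map_smul]
    refine (Submodule.Quotient.eq U).2 (B.rtf d hd _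
      (K.sub_mem (K.mul_mem_left c1 _ (hz k)) (K.mul_mem_left b1 _ (hsK k))) ?_)
    have := K'.sub_mem (K'.sub_mem (B.lk _ h1 _ (hy k)) (K'.mul_mem_left c1 _ (hz' k)))
      (K'.mul_mem_left b1 _ (hy' k))
    change (c1 * z k - b1 * s k) * d ∈ K'
    convert this using 1
    noncomm_ring
  obtain ⟨β, hβ⟩ := (lsub Q).mkQ_surjective (θ fun k => U.mkQ ⟨z k, hz k⟩)
  have h3 := congrArg θ h2
  rw [map_smul, ← hβ, hθ, rho_mk, smul_mk, mk_eq_mk] at h3
  refine ⟨β, hc1.1 _ ?_⟩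
  have := Q.sub_mem h1 (Q.mul_mem_right _ c' h3)
  convert this using 1
  noncomm_ring

end Pool.Agent.Lib.MP_95d09c_al
end

-- part Pool.Agent.Lib.MP_95d09c_al.Main
section

/-!
A noetherian local ring of global dimension at most four is a domain.
-/

set_option autoImplicit false
set_option linter.unusedSectionVars false

namespace Pool.Agent.Lib.MP_95d09c_al

open MulOpposite

variable {R : Type} [Ring R] [IsLocalRing R] [IsNoetherianRing R] [IsNoetherianRing Rᵐᵒᵖ]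

section RowCol

variable (P : TwoSidedIdeal R)

/-- A matrix acting on columns over the quotient by `P`, as a map of right modules. -/
def qmat {a b : Type} [Fintype b] (φ : Matrix a b R) :
    (b → Rᵐᵒᵖ ⧸ lsub P.op) →ₗ[Rᵐᵒᵖ] (a → Rᵐᵒᵖ ⧸ lsub P.op) :=
  LinearMap.pi fun i => ∑ j, rho P.op (op (φ i j)) ∘ₗ LinearMap.proj j

/-- The class of a column modulo `P`. -/
def mkv {n : Type} (r : n → R) : n → Rᵐᵒᵖ ⧸ lsub P.op := fun i => (lsub P.op).mkQ (op (r i))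

theorem qmat_mkv {a b : Type} [Fintype b] (φ : Matrix a b R) (r : b → R) :
    qmat P φ (mkv P r) = mkv P (act φ r) := by
  ext i
  simp only [qmat, mkv, act, LinearMap.pi_apply, LinearMap.sum_apply, LinearMap.comp_apply,
    LinearMap.proj_apply, rho_mk, Finset.op_sum, map_sum, smul_eq_mul, op_mul]

theorem mkv_surj {n : Type} (z : n → Rᵐᵒᵖ ⧸ lsub P.op) : ∃ r, mkv P r = z := by
  choose x hx using fun i => (lsub P.op).mkQ_surjective (z i)
  exact ⟨fun i => (x i).unop, funext hx⟩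

theorem mkv_eq {n : Type} {r r' : n → R} : mkv P r = mkv P r' ↔ ∀ i, r i - r' i ∈ P := by
  rw [funext_iff]
  exact forall_congr' fun i => mk_eq_mk.trans mop

theorem mkv_eq_zero {n : Type} {r : n → R} : mkv P r = 0 ↔ ∀ i, r i ∈ P := by
  rw [funext_iff]
  exact forall_congr' fun i => mk_eq_zero.trans mop

theorem exists_row {n : ℕ} (θ : (Fin n → Rᵐᵒᵖ ⧸ lsub P.op) →ₗ[Rᵐᵒᵖ] Rᵐᵒᵖ ⧸ lsub P.op) :
    ∃ u : Fin n → R, ∀ r, θ (mkv P r) = 0 ↔ ∑ i, u i * r i ∈ P := by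
  classical
  choose x hx using fun i => (lsub P.op).mkQ_surjective (θ (Pi.single i ((lsub P.op).mkQ 1)))
  refine ⟨fun i => (x i).unop, fun r => ?_⟩
  have h1 : mkv P r = ∑ i, op (r i) • (Pi.single i ((lsub P.op).mkQ 1) :
      Fin n → Rᵐᵒᵖ ⧸ lsub P.op) := by
    ext k
    rw [Finset.sum_apply, Finset.sum_eq_single k]
    · rw [Pi.smul_apply, Pi.single_eq_same, smul_mk, mul_one]; rfl
    · intro i _ hi
      rw [Pi.smul_apply, Pi.single_eq_of_ne hi.symm, smul_zero]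
    · simp
  rw [h1, map_sum]
  simp only [map_smul, ← hx, smul_mk]
  rw [← map_sum, mk_eq_zero, mop, Finset.unop_sum]
  rfl

variable {P}

theorem Bond.exists_mem_Tid (Ψ : Psi R) {Q K K' : TwoSidedIdeal R} (B : Bond Q K K' P)
    {d : R} (hd : Reg P d) (hd' : ¬ IsUnit d) {a : Type} [Fintype a] {d1 : Matrix a Unit R}
    (X : Cx d1) (hK : ∀ z : Unit → R, act d1 z = 0 ↔ z () ∈ K) (hrk : X.g3 = X.g4 + X.g2) :
    ∃ t ∈ Tid Ψ B.hP, t ∉ P := by
  have hcl : Cl Ψ (R ⧸ lsub P) := cl_of_no_socle fun x hx => hd.2 x (hx d hd')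
  obtain ⟨r⟩ := nonempty_res (R := R) (E := R ⧸ lsub P)
  obtain ⟨c⟩ := nonempty_cover R (LinearMap.ker r.c2.p)
  have h4 := X.inj_of_free r c (hcl.cover_inj r c)
  obtain ⟨y, hy, hy'⟩ := B.ne
  obtain ⟨x, hx⟩ := X.e12 (fun _ => y) ((hK _).2 hy)
  have h2 : ∀ j, X.d2 () j ∈ K := fun j => by
    rw [← act_single X.d2]
    exact (hK _).1 (act_act X.z12 _)
  obtain ⟨v, hv, θ, hθ, hθ'⟩ := exists_row_col B.hP.op (rore_op B.hP) hrk (qmat P X.d4) (by
      rw [injective_iff_map_eq_zero]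
      intro z hz
      obtain ⟨z, rfl⟩ := mkv_surj P z
      rw [qmat_mkv, mkv_eq_zero] at hz
      have := h4 (fun j => (lsub P).mkQ (z j)) (by
        rw [act_mk]
        exact funext fun i => mk_eq_zero.2 (hz i))
      exact (mkv_eq_zero P).2 fun j => mk_eq_zero.1 (congrFun this j))
    (qmat P X.d3) (mkv P x) (by
      rintro e he ⟨w, hw⟩
      obtain ⟨w, rfl⟩ := mkv_surj P w
      have h3 : e • mkv P x = mkv P fun i => x i * e.unop := rfl
      rw [qmat_mkv, h3, eq_comm, mkv_eq] at hw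
      refine hy' (B.rtf _ he.unop y hy ?_)
      have h5 : y * e.unop = act X.d2 ((fun i => x i * e.unop) - act X.d3 w) () := by
        rw [act_sub, act_act X.z23, sub_zero, congrFun hx ()]
        exact (act_smul X.d2 x e.unop ()).symm
      rw [h5]
      exact sum_mem fun j _ => B.rk _ (hw j) _ (h2 j))
  obtain ⟨v, rfl⟩ := mkv_surj P v
  obtain ⟨u, hu⟩ := exists_row P θ
  rw [qmat_mkv, mkv_eq_zero] at hv
  exact Pool.Agent.Lib.MP_95d09c_al.exists_mem_Tid B.hP X u v hv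
    (fun w => (hu _).1 (by rw [← qmat_mkv, hθ])) fun h => hθ' ((hu v).2 h)

end RowCol

theorem exists_socle {X D : Submodule R R} (j : ℕ) : ∀ x ∈ X, x ∉ D → (∀ w ∈ Wd R j, w * x ∈ D) →
    ∃ y ∈ X, y ∉ D ∧ ∀ μ, ¬ IsUnit μ → μ * y ∈ D := by
  induction j with
  | zero => intro x _ hx h; exact absurd (by simpa using h 1 rfl) hx
  | succ j ih =>
    intro x hx hx' h
    by_cases h1 : ∀ μ, ¬ IsUnit μ → μ * x ∈ D
    · exact ⟨x, hx, hx', h1⟩
    · push Not at h1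
      obtain ⟨μ, hμ, h2⟩ := h1
      refine ih (μ * x) (X.smul_mem μ hx) h2 fun w hw => ?_
      rw [← mul_assoc]
      exact h _ (Wd_mul_right hw hμ)

theorem final (Ψ : Psi R) (hg : Nonempty (Fin Ψ.X.g4)) {Q K : TwoSidedIdeal R} (hQ : Prm Q)
    (hK : ∀ x, x ∈ K ↔ ∀ p ∈ Q, p * x = 0) (htf : ∀ c, Reg Q c → ∀ x ∈ K, c * x = 0 → x = 0)
    {x1 : R} (hx1 : x1 ∈ K) (hx1' : x1 ≠ 0) {c0 : R} (hc0 : Reg Q c0) (hc0' : ¬ IsUnit c0)
    (hsoc : ∀ x : R, (∀ μ, ¬ IsUnit μ → x * μ = 0) → x = 0)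
    (h1 : ∀ c, Reg Q c → ∃ j, ∀ w ∈ Wd R j, ∃ r, w - r * c ∈ Q) : False := by
  classical
  have := noeth_opop (R := R)
  have := op_local (Λ := R)
  have := isNoetherian_right (Λ := R)
  obtain ⟨Q', hQ', -, ⟨x2, hx2, hx2', hx2''⟩, htf'⟩ := exists_ann_prime K.op (x0 := op x1)
    (mop.2 hx1) (by simpa using hx1')
  let X : TwoSidedIdeal R := (killed K.op Q' fun a ha r => Q'.mul_mem_right a r ha).unop
  have hX : ∀ x, x ∈ X ↔ x ∈ K ∧ ∀ p ∈ Q', x * p.unop = 0 := fun x => by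
    rw [TwoSidedIdeal.mem_unop_iff, mem_killed, mop]
    refine and_congr Iff.rfl (forall₂_congr fun p _ => ?_)
    rw [← unop_eq_zero_iff]; rfl
  have hx3 : x2.unop ∈ X := (hX _).2 ⟨mop.1 hx2, fun p hp => congrArg unop (hx2'' p hp)⟩
  obtain ⟨d, hd, hd'⟩ : ∃ d ∈ mx Rᵐᵒᵖ, Reg Q' d := by
    by_contra hc
    refine hx2' (unop_injective (hsoc _ fun μ hμ => ((hX _).1 hx3).2 (op μ) ?_))
    by_contra h
    exact hc (exists_reg_ideal hQ' (mem_mx.2 (by simpa using hμ)) h)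
  have hdu : ¬ IsUnit d.unop := fun h => mem_mx.1 hd (by simpa using h.op)
  have hinj : ∀ x ∈ X, x * d.unop = 0 → x = 0 := fun x hx h =>
    op_injective (htf' d hd' (op x) (mop.2 ((hX x).1 hx).1)
      (fun p hp => unop_injective (((hX x).1 hx).2 p hp)) (unop_injective h))
  have hcl : Cl Ψ (R ⧸ lsub X) := by
    refine cl_of_no_socle fun x hx => ?_
    let S : TwoSidedIdeal R := TwoSidedIdeal.mk' {x | ∀ μ, ¬ IsUnit μ → x * μ ∈ X}
      (fun μ _ => by rw [zero_mul]; exact X.zero_mem)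
      (fun ha hb μ hμ => by rw [add_mul]; exact X.add_mem (ha μ hμ) (hb μ hμ))
      (fun ha μ hμ => by rw [neg_mul]; exact X.neg_mem (ha μ hμ))
      (fun ha μ hμ => by rw [mul_assoc]; exact X.mul_mem_left _ _ (ha μ hμ))
      (fun ha μ hμ => by rw [mul_assoc]; exact ha _ (nu_mul_left _ hμ))
    have hS : ∀ x, x ∈ S ↔ ∀ μ, ¬ IsUnit μ → x * μ ∈ X := fun x => by simp [S]
    obtain ⟨i, hi⟩ := left_nil_of_right_nil (U := S) (U' := X) (j := 1) (by
      rintro _ ⟨μ, w, hμ, -, rfl⟩ y hy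
      exact (hS y).1 hy _ (nu_mul_right hμ w))
    have hxK : x ∈ K := (hK x).2 fun p hp => hsoc _ fun μ hμ => by
      rw [mul_assoc]
      exact (hK _).1 ((hX _).1 (hx μ hμ)).1 p hp
    refine (hX x).2 ⟨hxK, fun p hp => htf _ (hc0.pow i) _ (K.mul_mem_right _ _ hxK) ?_⟩
    rw [← mul_assoc]
    exact ((hX _).1 (hi _ (pow_mem_Wd hc0' i) x ((hS x).2 hx))).2 p hp
  let D : Submodule R R := (lsub X).map (LinearMap.toSpanSingleton R R d.unop)
  obtain ⟨x0, hx0, hx0'⟩ : ∃ x0 ∈ X, x0 ∉ D := by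
    by_contra hc
    push Not at hc
    have h2 : rsub X ≤ ⊥ := by
      refine nak (IsNoetherian.noetherian _) fun x hx => Submodule.mem_sup_right ?_
      obtain ⟨z, hz, rfl⟩ := hc x hx
      exact smul_mem_msub (w := d) ⟨d, 1, mem_mx.1 hd, rfl, (mul_one d).symm⟩ hz
    exact hx2' (unop_injective (h2 hx3))
  obtain ⟨c, hc, z0, hz0⟩ := exists_reg_smul hQ (M := lsub X)
    (fun p hp x => Subtype.ext ((hK _).1 ((hX _).1 x.2).1 p hp))
    ((LinearMap.toSpanSingleton R R d.unop).restrict fun x hx => X.mul_mem_right x _ hx)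
    (by
      rw [injective_iff_map_eq_zero]
      exact fun x hx => Subtype.ext (hinj x x.2 (congrArg Subtype.val hx))) ⟨x0, hx0⟩
  obtain ⟨j, hj⟩ := h1 c hc
  obtain ⟨x, hx, hx', hxm⟩ := exists_socle (X := lsub X) (D := D) j x0 hx0 hx0' fun w hw => by
    obtain ⟨r, hr⟩ := hj w hw
    have h2 : (w - r * c) * x0 = 0 := (hK _).1 ((hX _).1 hx0).1 _ hr
    rw [sub_mul, sub_eq_zero, mul_assoc] at h2
    rw [h2]
    exact D.smul_mem r ⟨z0, z0.2, congrArg Subtype.val hz0⟩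
  obtain ⟨k⟩ := hg
  choose z hz hz' using fun i => hxm _ (Ψ.X.min i k)
  have h3 : act Ψ.X.d4 (Pi.single k x) = fun i => z i * d.unop := by
    ext i
    have : z i * d.unop = Ψ.X.d4 i k * x := hz' i
    rw [this]
    simp [act, Pi.single_apply]
  obtain ⟨w, hw⟩ := Ψ.X.e34 z (funext fun i => hinj _ (act_mem (V := lsub X) _ hz i) (by
    have := congrFun (act_act Ψ.X.z34 (Pi.single k x)) i
    rw [h3] at this
    exact (act_smul Ψ.X.d3 z d.unop i).symm.trans this))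
  have h4 := (cl_iff _).1 hcl w (fun i => hw ▸ hz i) k
  have h5 := Ψ.X.inj (Pi.single k x - fun j => w j * d.unop) (by
    rw [act_sub, h3, sub_eq_zero, hw]
    exact funext fun i => (act_smul Ψ.X.d4 w d.unop i).symm)
  refine hx' ⟨w k, h4, ?_⟩
  have := congrFun h5 k
  simp only [Pi.sub_apply, Pi.single_eq_same, Pi.zero_apply, sub_eq_zero] at this
  exact this.symm

theorem eq_zero_or_eq_zero (hL : GD4 R) (hR : GD4 Rᵐᵒᵖ) {a b : R} (hab : a * b = 0) :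
    a = 0 ∨ b = 0 := by
  by_contra hc
  push Not at hc
  have := op_local (Λ := R)
  have := isNoetherian_right (Λ := R)
  obtain ⟨N, hN, hN'⟩ := exists_nil hL
  obtain ⟨x0, hx0, hx0'⟩ : ∃ x0 ∈ N, x0 ≠ 0 := by
    rcases hN' a b (hab ▸ N.zero_mem) with h | h
    · exact ⟨a, h, hc.1⟩
    · exact ⟨b, h, hc.2⟩
  have hx0u : ¬ IsUnit x0 := ((hN x0).1 hx0).not_isUnit
  have hsoc : ∀ x : R, (∀ μ, ¬ IsUnit μ → x * μ = 0) → x = 0 := fun x hx =>
    no_right_socle hL hx0u hx0' hx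
  have hsoc' : ∀ x : R, (∀ μ, ¬ IsUnit μ → μ * x = 0) → x = 0 := fun x hx =>
    op_injective (no_right_socle hR (ν := op x0) (by simpa using hx0u) (by simpa using hx0')
      fun μ hμ => unop_injective (hx μ.unop (by simpa using hμ)))
  obtain ⟨Q, hQ, hQ1, ⟨x1, hx1, hx1', hx1''⟩, htf⟩ := exists_ann_prime N hx0 hx0'
  obtain ⟨y, hy, hyQ⟩ : ∃ y, y ∉ N ∧ y ∈ Q := by
    obtain ⟨s, hs⟩ := IsNoetherian.noetherian (rsub N)
    obtain ⟨y, hy, hy'⟩ := exists_ann hL s fun x hx => (hN x).1 (by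
      have : x ∈ rsub N := hs ▸ Submodule.subset_span hx
      exact this)
    refine ⟨y, fun h => hy ((hN y).1 h), hQ1 y fun x hx => ?_⟩
    have h1 : rsub N ≤ LinearMap.ker (lmul y) := by
      rw [← hs, Submodule.span_le]
      exact fun x hx => hy' x hx
    exact h1 hx
  let K : TwoSidedIdeal R := killed ⊤ Q fun a ha r => Q.mul_mem_right a r ha
  have hK : ∀ x, x ∈ K ↔ ∀ p ∈ Q, p * x = 0 := fun x => by
    rw [mem_killed]; simp
  have hKN : ∀ x ∈ K, x ∈ N := fun x hx =>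
    (hN' y x (by rw [(hK x).1 hx y hyQ]; exact N.zero_mem)).resolve_left hy
  have htf' : ∀ c, Reg Q c → ∀ x ∈ K, c * x = 0 → x = 0 := fun c hc x hx =>
    htf c hc x (hKN x hx) ((hK x).1 hx)
  have hx1K : x1 ∈ K := (hK x1).2 hx1''
  obtain ⟨c0, hc0, hc0'⟩ : ∃ c ∈ mx R, Reg Q c := by
    by_contra hc
    refine hx1' (hsoc' _ fun μ hμ => hx1'' μ ?_)
    by_contra h
    exact hc (exists_reg_ideal hQ (mem_mx.2 hμ) h)
  obtain ⟨K', P, B⟩ := exists_bond hQ (fun p hp x hx => (hK x).1 hx p hp) htf' hx1K hx1'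
  obtain ⟨d, hd, hd'⟩ := B.exists_nu hc0' (mem_mx.1 hc0)
  obtain ⟨Ψ⟩ := nonempty_psi hR
  obtain ⟨n, s, hs⟩ := Submodule.fg_iff_exists_fin_generating_family.1
    (IsNoetherian.noetherian (lsub Q))
  let d1 : Matrix (Fin n) Unit R := Matrix.of fun i _ => s i
  have hd1 : ∀ z : Unit → R, act d1 z = 0 ↔ z () ∈ K := fun z => by
    rw [hK]
    constructor
    · intro h p hp
      have h1 : lsub Q ≤ LinearMap.ker (LinearMap.toSpanSingleton R R (z ())) := by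
        rw [← hs, Submodule.span_le]
        rintro _ ⟨i, rfl⟩
        simpa [act, d1] using congrFun h i
      exact h1 hp
    · intro h
      ext i
      have : s i ∈ lsub Q := hs ▸ Submodule.subset_span ⟨i, rfl⟩
      simpa [act, d1] using h _ this
  obtain ⟨X⟩ := nonempty_cx hR d1
  have hrk : X.g3 = X.g4 + X.g2 := by
    obtain ⟨F, hF, hF'⟩ := exists_addf_nil hR
    have h1 := hF' ((rsub K).map (opEq R).toLinearMap) (by
      rintro _ ⟨x, hx, rfl⟩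
      obtain ⟨m, hm⟩ := (hN x).1 (hKN x hx)
      exact ⟨m, unop_injective hm⟩)
    have h2 := F.le_of_inj
      (((opEq R).toLinearMap ∘ₗ (LinearMap.proj () : (Unit → R) →ₗ[Rᵐᵒᵖ] R)).restrict
        (p := LinearMap.ker (rmat d1)) (q := (rsub K).map (opEq R).toLinearMap)
        fun z hz => ⟨z (), (hd1 z).1 hz, rfl⟩)
      fun z w h => Subtype.ext (funext fun _ => op_injective (congrArg Subtype.val h))
    have h3 := X.rk F
    rw [h1, Nat.le_zero] at h2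
    rw [h2, zero_add] at h3
    exact Nat.eq_of_mul_eq_mul_right hF h3
  obtain ⟨t, ht, ht'⟩ := B.exists_mem_Tid Ψ hd hd' X hd1 hrk
  exact final Ψ (g4_pos B.hP ht ht' hd hd') hQ hK htf' hx1K hx1' hc0' (mem_mx.1 hc0) hsoc
    fun c hc => B.transfer (fun e he => one_dim B.hP ht ht' he) hc

end Pool.Agent.Lib.MP_95d09c_al
end
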