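import Pool.Agent.Lib.MP_95d09c_al.ExtM

/-!
The minimal resolution of the residue module in terms of matrices.
-/

set_option autoImplicit false
set_option linter.unusedSectionVars false

namespace Pool.Agent.Lib.MP_95d09c_al

open CategoryTheory Abelian Matrix

attribute [local instance] ModuleCat.Algebra.instLinear

/-- The residue module. -/
abbrev kk (A : Type) [Ring A] : Type := A ⧸ Ring.jacobson A

theorem mem_jac {A : Type} [Ring A] [IsLocalRing A] {a : A} :
    a ∈ Ring.jacobson A ↔ ¬ IsUnit a := by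
  refine ⟨fun h hu => ?_, mem_jacobson_of_nu⟩
  have h1 : Ring.jacobson A = ⊤ := Ideal.eq_top_of_isUnit_mem _ h hu
  exact (Ring.jacobson_lt_top A).ne h1

theorem kk_eq_zero {A : Type} [Ring A] [IsLocalRing A] {a : A} :
    (Ring.jacobson A).mkQ a = 0 ↔ ¬ IsUnit a := mkQ_eq_zero.trans mem_jac

section Anti

variable (C : Type) [CommRing C] (A A' : Type) [Ring A] [Algebra C A] [Ring A'] [Algebra C A']

/-- An anti-isomorphism of algebras. -/
structure Anti where
  s : A ≃ₗ[C] A'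
  mul : ∀ a b, s (a * b) = s b * s a
  one : s 1 = 1

variable {C A A'} (σ : Anti C A A')

/-- The inverse anti-isomorphism. -/
def Anti.symm : Anti C A' A where
  s := σ.s.symm
  mul a b := σ.s.injective (by simp [σ.mul])
  one := σ.s.injective (by simp [σ.one])

theorem Anti.unit {a : A} (h : IsUnit a) : IsUnit (σ.s a) := by
  obtain ⟨u, rfl⟩ := h
  exact ⟨⟨σ.s u, σ.s ↑u⁻¹, by rw [← σ.mul, Units.inv_mul, σ.one],
    by rw [← σ.mul, Units.mul_inv, σ.one]⟩, rfl⟩

theorem Anti.nu {a : A} (h : ¬ IsUnit a) : ¬ IsUnit (σ.s a) := fun h' =>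
  h (by simpa [Anti.symm] using σ.symm.unit h')

theorem Anti.alg (c : C) : σ.s (algebraMap C A c) = algebraMap C A' c := by
  rw [Algebra.algebraMap_eq_smul_one, map_smul, σ.one, Algebra.algebraMap_eq_smul_one]

variable {a b c : Type}

/-- The transposed matrix over the other ring. -/
def Anti.tr (α : Matrix a b A) : Matrix b a A' := Matrix.of fun j i => σ.s (α i j)

/-- The anti-isomorphism applied to each entry. -/
def Anti.sv (b : Type) : (b → A) ≃ₗ[C] (b → A') := LinearEquiv.piCongrRight fun _ => σ.s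

theorem Anti.sv_apply (z : b → A) (i : b) : σ.sv b z i = σ.s (z i) := rfl

theorem Anti.tr_mul [Fintype b] (α : Matrix a b A) (β : Matrix b c A) :
    σ.tr (α * β) = σ.tr β * σ.tr α := by
  ext j i
  simp [Anti.tr, Matrix.mul_apply, σ.mul]

theorem Anti.tr_zero : σ.tr (0 : Matrix a b A) = 0 := by
  ext j i
  simp [Anti.tr]

theorem Anti.sv_act [Fintype b] (α : Matrix a b A) (z : b → A) :
    σ.sv a (act α z) = σ.sv b z ᵥ* σ.tr α := by
  ext i
  simp [Anti.tr, Anti.sv_apply, act, vecMul, dotProduct, σ.mul]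

theorem Anti.sv_vecMul [Fintype a] (α : Matrix a b A) (r : a → A) :
    σ.sv b (r ᵥ* α) = act (σ.tr α) (σ.sv a r) := by
  ext i
  simp [Anti.tr, Anti.sv_apply, act, vecMul, dotProduct, σ.mul]

variable (C) in
/-- The opposite ring. -/
def antiOp (R : Type) [Ring R] [Algebra C R] : Anti C R Rᵐᵒᵖ :=
  ⟨MulOpposite.opLinearEquiv C, fun _ _ => rfl, rfl⟩

end Anti

variable (C : Type) [CommRing C] (A : Type) [Ring A] [Algebra C A]

/-- The minimal resolution of the residue module, with a zero term in front. -/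
structure MR where
  g : ℕ → ℕ
  Φ : ∀ p, Matrix (Fin (g (p + 1))) (Fin (g p)) A
  g0 : g 0 = 0
  zz : ∀ p, Φ (p + 1) * Φ p = 0
  min : ∀ p i j, ¬ IsUnit (Φ p i j)
  rowE : ∀ p (r : Fin (g (p + 2)) → A), r ᵥ* Φ (p + 1) = 0 → ∃ s, s ᵥ* Φ (p + 2) = r
  row1 : ∃ π : (Fin (g 1) → A) →ₗ[A] kk A, Function.Surjective π ∧
    ∀ r, π r = 0 ↔ ∃ s, s ᵥ* Φ 1 = r
  κ : ∀ p, ∃ κ : cyc C A (Φ (p + 1)) →ₗ[C] EX A (kk A) A p, Function.Surjective κ ∧
    ∀ z, κ z = 0 ↔ z.1 ∈ bd C A (Φ p)
  fin : ∀ N, PD A (N + 1) (kk A) → g (N + 2) = 0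

section Build

variable {A} {M : Type} [AddCommGroup M] [Module A M] (T : Tower A M)

/-- Ranks with a zero in front. -/
def Tower.g' : ℕ → ℕ
  | 0 => 0
  | p + 1 => T.g p

/-- The matrices of the resolution. -/
def Tower.Ψ (p : ℕ) : Matrix (Fin (T.g (p + 1))) (Fin (T.g p)) A :=
  Matrix.of fun i j => T.ι p (T.p (p + 1) (Pi.single i 1)) j

/-- The matrices of the resolution with a zero in front. -/
def Tower.Φ : ∀ p, Matrix (Fin (T.g' (p + 1))) (Fin (T.g' p)) A
  | 0 => 0
  | p + 1 => T.Ψ p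

theorem eq_sum_single {n : ℕ} (r : Fin n → A) : r = ∑ i, r i • (Pi.single i 1 : Fin n → A) := by
  ext j
  simp [Finset.sum_apply, Pi.single_apply]

theorem Tower.vecMul (p : ℕ) (r : Fin (T.g (p + 1)) → A) :
    r ᵥ* T.Ψ p = T.ι p (T.p (p + 1) r) := by
  ext j
  conv_rhs => rw [eq_sum_single r]
  simp only [map_sum, map_smul, Finset.sum_apply, Pi.smul_apply, smul_eq_mul]
  rfl

/-- A linear form on a free module given by a column. -/
def colF {n : ℕ} (z : Fin n → A) : (Fin n → A) →ₗ[A] A where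
  toFun r := r ⬝ᵥ z
  map_add' r s := add_dotProduct r s z
  map_smul' c r := smul_dotProduct c r z

theorem colF_single {n : ℕ} (z : Fin n → A) (j : Fin n) : colF z (Pi.single j 1) = z j := by
  simp [colF]

theorem eq_colF {n : ℕ} (f : (Fin n → A) →ₗ[A] A) : f = colF fun j => f (Pi.single j 1) := by
  refine LinearMap.ext fun r => ?_
  conv_lhs => rw [eq_sum_single r]
  simp only [map_sum, map_smul, smul_eq_mul]
  rfl

theorem colF_act {n m : ℕ} (α : Matrix (Fin n) (Fin m) A) (z : Fin m → A) (r : Fin n → A) :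
    colF (act α z) r = colF z (r ᵥ* α) := (dotProduct_mulVec r α z)

/-- The column of a linear form on a syzygy. -/
def Tower.col (p : ℕ) : (T.Ω p →ₗ[A] A) →ₗ[C] cyc C A (T.Ψ p) where
  toFun f := ⟨fun j => f (T.p p (Pi.single j 1)), by
    ext i
    have h1 := colF_act (T.Ψ p) (fun j => (f ∘ₗ T.p p) (Pi.single j 1)) (Pi.single i 1)
    rw [colF_single, ← eq_colF, T.vecMul, LinearMap.comp_apply,
      (T.ses p).ex.apply_apply_eq_zero, map_zero] at h1
    exact h1⟩
  map_add' _ _ := rfl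
  map_smul' _ _ := rfl

theorem Tower.colF_col (p : ℕ) (f : T.Ω p →ₗ[A] A) :
    colF (T.col C p f).1 = f ∘ₗ T.p p := (eq_colF (f ∘ₗ T.p p)).symm

theorem Tower.col_bij (p : ℕ) : Function.Bijective (T.col C p) := by
  constructor
  · intro f f' h
    ext x
    obtain ⟨r, rfl⟩ := (T.ses p).surj x
    have h1 := T.colF_col C p f
    rw [h, T.colF_col C] at h1
    exact (LinearMap.congr_fun h1 r).symm
  · rintro ⟨z, hz⟩
    have h1 : LinearMap.ker (T.p p) ≤ LinearMap.ker (colF z) := by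
      intro r hr
      obtain ⟨x, rfl⟩ := ((T.ses p).ex r).1 hr
      obtain ⟨s, rfl⟩ := (T.ses (p + 1)).surj x
      rw [LinearMap.mem_ker, ← T.vecMul, ← colF_act, mem_cyc.1 hz]
      simp [colF]
    let f : T.Ω p →ₗ[A] A := (LinearMap.ker (T.p p)).liftQ (colF z) h1 ∘ₗ
      ((T.p p).quotKerEquivOfSurjective (T.ses p).surj).symm.toLinearMap
    have hf : ∀ r, f (T.p p r) = colF z r := fun r => by
      have : ((T.p p).quotKerEquivOfSurjective (T.ses p).surj).symm (T.p p r) =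
          Submodule.Quotient.mk r := (LinearEquiv.symm_apply_eq _).2 rfl
      simp only [f, LinearMap.comp_apply, LinearEquiv.coe_coe, this, Submodule.liftQ_apply]
    exact ⟨f, Subtype.ext (funext fun j => (hf _).trans (colF_single _ _))⟩

/-- Composition in the second variable as a linear map over the base. -/
noncomputable def postL {L : Type} [AddCommGroup L] [Module A L] {q : ℕ} (x : EX A L M q) :
    (M →ₗ[A] A) →ₗ[C] EX A L A q where
  toFun f := post x f
  map_add' := post_add x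
  map_smul' c f := post_smul c x f

end Build

theorem nonempty_mr [IsLocalRing A] [IsNoetherianRing A] : Nonempty (MR C A) := by
  obtain ⟨T⟩ := nonempty_tower A (kk A)
  refine ⟨⟨T.g', T.Φ, rfl, ?_, ?_, ?_, ?_, ?_, ?_⟩⟩
  · rintro (_ | p)
    · exact Matrix.mul_zero _
    · ext i j
      have h1 : (T.Φ (p + 1 + 1) * T.Φ (p + 1)) i j =
          (T.ι (p + 1) (T.p (p + 2) (Pi.single i 1)) ᵥ* T.Ψ p) j := rfl
      rw [h1, T.vecMul, (T.ses (p + 1)).ex.apply_apply_eq_zero, map_zero]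
      rfl
  · rintro (_ | p) i j
    · exact not_isUnit_zero
    · exact T.min p _ j
  · intro p r hr
    have h1 : T.p (p + 1) r = 0 := (T.ses p).inj (by rw [← T.vecMul, map_zero]; exact hr)
    obtain ⟨x, rfl⟩ := ((T.ses (p + 1)).ex r).1 h1
    obtain ⟨s, rfl⟩ := (T.ses (p + 2)).surj x
    exact ⟨s, T.vecMul (p + 1) s⟩
  · refine ⟨T.e.symm.toLinearMap ∘ₗ T.p 0, T.e.symm.surjective.comp (T.ses 0).surj, fun r => ?_⟩
    refine (map_eq_zero_iff _ T.e.symm.injective).trans (((T.ses 0).ex r).trans ⟨?_, ?_⟩)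
    · rintro ⟨x, rfl⟩
      obtain ⟨s, rfl⟩ := (T.ses 1).surj x
      exact ⟨s, T.vecMul 0 s⟩
    · rintro ⟨s, rfl⟩
      exact ⟨_, (T.vecMul 0 s).symm⟩
  · intro p
    let e := LinearEquiv.ofBijective _ (T.col_bij C p)
    refine ⟨postL C (T.η p) ∘ₗ e.symm.toLinearMap, fun x => ?_, fun z => ?_⟩
    · obtain ⟨f, rfl⟩ := T.surj0 p x
      exact ⟨e f, congrArg (post (T.η p)) (e.symm_apply_apply f)⟩
    · obtain ⟨f, rfl⟩ := e.surjective z
      have h1 : (postL C (T.η p) ∘ₗ e.symm.toLinearMap) (e f) = post (T.η p) f :=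
        congrArg (post (T.η p)) (e.symm_apply_apply f)
      refine (Eq.congr_left h1).trans ?_
      rcases p with _ | p
      · refine ⟨fun h => ?_, ?_⟩
        · rw [T.ker0 f h, map_zero]
          exact Submodule.zero_mem _
        · rintro ⟨w, hw⟩
          have h2 : e f = 0 := Subtype.ext (hw.symm.trans (zero_act (R := A) (E := A) w))
          rw [(map_eq_zero_iff _ e.injective).1 h2, post_zero]
      · rw [T.ker]
        refine ⟨?_, ?_⟩
        · rintro ⟨g, rfl⟩
          refine ⟨fun j : Fin (T.g p) => g (Pi.single j 1), funext fun i => ?_⟩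
          have h2 := colF_act (T.Ψ p) (fun j => g (Pi.single j 1)) (Pi.single i 1)
          rw [colF_single, ← eq_colF, T.vecMul] at h2
          exact h2
        · rintro ⟨w, hw⟩
          refine ⟨colF (n := T.g p) w, LinearMap.ext fun x => ?_⟩
          obtain ⟨r, rfl⟩ := (T.ses (p + 1)).surj x
          have h2 : act (T.Ψ p) w = (T.col C (p + 1) f).1 := hw
          rw [LinearMap.comp_apply, ← T.vecMul, ← colF_act]
          exact (LinearMap.congr_fun ((congrArg colF h2).trans (T.colF_col C (p + 1) f)) r).symm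
  · intro N h
    have := pd_one (T.pd N 0 (by rw [zero_add]; exact h))
    have h1 := Cover.inj ⟨T.g N, T.p N, (T.ses N).surj, fun x hx j => by
      obtain ⟨y, rfl⟩ := ((T.ses N).ex x).1 hx
      exact T.min N y j⟩
    by_contra h0
    let j : Fin (T.g (N + 1)) := ⟨0, Nat.pos_of_ne_zero h0⟩
    have h2 : T.p (N + 1) (Pi.single j 1) = 0 := (T.ses N).inj (h1 (by
      rw [map_zero, map_zero]
      exact (T.ses N).ex.apply_apply_eq_zero _))
    obtain ⟨y, hy⟩ := ((T.ses (N + 1)).ex _).1 h2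
    exact T.min (N + 1) y j (by rw [hy]; simp)

variable {C A} [IsLocalRing A] (X : MR C A)

theorem MR.triv (M : Type) : Subsingleton (Fin (X.g 0) → M) := by
  have : IsEmpty (Fin (X.g 0)) := by rw [X.g0]; infer_instance
  infer_instance

theorem MR.g1_pos : 0 < X.g 1 := by
  by_contra h
  have : IsEmpty (Fin (X.g 1)) := ⟨fun i => h i.pos⟩
  obtain ⟨π, hπ, -⟩ := X.row1
  obtain ⟨r, hr⟩ := hπ ((Ring.jacobson A).mkQ 1)
  rw [Subsingleton.elim r 0, map_zero] at hr
  exact kk_eq_zero.1 hr.symm isUnit_one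

theorem MR.row_nu {r : Fin (X.g 1) → A} (hr : ∀ j, ¬ IsUnit (r j)) : ∃ s, s ᵥ* X.Φ 1 = r := by
  obtain ⟨π, -, hπ⟩ := X.row1
  rw [← hπ, eq_sum_single r, map_sum]
  refine Finset.sum_eq_zero fun j _ => ?_
  obtain ⟨y, hy⟩ := (Ring.jacobson A).mkQ_surjective (π (Pi.single j 1))
  rw [map_smul, ← hy, ← map_smul, kk_eq_zero]
  exact nu_mul_right (hr j) y

theorem MR.sm {τ : Prop} {p : ℕ} (h : IsFiniteLength C (EX A (kk A) A p))
    (ht : τ → ∀ x : EX A (kk A) A p, x = 0) : Sm τ (cyc C A (X.Φ (p + 1))) (bd C A (X.Φ p)) := by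
  obtain ⟨κ, -, hκ⟩ := X.κ p
  exact Sm.of_map κ h (fun t _ => ht t _) fun x hx => (hκ x).1 hx

theorem bd_nu {a b : Type} [Fintype b] {α : Matrix a b A} (h : ∀ i j, ¬ IsUnit (α i j))
    {z : a → A} (hz : z ∈ bd C A α) (i : a) : ¬ IsUnit (z i) := by
  obtain ⟨w, rfl⟩ := hz
  exact mem_mx.1 (sum_mem fun j _ => mem_mx.2 (nu_mul_right (h i j) _))

theorem bd_msub {a b : Type} [Fintype b] {α : Matrix a b A} (h : ∀ i j, ¬ IsUnit (α i j))
    {M : Type} [AddCommGroup M] [Module A M] [Module C M] [IsScalarTower C A M]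
    {z : a → M} (hz : z ∈ bd C M α) (i : a) : z i ∈ msub 1 (⊤ : Submodule A M) := by
  obtain ⟨w, rfl⟩ := hz
  exact sum_mem fun j _ => smul_mem_msub ⟨α i j, 1, h i j, rfl, (mul_one _).symm⟩ trivial

/-- The top Ext group of the residue module does not vanish. -/
theorem MR.top_ne {n : ℕ} (h1 : X.g (n + 2) = 0) (h2 : 0 < X.g (n + 1)) :
    ∃ x : EX A (kk A) A n, x ≠ 0 := by
  obtain ⟨κ, -, hκ⟩ := X.κ n
  have : IsEmpty (Fin (X.g (n + 1 + 1))) := by rw [h1]; infer_instance
  exact ⟨κ ⟨fun _ => 1, Subsingleton.elim _ _⟩, fun h =>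
    bd_nu (X.min n) ((hκ _).1 h) ⟨0, h2⟩ isUnit_one⟩

theorem MR.exists_top {N : ℕ} (h : PD A (N + 1) (kk A)) :
    ∃ n, X.g (n + 2) = 0 ∧ 0 < X.g (n + 1) := by
  classical
  have hex : ∃ n, X.g (n + 2) = 0 := ⟨N, X.fin N h⟩
  refine ⟨Nat.find hex, Nat.find_spec hex, ?_⟩
  rcases h0 : Nat.find hex with _ | n
  · exact X.g1_pos
  · exact Nat.pos_of_ne_zero (Nat.find_min hex (m := n) (by omega))

variable {A' : Type} [Ring A'] [Algebra C A'] (σ : Anti C A A')

theorem MR.tzz (p : ℕ) : σ.tr (X.Φ p) * σ.tr (X.Φ (p + 1)) = 0 := by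
  rw [← σ.tr_mul, X.zz, σ.tr_zero]

theorem MR.rowSm (hk : IsFiniteLength C (kk A)) (p : ℕ) :
    Sm (0 < p) (cyc C A' (σ.tr (X.Φ p))) (bd C A' (σ.tr (X.Φ (p + 1)))) := by
  rcases p with _ | p
  · obtain ⟨π, -, hπ⟩ := X.row1
    refine Sm.of_map (π.restrictScalars C ∘ₗ (σ.sv _).symm.toLinearMap ∘ₗ Submodule.subtype _) hk
      (fun h => absurd h (lt_irrefl 0)) fun x hx => ?_
    obtain ⟨s, hs⟩ := (hπ _).1 hx
    refine ⟨σ.sv _ s, (σ.sv_vecMul (X.Φ 1) s).symm.trans ?_⟩
    rw [hs]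
    exact (σ.sv _).apply_symm_apply _
  · refine Sm.of_le fun z hz => ?_
    obtain ⟨r, rfl⟩ := (σ.sv _).surjective z
    obtain ⟨s, rfl⟩ := X.rowE p r ((σ.sv _).injective (by
      rw [σ.sv_vecMul, map_zero]; exact hz))
    exact ⟨σ.sv _ s, (σ.sv_vecMul (X.Φ (p + 2)) s).symm⟩

variable [IsNoetherianRing A']

/-- Tor with the residue module has finite length. -/
theorem MR.torFL (hk : IsFiniteLength C (kk A)) (p : ℕ) :
    ∀ (M : Type) [AddCommGroup M] [Module A' M] [Module C M] [IsScalarTower C A' M]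
      [Module.Finite A' M],
      Sm False (cyc C M (σ.tr (X.Φ p))) (bd C M (σ.tr (X.Φ (p + 1)))) := by
  induction p with
  | zero =>
    intro M _ _ _ _ _
    obtain ⟨e, f, hf⟩ := Module.Finite.exists_fin' A' M
    have := X.triv (LinearMap.ker f)
    exact (SES.ker hf).connB (α := (0 : Matrix Empty (Fin (X.g 0)) A')) (Matrix.zero_mul _)
      (Sm.top .of_subsingleton False.elim) (((X.rowSm σ hk 0).free _).imp False.elim)
  | succ p ih =>
    intro M _ _ _ _ _
    obtain ⟨e, f, hf⟩ := Module.Finite.exists_fin' A' M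
    exact (SES.ker hf).connB (X.tzz σ p) (ih _) (((X.rowSm σ hk (p + 1)).free _).imp False.elim)

variable [IsLocalRing A']

/-- Vanishing of Tor with the residue module bounds the projective dimension. -/
theorem MR.torB (hk : IsFiniteLength C (kk A)) (p : ℕ) :
    ∀ (M : Type) [AddCommGroup M] [Module A' M] [Module C M] [IsScalarTower C A' M]
      [Module.Finite A' M],
      cyc C M (σ.tr (X.Φ p)) ≤ bd C M (σ.tr (X.Φ (p + 1))) → PD A' p M := by
  induction p with
  | zero =>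
    intro M _ _ _ _ _ h
    have := X.triv M
    have h1 : (⊤ : Submodule A' M) ≤ ⊥ := by
      refine nak Module.Finite.fg_top fun x _ => Submodule.mem_sup_right ?_
      exact bd_msub (fun i j => σ.nu (X.min 1 j i)) (h (x := fun _ => x) (Subsingleton.elim _ _))
        ⟨0, X.g1_pos⟩
    have : Subsingleton M := subsingleton_of_forall_eq 0 fun x => h1 trivial
    exact pd_zero
  | succ p ih =>
    intro M _ _ _ _ _ h
    obtain ⟨c⟩ := nonempty_cover A' M
    have hs := SES.ker c.surj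
    refine pd_quot hs.inj hs.surj hs.ex (ih _ fun y hy => ?_)
    refine (hs.connA (τ := True) (X.tzz σ (p + 1)) (Sm.of_le (h.trans le_sup_left))).le trivial ?_
    rcases p with _ | p
    · refine mem_bd_free fun k => ?_
      obtain ⟨s, hs'⟩ := X.row_nu (r := fun j => σ.symm.s ((y j).1 k))
        fun j => σ.symm.nu (c.min _ (y j).2 k)
      refine ⟨σ.sv _ s, (σ.sv_vecMul (X.Φ 1) s).symm.trans ?_⟩
      rw [hs']
      exact funext fun j => σ.s.apply_symm_apply _
    · exact ((X.rowSm σ hk (p + 1)).free _).le (Nat.succ_pos p) (cm_cyc _ hy)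

include σ in
theorem MR.gl (hk : IsFiniteLength C (kk A)) {n : ℕ} (h : X.g (n + 2) = 0)
    (M : Type) [AddCommGroup M] [Module A' M] [Module C M] [IsScalarTower C A' M]
    [Module.Finite A' M] : PD A' (n + 1) M := by
  have : IsEmpty (Fin (X.g (n + 1 + 1))) := by rw [h]; infer_instance
  refine X.torB σ hk (n + 1) M fun z _ => ?_
  rw [Subsingleton.elim z 0]
  exact Submodule.zero_mem _

end Pool.Agent.Lib.MP_95d09c_al
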