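import Pool.Agent.Lib.MP_95d09c_al.MainC

set_option autoImplicit false

open CategoryTheory

namespace Pool.Agent.Lib.MP_95d09c_al.OldComplete

/-- `R` is separated and complete for the filtration by the powers of its Jacobson radical. -/
def RadComplete (R : Type) [Ring R] : Prop :=
  (∀ x : R, (∀ j : ℕ, x ∈ Ring.jacobson R ^ j) → x = 0) ∧
    ∀ f : ℕ → R, (∀ j : ℕ, f (j + 1) - f j ∈ Ring.jacobson R ^ j) →
      ∃ x : R, ∀ j : ℕ, x - f j ∈ Ring.jacobson R ^ j

/-- The group `Ext^i_R(R/J, R)` of left modules, `J` the Jacobson radical, has finite length as a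
module over the commutative base ring `C`. -/
def ExtFiniteLength (C R : Type) [CommRing C] [Ring R] [Algebra C R] (i : ℕ) : Prop :=
  letI : Linear C (ModuleCat.{0} R) := ModuleCat.Algebra.instLinear
  IsFiniteLength C
    (Abelian.Ext.{0} (ModuleCat.of R (R ⧸ Ring.jacobson R)) (ModuleCat.of R R) i)

/-- Let `R` be a (possibly noncommutative) local ring, left and right noetherian, of finite left
and right global dimension, complete for the radical filtration, and an algebra over a
commutative ring `C` over which the residue division ring `k` and all groups `Ext^i_R(k, R)` have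
finite length. Then `R` is a domain. -/
theorem result :
    ∀ (C R : Type) [CommRing C] [Ring R] [Algebra C R],
      IsLocalRing R → IsNoetherianRing R → IsNoetherianRing Rᵐᵒᵖ →
      (∃ n : ℕ, ∀ M : ModuleCat.{0} R, ∃ (P : ℕ → ModuleCat.{0} R)
          (d : ∀ i : ℕ, P (i + 1) ⟶ P i) (ε : P 0 ⟶ M),
          (∀ i, Module.Projective R (P i)) ∧ Function.Surjective ε.hom ∧
          LinearMap.range (d 0).hom = LinearMap.ker ε.hom ∧
          (∀ i, LinearMap.range (d (i + 1)).hom = LinearMap.ker (d i).hom) ∧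
          (∀ i, n < i → Subsingleton (P i))) →
      (∃ n : ℕ, ∀ M : ModuleCat.{0} Rᵐᵒᵖ, ∃ (P : ℕ → ModuleCat.{0} Rᵐᵒᵖ)
          (d : ∀ i : ℕ, P (i + 1) ⟶ P i) (ε : P 0 ⟶ M),
          (∀ i, Module.Projective Rᵐᵒᵖ (P i)) ∧ Function.Surjective ε.hom ∧
          LinearMap.range (d 0).hom = LinearMap.ker ε.hom ∧
          (∀ i, LinearMap.range (d (i + 1)).hom = LinearMap.ker (d i).hom) ∧
          (∀ i, n < i → Subsingleton (P i))) →
      RadComplete R → IsFiniteLength C (R ⧸ Ring.jacobson R) → (∀ i, ExtFiniteLength C R i) →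
      IsDomain R := by
  intro C R _ _ _ _ _ _ hL hR hc hk hχ
  have : NoZeroDivisors R := ⟨fun h =>
    Pool.Agent.Lib.MP_95d09c_al.eq_zero_or_eq_zero_of_chi
      (Pool.Agent.Lib.MP_95d09c_al.gdf_of_res hL) (Pool.Agent.Lib.MP_95d09c_al.gdf_of_res hR) hk hχ
      (fun x hx => hc.1 x fun j => Pool.Agent.Lib.MP_95d09c_al.jac_pow (A := R) j ▸ hx j)
      (fun f hf => (hc.2 f fun j => Pool.Agent.Lib.MP_95d09c_al.jac_pow (A := R) j ▸ hf j).imp
        fun x hx j => Pool.Agent.Lib.MP_95d09c_al.jac_pow (A := R) j ▸ hx j) h⟩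
  exact NoZeroDivisors.to_isDomain R

end Pool.Agent.Lib.MP_95d09c_al.OldComplete
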