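import Pool.Agent.Lib.MP_95d09c_al.Local

/-!
Projective dimension bookkeeping.
-/

set_option autoImplicit false
set_option linter.unusedSectionVars false

namespace Pool.Agent.Lib.MP_95d09c_al

open CategoryTheory

variable {Λ : Type} [Ring Λ]

/-- Projective dimension less than `n`. -/
def PD (Λ : Type) [Ring Λ] (n : ℕ) (E : Type) [AddCommGroup E] [Module Λ E] : Prop :=
  HasProjectiveDimensionLT (ModuleCat.of Λ E) n

variable {E' G E : Type} [AddCommGroup E'] [Module Λ E'] [AddCommGroup G] [Module Λ G]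
  [AddCommGroup E] [Module Λ E]

theorem shortExact_of {ι : E' →ₗ[Λ] G} {p : G →ₗ[Λ] E} (hι : Function.Injective ι)
    (hp : Function.Surjective p) (he : Function.Exact ι p) :
    (ModuleCat.shortComplexOfCompEqZero ι p he.linearMap_comp_eq_zero).ShortExact :=
  ModuleCat.shortComplex_shortExact _ he hι hp

theorem pd_proj [Module.Projective Λ G] (n : ℕ) : PD Λ (n + 1) G := by
  have : Projective (ModuleCat.of Λ G) := (IsProjective.iff_projective G).1 ‹_›
  unfold PD
  exact hasProjectiveDimensionLT_of_ge _ 1 _ (by omega)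

theorem pd_ker [Module.Projective Λ G] {ι : E' →ₗ[Λ] G} {p : G →ₗ[Λ] E}
    (hι : Function.Injective ι) (hp : Function.Surjective p) (he : Function.Exact ι p) {n : ℕ}
    (h : PD Λ (n + 2) E) : PD Λ (n + 1) E' :=
  (shortExact_of hι hp he).hasProjectiveDimensionLT_X₁ (n + 1) (pd_proj n) h

theorem pd_quot [Module.Projective Λ G] {ι : E' →ₗ[Λ] G} {p : G →ₗ[Λ] E}
    (hι : Function.Injective ι) (hp : Function.Surjective p) (he : Function.Exact ι p) {n : ℕ}
    (h : PD Λ n E') : PD Λ (n + 1) E :=
  (shortExact_of hι hp he).hasProjectiveDimensionLT_X₃ n h (pd_proj n)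

theorem pd_one (h : PD Λ 1 E) : Module.Projective Λ E :=
  (IsProjective.iff_projective E).2 (projective_iff_hasProjectiveDimensionLT_one.2 h)

theorem pd_zero [Subsingleton E] : PD Λ 0 E :=
  (ModuleCat.isZero_of_subsingleton (ModuleCat.of Λ E)).hasProjectiveDimensionLT_zero

theorem pd_ker' [Module.Projective Λ G] (p : G →ₗ[Λ] E) (hp : Function.Surjective p) {n : ℕ}
    (h : PD Λ (n + 2) E) : PD Λ (n + 1) (LinearMap.ker p) :=
  pd_ker (Submodule.injective_subtype _) hp (LinearMap.exact_subtype_ker_map p) h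

/-- Global dimension at most four, for left modules. -/
def GD4 (Λ : Type) [Ring Λ] : Prop :=
  ∀ (E : Type) [AddCommGroup E] [Module Λ E], PD Λ 5 E

theorem gl_of_res (h : ∀ M : ModuleCat.{0} Λ, ∃ (P : ℕ → ModuleCat.{0} Λ)
    (d : ∀ i : ℕ, P (i + 1) ⟶ P i) (ε : P 0 ⟶ M),
    (∀ i, Module.Projective Λ (P i)) ∧ Function.Surjective ε.hom ∧
    LinearMap.range (d 0).hom = LinearMap.ker ε.hom ∧
    (∀ i, LinearMap.range (d (i + 1)).hom = LinearMap.ker (d i).hom) ∧
    (∀ i, 4 < i → Subsingleton (P i))) : GD4 Λ := by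
  intro E _ _
  obtain ⟨P, d, ε, hP, hε, h0, hd, hs⟩ := h (ModuleCat.of Λ E)
  have step : ∀ i n, PD Λ n (LinearMap.range (d (i + 1)).hom) →
      PD Λ (n + 1) (LinearMap.range (d i).hom) := by
    intro i n hn
    have := hP (i + 1)
    refine pd_quot (ι := (LinearMap.range (d (i + 1)).hom).subtype)
      (p := (d i).hom.rangeRestrict) (Submodule.injective_subtype _)
      (LinearMap.surjective_rangeRestrict _) ?_ hn
    rw [LinearMap.exact_iff, LinearMap.ker_rangeRestrict, Submodule.range_subtype, hd i]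
  have h4 : PD Λ 0 (LinearMap.range (d 4).hom) := by
    have := hs 5 (by omega)
    have : Subsingleton (LinearMap.range (d 4).hom) :=
      (LinearMap.surjective_rangeRestrict (d 4).hom).subsingleton
    exact pd_zero
  have h1 := step 0 _ (step 1 _ (step 2 _ (step 3 _ h4)))
  have := hP 0
  refine pd_quot (ι := (LinearMap.range (d 0).hom).subtype) (p := ε.hom)
    (Submodule.injective_subtype _) hε ?_ h1
  rw [LinearMap.exact_iff, Submodule.range_subtype, h0]

end Pool.Agent.Lib.MP_95d09c_al
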