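import Pool.Agent.Lib.MP_95d09c_al.Col

/-!
Subquotients of finite length, and connecting maps for complexes of matrices.
-/

set_option autoImplicit false
set_option linter.unusedSectionVars false

namespace Pool.Agent.Lib.MP_95d09c_al

section Sm

variable {C : Type} [Ring C] {X Y Z : Type} [AddCommGroup X] [Module C X] [AddCommGroup Y]
  [Module C Y] [AddCommGroup Z] [Module C Z]

theorem fl_of_ex (f : X →ₗ[C] Y) (g : Y →ₗ[C] Z) (he : ∀ y, g y = 0 → ∃ x, f x = y)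
    (hX : IsFiniteLength C X) (hZ : IsFiniteLength C Z) : IsFiniteLength C Y := by
  have h1 : IsFiniteLength C (LinearMap.ker g) := by
    refine IsFiniteLength.of_surjective (f := f.restrict (p := (LinearMap.ker g).comap f)
      (q := LinearMap.ker g) fun x hx => hx) (hX.of_injective (Submodule.injective_subtype _)) ?_
    rintro ⟨y, hy⟩
    obtain ⟨x, rfl⟩ := he y hy
    exact ⟨⟨x, hy⟩, rfl⟩
  rw [isFiniteLength_iff_isNoetherian_isArtinian] at h1 hZ ⊢
  obtain ⟨_, _⟩ := h1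
  obtain ⟨_, _⟩ := hZ
  exact ⟨isNoetherian_of_range_eq_ker (LinearMap.ker g).subtype g (by simp),
    isArtinian_of_range_eq_ker (LinearMap.ker g).subtype g (by simp)⟩

/-- `U` has finite length modulo `V`, and is contained in `V` under the condition `τ`. -/
def Sm (τ : Prop) (U V : Submodule C X) : Prop :=
  IsFiniteLength C (U.map V.mkQ) ∧ (τ → U ≤ V)

variable {τ τ' : Prop} {U U' V V' W : Submodule C X}

theorem mkQ_eq_zero {x : X} : V.mkQ x = 0 ↔ x ∈ V := Submodule.Quotient.mk_eq_zero _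

theorem Sm.of_map (g : U →ₗ[C] Y) (hY : IsFiniteLength C Y) (hτ : τ → ∀ x, g x = 0)
    (hg : ∀ x, g x = 0 → (x : X) ∈ V) : Sm τ U V := by
  refine ⟨?_, fun h x hx => hg ⟨x, hx⟩ (hτ h _)⟩
  let φ : U →ₗ[C] U.map V.mkQ := V.mkQ.restrict fun x hx => ⟨x, hx, rfl⟩
  have h1 : IsFiniteLength C (U ⧸ LinearMap.ker g) :=
    hY.of_injective (f := (LinearMap.ker g).liftQ g le_rfl)
      (LinearMap.ker_eq_bot.1 (Submodule.ker_liftQ_eq_bot _ _ _ le_rfl))
  refine h1.of_surjective (f := (LinearMap.ker g).liftQ φ fun x hx =>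
    Subtype.ext (mkQ_eq_zero.2 (hg x hx))) ?_
  rintro ⟨_, x, hx, rfl⟩
  exact ⟨Submodule.Quotient.mk ⟨x, hx⟩, rfl⟩

theorem Sm.of_le (h : U ≤ V) : Sm τ U V :=
  Sm.of_map (Y := PUnit) 0 .of_subsingleton (fun _ _ => rfl) fun x _ => h x.2

theorem Sm.imp (h : Sm τ U V) (h' : τ' → τ) : Sm τ' U V := ⟨h.1, fun t => h.2 (h' t)⟩

theorem Sm.le (h : Sm τ U V) (t : τ) : U ≤ V := h.2 t

theorem Sm.comap {U V : Submodule C Y} (h : Sm τ U V) (f : X →ₗ[C] Y) :
    Sm τ (U.comap f) (V.comap f) :=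
  Sm.of_map ((V.mkQ ∘ₗ f).restrict (p := U.comap f) (q := U.map V.mkQ)
    fun x hx => ⟨f x, hx, rfl⟩) h.1
    (fun t x => Subtype.ext (mkQ_eq_zero.2 (h.2 t x.2)))
    fun _ hx => (mkQ_eq_zero (V := V)).1 (congrArg Subtype.val hx)

theorem Sm.map (h : Sm τ U V) (f : X →ₗ[C] Y) : Sm τ (U.map f) (V.map f) := by
  refine ⟨?_, fun t => Submodule.map_mono (h.2 t)⟩
  refine h.1.of_surjective (f := (V.mapQ (V.map f) f fun x hx => ⟨x, hx, rfl⟩).restrict
    (p := U.map V.mkQ) (q := (U.map f).map (V.map f).mkQ) ?_) ?_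
  · rintro _ ⟨x, hx, rfl⟩
    exact ⟨f x, ⟨x, hx, rfl⟩, rfl⟩
  · rintro ⟨_, _, ⟨x, hx, rfl⟩, rfl⟩
    exact ⟨⟨_, x, hx, rfl⟩, rfl⟩

theorem Sm.mono (h : Sm τ U V) (h1 : U' ≤ U) (h2 : U' ⊓ V ≤ V') : Sm τ U' V' :=
  Sm.of_map (V.mkQ.restrict (p := U') (q := U.map V.mkQ) fun x hx => ⟨x, h1 hx, rfl⟩) h.1
    (fun t x => Subtype.ext (mkQ_eq_zero.2 (h.2 t (h1 x.2))))
    fun x hx => h2 ⟨x.2, mkQ_eq_zero.1 (congrArg Subtype.val hx)⟩

theorem Sm.mono' (h : Sm τ U V) (h1 : U' ≤ U) (h2 : V ≤ V') : Sm τ U' V' :=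
  h.mono h1 (inf_le_right.trans h2)

theorem Sm.trans (h1 : Sm τ U V) (h2 : Sm τ (U ⊓ V) W) : Sm τ U W := by
  refine ⟨?_, fun t x hx => h2.2 t ⟨hx, h1.2 t hx⟩⟩
  have h3 : Sm τ U (U ⊓ V ⊔ W) := h1.mono le_rfl le_sup_left
  refine fl_of_ex (Submodule.inclusion (Submodule.map_mono (inf_le_left : U ⊓ V ≤ U)))
    ((W.mapQ (U ⊓ V ⊔ W) LinearMap.id fun x hx => Submodule.mem_sup_right hx).restrict
      (p := U.map W.mkQ) (q := U.map (U ⊓ V ⊔ W).mkQ) ?_) ?_ h2.1 h3.1
  · rintro _ ⟨x, hx, rfl⟩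
    exact ⟨x, hx, rfl⟩
  · rintro ⟨_, x, hx, rfl⟩ h
    have h4 : x ∈ U ⊓ V ⊔ W := mkQ_eq_zero.1 (congrArg Subtype.val h)
    obtain ⟨a, ha, b, hb, rfl⟩ := Submodule.mem_sup.1 h4
    refine ⟨⟨W.mkQ a, a, ha, rfl⟩, Subtype.ext ?_⟩
    change W.mkQ a = W.mkQ (a + b)
    rw [map_add, mkQ_eq_zero.2 hb, add_zero]

theorem Sm.trans' (h1 : Sm τ U V) (h2 : Sm τ V W) : Sm τ U W :=
  h1.trans (h2.mono' inf_le_right le_rfl)

theorem Sm.sup (h1 : Sm τ U W) (h2 : Sm τ V W) : Sm τ (U ⊔ V) W := by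
  have h3 : Sm τ (U ⊔ V) (V ⊔ W) := by
    refine ⟨?_, fun t => sup_le ((h1.2 t).trans le_sup_right) le_sup_left⟩
    have : (U ⊔ V).map (V ⊔ W).mkQ = U.map (V ⊔ W).mkQ := by
      rw [Submodule.map_sup, sup_eq_left]
      rintro _ ⟨x, hx, rfl⟩
      rw [mkQ_eq_zero.2 (Submodule.mem_sup_left hx)]
      exact Submodule.zero_mem _
    rw [this]
    exact (h1.mono' le_rfl le_sup_right).1
  refine h3.trans' ⟨?_, fun t => sup_le (h2.2 t) le_rfl⟩
  have : (V ⊔ W).map W.mkQ = V.map W.mkQ := by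
    rw [Submodule.map_sup, sup_eq_left]
    rintro _ ⟨x, hx, rfl⟩
    rw [mkQ_eq_zero.2 hx]
    exact Submodule.zero_mem _
  rw [this]
  exact h2.1

theorem Sm.iInf {ι : Type} [Finite ι] {U V : ι → Submodule C X} (h : ∀ i, Sm τ (U i) (V i)) :
    Sm τ (⨅ i, U i) (⨅ i, V i) := by
  classical
  have := Fintype.ofFinite ι
  have key : ∀ s : Finset ι, Sm τ (⨅ i, U i) (⨅ i ∈ s, V i) := by
    intro s
    induction s using Finset.induction_on with
    | empty => exact Sm.of_le (by simp)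
    | insert a s _ ih =>
      refine ih.trans ((h a).mono (inf_le_left.trans (iInf_le _ a)) ?_)
      rw [Finset.iInf_insert]
      exact le_inf inf_le_right (inf_le_left.trans inf_le_right)
  simpa using key Finset.univ

theorem Sm.top (h : IsFiniteLength C X) (ht : τ → Subsingleton X) : Sm τ U V :=
  Sm.of_map U.subtype h (fun t _ => (ht t).elim _ _) fun x hx => by
    rw [show (x : X) = 0 from hx]; exact V.zero_mem

theorem fl_of_ker (φ : X →ₗ[C] Y) (hφ : Function.Surjective φ) (ψ : X →ₗ[C] Z)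
    (hψ : Function.Surjective ψ) (h : ∀ x, φ x = 0 → ψ x = 0) (hY : IsFiniteLength C Y) :
    IsFiniteLength C Z := by
  refine ((φ.quotKerEquivOfSurjective hφ).symm.isFiniteLength hY).of_surjective
    (f := (LinearMap.ker φ).liftQ ψ h) fun y => ?_
  obtain ⟨x, rfl⟩ := hψ y
  exact ⟨Submodule.Quotient.mk x, rfl⟩

theorem Sm.fl_of (h : Sm τ U V) (ψ : U →ₗ[C] Z) (hψ : Function.Surjective ψ)
    (h0 : ∀ x : U, (x : X) ∈ V → ψ x = 0) : IsFiniteLength C Z := by
  refine fl_of_ker ((V.mkQ ∘ₗ U.subtype).codRestrict (U.map V.mkQ) fun x => ⟨x, x.2, rfl⟩) ?_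
    ψ hψ (fun x hx => h0 x (mkQ_eq_zero.1 (congrArg Subtype.val hx))) h.1
  rintro ⟨_, x, hx, rfl⟩
  exact ⟨⟨x, hx⟩, rfl⟩

theorem Sm.quot_top {B : Type} [Ring B] [Module B X] [SMul C B] [IsScalarTower C B X]
    {V : Submodule B X} (h : Sm τ ⊤ (V.restrictScalars C)) : IsFiniteLength C (X ⧸ V) :=
  h.fl_of (V.mkQ.restrictScalars C ∘ₗ Submodule.subtype ⊤) (fun y => by
    obtain ⟨x, rfl⟩ := V.mkQ_surjective y
    exact ⟨⟨x, trivial⟩, rfl⟩) fun x hx => (mkQ_eq_zero (V := V)).2 hx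

theorem fl_tower {B : Type} [Ring B] [Module B X] [SMul C B] [IsScalarTower C B X]
    (h : IsFiniteLength C X) : IsFiniteLength B X := by
  rw [isFiniteLength_iff_isNoetherian_isArtinian] at h ⊢
  exact ⟨isNoetherian_of_tower C h.1, isArtinian_of_tower C h.2⟩

end Sm

section Mat

variable (C : Type) [CommRing C] {B : Type} [Ring B] [Algebra C B]
  {a b c d : Type} [Fintype b] [Fintype c] [Fintype d]
  (M : Type) [AddCommGroup M] [Module B M] [Module C M] [IsScalarTower C B M]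
  {M' M'' : Type} [AddCommGroup M'] [Module B M'] [Module C M'] [IsScalarTower C B M']
  [AddCommGroup M''] [Module B M''] [Module C M''] [IsScalarTower C B M'']

/-- The action of a matrix on columns as a map over the base ring. -/
def actL (α : Matrix a b B) : (b → M) →ₗ[C] (a → M) where
  toFun := act α
  map_add' := act_add α
  map_smul' r z := by
    ext i
    simp only [act, Pi.smul_apply, RingHom.id_apply, Finset.smul_sum]
    exact Finset.sum_congr rfl fun j _ => smul_comm _ _ _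

/-- Cycles. -/
def cyc (α : Matrix a b B) : Submodule C (b → M) := LinearMap.ker (actL C M α)

/-- Boundaries. -/
def bd (α : Matrix a b B) : Submodule C (a → M) := LinearMap.range (actL C M α)

variable {M}

/-- A linear map applied to each entry of a column. -/
def cm (f : M →ₗ[B] M') (b : Type) : (b → M) →ₗ[C] (b → M') :=
  (f.restrictScalars C).compLeft b

variable {C}

theorem mem_cyc {α : Matrix a b B} {z : b → M} : z ∈ cyc C M α ↔ act α z = 0 := Iff.rfl

theorem mem_bd {α : Matrix a b B} {z : a → M} : z ∈ bd C M α ↔ ∃ w, act α w = z := Iff.rfl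

theorem act_mem_bd (α : Matrix a b B) (w : b → M) : act α w ∈ bd C M α := ⟨w, rfl⟩

theorem cm_apply (f : M →ₗ[B] M') {b : Type} (z : b → M) (i : b) : cm C f b z i = f (z i) := rfl

theorem cm_act (f : M →ₗ[B] M') (α : Matrix a b B) (z : b → M) :
    cm C f a (act α z) = act α (cm C f b z) := act_map f α z

theorem cm_cm (f : M →ₗ[B] M') (g : M' →ₗ[B] M'') {b : Type} (z : b → M) :
    cm C g b (cm C f b z) = cm C (g ∘ₗ f) b z := rfl

theorem cm_cyc (f : M →ₗ[B] M') {α : Matrix a b B} {z : b → M} (hz : z ∈ cyc C M α) :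
    cm C f b z ∈ cyc C M' α := by
  rw [mem_cyc] at hz ⊢
  rw [← cm_act, hz, map_zero]

theorem cm_bd (f : M →ₗ[B] M') {α : Matrix a b B} {z : a → M} (hz : z ∈ bd C M α) :
    cm C f a z ∈ bd C M' α := by
  obtain ⟨w, rfl⟩ := hz
  exact ⟨cm C f b w, (cm_act f α w).symm⟩

theorem bd_le_cyc {α : Matrix a b B} {β : Matrix b c B} (h : α * β = 0) :
    bd C M β ≤ cyc C M α := by
  rintro _ ⟨w, rfl⟩
  exact act_act h w

/-- Short exact sequences of modules. -/
structure SES {B : Type} [Ring B] {M M' M'' : Type} [AddCommGroup M] [Module B M]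
    [AddCommGroup M'] [Module B M'] [AddCommGroup M''] [Module B M'']
    (ι : M' →ₗ[B] M) (p : M →ₗ[B] M'') : Prop where
  inj : Function.Injective ι
  surj : Function.Surjective p
  ex : Function.Exact ι p

theorem SES.ker {B : Type} [Ring B] {M M'' : Type} [AddCommGroup M] [Module B M]
    [AddCommGroup M''] [Module B M''] {p : M →ₗ[B] M''} (hp : Function.Surjective p) :
    SES (LinearMap.ker p).subtype p :=
  ⟨Submodule.injective_subtype _, hp, LinearMap.exact_subtype_ker_map p⟩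

theorem SES.quot {B : Type} [Ring B] {M : Type} [AddCommGroup M] [Module B M]
    (N : Submodule B M) : SES N.subtype N.mkQ :=
  ⟨Submodule.injective_subtype _, N.mkQ_surjective, LinearMap.exact_subtype_mkQ N⟩

variable {ι : M' →ₗ[B] M} {p : M →ₗ[B] M''} (h : SES ι p)
include h

theorem SES.cm_inj {b : Type} {z : b → M'} (hz : cm C ι b z = 0) : z = 0 :=
  funext fun i => h.inj ((congrFun hz i).trans (map_zero ι).symm)

theorem SES.cm_surj {b : Type} (z : b → M'') : ∃ w, cm C p b w = z := by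
  choose w hw using fun i => h.surj (z i)
  exact ⟨w, funext hw⟩

theorem SES.cm_ex {b : Type} {z : b → M} (hz : cm C p b z = 0) : ∃ w, cm C ι b w = z := by
  choose w hw using fun i => (h.ex (z i)).1 (congrFun hz i)
  exact ⟨w, funext hw⟩

theorem SES.cm_zero {b : Type} (z : b → M') : cm C p b (cm C ι b z) = 0 :=
  funext fun i => h.ex.apply_apply_eq_zero (z i)

variable {τ : Prop} {α : Matrix a b B} {β : Matrix b c B} {γ : Matrix c d B}

theorem SES.connA (hβγ : β * γ = 0)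
    (H : Sm τ (cyc C M'' β) (bd C M'' γ ⊔ (cyc C M β).map (cm C p c))) :
    Sm τ ((bd C M β).comap (cm C ι b)) (bd C M' β) := by
  let S : Submodule C ((b → M') × (c → M)) :=
    LinearMap.ker (cm C ι b ∘ₗ LinearMap.fst C _ _ - actL C M β ∘ₗ LinearMap.snd C _ _)
  have hS : ∀ x, x ∈ S ↔ cm C ι b x.1 = act β x.2 := fun x => sub_eq_zero
  refine (((H.comap (cm C p c ∘ₗ LinearMap.snd C _ _)).mono (U' := S)
    (V' := (bd C M' β).comap (LinearMap.fst C _ _)) ?_ ?_).map (LinearMap.fst C _ _)).mono' ?_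
    (Submodule.map_comap_le _ _)
  · intro x hx
    change act β (cm C p c x.2) = 0
    rw [← cm_act, ← (hS x).1 hx, h.cm_zero]
  · rintro ⟨y, v⟩ ⟨hx, hx'⟩
    obtain ⟨_, ⟨w, rfl⟩, _, ⟨u, hu, rfl⟩, he⟩ := Submodule.mem_sup.1 hx'
    obtain ⟨w, rfl⟩ := h.cm_surj (C := C) w
    obtain ⟨t, ht⟩ := h.cm_ex (C := C) (z := v - act γ w - u) (by
      rw [map_sub, map_sub, cm_act, sub_sub]
      exact sub_eq_zero.2 he.symm)
    refine ⟨t, sub_eq_zero.1 (h.cm_inj (C := C) ?_)⟩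
    change cm C ι b (act β t - y) = 0
    rw [map_sub, cm_act, ht, (hS _).1 hx, act_sub, act_sub, act_act hβγ, mem_cyc.1 hu]
    simp
  · rintro y ⟨v, hv⟩
    exact ⟨(y, v), (hS _).2 hv.symm, rfl⟩

theorem SES.connB (hαβ : α * β = 0) (H1 : Sm τ (cyc C M' α) (bd C M' β))
    (H2 : Sm τ (cyc C M β) (bd C M γ)) : Sm τ (cyc C M'' β) (bd C M'' γ) := by
  let S : Submodule C ((b → M') × (c → M)) :=
    LinearMap.ker (cm C ι b ∘ₗ LinearMap.fst C _ _ - actL C M β ∘ₗ LinearMap.snd C _ _)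
  have hS : ∀ x, x ∈ S ↔ cm C ι b x.1 = act β x.2 := fun x => sub_eq_zero
  refine Sm.trans' (V := (cyc C M β).map (cm C p c)) ?_
    ((H2.map (cm C p c)).mono' le_rfl (by rintro _ ⟨z, hz, rfl⟩; exact cm_bd p hz))
  refine (((H1.comap (LinearMap.fst C _ _)).mono (U' := S)
    (V' := ((cyc C M β).map (cm C p c)).comap (cm C p c ∘ₗ LinearMap.snd C _ _)) ?_ ?_).map
    (cm C p c ∘ₗ LinearMap.snd C _ _)).mono' ?_ (Submodule.map_comap_le _ _)
  · intro x hx
    refine h.cm_inj (C := C) ?_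
    change cm C ι a (act α x.1) = 0
    rw [cm_act, (hS x).1 hx, act_act hαβ]
  · rintro ⟨y, v⟩ ⟨hx, w, hw⟩
    refine ⟨v - cm C ι c w, ?_, ?_⟩
    · change act β (v - cm C ι c w) = 0
      have hw' : act β w = y := hw
      rw [act_sub, ← cm_act, hw', (hS _).1 hx, sub_self]
    · change _ = cm C p c v
      rw [map_sub, h.cm_zero, sub_zero]
  · intro z hz
    obtain ⟨v, rfl⟩ := h.cm_surj (C := C) z
    obtain ⟨y, hy⟩ := h.cm_ex (C := C) (z := act β v) (by rw [cm_act]; exact hz)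
    exact ⟨(y, v), (hS _).2 hy, rfl⟩

omit h in
theorem mem_bd_free {e : Type} {z : b → e → B}
    (hz : ∀ k, cm C (LinearMap.proj k : (e → B) →ₗ[B] B) b z ∈ bd C B β) :
    z ∈ bd C (e → B) β := by
  choose w hw using hz
  refine ⟨fun j k => w k j, ?_⟩
  ext i k
  exact (congrFun (cm_act (C := C) (LinearMap.proj k : (e → B) →ₗ[B] B) β
    fun j k => w k j) i).trans (congrFun (hw k) i)

omit h in
/-- From the ring to free modules of finite rank. -/
theorem Sm.free (H : Sm τ (cyc C B α) (bd C B β)) (e : Type) [Finite e] :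
    Sm τ (cyc C (e → B) α) (bd C (e → B) β) :=
  (Sm.iInf fun k : e => H.comap (cm C (LinearMap.proj k : (e → B) →ₗ[B] B) b)).mono'
    (le_iInf fun _ _ hz => cm_cyc _ hz) fun _ hz => mem_bd_free ((Submodule.mem_iInf _).1 hz)

end Mat

end Pool.Agent.Lib.MP_95d09c_al
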